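import Pool.Agent.Lib.MP_3e612f_nt.PI.Defs

/-!
The carry computations for gadgets.

PROOF of `carry`. With `W = g + l`: `n = n1 + q^a z + q^(a+W) n2`, `s = s1 + q^a c + q^(a+W) s2`,
`n1, s1 < q^a`, `z = zc`, `c = sa`. `t n + s = (t n1 + s1) + q^a (t z + c) + q^(a+W) (…)`, and
`(t n1 + s1) / q^a = k ≤ t`. So `(t n + s) / q^a = k + t z + c + q^W (…)`, where
`z = z0 + q^g x`, `x = x0 + lam`. Dividing by `q^g`: `(k + t z0 + c) / q^g + t x + q^l (…)`, and
`(k + t z0 + c) / q^g = (t z0 + c) / q^g` because `(t z0 + c) % q^g + k < q^g`. Reduce mod `q^l`.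

PROOF of `ut_top`: with `X = t x + σ` and `X = q^l ω + ut`: `X / q^(l-D) = q^D ω + ut / q^(l-D)` and
`(X + t q^D) / q^(l-D) = q^D ω + (ut + t q^D) / q^(l-D)`; the left sides are equal by `tp`/`tr`.
-/

set_option autoImplicit false

namespace Pool.Agent.Lib.MP_3e612f_nt.PI

variable {q D g l H p r : ℕ} {z0 x0 : ℕ → ℕ}

theorem zc_lt (hq : 2 ≤ q) (hG : Gad q D g l H p r z0 x0) (s : ℕ) {o : ℕ × ℕ} (ho : o.2 < H) :
    zc q g l z0 x0 s o + q ^ (g + D) < q ^ (g + l) := by
  have h1 := hG.z_lt (sa q g l s o.1)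
  have h2 := hG.x_le (sa q g l s o.1)
  unfold zc
  set z := z0 (sa q g l s o.1)
  set x := x0 (sa q g l s o.1)
  have h3 : q ^ g * (x + o.2 + 1 + q ^ D) ≤ q ^ g * q ^ l :=
    Nat.mul_le_mul_left _ (by omega)
  rw [pow_add q g D, pow_add q g l]
  have h4 : q ^ g * (x + o.2 + 1 + q ^ D) = q ^ g * (x + o.2) + q ^ g + q ^ g * q ^ D := by ring
  omega

theorem Gad_div_add {b u k : ℕ} (h : u % b + k < b) : (k + u) / b = u / b := by
  have hb : 0 < b := by omega
  have e : k + u = (u % b + k) + b * (u / b) := by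
    have := Nat.mod_add_div u b
    omega
  rw [e, Nat.add_mul_div_left _ _ hb, Nat.div_eq_of_lt h, zero_add]

theorem carry (hq : 2 ≤ q) (hG : Gad q D g l H p r z0 x0) {t : ℕ} (ht : t = p ∨ t = r) (s : ℕ)
    {o : ℕ × ℕ} (ho : o.2 < H) {n : ℕ} (hn : n / q ^ o.1 % q ^ (g + l) = zc q g l z0 x0 s o) :
    (t * n + s) / q ^ (o.1 + g) % q ^ l = ut q g l z0 x0 s t o := by
  have hA : 0 < q ^ o.1 := by positivity
  have hg : 0 < q ^ g := by positivity
  have hl : 0 < q ^ l := by positivity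
  set A := q ^ o.1 with hAdef
  set c := sa q g l s o.1 with hc
  have hc' : s / A % q ^ (g + l) = c := by rw [hc]; rfl
  have hcz : (t * z0 c + c) % q ^ g + t < q ^ g := by
    rcases ht with rfl | rfl
    · exact hG.cp c
    · exact hG.cr c
  -- the two expansions
  have en : n = n % A + A * (zc q g l z0 x0 s o + q ^ (g + l) * (n / A / q ^ (g + l))) := by
    have h1 := Nat.mod_add_div n A
    have h2 := Nat.mod_add_div (n / A) (q ^ (g + l))
    rw [hn] at h2
    rw [h2]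
    omega
  have es : s = s % A + A * (c + q ^ (g + l) * (s / A / q ^ (g + l))) := by
    have h1 := Nat.mod_add_div s A
    have h2 := Nat.mod_add_div (s / A) (q ^ (g + l))
    rw [hc'] at h2
    rw [h2]
    omega
  set n1 := n % A with hn1
  set s1 := s % A with hs1
  set n2 := n / A / q ^ (g + l) with hn2
  set s2 := s / A / q ^ (g + l) with hs2
  have hn1l : n1 < A := Nat.mod_lt _ hA
  have hs1l : s1 < A := Nat.mod_lt _ hA
  set k := (t * n1 + s1) / A with hk
  have hkt : k ≤ t := by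
    rw [hk]
    apply Nat.le_of_lt_succ
    apply Nat.div_lt_of_lt_mul
    calc t * n1 + s1 < t * A + A := by
          have := Nat.mul_le_mul_left t hn1l.le
          omega
      _ = A * (t + 1) := by ring
  set x := x0 c + o.2 with hx
  have hz : zc q g l z0 x0 s o = z0 c + q ^ g * x := rfl
  have e1 : (t * n + s) / A =
      k + (t * zc q g l z0 x0 s o + c + q ^ (g + l) * (t * n2 + s2)) := by
    have : t * n + s = (t * n1 + s1) +
        A * (t * zc q g l z0 x0 s o + c + q ^ (g + l) * (t * n2 + s2)) := by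
      calc t * n + s = t * (n1 + A * (zc q g l z0 x0 s o + q ^ (g + l) * n2)) +
            (s1 + A * (c + q ^ (g + l) * s2)) := by rw [← en, ← es]
        _ = _ := by ring
    rw [this, Nat.add_mul_div_left _ _ hA]
  have e2 : (t * n + s) / q ^ (o.1 + g) =
      (t * z0 c + c) / q ^ g + t * x + q ^ l * (t * n2 + s2) := by
    rw [pow_add, ← Nat.div_div_eq_div_mul, e1, hz]
    have : k + (t * (z0 c + q ^ g * x) + c + q ^ (g + l) * (t * n2 + s2)) =
        (k + (t * z0 c + c)) + q ^ g * (t * x + q ^ l * (t * n2 + s2)) := by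
      rw [pow_add]; ring
    rw [this, Nat.add_mul_div_left _ _ hg, Gad_div_add (by omega)]
    ring
  rw [e2, Nat.add_mul_mod_self_left]
  unfold ut sg
  rw [← hc, ← hx, add_comm]

theorem ut_lt (hq : 2 ≤ q) (s t : ℕ) (o : ℕ × ℕ) : ut q g l z0 x0 s t o < q ^ l :=
  Nat.mod_lt _ (by positivity)

theorem ut_top (hq : 2 ≤ q) (hDl : D ≤ l) (hG : Gad q D g l H p r z0 x0) {t : ℕ}
    (ht : t = p ∨ t = r) (s : ℕ) {o : ℕ × ℕ} (ho : o.2 < H) :
    (ut q g l z0 x0 s t o + t * q ^ D) / q ^ (l - D) = ut q g l z0 x0 s t o / q ^ (l - D) := by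
  have hB : 0 < q ^ (l - D) := by positivity
  set c := sa q g l s o.1 with hc
  have key : (t * ((x0 c + o.2) + q ^ D) + sg q g t (z0 c) c) / q ^ (l - D) =
      (t * (x0 c + o.2) + sg q g t (z0 c) c) / q ^ (l - D) := by
    rcases ht with rfl | rfl
    · exact hG.tp c _ (by omega) (by omega)
    · exact hG.tr c _ (by omega) (by omega)
  have hut : ut q g l z0 x0 s t o = (t * (x0 c + o.2) + sg q g t (z0 c) c) % q ^ l := rfl
  set X := t * (x0 c + o.2) + sg q g t (z0 c) c with hX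
  have eX : X = ut q g l z0 x0 s t o + q ^ (l - D) * (q ^ D * (X / q ^ l)) := by
    have h1 := Nat.mod_add_div X (q ^ l)
    rw [← hut] at h1
    have h2 : q ^ (l - D) * (q ^ D * (X / q ^ l)) = q ^ l * (X / q ^ l) := by
      rw [← mul_assoc, ← pow_add, Nat.sub_add_cancel hDl]
    rw [h2]
    exact h1.symm
  have eY : t * ((x0 c + o.2) + q ^ D) + sg q g t (z0 c) c =
      (ut q g l z0 x0 s t o + t * q ^ D) + q ^ (l - D) * (q ^ D * (X / q ^ l)) := by
    have : t * ((x0 c + o.2) + q ^ D) + sg q g t (z0 c) c = X + t * q ^ D := by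
      rw [hX]; ring
    rw [this]
    omega
  rw [eY, Nat.add_mul_div_left _ _ hB] at key
  have key2 : X / q ^ (l - D) = ut q g l z0 x0 s t o / q ^ (l - D) + q ^ D * (X / q ^ l) := by
    conv_lhs => rw [eX, Nat.add_mul_div_left _ _ hB]
  rw [key2] at key
  omega

theorem ut_add_lt (hq : 2 ≤ q) (hDl : D ≤ l) (hG : Gad q D g l H p r z0 x0) {t : ℕ}
    (ht : t = p ∨ t = r) (s : ℕ) {o : ℕ × ℕ} (ho : o.2 < H) :
    ut q g l z0 x0 s t o + t * q ^ D < q ^ l := by
  have hB : 0 < q ^ (l - D) := by positivity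
  have h1 := ut_top hq hDl hG ht s ho
  have h2 := ut_lt (g := g) (l := l) (z0 := z0) (x0 := x0) hq s t o
  have h3 : q ^ l = q ^ D * q ^ (l - D) := by
    rw [← pow_add, Nat.add_sub_cancel' hDl]
  rw [h3] at h2 ⊢
  rw [← Nat.div_lt_iff_lt_mul hB] at h2 ⊢
  rw [h1]
  exact h2

/-- the second content of a block, as a residue -/
theorem ut_add (hq : 2 ≤ q) (hDl : D ≤ l) (hG : Gad q D g l H p r z0 x0) {t : ℕ}
    (ht : t = p ∨ t = r) (s : ℕ) {o : ℕ × ℕ} (ho : o.2 < H) :
    ut q g l z0 x0 s t o + t * q ^ D =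
      (t * (x0 (sa q g l s o.1) + (o.2 + q ^ D)) +
        sg q g t (z0 (sa q g l s o.1)) (sa q g l s o.1)) % q ^ l := by
  have h1 := ut_add_lt hq hDl hG ht s ho
  have h2 : t * (x0 (sa q g l s o.1) + (o.2 + q ^ D)) +
      sg q g t (z0 (sa q g l s o.1)) (sa q g l s o.1) =
      (t * (x0 (sa q g l s o.1) + o.2) +
        sg q g t (z0 (sa q g l s o.1)) (sa q g l s o.1)) + t * q ^ D := by ring
  rw [h2, ← Nat.mod_add_mod]
  exact (Nat.mod_eq_of_lt h1).symm

end Pool.Agent.Lib.MP_3e612f_nt.PI
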