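import Pool.Agent.Lib.MP_3e612f_nt.PI.Defs

/-!
Locality of differences.

The block of `N` at `A` is `N / q^A % q^l`. It is changed by adding `x * q^(A+D)`; the hypothesis
`hu` says that neither the `D` top digits of the block nor anything above it changes.

PROOFS. `wd_in`: `N / q^i % q^(D+1)` only reads digits of the block. `wd_out`: if `i < A` then
`i + D + 1 ≤ A + D` and `N + x q^(A+D) ≡ N mod q^(A+D)`; if `i + D ≥ A + l` then `i ≥ A + l - D` and
`(N + x q^(A+D)) / q^(A+l-D) = N / q^(A+l-D)` (by `hu`: `N / q^(A+l-D)` is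
`q^D (N / q^(A+l)) + u / q^(l-D)`). `block_add`: `u + x q^D < q^l` follows from `hu`, since
`(u + x q^D) / q^(l-D) = u / q^(l-D) < q^D`.
-/

set_option autoImplicit false

namespace Pool.Agent.Lib.MP_3e612f_nt.PI

theorem wd_in {q D l A i N : ℕ} (hq : 2 ≤ q) (hA : A ≤ i) (hi : i + D < A + l) :
    wd q D i N = wd q D (i - A) (N / q ^ A % q ^ l) := by
  obtain ⟨j, rfl⟩ := Nat.exists_eq_add_of_le hA
  obtain ⟨e, rfl⟩ : ∃ e, l = j + (D + 1 + e) := ⟨l - (j + (D + 1)), by omega⟩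
  have h1 : A + j - A = j := by omega
  unfold wd
  rw [h1, pow_add q j (D + 1 + e), Nat.mod_mul_right_div_self, Nat.div_div_eq_div_mul,
    ← pow_add, Nat.mod_mod_of_dvd _ (pow_dvd_pow q (Nat.le_add_right (D + 1) e))]

private theorem LL_shift {q : ℕ} (hq : 2 ≤ q) (D A N x : ℕ) :
    (N + x * q ^ (A + D)) / q ^ A = N / q ^ A + x * q ^ D := by
  have h : x * q ^ (A + D) = q ^ A * (x * q ^ D) := by rw [pow_add]; ring
  rw [h, Nat.add_mul_div_left _ _ (Nat.pow_pos (by omega))]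

private theorem LL_high {q D l A N x : ℕ} (hq : 2 ≤ q) (hDl : D ≤ l)
    (hu : (N / q ^ A % q ^ l + x * q ^ D) / q ^ (l - D) = N / q ^ A % q ^ l / q ^ (l - D)) :
    (N + x * q ^ (A + D)) / q ^ (A + (l - D)) = N / q ^ (A + (l - D)) := by
  rw [pow_add q A (l - D), ← Nat.div_div_eq_div_mul, ← Nat.div_div_eq_div_mul, LL_shift hq]
  generalize hM : N / q ^ A = M at hu ⊢
  have hpos : 0 < q ^ (l - D) := Nat.pow_pos (by omega)
  have hl : q ^ l = q ^ (l - D) * q ^ D := by rw [← pow_add]; congr 1; omega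
  have h1 : M + x * q ^ D = M % q ^ l + x * q ^ D + q ^ (l - D) * (q ^ D * (M / q ^ l)) := by
    have := Nat.mod_add_div M (q ^ l)
    rw [← mul_assoc, ← hl]
    omega
  have h2 : M = M % q ^ l + q ^ (l - D) * (q ^ D * (M / q ^ l)) := by
    have := Nat.mod_add_div M (q ^ l)
    rw [← mul_assoc, ← hl]
    omega
  rw [h1, Nat.add_mul_div_left _ _ hpos, hu]
  conv_rhs => rw [h2]
  rw [Nat.add_mul_div_left _ _ hpos]

theorem wd_out {q D l A i N x : ℕ} (hq : 2 ≤ q) (hDl : D ≤ l)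
    (hu : (N / q ^ A % q ^ l + x * q ^ D) / q ^ (l - D) = N / q ^ A % q ^ l / q ^ (l - D))
    (hi : ¬ (A ≤ i ∧ i + D < A + l)) :
    wd q D i (N + x * q ^ (A + D)) = wd q D i N := by
  unfold wd
  rcases Nat.lt_or_ge i A with h | h
  · obtain ⟨e, rfl⟩ : ∃ e, A = i + 1 + e := ⟨A - (i + 1), by omega⟩
    have h1 : x * q ^ (i + 1 + e + D) = q ^ i * (q ^ (D + 1) * (x * q ^ e)) := by
      have : i + 1 + e + D = i + (D + 1) + e := by omega
      rw [this, pow_add, pow_add]; ring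
    rw [h1, Nat.add_mul_div_left _ _ (Nat.pow_pos (by omega)), Nat.add_mul_mod_self_left]
  · have h2 : A + l ≤ i + D := by
      by_contra h3
      exact hi ⟨h, by omega⟩
    obtain ⟨e, rfl⟩ : ∃ e, i = A + (l - D) + e := ⟨i - (A + (l - D)), by omega⟩
    rw [pow_add q (A + (l - D)) e, ← Nat.div_div_eq_div_mul, ← Nat.div_div_eq_div_mul,
      LL_high hq hDl hu]

theorem block_add {q D l A N x : ℕ} (hq : 2 ≤ q) (hDl : D ≤ l)
    (hu : (N / q ^ A % q ^ l + x * q ^ D) / q ^ (l - D) = N / q ^ A % q ^ l / q ^ (l - D)) :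
    N / q ^ A % q ^ l + x * q ^ D < q ^ l ∧
    (N + x * q ^ (A + D)) / q ^ A % q ^ l = N / q ^ A % q ^ l + x * q ^ D := by
  have hl : q ^ l = q ^ D * q ^ (l - D) := by rw [← pow_add]; congr 1; omega
  have hpos : 0 < q ^ (l - D) := Nat.pow_pos (by omega)
  have hposl : 0 < q ^ l := Nat.pow_pos (by omega)
  have h1 : N / q ^ A % q ^ l / q ^ (l - D) < q ^ D := by
    rw [Nat.div_lt_iff_lt_mul hpos, ← hl]
    exact Nat.mod_lt _ hposl
  have h2 : N / q ^ A % q ^ l + x * q ^ D < q ^ l := by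
    rw [← hu, Nat.div_lt_iff_lt_mul hpos, ← hl] at h1
    exact h1
  refine ⟨h2, ?_⟩
  rw [LL_shift hq, ← Nat.mod_add_mod, Nat.mod_eq_of_lt h2]

end Pool.Agent.Lib.MP_3e612f_nt.PI
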