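import Pool.Agent.Lib.MP_3e612f_nt.PI.Defs

/-!
Closure properties of phases without interactions.

PROOFS: extend by zero to the larger `L`; `wd q D i n = wd q D' i n % q^(D+1)` for `D ≤ D'`.
-/

set_option autoImplicit false

namespace Pool.Agent.Lib.MP_3e612f_nt.PI

open Finset

section
variable {G : Type} [AddCommGroup G]

theorem Lc_ext {q D L M : ℕ} (hLM : L ≤ M) (c : ℕ → ℕ → G) :
    loc q D L c = loc q D M (fun i x => if i < L then c i x else 0) := by
  funext n
  unfold loc
  rw [← Finset.sum_subset (Finset.range_mono hLM)]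
  · refine Finset.sum_congr rfl fun i hi => ?_
    change _ = if i < L then c i (wd q D i n) else 0
    rw [if_pos (Finset.mem_range.1 hi)]
  · intro i _ hi
    change (if i < L then c i (wd q D i n) else 0) = 0
    rw [if_neg (fun h => hi (Finset.mem_range.2 h))]

theorem IsLoc.add {q D : ℕ} {f h : ℕ → G} (hf : IsLoc q D f) (hh : IsLoc q D h) :
    IsLoc q D (fun n => f n + h n) := by
  obtain ⟨L, c, rfl⟩ := hf
  obtain ⟨L', c', rfl⟩ := hh
  rw [Lc_ext (le_max_left L L') c, Lc_ext (le_max_right L L') c']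
  refine ⟨max L L', fun i x => (if i < L then c i x else 0) + (if i < L' then c' i x else 0), ?_⟩
  funext n
  simp only [loc, Finset.sum_add_distrib]

theorem IsLoc.sum {q D : ℕ} {ι : Type} (S : Finset ι) {f : ι → ℕ → G}
    (hf : ∀ i ∈ S, IsLoc q D (f i)) : IsLoc q D (fun n => ∑ i ∈ S, f i n) := by
  classical
  induction S using Finset.induction_on with
  | empty =>
    refine ⟨0, fun _ _ => 0, ?_⟩
    funext n
    simp [loc]
  | insert a S ha ih =>
    have h1 : IsLoc q D (fun n => f a n + ∑ i ∈ S, f i n) :=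
      IsLoc.add (hf a (Finset.mem_insert_self a S))
        (ih fun i hi => hf i (Finset.mem_insert_of_mem hi))
    have h2 : (fun n => ∑ i ∈ insert a S, f i n) = fun n => f a n + ∑ i ∈ S, f i n := by
      funext n
      rw [Finset.sum_insert ha]
    rw [h2]
    exact h1

theorem IsLoc.map {q D : ℕ} {G' : Type} [AddCommGroup G'] (φ : G →+ G') {f : ℕ → G}
    (hf : IsLoc q D f) : IsLoc q D (fun n => φ (f n)) := by
  obtain ⟨L, c, rfl⟩ := hf
  refine ⟨L, fun i x => φ (c i x), ?_⟩
  funext n
  simp only [loc, map_sum]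

theorem IsLoc.mono {q D D' : ℕ} (hq : 2 ≤ q) (hD : D ≤ D') {f : ℕ → G} (hf : IsLoc q D f) :
    IsLoc q D' f := by
  obtain ⟨L, c, rfl⟩ := hf
  refine ⟨L, fun i x => c i (x % q ^ (D + 1)), ?_⟩
  funext n
  unfold loc
  refine Finset.sum_congr rfl fun i _ => ?_
  change c i (wd q D i n) = c i (wd q D' i n % q ^ (D + 1))
  unfold wd
  rw [Nat.mod_mod_of_dvd _ (Nat.pow_dvd_pow q (by omega))]

end

end Pool.Agent.Lib.MP_3e612f_nt.PI
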