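import Pool.Agent.Lib.MP_3e612f_nt.PI.Defs

/-!
Fourier expansion on `(ZMod M)^ι`.

PROOF: `a t = M^(-|ι|) ∑_y φ y * ee (-∑_k t k * y k)`; orthogonality
`∑_t ee (∑_k t k * (y k - y' k)) = M^|ι|` if `y = y'`, and `0` otherwise (product over `k`;
`ZMod.isPrimitive_stdAddChar`, `AddChar.sum_mulShift`).
-/

set_option autoImplicit false

namespace Pool.Agent.Lib.MP_3e612f_nt.PI

open Finset

theorem Fou_sum1 (M : ℕ) [NeZero M] (z : ZMod M) :
    ∑ x : ZMod M, ee (x * z) = if z = 0 then (M : ℂ) else 0 := by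
  have h := AddChar.sum_mulShift (R := ZMod M) (R' := ℂ) z (ZMod.isPrimitive_stdAddChar M)
  rw [ZMod.card] at h
  exact_mod_cast h

theorem Fou_norm {M : ℕ} [NeZero M] (x : ZMod M) : ‖ee x‖ = 1 := AddChar.norm_apply _ x

theorem Fou_prod {ι : Type} [Fintype ι] (M : ℕ) [NeZero M] (z : ι → ZMod M) :
    ee (∑ k, z k) = ∏ k, ee (z k) := by
  classical
  unfold ee
  induction (univ : Finset ι) using Finset.induction_on with
  | empty => simp
  | insert a s ha ih => rw [sum_insert ha, prod_insert ha, AddChar.map_add_eq_mul, ih]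

theorem Fou_sum {ι : Type} [Fintype ι] [DecidableEq ι] (M : ℕ) [NeZero M] (z : ι → ZMod M) :
    ∑ t : ι → ZMod M, ee (∑ k, t k * z k) = if z = 0 then (M : ℂ) ^ Fintype.card ι else 0 := by
  have h1 : ∀ t : ι → ZMod M, ee (∑ k, t k * z k) = ∏ k, ee (t k * z k) := fun t => Fou_prod M _
  simp only [h1]
  have h2 : ∑ t : ι → ZMod M, ∏ k, ee (t k * z k) = ∏ k, ∑ x : ZMod M, ee (x * z k) := by
    rw [Finset.prod_univ_sum]
    rfl
  rw [h2]
  by_cases hz : z = 0
  · rw [if_pos hz]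
    subst hz
    rw [Finset.prod_congr rfl (fun k _ => Fou_sum1 M _)]
    simp
  · rw [if_neg hz]
    obtain ⟨k, hk⟩ := Function.ne_iff.1 hz
    apply Finset.prod_eq_zero (mem_univ k)
    rw [Fou_sum1, if_neg (show z k ≠ 0 from hk)]

/-- Fourier expansion -/
theorem fourier_exists {ι : Type} [Fintype ι] [DecidableEq ι] (M : ℕ) [NeZero M]
    (φ : (ι → ZMod M) → ℂ) (hφ : ∀ y, ‖φ y‖ ≤ 1) :
    ∃ a : (ι → ZMod M) → ℂ, (∀ t, ‖a t‖ ≤ 1) ∧
      ∀ y, φ y = ∑ t, a t * ee (∑ k, t k * y k) := by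
  have hM : (M : ℂ) ^ Fintype.card ι ≠ 0 := pow_ne_zero _ (by exact_mod_cast NeZero.ne M)
  have hMr : (0 : ℝ) < (M : ℝ) ^ Fintype.card ι :=
    pow_pos (by exact_mod_cast Nat.pos_of_ne_zero (NeZero.ne M)) _
  refine ⟨fun t => ((M : ℂ) ^ Fintype.card ι)⁻¹ * ∑ y, φ y * ee (-∑ k, t k * y k), ?_, ?_⟩
  · intro t
    rw [norm_mul, norm_inv, norm_pow, Complex.norm_natCast]
    have h1 : ‖∑ y, φ y * ee (-∑ k, t k * y k)‖ ≤ (M : ℝ) ^ Fintype.card ι := by
      refine (norm_sum_le _ _).trans ?_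
      have h2 : ∀ y : ι → ZMod M, ‖φ y * ee (-∑ k, t k * y k)‖ ≤ 1 := by
        intro y
        rw [norm_mul, Fou_norm, mul_one]
        exact hφ y
      refine (sum_le_sum fun y _ => h2 y).trans ?_
      simp [ZMod.card]
    calc ((M : ℝ) ^ Fintype.card ι)⁻¹ * ‖∑ y, φ y * ee (-∑ k, t k * y k)‖
        ≤ ((M : ℝ) ^ Fintype.card ι)⁻¹ * (M : ℝ) ^ Fintype.card ι :=
          mul_le_mul_of_nonneg_left h1 (inv_nonneg.2 hMr.le)
      _ = 1 := inv_mul_cancel₀ hMr.ne'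
  · intro y
    have h3 : ∀ t : ι → ZMod M, ((M : ℂ) ^ Fintype.card ι)⁻¹ * (∑ y', φ y' * ee (-∑ k, t k * y' k)) *
        ee (∑ k, t k * y k) =
        ((M : ℂ) ^ Fintype.card ι)⁻¹ * ∑ y', φ y' * ee (∑ k, t k * (y k - y' k)) := by
      intro t
      rw [mul_assoc, sum_mul]
      congr 1
      refine sum_congr rfl fun y' _ => ?_
      rw [mul_assoc]
      congr 1
      have : ∑ k, t k * (y k - y' k) = -∑ k, t k * y' k + ∑ k, t k * y k := by
        simp only [mul_sub, sum_sub_distrib]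
        ring
      rw [this]
      exact (AddChar.map_add_eq_mul _ _ _).symm
    simp only [h3]
    rw [← mul_sum, sum_comm]
    have h4 : ∀ y' : ι → ZMod M, ∑ t : ι → ZMod M, φ y' * ee (∑ k, t k * (y k - y' k)) =
        φ y' * if y - y' = 0 then (M : ℂ) ^ Fintype.card ι else 0 := by
      intro y'
      rw [← mul_sum]
      congr 1
      exact Fou_sum M (y - y')
    simp only [h4, sub_eq_zero]
    rw [Finset.sum_eq_single y]
    · rw [if_pos rfl]
      field_simp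
    · intro b _ hb
      rw [if_neg (Ne.symm hb), mul_zero]
    · intro h; exact absurd (mem_univ y) h

end Pool.Agent.Lib.MP_3e612f_nt.PI
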