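import Pool.Agent.Lib.MP_3e612f_nt.PI.Defs

/-!
Split functions.

PROOF of `split_wd`: the function `u ↦ φ (wd q D i ((u % q^l) * q^A))` is split: given `b`, if
`i < A + b` the value depends only on `u % q^(b+D)` (the window reads the digits of `u` below the
position `i + D + 1 - A ≤ b + D`), otherwise only on `u / q^b`. `split_loc`: sum of such functions.

PROOF of `split_mx`. Fix `v < q^l`. Term by term in `F i j`. Let `A + l + D ≤ A'` (the case
`A' + l + D ≤ A` is similar, with the roles exchanged). For an index `i < A + l` and all `u < q^l`: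
`wd q D i (u q^A + v q^A') = wd q D i (u q^A)` and `wd q D i (v q^A') = 0`; for `i ≥ A + l`:
`wd q D i (u q^A + v q^A') = wd q D i (v q^A')` and `wd q D i (u q^A) = 0`. So if `i, j` are both
`< A + l` or both `≥ A + l`, the contribution of `F i j` to `Mx` is `0`, and if `i < A + l ≤ j` it is
`F i j (wd i (u q^A)) w - F i j 0 w - F i j (wd i (u q^A)) 0 + F i j 0 0`, `w = wd j (v q^A')`, a
function of `wd i (u q^A)`: use `split_wd`; the same if `j < A + l ≤ i`.
-/

set_option autoImplicit false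

namespace Pool.Agent.Lib.MP_3e612f_nt.PI

open Finset

variable {G : Type} [AddCommGroup G] {q D : ℕ}

theorem Split.add {f h : ℕ → G} (hf : Split q D f) (hh : Split q D h) :
    Split q D (fun u => f u + h u) := by
  intro b
  obtain ⟨A, C, hAC⟩ := hf b
  obtain ⟨A', C', hAC'⟩ := hh b
  refine ⟨fun x => A x + A' x, fun x => C x + C' x, fun u => ?_⟩
  simp only [hAC u, hAC' u]
  abel

theorem Split.sub {f h : ℕ → G} (hf : Split q D f) (hh : Split q D h) :
    Split q D (fun u => f u - h u) := by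
  intro b
  obtain ⟨A, C, hAC⟩ := hf b
  obtain ⟨A', C', hAC'⟩ := hh b
  refine ⟨fun x => A x - A' x, fun x => C x - C' x, fun u => ?_⟩
  simp only [hAC u, hAC' u]
  abel

theorem Split.zsmul {f : ℕ → G} (hf : Split q D f) (η : ℤ) : Split q D (fun u => η • f u) := by
  intro b
  obtain ⟨A, C, hAC⟩ := hf b
  refine ⟨fun x => η • A x, fun x => η • C x, fun u => ?_⟩
  show η • f u = _
  rw [hAC u, smul_add]

theorem Split.const (x : G) : Split q D (fun _ : ℕ => x) := by
  intro b
  exact ⟨fun _ => x, fun _ => 0, fun u => by simp⟩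

theorem Split.sum {ι : Type} (S : Finset ι) {f : ι → ℕ → G} (hf : ∀ i ∈ S, Split q D (f i)) :
    Split q D (fun u => ∑ i ∈ S, f i u) := by
  classical
  induction S using Finset.induction_on with
  | empty => simpa using Split.const (q := q) (D := D) (0 : G)
  | insert a S ha ih =>
    have h1 := (hf a (Finset.mem_insert_self a S)).add
      (ih fun i hi => hf i (Finset.mem_insert_of_mem hi))
    have h2 : (fun u => ∑ i ∈ insert a S, f i u) = fun u => f a u + ∑ i ∈ S, f i u := by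
      funext u
      rw [Finset.sum_insert ha]
    rw [h2]
    exact h1

private theorem Sp_wd_mod (q D i n : ℕ) : wd q D i n = n % q ^ (i + (D + 1)) / q ^ i := by
  unfold wd
  rw [pow_add q i (D + 1), Nat.mod_mul_right_div_self]

private theorem Sp_wd_congr {q D i n n' M : ℕ} (h : n % q ^ M = n' % q ^ M) (hM : i + (D + 1) ≤ M) :
    wd q D i n = wd q D i n' := by
  rw [Sp_wd_mod, Sp_wd_mod]
  have hd : q ^ (i + (D + 1)) ∣ q ^ M := pow_dvd_pow q hM
  rw [← Nat.mod_mod_of_dvd n hd, ← Nat.mod_mod_of_dvd n' hd, h]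

private theorem Sp_wd_zero (q D i : ℕ) : wd q D i 0 = 0 := by
  simp [wd]

theorem split_wd (hq : 2 ≤ q) (l A i : ℕ) (φ : ℕ → G) :
    Split q D (fun u => φ (wd q D i (u % q ^ l * q ^ A))) := by
  have hq0 : 0 < q := by omega
  intro b
  by_cases hi : i < A + b
  · refine ⟨fun a => φ (wd q D i (a % q ^ l * q ^ A)), fun _ => 0, fun u => ?_⟩
    show φ (wd q D i (u % q ^ l * q ^ A)) = φ (wd q D i (u % q ^ (b + D) % q ^ l * q ^ A)) + 0
    rw [add_zero]
    congr 1
    refine Sp_wd_congr (M := (b + D) + A) ?_ (by omega)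
    rw [pow_add, Nat.mul_mod_mul_right, Nat.mul_mod_mul_right]
    congr 1
    rcases le_total l (b + D) with h | h
    · rw [Nat.mod_mod_of_dvd u (pow_dvd_pow q h)]
    · have h1 : u % q ^ (b + D) % q ^ l = u % q ^ (b + D) :=
        Nat.mod_eq_of_lt (lt_of_lt_of_le (Nat.mod_lt _ (by positivity)) (Nat.pow_le_pow_right hq0 h))
      rw [h1, Nat.mod_mod_of_dvd u (pow_dvd_pow q h), Nat.mod_mod]
  · have hi' : A + b ≤ i := by omega
    refine ⟨fun _ => 0, fun c => φ (c % q ^ (l - b) / q ^ (i - A - b) % q ^ (D + 1)), fun u => ?_⟩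
    show φ (wd q D i (u % q ^ l * q ^ A)) =
      0 + φ (u / q ^ b % q ^ (l - b) / q ^ (i - A - b) % q ^ (D + 1))
    rw [zero_add]
    congr 1
    unfold wd
    congr 1
    obtain ⟨k, rfl⟩ : ∃ k, i = A + b + k := ⟨i - (A + b), by omega⟩
    have e1 : A + b + k - A - b = k := by omega
    have e2 : q ^ (A + b + k) = q ^ (b + k) * q ^ A := by rw [← pow_add]; congr 1; omega
    rw [e1, e2, Nat.mul_div_mul_right _ _ (by positivity), pow_add, ← Nat.div_div_eq_div_mul]
    congr 1
    rcases le_total b l with h | h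
    · obtain ⟨j, rfl⟩ : ∃ j, l = b + j := ⟨l - b, by omega⟩
      rw [pow_add, Nat.mod_mul_right_div_self, Nat.add_sub_cancel_left]
    · have e3 : l - b = 0 := by omega
      rw [e3, pow_zero, Nat.mod_one]
      exact Nat.div_eq_of_lt (lt_of_lt_of_le (Nat.mod_lt _ (by positivity))
        (Nat.pow_le_pow_right hq0 h))

theorem split_loc (hq : 2 ≤ q) (l A L : ℕ) (c : ℕ → ℕ → G) :
    Split q D (fun u => loc q D L c (u % q ^ l * q ^ A)) :=
  Split.sum (range L) fun i _ => split_wd hq l A i (c i)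

private theorem Sp_low {q D A A' l : ℕ} (hq : 2 ≤ q) (hA : A + l + D ≤ A') {u v : ℕ}
    (hu : u < q ^ l) (i : ℕ) :
    (i < A + l → wd q D i (u * q ^ A + v * q ^ A') = wd q D i (u * q ^ A) ∧
      wd q D i (v * q ^ A') = 0) ∧
    (¬ i < A + l → wd q D i (u * q ^ A + v * q ^ A') = wd q D i (v * q ^ A') ∧
      wd q D i (u * q ^ A) = 0) := by
  have hq0 : 0 < q := by omega
  constructor
  · intro hi
    constructor
    · refine Sp_wd_congr (M := A') ?_ (by omega)
      rw [Nat.add_mul_mod_self_right]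
    · rw [← Sp_wd_zero q D i]
      refine Sp_wd_congr (M := A') ?_ (by omega)
      rw [Nat.mul_mod_left, Nat.zero_mod]
  · intro hi
    have hx : u * q ^ A < q ^ (A + l) := by
      rw [pow_add, mul_comm]
      exact Nat.mul_lt_mul_of_pos_left hu (by positivity)
    obtain ⟨k, rfl⟩ : ∃ k, i = A + l + k := ⟨i - (A + l), by omega⟩
    obtain ⟨j, rfl⟩ : ∃ j, A' = A + l + j := ⟨A' - (A + l), by omega⟩
    constructor
    · unfold wd
      congr 1
      rw [pow_add q (A + l) k, ← Nat.div_div_eq_div_mul, ← Nat.div_div_eq_div_mul]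
      congr 1
      have e1 : v * q ^ (A + l + j) = q ^ (A + l) * (v * q ^ j) := by
        rw [pow_add q (A + l) j]; ring
      rw [e1, Nat.add_mul_div_left _ _ (by positivity), Nat.mul_div_cancel_left _ (by positivity),
        Nat.div_eq_of_lt hx, zero_add]
    · unfold wd
      rw [Nat.div_eq_of_lt (lt_of_lt_of_le hx (Nat.pow_le_pow_right hq0 (by omega))), Nat.zero_mod]

private theorem Sp_sep {q D A A' l : ℕ} (hq : 2 ≤ q) (hAA : A + l + D ≤ A' ∨ A' + l + D ≤ A) :
    ∃ P : ℕ → Prop, ∀ u v : ℕ, u < q ^ l → v < q ^ l → ∀ i,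
      (P i → wd q D i (u * q ^ A + v * q ^ A') = wd q D i (u * q ^ A) ∧
        wd q D i (v * q ^ A') = 0) ∧
      (¬ P i → wd q D i (u * q ^ A + v * q ^ A') = wd q D i (v * q ^ A') ∧
        wd q D i (u * q ^ A) = 0) := by
  rcases hAA with h | h
  · exact ⟨fun i => i < A + l, fun u v hu _ i => Sp_low hq h hu i⟩
  · refine ⟨fun i => ¬ i < A' + l, fun u v _ hv i => ?_⟩
    have h1 := Sp_low (D := D) (v := u) hq h hv i
    rw [add_comm (v * q ^ A') (u * q ^ A)] at h1
    refine ⟨h1.2, fun hi => h1.1 (not_not.1 hi)⟩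

/-- the contribution of one pair of windows -/
private theorem Sp_term {q D A A' l : ℕ} (hq : 2 ≤ q) (hAA : A + l + D ≤ A' ∨ A' + l + D ≤ A)
    (i j : ℕ) (F : ℕ → ℕ → G) :
    (∀ u v : ℕ, u < q ^ l → v < q ^ l →
      F (wd q D i (u * q ^ A + v * q ^ A')) (wd q D j (u * q ^ A + v * q ^ A')) -
      F (wd q D i (v * q ^ A')) (wd q D j (v * q ^ A')) -
      F (wd q D i (u * q ^ A)) (wd q D j (u * q ^ A)) + F 0 0 = 0) ∨
    (∃ k k' : ℕ, ∃ E : ℕ → ℕ → G, ∀ u v : ℕ, u < q ^ l → v < q ^ l →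
      F (wd q D i (u * q ^ A + v * q ^ A')) (wd q D j (u * q ^ A + v * q ^ A')) -
      F (wd q D i (v * q ^ A')) (wd q D j (v * q ^ A')) -
      F (wd q D i (u * q ^ A)) (wd q D j (u * q ^ A)) + F 0 0 =
      E (wd q D k (u * q ^ A)) (wd q D k' (v * q ^ A'))) := by
  obtain ⟨P, hP⟩ := Sp_sep (D := D) hq hAA
  by_cases hi : P i <;> by_cases hj : P j
  · left
    intro u v hu hv
    obtain ⟨a1, a2⟩ := (hP u v hu hv i).1 hi
    obtain ⟨b1, b2⟩ := (hP u v hu hv j).1 hj
    rw [a1, a2, b1, b2]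
    abel
  · right
    refine ⟨i, j, fun x y => F x y - F 0 y - F x 0 + F 0 0, fun u v hu hv => ?_⟩
    obtain ⟨a1, a2⟩ := (hP u v hu hv i).1 hi
    obtain ⟨b1, b2⟩ := (hP u v hu hv j).2 hj
    rw [a1, a2, b1, b2]
  · right
    refine ⟨j, i, fun x y => F y x - F y 0 - F 0 x + F 0 0, fun u v hu hv => ?_⟩
    obtain ⟨a1, a2⟩ := (hP u v hu hv i).2 hi
    obtain ⟨b1, b2⟩ := (hP u v hu hv j).1 hj
    rw [a1, a2, b1, b2]
  · left
    intro u v hu hv
    obtain ⟨a1, a2⟩ := (hP u v hu hv i).2 hi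
    obtain ⟨b1, b2⟩ := (hP u v hu hv j).2 hj
    rw [a1, a2, b1, b2]
    abel

private theorem Sp_mx_eq (q D L A A' : ℕ) (F : ℕ → ℕ → ℕ → ℕ → G) (u v : ℕ) :
    Mx q (ph q D L F) A A' u 0 v 0 = ∑ i ∈ range L, ∑ j ∈ range L,
      (F i j (wd q D i (u * q ^ A + v * q ^ A')) (wd q D j (u * q ^ A + v * q ^ A')) -
      F i j (wd q D i (v * q ^ A')) (wd q D j (v * q ^ A')) -
      F i j (wd q D i (u * q ^ A)) (wd q D j (u * q ^ A)) + F i j 0 0) := by
  unfold Mx ph
  simp only [zero_mul, zero_add, add_zero, Sp_wd_zero]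
  simp only [Finset.sum_add_distrib, Finset.sum_sub_distrib]

theorem split_mx (hq : 2 ≤ q) {l A A' : ℕ} (hAA : A + l + D ≤ A' ∨ A' + l + D ≤ A) (L : ℕ)
    (F : ℕ → ℕ → ℕ → ℕ → G) {v : ℕ} (hv : v < q ^ l) :
    Split q D (fun u => Mx q (ph q D L F) A A' (u % q ^ l) 0 v 0) := by
  have hq0 : 0 < q := by omega
  simp only [Sp_mx_eq]
  refine Split.sum _ fun i _ => Split.sum _ fun j _ => ?_
  rcases Sp_term hq hAA i j (F i j) with h | ⟨k, k', E, h⟩
  · have h1 := Split.const (q := q) (D := D) (0 : G)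
    refine cast ?_ h1
    congr 1
    funext u
    exact (h (u % q ^ l) v (Nat.mod_lt _ (by positivity)) hv).symm
  · have h1 := split_wd (D := D) hq l A k (fun x => E x (wd q D k' (v * q ^ A')))
    refine cast ?_ h1
    congr 1
    funext u
    exact (h (u % q ^ l) v (Nat.mod_lt _ (by positivity)) hv).symm

theorem split_mx' (hq : 2 ≤ q) {l A A' : ℕ} (hAA : A + l + D ≤ A' ∨ A' + l + D ≤ A) (L : ℕ)
    (F : ℕ → ℕ → ℕ → ℕ → G) {u : ℕ} (hu : u < q ^ l) :
    Split q D (fun v => Mx q (ph q D L F) A A' u 0 (v % q ^ l) 0) := by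
  have hq0 : 0 < q := by omega
  simp only [Sp_mx_eq]
  refine Split.sum _ fun i _ => Split.sum _ fun j _ => ?_
  rcases Sp_term hq hAA i j (F i j) with h | ⟨k, k', E, h⟩
  · have h1 := Split.const (q := q) (D := D) (0 : G)
    refine cast ?_ h1
    congr 1
    funext v
    exact (h u (v % q ^ l) hu (Nat.mod_lt _ (by positivity))).symm
  · have h1 := split_wd (D := D) hq l A' k' (fun x => E (wd q D k (u * q ^ A)) x)
    refine cast ?_ h1
    congr 1
    funext v
    exact (h u (v % q ^ l) hu (Nat.mod_lt _ (by positivity))).symm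

end Pool.Agent.Lib.MP_3e612f_nt.PI
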