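import Pool.Agent.Lib.MP_3e612f_nt.PI.Defs

/-!
Existence of gadgets.

PROOF of `exists_gad`. Choose `g` with `p + r < q^g`. For fixed `c` and `t ∈ {p, r}` the map
`z ↦ (t z + c) % q^g` is a bijection of `[0, q^g)` (`t` coprime to `q`), so exactly `t` values
`z < q^g` have `(t z + c) % q^g ≥ q^g - t`; as `p + r < q^g` there is `z0 c < q^g` which is good for
both. Put `H' = H + q^D` and choose `l ≥ l0`, `l ≥ D` with `(p + r) * (3 * H') ≤ q^(l-D)`. For
`t ∈ {p, r}` the function `x ↦ ⌊(t x + σ_t)/q^(l-D)⌋` is nondecreasing on `[0, 3H')` and grows by at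
most `1` in total, so it is constant on at least two of the three intervals `[iH', (i+1)H')`,
`i = 0, 1, 2`; hence one of the three intervals is good for both `t`; let `x0 c` be its left end.
`x0 c + H + q^D ≤ 3 H' ≤ q^(l-D) ≤ q^l`.
-/

set_option autoImplicit false

namespace Pool.Agent.Lib.MP_3e612f_nt.PI

/-- the residues `z < Q` with `(t z + c) % Q` among the last `t` residues: at most `t` -/
theorem GadA_bad {Q t : ℕ} (hQ : 0 < Q) (ht : t.Coprime Q) (c : ℕ) :
    ((Finset.range Q).filter (fun z => Q ≤ (t * z + c) % Q + t)).card ≤ t := by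
  have h1 : ((Finset.range Q).filter (fun z => Q ≤ (t * z + c) % Q + t)).card ≤
      (Finset.Ico (Q - t) Q).card := by
    apply Finset.card_le_card_of_injOn (fun z => (t * z + c) % Q)
    · intro z hz
      have hz' := Finset.mem_filter.1 (Finset.mem_coe.1 hz)
      have := Nat.mod_lt (t * z + c) hQ
      simp only [Finset.coe_Ico, Set.mem_Ico]
      omega
    · intro z hz w hw hzw
      have hz' := (Finset.mem_filter.1 (Finset.mem_coe.1 hz)).1
      have hw' := (Finset.mem_filter.1 (Finset.mem_coe.1 hw)).1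
      rw [Finset.mem_range] at hz' hw'
      have h2 : t * z + c ≡ t * w + c [MOD Q] := hzw
      have h3 : t * z ≡ t * w [MOD Q] := Nat.ModEq.add_right_cancel' c h2
      have h4 : z ≡ w [MOD Q] := Nat.ModEq.cancel_left_of_coprime (by
        rw [Nat.coprime_comm] at ht
        exact ht) h3
      have h5 : z % Q = w % Q := h4
      rwa [Nat.mod_eq_of_lt hz', Nat.mod_eq_of_lt hw'] at h5
  rw [Nat.card_Ico] at h1
  omega

theorem GadA_z {Q p r : ℕ} (hp : p.Coprime Q) (hr : r.Coprime Q) (hQ : p + r < Q) (c : ℕ) :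
    ∃ z, z < Q ∧ (p * z + c) % Q + p < Q ∧ (r * z + c) % Q + r < Q := by
  by_contra hcon
  push Not at hcon
  have h1 : Finset.range Q ⊆
      (Finset.range Q).filter (fun z => Q ≤ (p * z + c) % Q + p) ∪
        (Finset.range Q).filter (fun z => Q ≤ (r * z + c) % Q + r) := by
    intro z hz
    rw [Finset.mem_union, Finset.mem_filter, Finset.mem_filter]
    have h2 := hcon z (Finset.mem_range.1 hz)
    by_cases h3 : (p * z + c) % Q + p < Q
    · exact Or.inr ⟨hz, h2 h3⟩
    · exact Or.inl ⟨hz, not_lt.1 h3⟩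
  have h2 := (Finset.card_le_card h1).trans (Finset.card_union_le _ _)
  have h3 := GadA_bad (Q := Q) (by omega) hp c
  have h4 := GadA_bad (Q := Q) (by omega) hr c
  rw [Finset.card_range] at h2
  omega

/-- one of three intervals is good for two slowly growing functions -/
theorem GadA_x {Q p r M : ℕ} (hQ : 0 < Q) (hM : (p + r) * (3 * M) ≤ Q) (σ σ' : ℕ) :
    ∃ i, i < 3 ∧ (p * (i * M) + σ) / Q = (p * ((i + 1) * M) + σ) / Q ∧
      (r * (i * M) + σ') / Q = (r * ((i + 1) * M) + σ') / Q := by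
  have mono : ∀ (t s : ℕ) {x y : ℕ}, x ≤ y → (t * x + s) / Q ≤ (t * y + s) / Q := by
    intro t s x y hxy
    apply Nat.div_le_div_right
    have := Nat.mul_le_mul_left t hxy
    omega
  have tot : ∀ (t s : ℕ), t * (3 * M) ≤ Q → (t * (3 * M) + s) / Q ≤ (t * (0 * M) + s) / Q + 1 := by
    intro t s h
    have h1 : (t * (3 * M) + s) / Q ≤ (Q + s) / Q := by
      apply Nat.div_le_div_right
      omega
    rw [Nat.add_div_left _ hQ] at h1
    simpa using h1
  have hpM : p * (3 * M) ≤ Q := by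
    have : (p + r) * (3 * M) = p * (3 * M) + r * (3 * M) := by ring
    omega
  have hrM : r * (3 * M) ≤ Q := by
    have : (p + r) * (3 * M) = p * (3 * M) + r * (3 * M) := by ring
    omega
  have p01 := mono p σ (show 0 * M ≤ 1 * M by omega)
  have p12 := mono p σ (show 1 * M ≤ 2 * M by omega)
  have p23 := mono p σ (show 2 * M ≤ 3 * M by omega)
  have r01 := mono r σ' (show 0 * M ≤ 1 * M by omega)
  have r12 := mono r σ' (show 1 * M ≤ 2 * M by omega)
  have r23 := mono r σ' (show 2 * M ≤ 3 * M by omega)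
  have pt := tot p σ hpM
  have rt := tot r σ' hrM
  by_contra hcon
  push Not at hcon
  have c0 := hcon 0 (by norm_num)
  have c1 := hcon 1 (by norm_num)
  have c2 := hcon 2 (by norm_num)
  rw [show (0 + 1) = 1 by norm_num] at c0
  rw [show (1 + 1) = 2 by norm_num] at c1
  rw [show (2 + 1) = 3 by norm_num] at c2
  generalize (p * (0 * M) + σ) / Q = a0 at *
  generalize (p * (1 * M) + σ) / Q = a1 at *
  generalize (p * (2 * M) + σ) / Q = a2 at *
  generalize (p * (3 * M) + σ) / Q = a3 at *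
  generalize (r * (0 * M) + σ') / Q = b0 at *
  generalize (r * (1 * M) + σ') / Q = b1 at *
  generalize (r * (2 * M) + σ') / Q = b2 at *
  generalize (r * (3 * M) + σ') / Q = b3 at *
  omega

theorem exists_gad {q p r : ℕ} (hq : 2 ≤ q) (hp : p.Coprime q) (hr : r.Coprime q) (hp0 : 0 < p)
    (hr0 : 0 < r) (D H l0 : ℕ) :
    ∃ (g l : ℕ) (z0 x0 : ℕ → ℕ), l0 ≤ l ∧ D ≤ l ∧ Gad q D g l H p r z0 x0 := by
  classical
  obtain ⟨g, hg⟩ : ∃ g, p + r < q ^ g := ⟨p + r, Nat.lt_pow_self hq⟩
  choose z0 hz0 using fun c => GadA_z (hp.pow_right g) (hr.pow_right g) hg c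
  obtain ⟨M, hM⟩ : ∃ M, M = H + q ^ D := ⟨_, rfl⟩
  obtain ⟨l, hl⟩ : ∃ l, l = l0 + D + (p + r) * (3 * M) := ⟨_, rfl⟩
  have hlD : l - D = l0 + (p + r) * (3 * M) := by omega
  have hQ : (p + r) * (3 * M) ≤ q ^ (l - D) := by
    have h1 : (p + r) * (3 * M) < q ^ ((p + r) * (3 * M)) := Nat.lt_pow_self hq
    have h2 : q ^ ((p + r) * (3 * M)) ≤ q ^ (l - D) :=
      Nat.pow_le_pow_right (by omega) (by omega)
    omega
  have hQ0 : 0 < q ^ (l - D) := Nat.pow_pos (by omega)
  choose i hi using fun c => GadA_x (p := p) (r := r) (M := M) hQ0 hQ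
    (sg q g p (z0 c) c) (sg q g r (z0 c) c)
  have hconst : ∀ (t s j x : ℕ), (t * (j * M) + s) / q ^ (l - D) =
      (t * ((j + 1) * M) + s) / q ^ (l - D) → j * M ≤ x → x < j * M + H →
      (t * (x + q ^ D) + s) / q ^ (l - D) = (t * x + s) / q ^ (l - D) := by
    intro t s j x h1 h2 h3
    have e1 : (j + 1) * M = j * M + M := by ring
    have m : ∀ {x y : ℕ}, x ≤ y → (t * x + s) / q ^ (l - D) ≤ (t * y + s) / q ^ (l - D) := by
      intro x y hxy
      apply Nat.div_le_div_right
      have := Nat.mul_le_mul_left t hxy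
      omega
    have a1 := m h2
    have a2 := m (show x ≤ x + q ^ D by omega)
    have a3 := m (show x + q ^ D ≤ (j + 1) * M by omega)
    omega
  refine ⟨g, l, z0, fun c => i c * M, by omega, by omega, ?_⟩
  refine ⟨fun c => (hz0 c).1, fun c => (hz0 c).2.1, fun c => (hz0 c).2.2, ?_, ?_, ?_⟩
  · intro c
    have h1 : i c * M + M ≤ 3 * M := by
      have h2 : (i c + 1) * M ≤ 3 * M := Nat.mul_le_mul_right M (by have := (hi c).1; omega)
      have h3 : (i c + 1) * M = i c * M + M := by ring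
      omega
    have h2 : 3 * M ≤ (p + r) * (3 * M) := Nat.le_mul_of_pos_left _ (by omega)
    have h3 : q ^ (l - D) ≤ q ^ l := Nat.pow_le_pow_right (by omega) (by omega)
    show i c * M + H + q ^ D ≤ q ^ l
    omega
  · intro c x h1 h2
    exact hconst p _ (i c) x (hi c).2.1 h1 h2
  · intro c x h1 h2
    exact hconst r _ (i c) x (hi c).2.2 h1 h2

end Pool.Agent.Lib.MP_3e612f_nt.PI
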