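import Pool.Agent.Lib.MP_3e612f_nt.PI.Defs

/-!
Averaging over the contents of disjoint windows.

PROOF of `avg_exists`. `S v c = v - ∑_i (v / q^(a i) % q^W) q^(a i) + ∑_i c_i q^(a i)`. The windows
`[a i, a i + W)` are disjoint, so `∑_i (v / q^(a i) % q^W) q^(a i) ≤ v` and `S v c` is `v` with the
contents of the windows replaced by `c`. The identity: the map
`(v, c) ↦ (S v c, (v / q^(a i) % q^W)_i)` is an involution of `[0, q^K) × (ι → Fin (q^W))`, hence
`∑_v ∑_c Ψ (S v c) = ∑_v ∑_c Ψ v = (q^W)^|ι| ∑_v Ψ v`. (One may also construct `S` by induction on the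
finite set of windows, replacing one content at a time.)
-/

set_option autoImplicit false

namespace Pool.Agent.Lib.MP_3e612f_nt.PI

open Finset Function

/-- replace the content of one window -/
def Avg_R (q W a v x : ℕ) : ℕ := v - (v / q ^ a % q ^ W) * q ^ a + x * q ^ a

theorem Avg_content_le (q W a v : ℕ) : (v / q ^ a % q ^ W) * q ^ a ≤ v :=
  (Nat.mul_le_mul_right _ (Nat.mod_le _ _)).trans (Nat.div_mul_le_self _ _)

theorem Avg_R_eq (q W a v x : ℕ) :
    Avg_R q W a v x = v / q ^ (a + W) * q ^ (a + W) + x * q ^ a + v % q ^ a := by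
  have h1 : v / q ^ a * q ^ a + v % q ^ a = v := Nat.div_add_mod' _ _
  have h2 : v / q ^ a / q ^ W * q ^ W + v / q ^ a % q ^ W = v / q ^ a := Nat.div_add_mod' _ _
  have h3 : v / q ^ a / q ^ W = v / q ^ (a + W) := by rw [Nat.div_div_eq_div_mul, pow_add]
  rw [h3] at h2
  have h4 : v = v / q ^ (a + W) * q ^ (a + W) + (v / q ^ a % q ^ W) * q ^ a + v % q ^ a := by
    conv_lhs => rw [← h1, ← h2]
    ring
  unfold Avg_R
  generalize v / q ^ (a + W) * q ^ (a + W) = A at h4 ⊢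
  generalize (v / q ^ a % q ^ W) * q ^ a = B at h4 ⊢
  generalize v % q ^ a = C at h4 ⊢
  generalize x * q ^ a = X at h4 ⊢
  omega

theorem Avg_low_lt {q W a v x : ℕ} (hq : 2 ≤ q) (hx : x < q ^ W) :
    x * q ^ a + v % q ^ a < q ^ (a + W) := by
  have h1 : v % q ^ a < q ^ a := Nat.mod_lt _ (by positivity)
  have h2 : (x + 1) * q ^ a ≤ q ^ W * q ^ a := Nat.mul_le_mul_right _ hx
  rw [pow_add, mul_comm (q ^ a)]
  nlinarith

theorem Avg_R_div {q W a v x b : ℕ} (hq : 2 ≤ q) (hx : x < q ^ W) (hb : a + W ≤ b) :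
    Avg_R q W a v x / q ^ b = v / q ^ b := by
  have h1 : Avg_R q W a v x / q ^ (a + W) = v / q ^ (a + W) := by
    rw [Avg_R_eq, add_assoc, mul_comm, Nat.mul_add_div (by positivity),
      Nat.div_eq_of_lt (Avg_low_lt hq hx), add_zero]
  obtain ⟨d, rfl⟩ := Nat.exists_eq_add_of_le hb
  rw [pow_add, ← Nat.div_div_eq_div_mul, ← Nat.div_div_eq_div_mul, h1]

theorem Avg_R_mod {q W a v x b : ℕ} (hb : b ≤ a) :
    Avg_R q W a v x % q ^ b = v % q ^ b := by
  have hd : q ^ b ∣ q ^ a := pow_dvd_pow q hb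
  have hd2 : q ^ b ∣ q ^ (a + W) := pow_dvd_pow q (by omega)
  rw [Avg_R_eq]
  have h1 : v / q ^ (a + W) * q ^ (a + W) + x * q ^ a + v % q ^ a ≡ 0 + 0 + v % q ^ a
      [MOD q ^ b] := by
    refine Nat.ModEq.add (Nat.ModEq.add ?_ ?_) (Nat.ModEq.refl _)
    · exact (Nat.modEq_zero_iff_dvd.2 (Dvd.dvd.mul_left hd2 _))
    · exact (Nat.modEq_zero_iff_dvd.2 (Dvd.dvd.mul_left hd _))
  rw [zero_add, zero_add] at h1
  rw [h1]
  exact Nat.mod_mod_of_dvd v hd

theorem Avg_R_content {q W a v x : ℕ} (hq : 2 ≤ q) (hx : x < q ^ W) :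
    Avg_R q W a v x / q ^ a % q ^ W = x := by
  have h1 : Avg_R q W a v x = q ^ a * (v / q ^ (a + W) * q ^ W + x) + v % q ^ a := by
    rw [Avg_R_eq, pow_add]; ring
  have h2 : v % q ^ a < q ^ a := Nat.mod_lt _ (by positivity)
  rw [h1, Nat.mul_add_div (by positivity), Nat.div_eq_of_lt h2, add_zero, Nat.add_mod,
    Nat.mul_mod_left, zero_add, Nat.mod_mod, Nat.mod_eq_of_lt hx]

theorem Avg_R_other {q W a v x b : ℕ} (hq : 2 ≤ q) (hx : x < q ^ W)
    (hb : a + W ≤ b ∨ b + W ≤ a) :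
    Avg_R q W a v x / q ^ b % q ^ W = v / q ^ b % q ^ W := by
  rcases hb with hb | hb
  · rw [Avg_R_div hq hx hb]
  · have key : ∀ n : ℕ, n / q ^ b % q ^ W = n % q ^ (b + W) / q ^ b := by
      intro n
      rw [pow_add, Nat.mod_mul_right_div_self]
    rw [key, key, Avg_R_mod hb]

theorem Avg_R_lt {q W a v x K : ℕ} (hq : 2 ≤ q) (hx : x < q ^ W) (hK : a + W ≤ K)
    (hv : v < q ^ K) : Avg_R q W a v x < q ^ K := by
  have h1 := Avg_R_div (q := q) (W := W) (a := a) (v := v) (x := x) hq hx hK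
  rw [Nat.div_eq_of_lt hv] at h1
  exact (Nat.div_eq_zero_iff_lt (by positivity)).1 h1

theorem Avg_R_R {q W a v x : ℕ} (hq : 2 ≤ q) (hx : x < q ^ W) :
    Avg_R q W a (Avg_R q W a v x) (v / q ^ a % q ^ W) = v := by
  have h1 := Avg_R_content (q := q) (W := W) (a := a) (v := v) (x := x) hq hx
  have h2 := Avg_content_le q W a v
  have h3 : Avg_R q W a (Avg_R q W a v x) (v / q ^ a % q ^ W) =
      Avg_R q W a v x - x * q ^ a + (v / q ^ a % q ^ W) * q ^ a := by
    rw [Avg_R, h1]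
  rw [h3]
  unfold Avg_R
  omega

theorem Avg_single {q W a K : ℕ} (hq : 2 ≤ q) (hK : a + W ≤ K) (Ψ : ℕ → ℂ) :
    ∑ v ∈ range (q ^ K), ∑ x : Fin (q ^ W), Ψ (Avg_R q W a v x) =
      ((q ^ W : ℕ) : ℂ) * ∑ v ∈ range (q ^ K), Ψ v := by
  have h1 : ∀ v, ∑ x : Fin (q ^ W), Ψ (Avg_R q W a v x) =
      ∑ x ∈ range (q ^ W), Ψ (Avg_R q W a v x) := by
    intro v
    exact Fin.sum_univ_eq_sum_range (fun x => Ψ (Avg_R q W a v x)) (q ^ W)
  simp only [h1]
  rw [← Finset.sum_product', Finset.mul_sum]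
  have h2 : ∀ v ∈ range (q ^ K), ((q ^ W : ℕ) : ℂ) * Ψ v = ∑ _x ∈ range (q ^ W), Ψ v := by
    intro v _
    rw [Finset.sum_const, card_range, nsmul_eq_mul]
  rw [Finset.sum_congr rfl h2, ← Finset.sum_product']
  refine Finset.sum_nbij' (fun y => (Avg_R q W a y.1 y.2, y.1 / q ^ a % q ^ W))
    (fun y => (Avg_R q W a y.1 y.2, y.1 / q ^ a % q ^ W)) ?_ ?_ ?_ ?_ ?_
  · intro y hy
    rw [mem_product, mem_range, mem_range] at hy ⊢
    exact ⟨Avg_R_lt hq hy.2 hK hy.1, Nat.mod_lt _ (by positivity)⟩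
  · intro y hy
    rw [mem_product, mem_range, mem_range] at hy ⊢
    exact ⟨Avg_R_lt hq hy.2 hK hy.1, Nat.mod_lt _ (by positivity)⟩
  · intro y hy
    rw [mem_product, mem_range, mem_range] at hy
    exact Prod.ext (Avg_R_R hq hy.2) (Avg_R_content hq hy.2)
  · intro y hy
    rw [mem_product, mem_range, mem_range] at hy
    exact Prod.ext (Avg_R_R hq hy.2) (Avg_R_content hq hy.2)
  · intro y _
    rfl

/-- averaging over one coordinate -/
theorem Avg_coord {ι : Type} [Fintype ι] [DecidableEq ι] {m : ℕ} (i : ι)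
    (F : (ι → Fin m) → ℂ) :
    ((m : ℕ) : ℂ) * ∑ c, F c = ∑ c : ι → Fin m, ∑ x : Fin m, F (update c i x) := by
  classical
  rw [Finset.sum_comm]
  have h1 : ((m : ℕ) : ℂ) * ∑ c, F c = ∑ y : Fin m × (ι → Fin m), F y.2 := by
    rw [Fintype.sum_prod_type]
    show _ = ∑ _x : Fin m, ∑ c : ι → Fin m, F c
    rw [Finset.sum_const, card_univ, Fintype.card_fin, nsmul_eq_mul]
  have h2 : (∑ x : Fin m, ∑ c : ι → Fin m, F (update c i x)) =
      ∑ y : Fin m × (ι → Fin m), F (update y.2 i y.1) := by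
    rw [Fintype.sum_prod_type]
  rw [h1, h2]
  refine Finset.sum_nbij' (fun y => (y.2 i, update y.2 i y.1))
    (fun y => (y.2 i, update y.2 i y.1)) ?_ ?_ ?_ ?_ ?_
  · intro y _; exact mem_univ _
  · intro y _; exact mem_univ _
  · intro y _
    refine Prod.ext ?_ ?_
    · simp
    · simp
  · intro y _
    refine Prod.ext ?_ ?_
    · simp
    · simp
  · intro y _
    simp

theorem Avg_main (q W K : ℕ) (hq : 2 ≤ q) {ι : Type} [Fintype ι] [DecidableEq ι] (a : ι → ℕ)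
    (hsep : ∀ i j, i ≠ j → a i + W ≤ a j ∨ a j + W ≤ a i) (hK : ∀ i, a i + W ≤ K)
    (s : Finset ι) :
    ∃ S : ℕ → (ι → Fin (q ^ W)) → ℕ,
      (∀ v c, v < q ^ K → S v c < q ^ K) ∧
      (∀ v c, ∀ i ∈ s, S v c / q ^ a i % q ^ W = (c i : ℕ)) ∧
      (∀ v c, ∀ i ∉ s, S v c / q ^ a i % q ^ W = v / q ^ a i % q ^ W) ∧
      (∀ v c, ∀ i ∈ s, ∀ x : Fin (q ^ W), (c i : ℕ) ≤ x →
        S v (update c i x) = S v c + ((x : ℕ) - c i) * q ^ a i) ∧
      (∀ v c, ∀ i ∉ s, ∀ x : Fin (q ^ W), S v (update c i x) = S v c) ∧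
      ∀ Ψ : ℕ → ℂ, (((q ^ W) ^ Fintype.card ι : ℕ) : ℂ) * ∑ v ∈ range (q ^ K), Ψ v =
        ∑ v ∈ range (q ^ K), ∑ c, Ψ (S v c) := by
  classical
  induction s using Finset.induction_on with
  | empty =>
    refine ⟨fun v _ => v, fun v _ h => h, fun v c i h => absurd h (notMem_empty i),
      fun v c i _ => rfl, fun v c i h => absurd h (notMem_empty i), fun v c i _ x => rfl, ?_⟩
    intro Ψ
    simp only [Finset.sum_const, card_univ, Fintype.card_fun, Fintype.card_fin, nsmul_eq_mul]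
    rw [Finset.mul_sum]
  | @insert i0 s hi0 ih =>
    obtain ⟨S, hlt, hin, hout, hup, hind, havg⟩ := ih
    refine ⟨fun v c => Avg_R q W (a i0) (S v c) (c i0), ?_, ?_, ?_, ?_, ?_, ?_⟩
    · intro v c hv
      exact Avg_R_lt hq (c i0).2 (hK i0) (hlt v c hv)
    · intro v c i hi
      rcases mem_insert.1 hi with rfl | hi
      · exact Avg_R_content hq (c i).2
      · have hne : i0 ≠ i := fun h => hi0 (h ▸ hi)
        show Avg_R q W (a i0) (S v c) (c i0) / q ^ a i % q ^ W = (c i : ℕ)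
        rw [Avg_R_other hq (c i0).2 (hsep i0 i hne)]
        exact hin v c i hi
    · intro v c i hi
      rw [mem_insert, not_or] at hi
      show Avg_R q W (a i0) (S v c) (c i0) / q ^ a i % q ^ W = _
      rw [Avg_R_other hq (c i0).2 (hsep i0 i (Ne.symm hi.1))]
      exact hout v c i hi.2
    · intro v c i hi x hx
      show Avg_R q W (a i0) (S v (update c i x)) (update c i x i0) =
        Avg_R q W (a i0) (S v c) (c i0) + ((x : ℕ) - c i) * q ^ a i
      rcases mem_insert.1 hi with rfl | hi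
      · rw [hind v c i hi0 x, update_self]
        unfold Avg_R
        have h1 : ((x : ℕ) - c i) * q ^ a i + (c i : ℕ) * q ^ a i = (x : ℕ) * q ^ a i := by
          rw [← add_mul]
          congr 1
          omega
        omega
      · have hne : i0 ≠ i := fun h => hi0 (h ▸ hi)
        rw [update_of_ne hne]
        have h1 : S v (update c i x) / q ^ a i0 % q ^ W = S v c / q ^ a i0 % q ^ W := by
          rw [hout v _ i0 hi0, hout v _ i0 hi0]
        have h2 := Avg_content_le q W (a i0) (S v c)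
        unfold Avg_R
        rw [h1, hup v c i hi x hx]
        omega
    · intro v c i hi x
      rw [mem_insert, not_or] at hi
      show Avg_R q W (a i0) (S v (update c i x)) (update c i x i0) =
        Avg_R q W (a i0) (S v c) (c i0)
      rw [hind v c i hi.2 x, update_of_ne (Ne.symm hi.1)]
    · intro Ψ
      have hm : ((q ^ W : ℕ) : ℂ) ≠ 0 := by
        have : 0 < q ^ W := by positivity
        exact_mod_cast this.ne'
      have h1 : ∀ v, ((q ^ W : ℕ) : ℂ) * ∑ c : ι → Fin (q ^ W),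
          Ψ (Avg_R q W (a i0) (S v c) (c i0)) =
          ∑ c : ι → Fin (q ^ W), ∑ x : Fin (q ^ W), Ψ (Avg_R q W (a i0) (S v c) x) := by
        intro v
        rw [Avg_coord i0]
        refine Finset.sum_congr rfl fun c _ => Finset.sum_congr rfl fun x _ => ?_
        rw [hind v c i0 hi0 x, update_self]
      have h2 := havg (fun u => ∑ x : Fin (q ^ W), Ψ (Avg_R q W (a i0) u x))
      rw [Avg_single hq (hK i0)] at h2
      have h3 : ((q ^ W : ℕ) : ℂ) * ((((q ^ W) ^ Fintype.card ι : ℕ) : ℂ) *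
          ∑ v ∈ range (q ^ K), Ψ v) = ((q ^ W : ℕ) : ℂ) *
          ∑ v ∈ range (q ^ K), ∑ c : ι → Fin (q ^ W), Ψ (Avg_R q W (a i0) (S v c) (c i0)) := by
        have h4 : ((q ^ W : ℕ) : ℂ) *
            ∑ v ∈ range (q ^ K), ∑ c : ι → Fin (q ^ W), Ψ (Avg_R q W (a i0) (S v c) (c i0)) =
            ∑ v ∈ range (q ^ K), ∑ c : ι → Fin (q ^ W), ∑ x : Fin (q ^ W),
              Ψ (Avg_R q W (a i0) (S v c) x) := by
          rw [Finset.mul_sum]
          exact Finset.sum_congr rfl fun v _ => h1 v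
        rw [h4, ← h2]
        ring
      exact mul_left_cancel₀ hm h3

theorem avg_exists (q W K : ℕ) (hq : 2 ≤ q) {ι : Type} [Fintype ι] [DecidableEq ι] (a : ι → ℕ)
    (hsep : ∀ i j, i ≠ j → a i + W ≤ a j ∨ a j + W ≤ a i) (hK : ∀ i, a i + W ≤ K) :
    ∃ S : ℕ → (ι → Fin (q ^ W)) → ℕ,
      (∀ v c, v < q ^ K → S v c < q ^ K) ∧
      (∀ v c i, S v c / q ^ a i % q ^ W = (c i : ℕ)) ∧
      (∀ v c i (x : Fin (q ^ W)), (c i : ℕ) ≤ x →
        S v (update c i x) = S v c + ((x : ℕ) - c i) * q ^ a i) ∧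
      ∀ Ψ : ℕ → ℂ, (((q ^ W) ^ Fintype.card ι : ℕ) : ℂ) * ∑ v ∈ range (q ^ K), Ψ v =
        ∑ v ∈ range (q ^ K), ∑ c, Ψ (S v c) := by
  obtain ⟨S, h1, h2, -, h4, -, h6⟩ := Avg_main q W K hq a hsep hK univ
  exact ⟨S, h1, fun v c i => h2 v c i (mem_univ i), fun v c i x hx => h4 v c i (mem_univ i) x hx,
    h6⟩

end Pool.Agent.Lib.MP_3e612f_nt.PI
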