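import Pool.Agent.Lib.MP_3e612f_nt.PI.Defs

/-!
Product spaces: many effective coordinates make the character sum small.

PROOF of `prod_bad`. For `x : Fin k → Bool` let `rr c x` be `c` with `c i` replaced by `z' i` or `z i`,
according to `x i`, for all `i` in the set `S(c)` of the `i` with `c i ∈ {z i, z' i}`. Then
`2^k ∑_c F c = ∑_c ∑_x F (rr c x)` (involution `(c, x) ↦ (rr c x, x°)`, `x° i` = truth value of
`c i = z' i` for `i ∈ S`, and `x i` otherwise). For fixed `c` the function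
`x ↦ Φ (rr c x)` is a constant plus `∑_{i ∈ S} (if x i then d i else 0)`, its character sum has norm
`2^(k-|S|) ∏_{i ∈ S} ‖1 + ee (d i)‖ ≤ 2^k ω^|S|`, `ω < 1` with `‖1 + ee d‖ ≤ 2ω` for all `d ≠ 0`, and
`∑_c ω^|S(c)| = (Q - 2 + 2ω)^k`. (Or by induction on `k`, as is done here.)
-/

set_option autoImplicit false

namespace Pool.Agent.Lib.MP_3e612f_nt.PI

open Finset Function

theorem ProdB_ee_add {m : ℕ} [NeZero m] (x y : ZMod m) : ee (x + y) = ee x * ee y := by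
  unfold ee
  exact AddChar.map_add_eq_mul _ _ _

theorem ProdB_norm_ee {m : ℕ} [NeZero m] (x : ZMod m) : ‖ee x‖ = 1 := by
  unfold ee
  exact AddChar.norm_apply _ _

theorem ProdB_ee_ne_one {m : ℕ} [NeZero m] {x : ZMod m} (hx : x ≠ 0) : ee x ≠ 1 := by
  unfold ee
  intro h
  apply hx
  apply ZMod.injective_stdAddChar
  rw [h, AddChar.map_zero_eq_one]

theorem ProdB_norm_lt {z : ℂ} (hz : ‖z‖ = 1) (h1 : z ≠ 1) : ‖1 + z‖ < 2 := by
  have hle : ‖1 + z‖ ≤ 2 := by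
    calc ‖1 + z‖ ≤ ‖(1 : ℂ)‖ + ‖z‖ := norm_add_le _ _
      _ = 2 := by rw [hz, norm_one]; norm_num
  rcases lt_or_eq_of_le hle with h | h
  · exact h
  · exfalso
    apply h1
    have hsr : SameRay ℝ (1 : ℂ) z := by
      rw [sameRay_iff_norm_add, h, hz, norm_one]; norm_num
    have := hsr.norm_smul_eq
    rw [norm_one, hz, one_smul, one_smul] at this
    exact this

theorem ProdB_omega (m : ℕ) [NeZero m] : ∃ ω : ℝ, 0 ≤ ω ∧ ω < 1 ∧
    ∀ d : ZMod m, d ≠ 0 → ‖1 + ee d‖ ≤ 2 * ω := by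
  by_cases hne : ((univ : Finset (ZMod m)).filter (fun d => d ≠ 0)).Nonempty
  · obtain ⟨d0, hd0, hmax⟩ := Finset.exists_max_image _ (fun d : ZMod m => ‖1 + ee d‖) hne
    refine ⟨‖1 + ee d0‖ / 2, by positivity, ?_, ?_⟩
    · have := ProdB_norm_lt (ProdB_norm_ee d0) (ProdB_ee_ne_one (by simpa using hd0))
      linarith
    · intro d hd
      have := hmax d (by simpa using hd)
      linarith
  · refine ⟨0, le_refl _, by norm_num, ?_⟩
    intro d hd
    exact absurd ⟨d, by simpa using hd⟩ hne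

theorem prod_bad (m Q : ℕ) [NeZero m] (hQ : 2 ≤ Q) : ∃ θ : ℝ, 0 ≤ θ ∧ θ < 1 ∧
    ∀ (k : ℕ) (z z' : Fin k → Fin Q) (Φ : (Fin k → Fin Q) → ZMod m) (d : Fin k → ZMod m),
      (∀ i, z i ≠ z' i) →
      (∀ i c, Φ (update c i (z' i)) - Φ (update c i (z i)) = d i) → (∀ i, d i ≠ 0) →
      ‖∑ c, ee (Φ c)‖ ≤ (Q : ℝ) ^ k * θ ^ k := by
  obtain ⟨ω, hω0, hω1, hω⟩ := ProdB_omega m
  have hQ0 : (0 : ℝ) < Q := by
    have : 0 < Q := by omega
    exact_mod_cast this
  have hQ2 : (2 : ℝ) ≤ Q := by exact_mod_cast hQ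
  refine ⟨((Q : ℝ) - 2 + 2 * ω) / Q, by apply div_nonneg <;> linarith, ?_, ?_⟩
  · rw [div_lt_one hQ0]; linarith
  intro k
  rw [← mul_pow, mul_div_cancel₀ _ hQ0.ne']
  induction k with
  | zero =>
    intro z z' Φ d _ _ _
    simp [ProdB_norm_ee]
  | succ k ih =>
    intro z z' Φ d hz hΦ hd
    have hsum : ∑ c, ee (Φ c) = ∑ a : Fin Q, ∑ c : Fin k → Fin Q, ee (Φ (Fin.cons a c)) := by
      rw [← (Fin.consEquiv (fun _ : Fin (k + 1) => Fin Q)).sum_comp, Fintype.sum_prod_type]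
      rfl
    have hS : ∀ a : Fin Q, ‖∑ c : Fin k → Fin Q, ee (Φ (Fin.cons a c))‖ ≤
        ((Q : ℝ) - 2 + 2 * ω) ^ k := by
      intro a
      refine ih (fun i => z i.succ) (fun i => z' i.succ) (fun c => Φ (Fin.cons a c))
        (fun i => d i.succ) (fun i => hz _) ?_ (fun i => hd _)
      intro i c
      have := hΦ i.succ (Fin.cons a c : Fin (k + 1) → Fin Q)
      rw [← Fin.cons_update, ← Fin.cons_update] at this
      exact this
    have hz0 : (∑ c : Fin k → Fin Q, ee (Φ (Fin.cons (z' 0) c))) =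
        ee (d 0) * ∑ c : Fin k → Fin Q, ee (Φ (Fin.cons (z 0) c)) := by
      rw [mul_sum]
      apply sum_congr rfl
      intro c _
      rw [← ProdB_ee_add]
      congr 1
      have := hΦ 0 (Fin.cons (z 0) c : Fin (k + 1) → Fin Q)
      rw [Fin.update_cons_zero, Fin.update_cons_zero] at this
      rw [← this]; ring
    set T : Fin Q → ℂ := fun a => ∑ c : Fin k → Fin Q, ee (Φ (Fin.cons a c)) with hT
    have hsplit : ∑ a, T a = (T (z 0) + T (z' 0)) + ∑ a ∈ (univ.erase (z 0)).erase (z' 0), T a := by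
      rw [← Finset.add_sum_erase univ T (mem_univ (z 0)),
        ← Finset.add_sum_erase (univ.erase (z 0)) T (a := z' 0)
          (by simp [mem_erase, (hz 0).symm])]
      ring
    have hcard : (((univ : Finset (Fin Q)).erase (z 0)).erase (z' 0)).card = Q - 2 := by
      rw [card_erase_of_mem (by simp [mem_erase, (hz 0).symm]), card_erase_of_mem (mem_univ _),
        card_univ, Fintype.card_fin]
      omega
    rw [hsum]
    change ‖∑ a, T a‖ ≤ _
    rw [hsplit]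
    have h1 : ‖T (z 0) + T (z' 0)‖ ≤ 2 * ω * ((Q : ℝ) - 2 + 2 * ω) ^ k := by
      have : T (z 0) + T (z' 0) = (1 + ee (d 0)) * T (z 0) := by
        rw [show T (z' 0) = ee (d 0) * T (z 0) from hz0]; ring
      rw [this, norm_mul]
      exact mul_le_mul (hω _ (hd 0)) (hS _) (norm_nonneg _) (by linarith)
    have h2 : ‖∑ a ∈ (univ.erase (z 0)).erase (z' 0), T a‖ ≤
        ((Q : ℝ) - 2) * ((Q : ℝ) - 2 + 2 * ω) ^ k := by
      refine (norm_sum_le _ _).trans ?_
      refine (sum_le_card_nsmul _ _ _ (fun a _ => hS a)).trans ?_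
      rw [hcard, nsmul_eq_mul, Nat.cast_sub hQ]
      norm_num
    calc ‖(T (z 0) + T (z' 0)) + ∑ a ∈ (univ.erase (z 0)).erase (z' 0), T a‖
        ≤ ‖T (z 0) + T (z' 0)‖ + ‖∑ a ∈ (univ.erase (z 0)).erase (z' 0), T a‖ := norm_add_le _ _
      _ ≤ 2 * ω * ((Q : ℝ) - 2 + 2 * ω) ^ k + ((Q : ℝ) - 2) * ((Q : ℝ) - 2 + 2 * ω) ^ k :=
        add_le_add h1 h2
      _ = ((Q : ℝ) - 2 + 2 * ω) ^ (k + 1) := by ring

end Pool.Agent.Lib.MP_3e612f_nt.PI
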