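import Pool.Agent.Lib.MP_3e612f_nt.PI.CubeL

/-!
Product spaces: a long ladder (or many effective coordinates) makes the character sum small.

PROOF of `cube_md` (for functions on a cube with constant mixed differences): for
`x, x', y : Fin k → Bool` let `Ψ x x' y` be a function such that switching two different coordinates
(of the `3k` coordinates) from `0` to `1`, the others being fixed, has the constant mixed difference `b i j`;
then `Ψ x x' y = Ψ x x' 0 + (Ψ 0 0 y - Ψ 0 0 0) + ∑_{i ∈ (x,x'), j ∈ y} b i j`. Proof: switch on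
the coordinates of `(x,x')` one after the other, and for each of them the coordinates of `y` one after
the other.

PROOF of `prod_ladder`. Call `t : Fin k` active for `c` if `c (t, i) ∈ {z (t,i), z' (t,i)}` for
`i = 0, 1, 2`. For `x : Fin k × Fin 3 → Bool` let `rr c x` be `c` with `c (t, i)` replaced by
`z' (t,i)` or `z (t,i)`, according to `x (t,i)`, for all active `t` and all `i`. Then
`8^k ∑_c F c = ∑_c ∑_x F (rr c x)` for every `F`: the map `(c, x) ↦ (rr c x, x°)`, where
`x° (t,i) = ` (the truth value of `c (t,i) = z' (t,i)`) for active `t` and `x° (t,i) = x (t,i)`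
otherwise, is an involution of the set of pairs `(c, x)`. For fixed `c`, with set `S` of active indices, the function
`x ↦ Φ (rr c x)` has the constant mixed differences `b i j` if the indices of `i` and `j` are both
active, and `0` otherwise, so `cube_md` and `cube_ladder` (with `x = x (·, 0)`,
`x' = x (·, 1)`, `y = x (·, 2)`, and `b, b'` replaced by `0` for inactive indices; the condition
`t < s → b s t = b' s t` holds by the hypothesis) give
`‖∑_x ee (Φ (rr c x))‖ ≤ 8^k θ₀^|S|`. Finally `∑_c θ₀^|S(c)| = (Q³ - 8 + 8 θ₀)^k`, a product over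
`t`, and `θ = (Q³ - 8 + 8 θ₀)/Q³` has the required properties.
-/

set_option autoImplicit false

namespace Pool.Agent.Lib.MP_3e612f_nt.PI

open Finset Function

private theorem ProdL_md {ι κ G : Type} [DecidableEq ι] [DecidableEq κ] [AddCommGroup G]
    (f : Finset ι → Finset κ → G) (B : ι → κ → G)
    (h : ∀ U V i j, i ∉ U → j ∉ V →
      f (insert i U) (insert j V) - f U (insert j V) - f (insert i U) V + f U V = B i j)
    (U : Finset ι) (V : Finset κ) :
    f U V = f U ∅ + (f ∅ V - f ∅ ∅) + ∑ i ∈ U, ∑ j ∈ V, B i j := by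
  have h1 : ∀ (U : Finset ι) (i : ι), i ∉ U → ∀ V : Finset κ,
      f (insert i U) V - f U V = f (insert i U) ∅ - f U ∅ + ∑ j ∈ V, B i j := by
    intro U i hi V
    induction V using Finset.induction_on with
    | empty => simp
    | insert j V hj ih =>
      rw [Finset.sum_insert hj]
      have := h U V i j hi hj
      have e : f (insert i U) (insert j V) - f U (insert j V) =
          B i j + (f (insert i U) V - f U V) := by
        rw [← this]; abel
      rw [e, ih]; abel
  induction U using Finset.induction_on with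
  | empty => simp
  | insert i U hi ih =>
    rw [Finset.sum_insert hi]
    have := h1 U i hi V
    have e : f (insert i U) V = (f (insert i U) ∅ - f U ∅ + ∑ j ∈ V, B i j) + f U V := by
      rw [← this]; abel
    rw [e, ih]; abel

section
variable {k Q : ℕ}

/-- active indices -/
private def ProdL_S (z z' c : Fin k × Fin 3 → Fin Q) : Finset (Fin k) :=
  univ.filter fun t => ∀ i : Fin 3, c (t, i) = z (t, i) ∨ c (t, i) = z' (t, i)

private theorem ProdL_mem_S {z z' c : Fin k × Fin 3 → Fin Q} {t : Fin k} :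
    t ∈ ProdL_S z z' c ↔ ∀ i : Fin 3, c (t, i) = z (t, i) ∨ c (t, i) = z' (t, i) := by
  simp only [ProdL_S, mem_filter, mem_univ, true_and]

/-- replacement of the active coordinates -/
private def ProdL_r (z z' c : Fin k × Fin 3 → Fin Q) (x : Fin k × Fin 3 → Bool) :
    Fin k × Fin 3 → Fin Q :=
  fun i => if i.1 ∈ ProdL_S z z' c then (if x i = true then z' i else z i) else c i

private def ProdL_x (z z' c : Fin k × Fin 3 → Fin Q) (x : Fin k × Fin 3 → Bool) :
    Fin k × Fin 3 → Bool :=
  fun i => if i.1 ∈ ProdL_S z z' c then decide (c i = z' i) else x i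

private theorem ProdL_r_pos {z z' c : Fin k × Fin 3 → Fin Q} {x : Fin k × Fin 3 → Bool}
    {i : Fin k × Fin 3} (h : i.1 ∈ ProdL_S z z' c) :
    ProdL_r z z' c x i = if x i = true then z' i else z i := if_pos h

private theorem ProdL_r_neg {z z' c : Fin k × Fin 3 → Fin Q} {x : Fin k × Fin 3 → Bool}
    {i : Fin k × Fin 3} (h : i.1 ∉ ProdL_S z z' c) : ProdL_r z z' c x i = c i := if_neg h

private theorem ProdL_x_pos {z z' c : Fin k × Fin 3 → Fin Q} {x : Fin k × Fin 3 → Bool}
    {i : Fin k × Fin 3} (h : i.1 ∈ ProdL_S z z' c) :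
    ProdL_x z z' c x i = decide (c i = z' i) := if_pos h

private theorem ProdL_x_neg {z z' c : Fin k × Fin 3 → Fin Q} {x : Fin k × Fin 3 → Bool}
    {i : Fin k × Fin 3} (h : i.1 ∉ ProdL_S z z' c) : ProdL_x z z' c x i = x i := if_neg h

private theorem ProdL_S_r (z z' c : Fin k × Fin 3 → Fin Q) (x : Fin k × Fin 3 → Bool) :
    ProdL_S z z' (ProdL_r z z' c x) = ProdL_S z z' c := by
  ext t
  constructor
  · intro h
    by_contra hn
    apply hn
    rw [ProdL_mem_S] at h ⊢
    intro i
    have h1 := h i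
    have h2 : ProdL_r z z' c x (t, i) = c (t, i) := ProdL_r_neg hn
    rw [h2] at h1
    exact h1
  · intro h
    rw [ProdL_mem_S]
    intro i
    have h2 : ProdL_r z z' c x (t, i) = if x (t, i) = true then z' (t, i) else z (t, i) :=
      ProdL_r_pos h
    rw [h2]
    split_ifs
    · right; rfl
    · left; rfl

private theorem ProdL_inv {z z' : Fin k × Fin 3 → Fin Q} (hz : ∀ i, z i ≠ z' i) :
    Function.Involutive (fun p : (Fin k × Fin 3 → Fin Q) × (Fin k × Fin 3 → Bool) =>
      (ProdL_r z z' p.1 p.2, ProdL_x z z' p.1 p.2)) := by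
  rintro ⟨c, x⟩
  refine Prod.ext ?_ ?_
  · funext i
    change ProdL_r z z' (ProdL_r z z' c x) (ProdL_x z z' c x) i = c i
    by_cases h : i.1 ∈ ProdL_S z z' c
    · have h' : i.1 ∈ ProdL_S z z' (ProdL_r z z' c x) := by rw [ProdL_S_r]; exact h
      rw [ProdL_r_pos h', ProdL_x_pos h]
      have h3 := ProdL_mem_S.1 h i.2
      rcases h3 with h3 | h3
      · have h4 : c i = z i := h3
        rw [h4]
        have : ¬ (decide (z i = z' i) = true) := by simpa using hz i
        rw [if_neg this]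
      · have h4 : c i = z' i := h3
        rw [h4]
        simp
    · have h' : i.1 ∉ ProdL_S z z' (ProdL_r z z' c x) := by rw [ProdL_S_r]; exact h
      rw [ProdL_r_neg h', ProdL_r_neg h]
  · funext i
    change ProdL_x z z' (ProdL_r z z' c x) (ProdL_x z z' c x) i = x i
    by_cases h : i.1 ∈ ProdL_S z z' c
    · have h' : i.1 ∈ ProdL_S z z' (ProdL_r z z' c x) := by rw [ProdL_S_r]; exact h
      rw [ProdL_x_pos h', ProdL_r_pos h]
      cases hx : x i
      · have := hz i
        simpa using this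
      · simp
    · have h' : i.1 ∉ ProdL_S z z' (ProdL_r z z' c x) := by rw [ProdL_S_r]; exact h
      rw [ProdL_x_neg h', ProdL_x_neg h]

private theorem ProdL_avg {z z' : Fin k × Fin 3 → Fin Q} (hz : ∀ i, z i ≠ z' i)
    (F : (Fin k × Fin 3 → Fin Q) → ℂ) :
    (8 : ℂ) ^ k * ∑ c, F c = ∑ c, ∑ x, F (ProdL_r z z' c x) := by
  have h1 := Equiv.sum_comp (ProdL_inv hz).toPerm
    (fun p : (Fin k × Fin 3 → Fin Q) × (Fin k × Fin 3 → Bool) => F p.1)
  rw [Fintype.sum_prod_type, Fintype.sum_prod_type] at h1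
  have h2 : ∑ c, ∑ x, F (ProdL_r z z' c x) =
      ∑ c : Fin k × Fin 3 → Fin Q, ∑ _x : Fin k × Fin 3 → Bool, F c := h1
  rw [h2]
  simp only [sum_const, card_univ, Fintype.card_fun, Fintype.card_bool, Fintype.card_prod,
    Fintype.card_fin, nsmul_eq_mul, ← mul_sum]
  congr 1
  push_cast
  rw [mul_comm k 3, pow_mul]
  norm_num

/-- combine three vectors -/
private def ProdL_X (x x' y : Fin k → Bool) : Fin k × Fin 3 → Bool :=
  fun i => if i.2 = 0 then x i.1 else if i.2 = 1 then x' i.1 else y i.1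

private def ProdL_e : (Fin k × Fin 3 → Bool) ≃ (Fin k → Bool) × (Fin k → Bool) × (Fin k → Bool) where
  toFun x := (fun s => x (s, 0), fun s => x (s, 1), fun s => x (s, 2))
  invFun p := ProdL_X p.1 p.2.1 p.2.2
  left_inv x := by
    funext ⟨s, i⟩
    fin_cases i <;> rfl
  right_inv p := by
    obtain ⟨a, b, c⟩ := p
    rfl

private theorem ProdL_sum (F : (Fin k × Fin 3 → Bool) → ℂ) :
    ∑ x, F x = ∑ x : Fin k → Bool, ∑ x' : Fin k → Bool, ∑ y : Fin k → Bool,
      F (ProdL_X x x' y) := by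
  rw [← Equiv.sum_comp ProdL_e.symm F, Fintype.sum_prod_type]
  refine sum_congr rfl fun x _ => ?_
  rw [Fintype.sum_prod_type]
  rfl

/-- the mixed differences of `x ↦ Φ (rr c x)` -/
private theorem ProdL_mix {m : ℕ} {z z' : Fin k × Fin 3 → Fin Q}
    {Φ : (Fin k × Fin 3 → Fin Q) → ZMod m}
    {b : Fin k × Fin 3 → Fin k × Fin 3 → ZMod m}
    (hb : ∀ i j, i ≠ j → ∀ c,
        Φ (update (update c i (z i)) j (z j)) - Φ (update (update c i (z' i)) j (z j)) -
          Φ (update (update c i (z i)) j (z' j)) + Φ (update (update c i (z' i)) j (z' j)) =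
            b i j) (c : Fin k × Fin 3 → Fin Q) (x : Fin k × Fin 3 → Bool)
    {i j : Fin k × Fin 3} (hij : i ≠ j) (hi : x i = false) (hj : x j = false) :
    Φ (ProdL_r z z' c (update (update x i true) j true)) - Φ (ProdL_r z z' c (update x j true)) -
      Φ (ProdL_r z z' c (update x i true)) + Φ (ProdL_r z z' c x) =
      if i.1 ∈ ProdL_S z z' c ∧ j.1 ∈ ProdL_S z z' c then b i j else 0 := by
  have hneg : ∀ (w : Fin k × Fin 3 → Bool) (l : Fin k × Fin 3), l.1 ∉ ProdL_S z z' c →
      ProdL_r z z' c (update w l true) = ProdL_r z z' c w := by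
    intro w l hl
    funext q
    by_cases hq : q.1 ∈ ProdL_S z z' c
    · rw [ProdL_r_pos hq, ProdL_r_pos hq]
      have : q ≠ l := by rintro rfl; exact hl hq
      rw [update_of_ne this]
    · rw [ProdL_r_neg hq, ProdL_r_neg hq]
  have hpos : ∀ (w : Fin k × Fin 3 → Bool) (l : Fin k × Fin 3), l.1 ∈ ProdL_S z z' c →
      ProdL_r z z' c (update w l true) = update (ProdL_r z z' c w) l (z' l) := by
    intro w l hl
    funext q
    by_cases hq : q = l
    · subst hq
      rw [ProdL_r_pos hl, update_self, update_self, if_pos rfl]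
    · rw [update_of_ne hq]
      by_cases hq' : q.1 ∈ ProdL_S z z' c
      · rw [ProdL_r_pos hq', ProdL_r_pos hq', update_of_ne hq]
      · rw [ProdL_r_neg hq', ProdL_r_neg hq']
  by_cases h1 : i.1 ∈ ProdL_S z z' c
  · by_cases h2 : j.1 ∈ ProdL_S z z' c
    · rw [if_pos ⟨h1, h2⟩, hpos _ j h2, hpos _ i h1, hpos _ j h2]
      have h3 := hb i j hij (ProdL_r z z' c x)
      have ei : ProdL_r z z' c x i = z i := by rw [ProdL_r_pos h1, hi]; rfl
      have ej : ProdL_r z z' c x j = z j := by rw [ProdL_r_pos h2, hj]; rfl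
      have e1 : update (ProdL_r z z' c x) i (z i) = ProdL_r z z' c x := by
        rw [← ei]; exact update_eq_self _ _
      have e2 : update (ProdL_r z z' c x) j (z j) = ProdL_r z z' c x := by
        rw [← ej]; exact update_eq_self _ _
      have e3 : update (update (ProdL_r z z' c x) i (z' i)) j (z j) =
          update (ProdL_r z z' c x) i (z' i) := by
        rw [update_comm hij, e2]
      rw [e1, e2, e3] at h3
      rw [← h3]
      abel
    · rw [if_neg (fun h => h2 h.2), hneg _ j h2, hneg _ j h2]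
      abel
  · rw [if_neg (fun h => h1 h.1), update_comm hij, hneg _ i h1, hneg _ i h1]
    abel

private def ProdL_XX (U : Finset (Fin k × Bool)) (V : Finset (Fin k)) : Fin k × Fin 3 → Bool :=
  ProdL_X (fun s => decide ((s, false) ∈ U)) (fun s => decide ((s, true) ∈ U))
    (fun t => decide (t ∈ V))

private def ProdL_i (p : Fin k × Bool) : Fin k × Fin 3 := (p.1, if p.2 = true then 1 else 0)

private theorem ProdL_XX_ins (U : Finset (Fin k × Bool)) (V : Finset (Fin k)) (p : Fin k × Bool) :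
    ProdL_XX (insert p U) V = update (ProdL_XX U V) (ProdL_i p) true := by
  obtain ⟨s, e⟩ := p
  funext ⟨q, l⟩
  by_cases hq : q = s
  · subst hq
    cases e <;> fin_cases l <;> simp [ProdL_XX, ProdL_X, ProdL_i]
  · cases e <;> fin_cases l <;> simp [ProdL_XX, ProdL_X, ProdL_i, hq]

private theorem ProdL_XX_ins' (U : Finset (Fin k × Bool)) (V : Finset (Fin k)) (t : Fin k) :
    ProdL_XX U (insert t V) = update (ProdL_XX U V) (t, 2) true := by
  funext ⟨q, l⟩
  by_cases hq : q = t
  · subst hq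
    fin_cases l <;> simp [ProdL_XX, ProdL_X]
  · fin_cases l <;> simp [ProdL_XX, ProdL_X, hq]

private theorem ProdL_bil {m : ℕ} {z z' : Fin k × Fin 3 → Fin Q}
    {Φ : (Fin k × Fin 3 → Fin Q) → ZMod m}
    {b : Fin k × Fin 3 → Fin k × Fin 3 → ZMod m}
    (hb : ∀ i j, i ≠ j → ∀ c,
        Φ (update (update c i (z i)) j (z j)) - Φ (update (update c i (z' i)) j (z j)) -
          Φ (update (update c i (z i)) j (z' j)) + Φ (update (update c i (z' i)) j (z' j)) =
            b i j) (c : Fin k × Fin 3 → Fin Q) (x x' y : Fin k → Bool) :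
    Φ (ProdL_r z z' c (ProdL_X x x' y)) =
      Φ (ProdL_r z z' c (ProdL_X x x' (fun _ => false))) +
      (Φ (ProdL_r z z' c (ProdL_X (fun _ => false) (fun _ => false) y)) -
        Φ (ProdL_r z z' c (ProdL_X (fun _ => false) (fun _ => false) (fun _ => false)))) +
      ∑ s, ∑ t, ((if x s = true ∧ y t = true then
          (if s ∈ ProdL_S z z' c ∧ t ∈ ProdL_S z z' c then b (s, 0) (t, 2) else 0) else 0) +
        (if x' s = true ∧ y t = true then
          (if s ∈ ProdL_S z z' c ∧ t ∈ ProdL_S z z' c then b (s, 1) (t, 2) else 0) else 0)) := by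
  have h := ProdL_md (fun (U : Finset (Fin k × Bool)) (V : Finset (Fin k)) =>
      Φ (ProdL_r z z' c (ProdL_XX U V)))
    (fun p t => if p.1 ∈ ProdL_S z z' c ∧ t ∈ ProdL_S z z' c then b (ProdL_i p) (t, 2) else 0)
    (by
      intro U V i j hi hj
      have hne : ProdL_i i ≠ (j, 2) := by
        intro h
        have := congrArg Prod.snd h
        simp only [ProdL_i] at this
        split_ifs at this <;> exact absurd this (by decide)
      have hxi : ProdL_XX U V (ProdL_i i) = false := by
        obtain ⟨s, e⟩ := i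
        cases e <;> simpa [ProdL_XX, ProdL_X, ProdL_i] using hi
      have hxj : ProdL_XX U V (j, 2) = false := by
        simpa [ProdL_XX, ProdL_X] using hj
      have h1 := ProdL_mix hb c (ProdL_XX U V) hne hxi hxj
      simp only [ProdL_XX_ins, ProdL_XX_ins']
      exact h1)
    (univ.filter fun p => (if p.2 = true then x' p.1 else x p.1) = true)
    (univ.filter fun t => y t = true)
  have e1 : ∀ V : Finset (Fin k), ProdL_XX
      (univ.filter fun p : Fin k × Bool => (if p.2 = true then x' p.1 else x p.1) = true) V =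
      ProdL_X x x' (fun t => decide (t ∈ V)) := by
    intro V
    funext ⟨q, l⟩
    fin_cases l <;> simp [ProdL_XX, ProdL_X]
  have e2 : ∀ V : Finset (Fin k), ProdL_XX (∅ : Finset (Fin k × Bool)) V =
      ProdL_X (fun _ => false) (fun _ => false) (fun t => decide (t ∈ V)) := by
    intro V
    funext ⟨q, l⟩
    fin_cases l <;> simp [ProdL_XX, ProdL_X]
  have e3 : (fun t => decide (t ∈ (univ.filter fun t => y t = true))) = y := by
    funext t
    simp
  have e4 : (fun t : Fin k => decide (t ∈ (∅ : Finset (Fin k)))) = fun _ => false := by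
    funext t
    simp
  simp only [e1, e2, e3, e4] at h
  rw [h]
  congr 1
  rw [sum_filter, Fintype.sum_prod_type]
  refine sum_congr rfl fun s _ => ?_
  rw [Fintype.sum_bool]
  simp only [if_true, Bool.false_eq_true, if_false, ProdL_i, sum_filter]
  rw [sum_add_distrib, add_comm]
  congr 1
  · by_cases hx : x s = true
    · simp only [hx, if_true, true_and]
    · simp [hx]
  · by_cases hx : x' s = true
    · simp only [hx, if_true, true_and]
    · simp [hx]

private theorem ProdL_card (z z' : Fin k × Fin 3 → Fin Q) (hz : ∀ i, z i ≠ z' i) (t : Fin k) :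
    ((univ : Finset (Fin 3 → Fin Q)).filter
      fun v => ∀ i : Fin 3, v i = z (t, i) ∨ v i = z' (t, i)).card = 8 := by
  have : ((univ : Finset (Fin 3 → Fin Q)).filter
      fun v => ∀ i : Fin 3, v i = z (t, i) ∨ v i = z' (t, i)) =
      Fintype.piFinset (fun i : Fin 3 => ({z (t, i), z' (t, i)} : Finset (Fin Q))) := by
    ext v
    simp [Fintype.mem_piFinset]
  rw [this, Fintype.card_piFinset]
  have h2 : ∀ i : Fin 3, ({z (t, i), z' (t, i)} : Finset (Fin Q)).card = 2 :=
    fun i => card_pair (hz _)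
  simp only [h2]
  simp

private theorem ProdL_total (z z' : Fin k × Fin 3 → Fin Q) (hz : ∀ i, z i ≠ z' i) (θ : ℝ) :
    ∑ c : Fin k × Fin 3 → Fin Q, θ ^ (ProdL_S z z' c).card =
      ((Q : ℝ) ^ 3 - 8 * (1 - θ)) ^ k := by
  classical
  set w : Fin k → (Fin 3 → Fin Q) → ℝ := fun t v =>
    if (∀ i : Fin 3, v i = z (t, i) ∨ v i = z' (t, i)) then θ else 1 with hw
  have h1 : ∀ c : Fin k × Fin 3 → Fin Q, θ ^ (ProdL_S z z' c).card =
      ∏ t, w t (fun i => c (t, i)) := by
    intro c
    simp only [hw]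
    rw [prod_ite]
    simp [ProdL_S]
  simp only [h1]
  have h2 : ∑ c : Fin k × Fin 3 → Fin Q, ∏ t, w t (fun i => c (t, i)) =
      ∑ d : Fin k → Fin 3 → Fin Q, ∏ t, w t (d t) := by
    rw [← Equiv.sum_comp (Equiv.curry (Fin k) (Fin 3) (Fin Q))]
    rfl
  rw [h2]
  have h3 : ∑ d : Fin k → Fin 3 → Fin Q, ∏ t, w t (d t) = ∏ t, ∑ v, w t v := by
    rw [prod_univ_sum, Fintype.piFinset_univ]
  rw [h3]
  have h4 : ∀ t, ∑ v, w t v = (Q : ℝ) ^ 3 - 8 * (1 - θ) := by
    intro t
    have h5 : ∀ v, w t v = 1 - (if (∀ i : Fin 3, v i = z (t, i) ∨ v i = z' (t, i)) then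
        (1 - θ) else 0) := by
      intro v
      simp only [hw]
      split_ifs
      · ring
      · ring
    simp only [h5, sum_sub_distrib]
    rw [← sum_filter, sum_const, sum_const, ProdL_card z z' hz t]
    simp
  simp only [h4]
  simp

end

theorem prod_ladder (m Q : ℕ) [NeZero m] (hQ : 2 ≤ Q) : ∃ θ : ℝ, 0 ≤ θ ∧ θ < 1 ∧
    ∀ (k : ℕ) (z z' : Fin k × Fin 3 → Fin Q) (Φ : (Fin k × Fin 3 → Fin Q) → ZMod m)
      (b : Fin k × Fin 3 → Fin k × Fin 3 → ZMod m), (∀ i, z i ≠ z' i) →
      (∀ i j, i ≠ j → ∀ c,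
        Φ (update (update c i (z i)) j (z j)) - Φ (update (update c i (z' i)) j (z j)) -
          Φ (update (update c i (z i)) j (z' j)) + Φ (update (update c i (z' i)) j (z' j)) =
            b i j) →
      (∀ t, b (t, 0) (t, 2) ≠ b (t, 1) (t, 2)) →
      (∀ t t', t < t' → b (t', 0) (t, 2) = b (t', 1) (t, 2)) →
      ‖∑ c, ee (Φ c)‖ ≤ (Q : ℝ) ^ (3 * k) * θ ^ k := by
  classical
  obtain ⟨θ, h0, h1, hcl⟩ := cube_ladder m
  have hQ2 : (2 : ℝ) ≤ Q := by exact_mod_cast hQ
  have hQ3 : (8 : ℝ) ≤ (Q : ℝ) ^ 3 := by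
    have := pow_le_pow_left₀ (by norm_num : (0:ℝ) ≤ 2) hQ2 3
    norm_num at this
    exact this
  have hQ3p : (0 : ℝ) < (Q : ℝ) ^ 3 := by linarith
  refine ⟨((Q : ℝ) ^ 3 - 8 * (1 - θ)) / (Q : ℝ) ^ 3, by
    apply div_nonneg <;> linarith, ?_, ?_⟩
  · rw [div_lt_one hQ3p]; linarith
  intro k z z' Φ b hz hb hb1 hb2
  rw [pow_mul, ← mul_pow, mul_div_cancel₀ _ hQ3p.ne']
  have hfix : ∀ c : Fin k × Fin 3 → Fin Q,
      ‖∑ x, ee (Φ (ProdL_r z z' c x))‖ ≤ 8 ^ k * θ ^ (ProdL_S z z' c).card := by
    intro c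
    rw [ProdL_sum (fun x => ee (Φ (ProdL_r z z' c x)))]
    have hcard : (univ.filter fun s : Fin k =>
        (if s ∈ ProdL_S z z' c ∧ s ∈ ProdL_S z z' c then b (s, 0) (s, 2) else 0) ≠
        (if s ∈ ProdL_S z z' c ∧ s ∈ ProdL_S z z' c then b (s, 1) (s, 2) else 0)) =
        ProdL_S z z' c := by
      ext s
      rw [mem_filter]
      constructor
      · rintro ⟨_, h⟩
        by_contra hn
        apply h
        rw [if_neg (fun h => hn h.1), if_neg (fun h => hn h.1)]
      · intro h
        refine ⟨mem_univ _, ?_⟩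
        rw [if_pos ⟨h, h⟩, if_pos ⟨h, h⟩]
        exact hb1 s
    have h2 := hcl k
      (fun s t => if s ∈ ProdL_S z z' c ∧ t ∈ ProdL_S z z' c then b (s, 0) (t, 2) else 0)
      (fun s t => if s ∈ ProdL_S z z' c ∧ t ∈ ProdL_S z z' c then b (s, 1) (t, 2) else 0)
      (fun x x' => Φ (ProdL_r z z' c (ProdL_X x x' (fun _ => false))))
      (fun y => Φ (ProdL_r z z' c (ProdL_X (fun _ => false) (fun _ => false) y)) -
        Φ (ProdL_r z z' c (ProdL_X (fun _ => false) (fun _ => false) (fun _ => false))))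
      (by
        intro s t hst
        by_cases h : s ∈ ProdL_S z z' c ∧ t ∈ ProdL_S z z' c
        · simp only [if_pos h]; exact hb2 t s hst
        · simp only [if_neg h])
    simp only [← ProdL_bil hb c] at h2
    rw [hcard] at h2
    exact h2
  have hmain : (8 : ℝ) ^ k * ‖∑ c, ee (Φ c)‖ ≤ 8 ^ k * ((Q : ℝ) ^ 3 - 8 * (1 - θ)) ^ k := by
    have e1 : (8 : ℝ) ^ k * ‖∑ c, ee (Φ c)‖ = ‖(8 : ℂ) ^ k * ∑ c, ee (Φ c)‖ := by
      rw [norm_mul, norm_pow]
      norm_num
    rw [e1, ProdL_avg hz (fun c => ee (Φ c))]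
    calc ‖∑ c, ∑ x, ee (Φ (ProdL_r z z' c x))‖
        ≤ ∑ c, ‖∑ x, ee (Φ (ProdL_r z z' c x))‖ := norm_sum_le _ _
      _ ≤ ∑ c, 8 ^ k * θ ^ (ProdL_S z z' c).card := sum_le_sum fun c _ => hfix c
      _ = 8 ^ k * ((Q : ℝ) ^ 3 - 8 * (1 - θ)) ^ k := by
        rw [← mul_sum, ProdL_total z z' hz θ]
  exact le_of_mul_le_mul_left hmain (by positivity)

end Pool.Agent.Lib.MP_3e612f_nt.PI
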