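import Pool.Agent.Lib.MP_3e612f_nt.PI.Md
import Pool.Agent.Lib.MP_3e612f_nt.PI.ProdL
import Pool.Agent.Lib.MP_3e612f_nt.PI.ProdB
import Pool.Agent.Lib.MP_3e612f_nt.PI.Avg

/-!
A ladder (or many effective gadgets) makes the pair correlation small.

PROOF of `corr_ladder`. `θ` from `prod_ladder m (q^W)`. Apply `avg_exists` with the windows
`a i = (o i).1`, `ι = Fin k × Fin 3` (`a i + W ≤ K` since `(o i).1 + 1 ≤ P`), to
`Ψ v = ee (Phi f η p r s (q^K u + v))`. For fixed `v < q^K` put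
`Φ c = Phi f η p r s (q^K * u + S v c)`, `z i = zc (o i)`, `z' i = zc (o i) + q^(g+D)` (both are
`< q^W` by `zc_lt`). The content of `q^K u + S v c` at `a i` is `c i`. For `i ≠ j` and
`c₀ = update (update c i (z i)) j (z j)` and `n = q^K u + S v c₀`, the values of `q^K u + S v ·` at the
other three points are `n + q^(a i + g + D)`, `n + q^(a j + g + D)`,
`n + q^(a i + g + D) + q^(a j + g + D)` (third property of `S`), so `md_Phi` gives the mixed
difference `Bv (o i) (o j)`. So `‖∑_c ee (Φ c)‖ ≤ (q^W)^(3k) θ^k`; sum over `v` and divide by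
`(q^W)^(3k)`. `corr_bad` is the same with `prod_bad` and `fd_Phi`.
-/

set_option autoImplicit false

namespace Pool.Agent.Lib.MP_3e612f_nt.PI

open Finset

/-- content of `q ^ K * u + v` at a window below `K` -/
theorem Corr_content {q W K a u v : ℕ} (hq : 2 ≤ q) (ha : a + W ≤ K) :
    (q ^ K * u + v) / q ^ a % q ^ W = v / q ^ a % q ^ W := by
  obtain ⟨d, rfl⟩ := Nat.exists_eq_add_of_le ha
  have hpos : 0 < q ^ a := pow_pos (by omega) a
  have h1 : q ^ (a + W + d) * u + v = v + q ^ a * (q ^ W * (q ^ d * u)) := by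
    rw [pow_add, pow_add]; ring
  rw [h1, Nat.add_mul_div_left _ _ hpos, Nat.add_mul_mod_self_left]

/-- the averaging step -/
theorem Corr_avg {q W K : ℕ} (hq : 2 ≤ q) {N : ℕ} {B : ℝ}
    {ι : Type} [Fintype ι] [DecidableEq ι] (hN : Fintype.card ι = N)
    (S : ℕ → (ι → Fin (q ^ W)) → ℕ) (Ψ : ℕ → ℂ)
    (hS : (((q ^ W) ^ Fintype.card ι : ℕ) : ℂ) * ∑ v ∈ range (q ^ K), Ψ v =
        ∑ v ∈ range (q ^ K), ∑ c, Ψ (S v c))
    (hb : ∀ v ∈ range (q ^ K), ‖∑ c, Ψ (S v c)‖ ≤ ((q ^ W : ℕ) : ℝ) ^ N * B) :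
    ‖∑ v ∈ range (q ^ K), Ψ v‖ ≤ (q : ℝ) ^ K * B := by
  have hq0 : (0 : ℝ) < (q : ℝ) := by exact_mod_cast (by omega : 0 < q)
  have hQ : (0 : ℝ) < ((q ^ W : ℕ) : ℝ) ^ N := by
    apply pow_pos
    exact_mod_cast (pow_pos (by omega : 0 < q) W)
  have h1 : ‖∑ v ∈ range (q ^ K), ∑ c, Ψ (S v c)‖ ≤
      (q : ℝ) ^ K * (((q ^ W : ℕ) : ℝ) ^ N * B) := by
    refine (norm_sum_le _ _).trans ((Finset.sum_le_sum hb).trans ?_)
    rw [Finset.sum_const, Finset.card_range, nsmul_eq_mul]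
    push_cast
    exact le_refl _
  rw [← hS, norm_mul, hN] at h1
  have h2 : ‖(((q ^ W) ^ N : ℕ) : ℂ)‖ = ((q ^ W : ℕ) : ℝ) ^ N := by
    rw [Complex.norm_natCast]
    push_cast
    rfl
  rw [h2] at h1
  have h3 : ((q ^ W : ℕ) : ℝ) ^ N * ‖∑ v ∈ range (q ^ K), Ψ v‖ ≤
      ((q ^ W : ℕ) : ℝ) ^ N * ((q : ℝ) ^ K * B) := by
    calc _ ≤ _ := h1
      _ = _ := by ring
  exact le_of_mul_le_mul_left h3 hQ

theorem corr_ladder (m q W : ℕ) [NeZero m] (hq : 2 ≤ q) (hW : 1 ≤ W) : ∃ θ : ℝ, 0 ≤ θ ∧ θ < 1 ∧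
    ∀ (D g l H p r : ℕ) (z0 x0 : ℕ → ℕ), g + l = W → D ≤ l → Gad q D g l H p r z0 x0 →
      ∀ (L s : ℕ) (F : ℕ → ℕ → ℕ → ℕ → ZMod m) (η : ℤ) (K P Δ k : ℕ)
        (o : Fin k × Fin 3 → ℕ × ℕ), P + W ≤ K + 1 → W ≤ Δ →
        IsLadder (Bv q D g l z0 x0 s p r (ph q D L F) η) P H Δ k o →
        ∀ u : ℕ, ‖∑ v ∈ range (q ^ K), ee (Phi (ph q D L F) η p r s (q ^ K * u + v))‖ ≤
          (q : ℝ) ^ K * θ ^ k := by
  have hQ : 2 ≤ q ^ W := by
    calc 2 ≤ q := hq
      _ = q ^ 1 := (pow_one q).symm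
      _ ≤ q ^ W := Nat.pow_le_pow_right (by omega) hW
  obtain ⟨θ, h0, h1, hθ⟩ := prod_ladder m (q ^ W) hQ
  refine ⟨θ, h0, h1, ?_⟩
  intro D g l H p r z0 x0 hgl hDl hG L s F η K P Δ k o hPK hWΔ hlad u
  obtain ⟨hl1, hl2, hl3, hl4⟩ := hlad
  subst hgl
  have ha : ∀ i, (o i).1 + (g + l) ≤ K := fun i => by
    have := (hl1 i).1
    omega
  have hsep : ∀ i j, i ≠ j → (o i).1 + (g + l) ≤ (o j).1 ∨ (o j).1 + (g + l) ≤ (o i).1 := by
    intro i j hij
    rcases hl2 i j hij with h | h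
    · left; omega
    · right; omega
  obtain ⟨S, hS1, hS2, hS3, hS4⟩ := avg_exists q (g + l) K hq (fun i => (o i).1) hsep ha
  have hz1 : ∀ i, zc q g l z0 x0 s (o i) + q ^ (g + D) < q ^ (g + l) := fun i =>
    zc_lt hq hG s (hl1 i).2
  have hz0 : ∀ i, zc q g l z0 x0 s (o i) < q ^ (g + l) := fun i =>
    lt_of_le_of_lt (Nat.le_add_right _ _) (hz1 i)
  have hgD : 0 < q ^ (g + D) := pow_pos (by omega) _
  set z : Fin k × Fin 3 → Fin (q ^ (g + l)) := fun i => ⟨zc q g l z0 x0 s (o i), hz0 i⟩ with hz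
  set z' : Fin k × Fin 3 → Fin (q ^ (g + l)) :=
    fun i => ⟨zc q g l z0 x0 s (o i) + q ^ (g + D), hz1 i⟩ with hz'
  have hzz : ∀ i, z i ≠ z' i := by
    intro i h
    have := congrArg Fin.val h
    simp only [hz, hz'] at this
    omega
  have hstep : ∀ v c i, c i = z i →
      S v (Function.update c i (z' i)) = S v c + q ^ ((o i).1 + g + D) := by
    intro v c i hci
    have hle : (c i : ℕ) ≤ z' i := by
      rw [hci]; exact Nat.le_add_right _ _
    rw [hS3 v c i (z' i) hle, hci]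
    have : ((z' i : ℕ) - (z i : ℕ)) = q ^ (g + D) := by
      simp only [hz, hz']
      omega
    rw [this]
    congr 1
    rw [← pow_add]
    congr 1
    omega
  refine Corr_avg (W := g + l) (N := 3 * k) (B := θ ^ k) hq ?_ S
    (fun v => ee (Phi (ph q D L F) η p r s (q ^ K * u + v))) (hS4 _) ?_
  · simp [Fintype.card_prod, mul_comm]
  intro v _
  refine hθ k z z' (fun c => Phi (ph q D L F) η p r s (q ^ K * u + S v c))
    (fun i j => Bv q D g l z0 x0 s p r (ph q D L F) η (o i) (o j)) hzz ?_ hl3 hl4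
  intro i j hij c
  set c0 := Function.update (Function.update c i (z i)) j (z j) with hc0
  have hci : c0 i = z i := by
    rw [hc0, Function.update_of_ne hij, Function.update_self]
  have hcj : c0 j = z j := by
    rw [hc0, Function.update_self]
  have e1 : Function.update (Function.update c i (z' i)) j (z j) =
      Function.update c0 i (z' i) := by
    rw [hc0, Function.update_comm hij.symm, Function.update_idem]
  have e2 : Function.update (Function.update c i (z i)) j (z' j) =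
      Function.update c0 j (z' j) := by
    rw [hc0, Function.update_idem]
  have e3 : Function.update (Function.update c i (z' i)) j (z' j) =
      Function.update (Function.update c0 i (z' i)) j (z' j) := by
    rw [← e1, Function.update_idem]
  have hcj' : Function.update c0 i (z' i) j = z j := by
    rw [Function.update_of_ne hij.symm, hcj]
  have s1 := hstep v c0 i hci
  have s2 := hstep v c0 j hcj
  have s3 := hstep v (Function.update c0 i (z' i)) j hcj'
  rw [e1, e2, e3, s3, s1, s2]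
  have hn : (q ^ K * u + S v c0) / q ^ (o i).1 % q ^ (g + l) = zc q g l z0 x0 s (o i) := by
    rw [Corr_content hq (ha i), hS2 v c0 i, hci]
  have hn' : (q ^ K * u + S v c0) / q ^ (o j).1 % q ^ (g + l) = zc q g l z0 x0 s (o j) := by
    rw [Corr_content hq (ha j), hS2 v c0 j, hcj]
  have := md_Phi hq hDl hG L s F η (hl1 i).2 (hl1 j).2 (hsep i j hij) hn hn'
  rw [← this]
  simp only [add_assoc]

theorem corr_bad (m q W : ℕ) [NeZero m] (hq : 2 ≤ q) (hW : 1 ≤ W) : ∃ θ : ℝ, 0 ≤ θ ∧ θ < 1 ∧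
    ∀ (D g l H p r : ℕ) (z0 x0 : ℕ → ℕ), g + l = W → D ≤ l → Gad q D g l H p r z0 x0 →
      ∀ (L s : ℕ) (c : ℕ → ℕ → ZMod m) (η : ℤ) (K P k : ℕ) (o : Fin k → ℕ × ℕ),
        P + W ≤ K + 1 → (∀ i, (o i).1 < P ∧ (o i).2 < H) →
        (∀ i j, i ≠ j → (o i).1 + W ≤ (o j).1 ∨ (o j).1 + W ≤ (o i).1) →
        (∀ i, dv q D g l z0 x0 s p r (loc q D L c) η (o i) ≠ 0) →
        ∀ u : ℕ, ‖∑ v ∈ range (q ^ K), ee (Phi (loc q D L c) η p r s (q ^ K * u + v))‖ ≤
          (q : ℝ) ^ K * θ ^ k := by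
  have hQ : 2 ≤ q ^ W := by
    calc 2 ≤ q := hq
      _ = q ^ 1 := (pow_one q).symm
      _ ≤ q ^ W := Nat.pow_le_pow_right (by omega) hW
  obtain ⟨θ, h0, h1, hθ⟩ := prod_bad m (q ^ W) hQ
  refine ⟨θ, h0, h1, ?_⟩
  intro D g l H p r z0 x0 hgl hDl hG L s cc η K P k o hPK hl1 hsep' hdv u
  subst hgl
  have ha : ∀ i, (o i).1 + (g + l) ≤ K := fun i => by
    have := (hl1 i).1
    omega
  have hsep : ∀ i j, i ≠ j → (o i).1 + (g + l) ≤ (o j).1 ∨ (o j).1 + (g + l) ≤ (o i).1 := hsep'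
  obtain ⟨S, hS1, hS2, hS3, hS4⟩ := avg_exists q (g + l) K hq (fun i => (o i).1) hsep ha
  have hz1 : ∀ i, zc q g l z0 x0 s (o i) + q ^ (g + D) < q ^ (g + l) := fun i =>
    zc_lt hq hG s (hl1 i).2
  have hz0 : ∀ i, zc q g l z0 x0 s (o i) < q ^ (g + l) := fun i =>
    lt_of_le_of_lt (Nat.le_add_right _ _) (hz1 i)
  have hgD : 0 < q ^ (g + D) := pow_pos (by omega) _
  set z : Fin k → Fin (q ^ (g + l)) := fun i => ⟨zc q g l z0 x0 s (o i), hz0 i⟩ with hz
  set z' : Fin k → Fin (q ^ (g + l)) :=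
    fun i => ⟨zc q g l z0 x0 s (o i) + q ^ (g + D), hz1 i⟩ with hz'
  have hzz : ∀ i, z i ≠ z' i := by
    intro i h
    have := congrArg Fin.val h
    simp only [hz, hz'] at this
    omega
  have hstep : ∀ v c i, c i = z i →
      S v (Function.update c i (z' i)) = S v c + q ^ ((o i).1 + g + D) := by
    intro v c i hci
    have hle : (c i : ℕ) ≤ z' i := by
      rw [hci]; exact Nat.le_add_right _ _
    rw [hS3 v c i (z' i) hle, hci]
    have : ((z' i : ℕ) - (z i : ℕ)) = q ^ (g + D) := by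
      simp only [hz, hz']
      omega
    rw [this]
    congr 1
    rw [← pow_add]
    congr 1
    omega
  refine Corr_avg (W := g + l) (N := k) (B := θ ^ k) hq ?_ S
    (fun v => ee (Phi (loc q D L cc) η p r s (q ^ K * u + v))) (hS4 _) ?_
  · simp
  intro v _
  refine hθ k z z' (fun c => Phi (loc q D L cc) η p r s (q ^ K * u + S v c))
    (fun i => dv q D g l z0 x0 s p r (loc q D L cc) η (o i)) hzz ?_ hdv
  intro i c
  set c0 := Function.update c i (z i) with hc0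
  have hci : c0 i = z i := by
    rw [hc0, Function.update_self]
  have e1 : Function.update c i (z' i) = Function.update c0 i (z' i) := by
    rw [hc0, Function.update_idem]
  have s1 := hstep v c0 i hci
  rw [e1, s1]
  have hn : (q ^ K * u + S v c0) / q ^ (o i).1 % q ^ (g + l) = zc q g l z0 x0 s (o i) := by
    rw [Corr_content hq (ha i), hS2 v c0 i, hci]
  have := fd_Phi hq hDl hG L s cc η (hl1 i).2 hn
  rw [← this]
  simp only [add_assoc]

end Pool.Agent.Lib.MP_3e612f_nt.PI
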