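import Pool.Agent.Lib.MP_3e612f_nt.PI.Defs
import Pool.Agent.Lib.MP_3e612f_nt.PB.KatFin

/-!
Katai's criterion and the dichotomy.

PROOF of `katai_ee`. Apply `PB.katai_fin` with `A = 1`, `P0 = q` and `ε/2` to the functions
`b n = Re (ee (f (n + s)))` and `b n = Im (ee (f (n + s)))`. With `z = ee (f (p n + s))`,
`w = ee (f (r n + s))`: `Re z Re w = (Re (z w) + Re (z w̄))/2`, `Im z Im w = (Re (z w̄) - Re (z w))/2`,
and `z w = ee (Phi f 1 p r s n)`, `z w̄ = ee (Phi f (-1) p r s n)`. (`PB.mu n` is the real Moebius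
function; `p` ranges over primes `> q`.)
-/

set_option autoImplicit false

namespace Pool.Agent.Lib.MP_3e612f_nt.PI

open Finset

theorem Kat_norm_ee {M : ℕ} [NeZero M] (x : ZMod M) : ‖ee x‖ = 1 :=
  AddChar.norm_apply _ x

theorem Kat_ee_add {M : ℕ} [NeZero M] (x y : ZMod M) : ee (x + y) = ee x * ee y :=
  AddChar.map_add_eq_mul _ x y

theorem Kat_ee_neg {M : ℕ} [NeZero M] (x : ZMod M) : ee (-x) = (starRingEnd ℂ) (ee x) :=
  AddChar.map_neg_eq_conj _ x

theorem Kat_mul {M : ℕ} [NeZero M] (f : ℕ → ZMod M) (p r s n : ℕ) :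
    ee (Phi f 1 p r s n) = ee (f (p * n + s)) * ee (f (r * n + s)) := by
  unfold Phi
  rw [one_zsmul, Kat_ee_add]

theorem Kat_mul_conj {M : ℕ} [NeZero M] (f : ℕ → ZMod M) (p r s n : ℕ) :
    ee (Phi f (-1) p r s n) = ee (f (p * n + s)) * (starRingEnd ℂ) (ee (f (r * n + s))) := by
  unfold Phi
  rw [neg_one_zsmul, Kat_ee_add, Kat_ee_neg]

theorem Kat_mc (n : ℕ) : mc n = ((mu n : ℝ) : ℂ) := by
  unfold mc mu
  push_cast
  rfl

theorem katai_ee (M q : ℕ) [NeZero M] {ε : ℝ} (hε : 0 < ε) :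
    ∃ (P : Finset ℕ) (δ : ℝ) (N0 : ℕ), (∀ p ∈ P, p.Prime ∧ q < p) ∧ 0 < δ ∧
      ∀ N ≥ N0, ∀ (f : ℕ → ZMod M) (s : ℕ),
        (∀ p ∈ P, ∀ r ∈ P, p < r → ∀ η : ℤ, (η = 1 ∨ η = -1) →
          ‖∑ n ∈ Icc 1 (N / r), ee (Phi f η p r s n)‖ ≤ δ * N) →
        ‖∑ n ∈ Icc 1 N, mc n * ee (f (n + s))‖ ≤ ε * N := by
  obtain ⟨P, δ, N0, hP, hδ, h⟩ := PB.katai_fin (A := 1) le_rfl q (half_pos hε)
  refine ⟨P, δ, N0, hP, hδ, ?_⟩
  intro N hN f s hyp
  have hre := h N hN (fun n => (ee (f (n + s))).re) (fun n => by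
    have h1 := Complex.abs_re_le_norm (ee (f (n + s)))
    rwa [Kat_norm_ee] at h1) (fun p hp r hr hpr => by
      have h1 := hyp p hp r hr hpr 1 (Or.inl rfl)
      have h2 := hyp p hp r hr hpr (-1) (Or.inr rfl)
      have e : ∑ m ∈ Icc 1 (N / r), (ee (f (p * m + s))).re * (ee (f (r * m + s))).re =
          ((∑ n ∈ Icc 1 (N / r), ee (Phi f 1 p r s n)).re +
            (∑ n ∈ Icc 1 (N / r), ee (Phi f (-1) p r s n)).re) / 2 := by
        rw [Complex.re_sum, Complex.re_sum, ← sum_add_distrib, sum_div]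
        refine sum_congr rfl fun m _ => ?_
        rw [Kat_mul, Kat_mul_conj, Complex.mul_re, Complex.mul_re, Complex.conj_re, Complex.conj_im]
        ring
      rw [e, abs_div, abs_two, div_le_iff₀ two_pos]
      have h3 := Complex.abs_re_le_norm (∑ n ∈ Icc 1 (N / r), ee (Phi f 1 p r s n))
      have h4 := Complex.abs_re_le_norm (∑ n ∈ Icc 1 (N / r), ee (Phi f (-1) p r s n))
      have h5 := abs_add_le (∑ n ∈ Icc 1 (N / r), ee (Phi f 1 p r s n)).re
        (∑ n ∈ Icc 1 (N / r), ee (Phi f (-1) p r s n)).re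
      linarith)
  have him := h N hN (fun n => (ee (f (n + s))).im) (fun n => by
    have h1 := Complex.abs_im_le_norm (ee (f (n + s)))
    rwa [Kat_norm_ee] at h1) (fun p hp r hr hpr => by
      have h1 := hyp p hp r hr hpr 1 (Or.inl rfl)
      have h2 := hyp p hp r hr hpr (-1) (Or.inr rfl)
      have e : ∑ m ∈ Icc 1 (N / r), (ee (f (p * m + s))).im * (ee (f (r * m + s))).im =
          ((∑ n ∈ Icc 1 (N / r), ee (Phi f (-1) p r s n)).re -
            (∑ n ∈ Icc 1 (N / r), ee (Phi f 1 p r s n)).re) / 2 := by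
        rw [Complex.re_sum, Complex.re_sum, ← sum_sub_distrib, sum_div]
        refine sum_congr rfl fun m _ => ?_
        rw [Kat_mul, Kat_mul_conj, Complex.mul_re, Complex.mul_re, Complex.conj_re, Complex.conj_im]
        ring
      rw [e, abs_div, abs_two, div_le_iff₀ two_pos]
      have h3 := Complex.abs_re_le_norm (∑ n ∈ Icc 1 (N / r), ee (Phi f 1 p r s n))
      have h4 := Complex.abs_re_le_norm (∑ n ∈ Icc 1 (N / r), ee (Phi f (-1) p r s n))
      have h5 := abs_sub (∑ n ∈ Icc 1 (N / r), ee (Phi f (-1) p r s n)).re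
        (∑ n ∈ Icc 1 (N / r), ee (Phi f 1 p r s n)).re
      linarith)
  have er : (∑ n ∈ Icc 1 N, mc n * ee (f (n + s))).re =
      ∑ n ∈ Icc 1 N, mu n * (ee (f (n + s))).re := by
    rw [Complex.re_sum]
    refine sum_congr rfl fun n _ => ?_
    rw [Kat_mc, Complex.re_ofReal_mul]
  have ei : (∑ n ∈ Icc 1 N, mc n * ee (f (n + s))).im =
      ∑ n ∈ Icc 1 N, mu n * (ee (f (n + s))).im := by
    rw [Complex.im_sum]
    refine sum_congr rfl fun n _ => ?_
    rw [Kat_mc, Complex.im_ofReal_mul]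
  have hfin := Complex.norm_le_abs_re_add_abs_im (∑ n ∈ Icc 1 N, mc n * ee (f (n + s)))
  rw [er, ei] at hfin
  linarith

end Pool.Agent.Lib.MP_3e612f_nt.PI
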