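import Mathlib

/-!
Embedding of finite abelian groups.

PROOF. `embed_exists`: by the structure theorem `A ≃+ ⨁ ZMod (n i)` with `n i ∣ M` (as `M • a = 0`), and
`ZMod (n i) → ZMod M`, `x ↦ (M / n i) x` is injective.
-/

set_option autoImplicit false

namespace Pool.Agent.Lib.MP_3e612f_nt.PI

open DirectSum

theorem Emb_zmod (n M : ℕ) [NeZero M] (h : n ∣ M) :
    ∃ f : ZMod n →+ ZMod M, Function.Injective f := by
  obtain ⟨k, hk⟩ := h
  have hM : M ≠ 0 := NeZero.ne M
  have hn : n ≠ 0 := by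
    rintro rfl
    exact hM (by simpa using hk)
  have hk0 : k ≠ 0 := by
    rintro rfl
    exact hM (by simpa using hk)
  let g : ℤ →+ ZMod M := (zmultiplesHom (ZMod M)) ((k : ℕ) : ZMod M)
  have hg : ∀ z : ℤ, g z = ((z * (k : ℤ) : ℤ) : ZMod M) := by
    intro z
    simp [g]
  have hg0 : g (n : ℤ) = 0 := by
    rw [hg]
    have : ((n : ℤ) * (k : ℤ)) = ((M : ℕ) : ℤ) := by
      rw [hk]; push_cast; ring
    rw [this]
    simp
  refine ⟨ZMod.lift n ⟨g, hg0⟩, ?_⟩
  rw [injective_iff_map_eq_zero]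
  intro x hx
  obtain ⟨z, rfl⟩ := ZMod.intCast_surjective x
  rw [ZMod.lift_coe] at hx
  change g z = 0 at hx
  rw [hg, ZMod.intCast_zmod_eq_zero_iff_dvd] at hx
  rw [ZMod.intCast_zmod_eq_zero_iff_dvd]
  have h2 : ((n : ℤ) * (k : ℤ)) ∣ z * (k : ℤ) := by
    have : ((n : ℤ) * (k : ℤ)) = ((M : ℕ) : ℤ) := by
      rw [hk]; push_cast; ring
    rw [this]
    exact hx
  exact (mul_dvd_mul_iff_right (by exact_mod_cast hk0)).1 h2

theorem embed_exists (A : Type) [AddCommGroup A] [Finite A] (M : ℕ) [NeZero M]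
    (hA : ∀ a : A, M • a = 0) :
    ∃ (ι : Type) (_ : Fintype ι) (φ : A →+ (ι → ZMod M)), Function.Injective φ := by
  classical
  obtain ⟨ι, hι, p, hp, e, ⟨E⟩⟩ := AddCommGroup.equiv_directSum_zmod_of_finite A
  have hdvd : ∀ i, p i ^ e i ∣ M := by
    intro i
    have h1 := hA (E.symm (DirectSum.of (fun i => ZMod (p i ^ e i)) i 1))
    have h2 : M • (DirectSum.of (fun i => ZMod (p i ^ e i)) i 1) = 0 := by
      have := congrArg E h1
      rw [map_nsmul, AddEquiv.apply_symm_apply, map_zero] at this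
      exact this
    have h3 : (M • (DirectSum.of (fun i => ZMod (p i ^ e i)) i 1)) i = 0 := by
      rw [h2]; rfl
    rw [← map_nsmul, DirectSum.of_eq_same] at h3
    rw [nsmul_eq_mul, mul_one] at h3
    exact (ZMod.natCast_eq_zero_iff M _).1 h3
  choose f hf using fun i => Emb_zmod (p i ^ e i) M (hdvd i)
  refine ⟨ι, hι, ?_, ?_⟩
  · exact (AddMonoidHom.mk' (fun a i => f i (E a i)) (by
      intro a b
      funext i
      simp [map_add, DirectSum.add_apply]))
  · intro a b hab
    apply E.injective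
    ext i
    apply hf i
    have := congrFun hab i
    simpa using this

end Pool.Agent.Lib.MP_3e612f_nt.PI
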