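import Pool.Agent.Lib.MP_3e612f_nt.PI.Defs

/-!
Closure properties of phases with pair interactions.

PROOFS. `shift_low`: let `v + j < q^K`. For `n % q^K = v`, `n + j = q^K (n / q^K) + (v + j)` has the same
digits `≥ K` as `n` and fixed digits below `K`, so with `π i = max i K` the window
`wd q D i (n + j)` is a function of `wd q D (π i) n` (a function depending on `v, j, i`):
for `i ≥ K` they are equal, for `i < K` the window consists of digits of `v + j` and of digits of `n` at
`K, …, i + D ≤ K + D`. So `F' i' j' x y = ∑_{i < L, π i = i'} ∑_{j < L, π j = j'} F i j (ω_i x) (ω_j y)`,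
`L' = max L (K + 1)`.
`low_digits`: `n % q^K = ∑_{i < K} (wd q D i n % q) q^i`.
-/

set_option autoImplicit false

namespace Pool.Agent.Lib.MP_3e612f_nt.PI

open Finset

section
variable {G : Type} [AddCommGroup G]

theorem WordsA_ext {q D L M : ℕ} (hLM : L ≤ M) (F : ℕ → ℕ → ℕ → ℕ → G) (n : ℕ) :
    ph q D M (fun i j x y => if i < L ∧ j < L then F i j x y else 0) n = ph q D L F n := by
  unfold ph
  have hsub : range L ⊆ range M := range_subset_range.2 hLM
  symm
  rw [← Finset.sum_subset hsub]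
  · refine Finset.sum_congr rfl fun i hi => ?_
    rw [← Finset.sum_subset hsub]
    · refine Finset.sum_congr rfl fun j hj => ?_
      rw [mem_range] at hi hj
      simp [hi, hj]
    · intro j _ hj
      rw [mem_range] at hj
      simp [hj]
  · intro i _ hi
    rw [mem_range] at hi
    simp [hi]

theorem IsPh.add {q D : ℕ} {f h : ℕ → G} (hf : IsPh q D f) (hh : IsPh q D h) :
    IsPh q D (fun n => f n + h n) := by
  obtain ⟨L, F, rfl⟩ := hf
  obtain ⟨L', F', rfl⟩ := hh
  refine ⟨max L L', fun i j x y => (if i < L ∧ j < L then F i j x y else 0) +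
    (if i < L' ∧ j < L' then F' i j x y else 0), ?_⟩
  funext n
  rw [← WordsA_ext (le_max_left L L') F n, ← WordsA_ext (le_max_right L L') F' n]
  unfold ph
  rw [← Finset.sum_add_distrib]
  refine Finset.sum_congr rfl fun i _ => ?_
  rw [← Finset.sum_add_distrib]

theorem IsPh.sum {q D : ℕ} {ι : Type} (S : Finset ι) {f : ι → ℕ → G}
    (hf : ∀ i ∈ S, IsPh q D (f i)) : IsPh q D (fun n => ∑ i ∈ S, f i n) := by
  classical
  induction S using Finset.induction_on with
  | empty =>
    refine ⟨0, fun _ _ _ _ => 0, ?_⟩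
    funext n
    simp [ph]
  | insert a S ha ih =>
    have h1 := IsPh.add (hf a (mem_insert_self a S))
      (ih fun i hi => hf i (mem_insert_of_mem hi))
    have h2 : (fun n => ∑ i ∈ insert a S, f i n) = fun n => f a n + ∑ i ∈ S, f i n := by
      funext n
      rw [Finset.sum_insert ha]
    rw [h2]
    exact h1

theorem IsPh.map {q D : ℕ} {G' : Type} [AddCommGroup G'] (φ : G →+ G') {f : ℕ → G}
    (hf : IsPh q D f) : IsPh q D (fun n => φ (f n)) := by
  obtain ⟨L, F, rfl⟩ := hf
  refine ⟨L, fun i j x y => φ (F i j x y), ?_⟩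
  funext n
  unfold ph
  rw [map_sum]
  refine Finset.sum_congr rfl fun i _ => ?_
  rw [map_sum]

theorem WordsA_wd {q : ℕ} (hq : 2 ≤ q) (D K v j : ℕ) (hvj : v + j < q ^ K) :
    ∃ w : ℕ → ℕ → ℕ, ∀ n, n % q ^ K = v → ∀ i,
      wd q D i (n + j) = w i (wd q D (max i K) n) := by
  have hq0 : 0 < q := by omega
  refine ⟨fun i x => if K ≤ i then x
      else (q ^ (K - i) * x + (v + j) / q ^ i) % q ^ (D + 1), ?_⟩
  intro n hn i
  have hP : 0 < q ^ K := Nat.pow_pos hq0
  have hs : n + j = q ^ K * (n / q ^ K) + (v + j) := by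
    have := Nat.div_add_mod n (q ^ K)
    omega
  by_cases hi : K ≤ i
  · simp only [hi, if_true, max_eq_left hi]
    unfold wd
    have h4 : q ^ i = q ^ K * q ^ (i - K) := by
      rw [← pow_add]
      congr 1
      omega
    have h3 : (n + j) / q ^ i = n / q ^ i := by
      rw [h4, ← Nat.div_div_eq_div_mul, ← Nat.div_div_eq_div_mul]
      congr 1
      conv_lhs => rw [hs]
      rw [Nat.mul_add_div hP, Nat.div_eq_of_lt hvj, Nat.add_zero]
    rw [h3]
  · simp only [hi, if_false]
    have hi' : i ≤ K := by omega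
    rw [max_eq_right hi']
    unfold wd
    have h1 : (n + j) / q ^ i = q ^ (K - i) * (n / q ^ K) + (v + j) / q ^ i := by
      conv_lhs => rw [hs]
      have h2 : q ^ K * (n / q ^ K) = q ^ i * (q ^ (K - i) * (n / q ^ K)) := by
        rw [← mul_assoc, ← pow_add]
        congr 2
        omega
      rw [h2, Nat.mul_add_div (Nat.pow_pos hq0)]
    rw [h1, Nat.add_mod (q ^ (K - i) * (n / q ^ K)), Nat.add_mod (q ^ (K - i) * (n / q ^ K %
      q ^ (D + 1))), Nat.mul_mod (q ^ (K - i)) (n / q ^ K), Nat.mul_mod (q ^ (K - i))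
      (n / q ^ K % q ^ (D + 1)), Nat.mod_mod]

theorem shift_low {q : ℕ} (hq : 2 ≤ q) (D L K v j : ℕ) (hvj : v + j < q ^ K)
    (F : ℕ → ℕ → ℕ → ℕ → G) :
    ∃ f : ℕ → G, IsPh q D f ∧ ∀ n, n % q ^ K = v → ph q D L F (n + j) = f n := by
  obtain ⟨w, hw⟩ := WordsA_wd hq D K v j hvj
  refine ⟨_, ⟨max L (K + 1), fun i' j' x y => ∑ i ∈ (range L).filter (fun i => max i K = i'),
    ∑ j ∈ (range L).filter (fun j => max j K = j'), F i j (w i x) (w j y), rfl⟩, ?_⟩
  intro n hn
  have hmap : ∀ i ∈ range L, max i K ∈ range (max L (K + 1)) := by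
    intro i hi
    rw [mem_range] at hi ⊢
    omega
  unfold ph
  rw [← Finset.sum_fiberwise_of_maps_to (g := fun i => max i K) hmap]
  refine Finset.sum_congr rfl fun i' _ => ?_
  conv_rhs => rw [Finset.sum_comm]
  refine Finset.sum_congr rfl fun i hi => ?_
  rw [← Finset.sum_fiberwise_of_maps_to (g := fun j => max j K) hmap]
  refine Finset.sum_congr rfl fun j' _ => Finset.sum_congr rfl fun j hj => ?_
  rw [mem_filter] at hi hj
  rw [hw n hn i, hw n hn j, hi.2, hj.2]

end

theorem WordsA_dig {q : ℕ} (K n : ℕ) :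
    n % q ^ K = ∑ i ∈ range K, (n / q ^ i % q) * q ^ i := by
  induction K with
  | zero => simp [Nat.mod_one]
  | succ K ih =>
    rw [Finset.sum_range_succ, ← ih, pow_succ, Nat.mod_mul, mul_comm (q ^ K)]

theorem low_digits {q : ℕ} (hq : 2 ≤ q) (D K : ℕ) (M : ℕ) (a : ZMod M) :
    IsPh q D (fun n => a * ((n % q ^ K : ℕ) : ZMod M)) := by
  refine ⟨K, fun i j x _ => if j = i then a * (((x % q) * q ^ i : ℕ) : ZMod M) else 0, ?_⟩
  funext n
  unfold ph
  rw [WordsA_dig, Nat.cast_sum, Finset.mul_sum]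
  refine Finset.sum_congr rfl fun i hi => ?_
  rw [Finset.sum_ite_eq' (range K) i, if_pos hi]
  have : wd q D i n % q = n / q ^ i % q := by
    unfold wd
    exact Nat.mod_mod_of_dvd _ (dvd_pow_self q (by omega))
  rw [this]

end Pool.Agent.Lib.MP_3e612f_nt.PI
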