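import Pool.Agent.Lib.MP_3e612f_nt.PI.Main
import Pool.Agent.Lib.MP_3e612f_nt.PI.WordsA
import Pool.Agent.Lib.MP_3e612f_nt.PI.Emb

/-!
Functions of words of a phase with pair interactions, values in a finite abelian group.

PROOFS. `vec_main`: let `K` be such that `k ≤ (ε/4) q^K`, `k ≤ q^K`. Numbers `n ≤ N` with
`(n + s) % q^K + k > q^K`: at most `k (N / q^K + 1) ≤ (ε/2) N` for large `N`. For a residue `v` with
`v + k ≤ q^K` the part of the sum with `(n + s) % q^K = v` is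
`∑ mc n 1[(n+s) % q^K = v] w (fun j => f_{v,j} (n + s))`, where `f_{v,j}` (values in `ι → ZMod M`) is the phase of
`shift_low`. Expand `w` with `fourier_exists` on `Fin k × ι → ZMod M` and the indicator as
`q^(-K) ∑_{a mod q^K} ee_{q^K} (a (n + s - v))`. Each product
`ee_M (∑_{j,i} t (j,i) f_{v,j} (n + s) i) * ee_{q^K} (a (n + s))` is `ee` of a phase with pair
interactions with values in `ZMod (M q^K)` (compose with the injections `ZMod M → ZMod (M q^K)`, multiplication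
by `q^K`, and `ZMod (q^K) → ZMod (M q^K)`, multiplication by `M`; `low_digits` for `n + s mod q^K`), and
`M q^K ∣ q^(κ + K)`: apply `pair_main` with a small `ε'` (there are boundedly many terms).
`words_main`: from `vec_main` and `embed_exists` (`w` is extended to the functions
`Fin k → ι → ZMod M` through the injection, by `0` outside the image).
-/

set_option autoImplicit false

namespace Pool.Agent.Lib.MP_3e612f_nt.PI

open Finset

theorem Words_count (Q N s v : ℕ) (hQ : 0 < Q) :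
    ((Icc 1 N).filter (fun n => (n + s) % Q = v)).card ≤ N / Q + 2 := by
  have h1 : ((Icc 1 N).filter (fun n => (n + s) % Q = v)).card ≤
      (Icc (s / Q) ((N + s) / Q)).card := by
    apply Finset.card_le_card_of_injOn (fun n => (n + s) / Q)
    · intro n hn
      simp only [coe_filter, mem_Icc, Set.mem_ofPred_eq] at hn
      simp only [coe_Icc, Set.mem_Icc]
      exact ⟨Nat.div_le_div_right (by omega), Nat.div_le_div_right (by omega)⟩
    · intro a ha b hb hab
      simp only [coe_filter, mem_Icc, Set.mem_ofPred_eq] at ha hb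
      have h1 := Nat.div_add_mod (a + s) Q
      have h2 := Nat.div_add_mod (b + s) Q
      simp only at hab
      rw [hab, ha.2] at h1
      rw [hb.2] at h2
      omega
  rw [Nat.card_Icc] at h1
  have h2 := Nat.add_div (a := N) (b := s) hQ
  generalize N / Q = x at *
  generalize s / Q = y at *
  split_ifs at h2 <;> omega

theorem Words_bad (Q N s k : ℕ) (hQ : 0 < Q) (hk : k ≤ Q) :
    ((Icc 1 N).filter (fun n => ¬ ((n + s) % Q + k ≤ Q))).card ≤ k * (N / Q + 2) := by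
  calc _ ≤ ((Ico (Q - k) Q).biUnion
        (fun v => (Icc 1 N).filter (fun n => (n + s) % Q = v))).card := by
        apply card_le_card
        intro n hn
        simp only [mem_filter, mem_Icc, not_le] at hn
        simp only [mem_biUnion, mem_Ico, mem_filter, mem_Icc]
        exact ⟨(n+s) % Q, ⟨by omega, Nat.mod_lt _ hQ⟩, hn.1, rfl⟩
    _ ≤ ∑ v ∈ Ico (Q - k) Q, ((Icc 1 N).filter (fun n => (n + s) % Q = v)).card := card_biUnion_le
    _ ≤ ∑ v ∈ Ico (Q - k) Q, (N / Q + 2) := sum_le_sum (fun v _ => Words_count Q N s v hQ)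
    _ = k * (N / Q + 2) := by
        rw [sum_const, Nat.card_Ico, smul_eq_mul]
        congr 1
        omega

theorem Words_hom (a b c : ℕ) [NeZero a] [NeZero c] (hc : c = a * b) :
    ∃ ψ : ZMod a →+ ZMod c, ∀ x, ee (ψ x) = ee x := by
  let f : ℤ →+ ZMod c := (AddMonoidHom.mulLeft (b : ZMod c)).comp (Int.castAddHom (ZMod c))
  have hf : f (a : ℤ) = 0 := by
    simp only [f, AddMonoidHom.coe_comp, Function.comp_apply, Int.coe_castAddHom,
      AddMonoidHom.coe_mulLeft, Int.cast_natCast]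
    rw [← Nat.cast_mul, mul_comm b a, ← hc, ZMod.natCast_self]
  refine ⟨ZMod.lift a ⟨f, hf⟩, fun x => ?_⟩
  obtain ⟨z, rfl⟩ := ZMod.intCast_surjective x
  rw [ZMod.lift_coe]
  have h1 : f z = (((b : ℤ) * z : ℤ) : ZMod c) := by
    simp [f]
  unfold ee
  change ZMod.stdAddChar (f z) = _
  rw [h1, ZMod.stdAddChar_coe, ZMod.stdAddChar_coe]
  congr 1
  have ha0 : (a : ℂ) ≠ 0 := by exact_mod_cast NeZero.ne a
  have hb0 : (b : ℂ) ≠ 0 := by
    intro h
    have : b = 0 := by exact_mod_cast h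
    exact NeZero.ne c (by rw [hc, this, mul_zero])
  have hc' : (c : ℂ) = a * b := by rw [hc]; push_cast; ring
  rw [hc']
  push_cast
  field_simp

theorem Words_ind (Q : ℕ) [NeZero Q] (m v : ℕ) (hv : v < Q) :
    ∑ b : ZMod Q, ee (b * ((m : ZMod Q) - (v : ZMod Q))) = if m % Q = v then (Q : ℂ) else 0 := by
  unfold ee
  rw [AddChar.sum_mulShift _ (ZMod.isPrimitive_stdAddChar Q)]
  have h : ((m : ZMod Q) - (v : ZMod Q) = 0) ↔ (m % Q = v) := by
    rw [sub_eq_zero, ZMod.natCast_eq_natCast_iff]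
    unfold Nat.ModEq
    rw [Nat.mod_eq_of_lt hv]
  by_cases h1 : m % Q = v
  · rw [if_pos (h.2 h1), if_pos h1, ZMod.card]
  · rw [if_neg (fun h2 => h1 (h.1 h2)), if_neg h1]; simp

theorem Words_part (q D K M k : ℕ) [NeZero M] [NeZero (q ^ K)] [NeZero (M * q ^ K)] (hq : 2 ≤ q)
    (ι : Type) [Fintype ι] (N L s v : ℕ) (hv : v + k ≤ q ^ K) (hv' : v < q ^ K)
    (F : ℕ → ℕ → ℕ → ℕ → ι → ZMod M)
    (w : (Fin k → ι → ZMod M) → ℂ) (hw : ∀ y, ‖w y‖ ≤ 1) (B : ℝ)
    (hB : ∀ (L' : ℕ) (F' : ℕ → ℕ → ℕ → ℕ → ZMod (M * q ^ K)),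
      ‖∑ n ∈ Icc 1 N, mc n * ee (ph q D L' F' (n + s))‖ ≤ B) (T : ℕ)
    (hT : ∀ (_ : DecidableEq ι), Fintype.card (Fin k × ι → ZMod M) = T) :
    ‖∑ n ∈ (Icc 1 N).filter (fun n => (n + s) % q ^ K = v),
      mc n * w (fun j => ph q D L F (n + s + j))‖ ≤ T * B := by
  classical
  have hT' := hT (Classical.decEq ι)
  choose f hf using fun j : Fin k => shift_low hq D L K v j (by have := j.2; omega) F
  obtain ⟨a, ha, hfou⟩ := fourier_exists (ι := Fin k × ι) M (fun y => w (fun j i => y (j, i)))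
    (fun y => hw _)
  obtain ⟨ψ, hψ⟩ := Words_hom M (q ^ K) (M * q ^ K) rfl
  obtain ⟨χ, hχ⟩ := Words_hom (q ^ K) M (M * q ^ K) (mul_comm _ _)
  have eadd : ∀ {m : ℕ} [NeZero m] (x y : ZMod m), ee (x + y) = ee x * ee y := by
    intro m _ x y
    unfold ee
    exact AddChar.map_add_eq_mul _ _ _
  have enorm : ∀ {m : ℕ} [NeZero m] (x : ZMod m), ‖ee x‖ = 1 := by
    intro m _ x
    unfold ee
    exact AddChar.norm_apply _ _
  have key : ∀ (t : Fin k × ι → ZMod M) (b : ZMod (q ^ K)), ∃ (L' : ℕ)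
      (F' : ℕ → ℕ → ℕ → ℕ → ZMod (M * q ^ K)), ∀ n : ℕ,
      ee (∑ x, t x * f x.1 n x.2) * ee (b * (n : ZMod (q ^ K))) = ee (ph q D L' F' n) := by
    intro t b
    have h1 : IsPh q D (fun n => ∑ x : Fin k × ι, t x * f x.1 n x.2) := by
      apply IsPh.sum
      intro x _
      exact IsPh.map ((AddMonoidHom.mulLeft (t x)).comp (Pi.evalAddMonoidHom _ x.2)) (hf x.1).1
    have h2 := IsPh.map ψ h1
    have h3 := low_digits (q := q) hq D K (M * q ^ K) (χ b)
    obtain ⟨L', F', h4⟩ := IsPh.add h2 h3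
    refine ⟨L', F', fun n => ?_⟩
    have h5 := congrFun h4 n
    rw [← h5, eadd, hψ]
    congr 1
    have h6 : χ b * ((n % q ^ K : ℕ) : ZMod (M * q ^ K)) = χ (b * (n : ZMod (q ^ K))) := by
      have h7 : b * (n : ZMod (q ^ K)) = (n % q ^ K) • b := by
        rw [nsmul_eq_mul, ZMod.natCast_mod, mul_comm]
      rw [h7, map_nsmul, nsmul_eq_mul]
      exact mul_comm _ _
    rw [h6, hχ]
  choose L' F' hLF using key
  have hB0 : 0 ≤ B := le_trans (norm_nonneg _) (hB 0 (fun _ _ _ _ => 0))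
  have hQ0 : ((q ^ K : ℕ) : ℂ) ≠ 0 := by exact_mod_cast NeZero.ne (q ^ K)
  have hpt : ∀ n ∈ Icc 1 N, (if (n + s) % q ^ K = v then
      mc n * w (fun j => ph q D L F (n + s + j)) else 0) =
      ∑ t : Fin k × ι → ZMod M, ∑ b : ZMod (q ^ K),
        (a t * (((q ^ K : ℕ) : ℂ)⁻¹ * ee (-(b * (v : ZMod (q ^ K)))))) *
          (mc n * ee (ph q D (L' t b) (F' t b) (n + s))) := by
    intro n _
    have h1 : ∀ (t : Fin k × ι → ZMod M) (b : ZMod (q ^ K)),
        (a t * (((q ^ K : ℕ) : ℂ)⁻¹ * ee (-(b * (v : ZMod (q ^ K)))))) *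
          (mc n * ee (ph q D (L' t b) (F' t b) (n + s))) =
        (mc n * ((q ^ K : ℕ) : ℂ)⁻¹) * ((a t * ee (∑ x, t x * f x.1 (n + s) x.2)) *
          ee (b * (((n + s : ℕ) : ZMod (q ^ K)) - (v : ZMod (q ^ K))))) := by
      intro t b
      rw [← hLF t b, mul_sub, sub_eq_add_neg, eadd]
      ring
    simp_rw [h1, ← mul_sum, ← sum_mul]
    rw [Words_ind (q ^ K) (n + s) v hv']
    split_ifs with h2
    · have h3 := hfou (fun x => f x.1 (n + s) x.2)
      simp only at h3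
      rw [← h3]
      have h4 : (fun j : Fin k => ph q D L F (n + s + j)) = fun j i => f j (n + s) i := by
        funext j
        exact (hf j).2 (n + s) h2
      rw [h4]
      field_simp
    · simp
  rw [sum_filter, sum_congr rfl hpt, sum_comm]
  have h2 : ∀ t : Fin k × ι → ZMod M, ‖∑ n ∈ Icc 1 N, ∑ b : ZMod (q ^ K),
        (a t * (((q ^ K : ℕ) : ℂ)⁻¹ * ee (-(b * (v : ZMod (q ^ K)))))) *
          (mc n * ee (ph q D (L' t b) (F' t b) (n + s)))‖ ≤ B := by
    intro t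
    rw [sum_comm]
    calc _ ≤ ∑ b : ZMod (q ^ K), ‖∑ n ∈ Icc 1 N,
          (a t * (((q ^ K : ℕ) : ℂ)⁻¹ * ee (-(b * (v : ZMod (q ^ K)))))) *
          (mc n * ee (ph q D (L' t b) (F' t b) (n + s)))‖ := norm_sum_le _ _
      _ ≤ ∑ b : ZMod (q ^ K), ((q ^ K : ℕ) : ℝ)⁻¹ * B := by
          apply sum_le_sum
          intro b _
          rw [← mul_sum, norm_mul, norm_mul, norm_mul, enorm, mul_one, norm_inv,
            Complex.norm_natCast]
          have hQ' : (0:ℝ) ≤ ((q ^ K : ℕ) : ℝ)⁻¹ := by positivity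
          calc _ ≤ (1 * ((q ^ K : ℕ) : ℝ)⁻¹) * B := by
                apply mul_le_mul _ (hB _ _) (norm_nonneg _) (by positivity)
                exact mul_le_mul_of_nonneg_right (ha t) hQ'
            _ = _ := by ring
      _ = B := by
          rw [sum_const, card_univ, ZMod.card, nsmul_eq_mul]
          have : ((q ^ K : ℕ) : ℝ) ≠ 0 := by exact_mod_cast NeZero.ne (q ^ K)
          field_simp
  calc _ ≤ ∑ t : Fin k × ι → ZMod M, ‖∑ n ∈ Icc 1 N, ∑ b : ZMod (q ^ K),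
        (a t * (((q ^ K : ℕ) : ℂ)⁻¹ * ee (-(b * (v : ZMod (q ^ K)))))) *
          (mc n * ee (ph q D (L' t b) (F' t b) (n + s)))‖ := norm_sum_le _ _
    _ ≤ ∑ t : Fin k × ι → ZMod M, B := sum_le_sum (fun t _ => h2 t)
    _ = T * B := by
        rw [sum_const, card_univ, nsmul_eq_mul, ← hT']

theorem vec_main (q D κ M k : ℕ) [NeZero M] (hq : 2 ≤ q) (hM : M ∣ q ^ κ) (ι : Type) [Fintype ι]
    {ε : ℝ} (hε : 0 < ε) :
    ∃ N0 : ℕ, ∀ N ≥ N0, ∀ (L s : ℕ) (F : ℕ → ℕ → ℕ → ℕ → ι → ZMod M)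
      (w : (Fin k → ι → ZMod M) → ℂ), (∀ y, ‖w y‖ ≤ 1) →
      ‖∑ n ∈ Icc 1 N, mc n * w (fun j => ph q D L F (n + s + j))‖ ≤ ε * N := by
  classical
  -- choice of K
  obtain ⟨K, hK⟩ : ∃ K : ℕ, max (k : ℝ) (4 * k / ε) < (q : ℝ) ^ K :=
    pow_unbounded_of_one_lt _ (by exact_mod_cast (by omega : 1 < q))
  have hQpos : 0 < q ^ K := by positivity
  have : NeZero (q ^ K) := ⟨hQpos.ne'⟩
  have : NeZero (M * q ^ K) := ⟨mul_ne_zero (NeZero.ne M) hQpos.ne'⟩
  have hkQ : k ≤ q ^ K := by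
    have : (k : ℝ) ≤ ((q ^ K : ℕ) : ℝ) := by
      push_cast
      exact le_trans (le_max_left _ _) hK.le
    exact_mod_cast this
  have hkε : (k : ℝ) ≤ ε / 4 * ((q ^ K : ℕ) : ℝ) := by
    have h := le_trans (le_max_right _ _) hK.le
    rw [div_le_iff₀ hε] at h
    push_cast
    linarith
  set T : ℕ := Fintype.card (Fin k × ι → ZMod M) with hT
  have hTpos : 0 < T := Fintype.card_pos
  obtain ⟨N0, hN0⟩ := pair_main q D (κ + K) (M * q ^ K) hq
    (by rw [pow_add]; exact Nat.mul_dvd_mul_right hM _)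
    (ε := ε / (2 * (q ^ K : ℕ) * T)) (by positivity)
  obtain ⟨N1, hN1⟩ := exists_nat_ge (8 * k / ε)
  refine ⟨max N0 N1, fun N hN L s F w hw => ?_⟩
  have hNN1 : (8 * k : ℝ) ≤ ε * N := by
    have : (8 * k / ε : ℝ) ≤ N := le_trans hN1 (by exact_mod_cast le_trans (le_max_right _ _) hN)
    rw [div_le_iff₀ hε] at this
    linarith
  have hcn : ∀ n : ℕ, ‖mc n‖ ≤ 1 := by
    intro n
    unfold mc
    rw [Complex.norm_intCast]
    exact_mod_cast ArithmeticFunction.abs_moebius_le_one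
  set W : ℕ → ℂ := fun n => mc n * w (fun j => ph q D L F (n + s + j)) with hW
  have hWn : ∀ n, ‖W n‖ ≤ 1 := by
    intro n
    rw [hW]
    simp only [norm_mul]
    calc _ ≤ 1 * 1 := mul_le_mul (hcn n) (hw _) (norm_nonneg _) (by norm_num)
      _ = 1 := one_mul _
  have hsplit : ∑ n ∈ Icc 1 N, W n =
      ∑ n ∈ (Icc 1 N).filter (fun n => (n + s) % q ^ K + k ≤ q ^ K), W n +
      ∑ n ∈ (Icc 1 N).filter (fun n => ¬ ((n + s) % q ^ K + k ≤ q ^ K)), W n :=
    (sum_filter_add_sum_filter_not _ _ _).symm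
  have hbad : ‖∑ n ∈ (Icc 1 N).filter (fun n => ¬ ((n + s) % q ^ K + k ≤ q ^ K)), W n‖
      ≤ ε / 2 * N := by
    calc _ ≤ ∑ n ∈ (Icc 1 N).filter (fun n => ¬ ((n + s) % q ^ K + k ≤ q ^ K)), ‖W n‖ :=
          norm_sum_le _ _
      _ ≤ ∑ n ∈ (Icc 1 N).filter (fun n => ¬ ((n + s) % q ^ K + k ≤ q ^ K)), (1:ℝ) :=
          sum_le_sum (fun n _ => hWn n)
      _ = (((Icc 1 N).filter (fun n => ¬ ((n + s) % q ^ K + k ≤ q ^ K))).card : ℝ) := by simp
      _ ≤ ((k * (N / q ^ K + 2) : ℕ) : ℝ) := by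
          exact_mod_cast Words_bad (q ^ K) N s k hQpos hkQ
      _ ≤ k * ((N : ℝ) / (q ^ K : ℕ) + 2) := by
          push_cast
          have h := Nat.cast_div_le (α := ℝ) (m := N) (n := q ^ K)
          push_cast at h
          gcongr
      _ = k * ((N : ℝ) / (q ^ K : ℕ)) + 2 * k := by ring
      _ ≤ ε / 4 * N + ε / 4 * N := by
          have hQ' : (0:ℝ) < ((q ^ K : ℕ) : ℝ) := by exact_mod_cast hQpos
          have h1 : (k : ℝ) * ((N : ℝ) / (q ^ K : ℕ)) ≤ ε / 4 * N := by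
            rw [mul_div_assoc', div_le_iff₀ hQ']
            have hN' : (0:ℝ) ≤ N := Nat.cast_nonneg N
            nlinarith
          linarith
      _ = ε / 2 * N := by ring
  have hgood : ‖∑ n ∈ (Icc 1 N).filter (fun n => (n + s) % q ^ K + k ≤ q ^ K), W n‖
      ≤ ε / 2 * N := by
    have h1 : ∑ n ∈ (Icc 1 N).filter (fun n => (n + s) % q ^ K + k ≤ q ^ K), W n =
        ∑ v ∈ (range (q ^ K)).filter (fun v => v + k ≤ q ^ K),
          ∑ n ∈ (Icc 1 N).filter (fun n => (n + s) % q ^ K = v), W n := by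
      rw [← sum_fiberwise_of_maps_to (g := fun n => (n + s) % q ^ K)
        (t := (range (q ^ K)).filter (fun v => v + k ≤ q ^ K))]
      · apply sum_congr rfl
        intro v hv
        rw [mem_filter] at hv
        apply sum_congr _ (fun _ _ => rfl)
        ext n
        simp only [mem_filter, mem_Icc]
        constructor
        · rintro ⟨⟨h1, h2⟩, h3⟩
          exact ⟨h1, h3⟩
        · rintro ⟨h1, h3⟩
          exact ⟨⟨h1, by rw [h3]; exact hv.2⟩, h3⟩
      · intro n hn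
        rw [mem_filter] at hn
        rw [mem_filter, mem_range]
        exact ⟨Nat.mod_lt _ hQpos, hn.2⟩
    rw [h1]
    have h2 : ∀ v ∈ (range (q ^ K)).filter (fun v => v + k ≤ q ^ K),
        ‖∑ n ∈ (Icc 1 N).filter (fun n => (n + s) % q ^ K = v), W n‖ ≤
        T * (ε / (2 * (q ^ K : ℕ) * T) * N) := by
      intro v hv
      rw [mem_filter, mem_range] at hv
      exact Words_part q D K M k hq ι N L s v hv.2 hv.1 F w hw _
        (fun L' F' => hN0 N (le_trans (le_max_left _ _) hN) L' s F') T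
        (fun _ => by rw [hT]; congr!)
    calc _ ≤ ∑ v ∈ (range (q ^ K)).filter (fun v => v + k ≤ q ^ K),
          ‖∑ n ∈ (Icc 1 N).filter (fun n => (n + s) % q ^ K = v), W n‖ := norm_sum_le _ _
      _ ≤ ∑ v ∈ (range (q ^ K)).filter (fun v => v + k ≤ q ^ K),
          T * (ε / (2 * (q ^ K : ℕ) * T) * N) := sum_le_sum h2
      _ ≤ ∑ v ∈ range (q ^ K), T * (ε / (2 * (q ^ K : ℕ) * T) * N) := by
          apply sum_le_sum_of_subset_of_nonneg (filter_subset _ _)
          intro _ _ _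
          positivity
      _ = ε / 2 * N := by
          rw [sum_const, card_range, nsmul_eq_mul]
          have hQ' : ((q ^ K : ℕ) : ℝ) ≠ 0 := by exact_mod_cast hQpos.ne'
          have hT' : (T : ℝ) ≠ 0 := by exact_mod_cast hTpos.ne'
          field_simp
  change ‖∑ n ∈ Icc 1 N, W n‖ ≤ ε * N
  rw [hsplit]
  calc _ ≤ _ := norm_add_le _ _
    _ ≤ ε / 2 * N + ε / 2 * N := add_le_add hgood hbad
    _ = ε * N := by ring

theorem words_main (q D κ k : ℕ) (hq : 2 ≤ q) (A : Type) [AddCommGroup A] [Finite A]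
    (hA : ∀ a : A, (q ^ κ) • a = 0) {ε : ℝ} (hε : 0 < ε) :
    ∃ N0 : ℕ, ∀ N ≥ N0, ∀ (L s : ℕ) (F : ℕ → ℕ → ℕ → ℕ → A)
      (w : (Fin k → A) → ℂ), (∀ y, ‖w y‖ ≤ 1) →
      ‖∑ n ∈ Icc 1 N, mc n * w (fun j => ph q D L F (n + s + j))‖ ≤ ε * N := by
  have : NeZero (q ^ κ) := ⟨by positivity⟩
  obtain ⟨ι, _, φ, hφ⟩ := embed_exists A (q ^ κ) hA
  obtain ⟨N0, hN0⟩ := vec_main q D κ (q ^ κ) k hq dvd_rfl ι hε
  refine ⟨N0, fun N hN L s F w hw => ?_⟩
  have h := hN0 N hN L s (fun i j x y => φ (F i j x y))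
    (fun y => w (fun j => Function.invFun φ (y j))) (fun y => hw _)
  have h1 : ∀ n, ph q D L (fun i j x y => φ (F i j x y)) n = φ (ph q D L F n) := by
    intro n
    unfold ph
    simp only [map_sum]
  simp only [h1, Function.leftInverse_invFun hφ _] at h
  exact h

end Pool.Agent.Lib.MP_3e612f_nt.PI
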