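import Pool.Agent.Lib.MP_3e612f_nt.PI.Kat

/-!
The dichotomy principle.

PROOF of `main_of_dich`. Take the finite set of primes, `δ` and `N1` from `katai_ee` with `ε`, and
for the finitely many triples `(p, r, η)` the number `N0` of the dichotomy with `δ, ε`. For `N` larger
than all these numbers: if for some triple the second alternative holds we are done, otherwise the
first alternative holds for all triples, with `N' = N / r ≤ N`, and `katai_ee` applies.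
-/

set_option autoImplicit false

namespace Pool.Agent.Lib.MP_3e612f_nt.PI

open Finset

theorem main_of_dich (M q : ℕ) [NeZero M] (Cl : ℕ → (ℕ → ZMod M) → ℕ → Prop)
    (h : ∀ p r : ℕ, p.Prime → r.Prime → q < p → p < r → ∀ η : ℤ, (η = 1 ∨ η = -1) →
      ∀ δ ε : ℝ, 0 < δ → 0 < ε → ∃ N0 : ℕ, ∀ N ≥ N0, ∀ (f : ℕ → ZMod M) (s : ℕ), Cl N f s →
        (∀ N' ≤ N, ‖∑ n ∈ Icc 1 N', ee (Phi f η p r s n)‖ ≤ δ * N) ∨
        ‖∑ n ∈ Icc 1 N, mc n * ee (f (n + s))‖ ≤ ε * N)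
    {ε : ℝ} (hε : 0 < ε) :
    ∃ N0 : ℕ, ∀ N ≥ N0, ∀ (f : ℕ → ZMod M) (s : ℕ), Cl N f s →
      ‖∑ n ∈ Icc 1 N, mc n * ee (f (n + s))‖ ≤ ε * N := by
  obtain ⟨P, δ, N1, hP, hδ, hk⟩ := katai_ee M q hε
  have h' : ∀ (p r : ℕ) (η : ℤ), ∃ N0 : ℕ, p ∈ P → r ∈ P → p < r → (η = 1 ∨ η = -1) →
      ∀ N ≥ N0, ∀ (f : ℕ → ZMod M) (s : ℕ), Cl N f s →
        (∀ N' ≤ N, ‖∑ n ∈ Icc 1 N', ee (Phi f η p r s n)‖ ≤ δ * N) ∨
        ‖∑ n ∈ Icc 1 N, mc n * ee (f (n + s))‖ ≤ ε * N := by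
    intro p r η
    by_cases hc : p ∈ P ∧ r ∈ P ∧ p < r ∧ (η = 1 ∨ η = -1)
    · obtain ⟨h1, h2, h3, h4⟩ := hc
      obtain ⟨N0, hN0⟩ := h p r (hP p h1).1 (hP r h2).1 (hP p h1).2 h3 η h4 δ ε hδ hε
      exact ⟨N0, fun _ _ _ _ => hN0⟩
    · exact ⟨0, fun a b c d => absurd ⟨a, b, c, d⟩ hc⟩
  choose N2 hN2 using h'
  refine ⟨max N1 (P.sup fun p => P.sup fun r => max (N2 p r 1) (N2 p r (-1))), ?_⟩
  intro N hN f s hCl
  by_cases hb : ‖∑ n ∈ Icc 1 N, mc n * ee (f (n + s))‖ ≤ ε * N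
  · exact hb
  refine hk N (le_trans (le_max_left _ _) hN) f s ?_
  intro p hp r hr hpr η hη
  have hS : N2 p r η ≤ N := by
    refine le_trans ?_ (le_trans (le_max_right _ _) hN)
    refine le_trans ?_ (Finset.le_sup (f := fun p => P.sup fun r => max (N2 p r 1) (N2 p r (-1))) hp)
    refine le_trans ?_ (Finset.le_sup (f := fun r => max (N2 p r 1) (N2 p r (-1))) hr)
    rcases hη with rfl | rfl
    · exact le_max_left _ _
    · exact le_max_right _ _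
  rcases hN2 p r η hp hr hpr hη N hS f s hCl with h1 | h2
  · exact h1 (N / r) (Nat.div_le_self N r)
  · exact absurd h2 hb

end Pool.Agent.Lib.MP_3e612f_nt.PI
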