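import Pool.Agent.Lib.MP_3e612f_nt.PI.Defs

/-!
Truncation: only the digits below `K1` and one more bit are needed for `n ≤ N ≤ q^K1`.

PROOF. `s' = s % q^K1`, `S = s / q^K1`. For `n ≤ N ≤ q^K1`, `n + s' < 2 q^K1`, so
`β = (n + s') / q^K1 ∈ {0, 1}` and `n + s = q^K1 (S + β) + (n + s') % q^K1`. Let `π i = min i K1`. Then
`wd q D i (n + s)` is a function `ω_i` (depending on `S`) of `wd q D (π i) (n + s')`: for
`i + D < K1` they are equal; for `i ≤ K1 ≤ i + D` the window consists of the digits `i, …, K1 - 1` of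
`n + s'` and the lowest digits of `S + β`, and `β` is the digit of `n + s'` at the position `K1`
(`β < 2 ≤ q`), which belongs to the window of `n + s'` at `i`; for `i > K1` the window is a function of
`β`. So `ph q D L F (n + s) = ∑_{i', j' ≤ K1} F' i' j' (wd i' (n+s')) (wd j' (n+s'))` with
`F' i' j' x y = ∑_{i < L, π i = i'} ∑_{j < L, π j = j'} F i j (ω_i x) (ω_j y)`. The same for `loc`.
-/

set_option autoImplicit false

namespace Pool.Agent.Lib.MP_3e612f_nt.PI

open Finset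

variable {G : Type} [AddCommGroup G]

theorem Tr_wd {q : ℕ} (hq : 2 ≤ q) (D K1 N : ℕ) (hN : N ≤ q ^ K1) (s : ℕ) :
    ∃ w : ℕ → ℕ → ℕ, ∀ n ≤ N, ∀ i,
      wd q D i (n + s) = w i (wd q D (min i K1) (n + s % q ^ K1)) := by
  have hq0 : 0 < q := by omega
  refine ⟨fun i x => if i ≤ K1 then (q ^ (K1 - i) * (s / q ^ K1) + x) % q ^ (D + 1)
      else (s / q ^ K1 + x) / q ^ (i - K1) % q ^ (D + 1), ?_⟩
  intro n hn i
  have hP : 0 < q ^ K1 := Nat.pow_pos hq0
  have hs : n + s = q ^ K1 * (s / q ^ K1) + (n + s % q ^ K1) := by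
    have := Nat.div_add_mod s (q ^ K1)
    omega
  by_cases hi : i ≤ K1
  · simp only [hi, if_true, min_eq_left hi]
    unfold wd
    have h1 : (n + s) / q ^ i = q ^ (K1 - i) * (s / q ^ K1) + (n + s % q ^ K1) / q ^ i := by
      conv_lhs => rw [hs]
      have h2 : q ^ K1 * (s / q ^ K1) = q ^ i * (q ^ (K1 - i) * (s / q ^ K1)) := by
        rw [← mul_assoc, ← pow_add]
        congr 2
        omega
      rw [h2, Nat.mul_add_div (Nat.pow_pos hq0)]
    rw [h1, Nat.add_mod, Nat.add_mod (q ^ (K1 - i) * (s / q ^ K1))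
      ((n + s % q ^ K1) / q ^ i % q ^ (D + 1)), Nat.mod_mod]
  · simp only [hi, if_false]
    have hi' : K1 ≤ i := by omega
    rw [min_eq_right hi']
    unfold wd
    have hb : (n + s % q ^ K1) / q ^ K1 < 2 := by
      rw [Nat.div_lt_iff_lt_mul hP]
      have := Nat.mod_lt s hP
      omega
    have hq1 : 2 ≤ q ^ (D + 1) := by
      calc 2 ≤ q := hq
        _ = q ^ 1 := (pow_one q).symm
        _ ≤ q ^ (D + 1) := Nat.pow_le_pow_right hq0 (by omega)
    rw [Nat.mod_eq_of_lt (a := (n + s % q ^ K1) / q ^ K1) (by omega)]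
    have h3 : (n + s) / q ^ i = (s / q ^ K1 + (n + s % q ^ K1) / q ^ K1) / q ^ (i - K1) := by
      have h4 : q ^ i = q ^ K1 * q ^ (i - K1) := by
        rw [← pow_add]
        congr 1
        omega
      rw [h4, ← Nat.div_div_eq_div_mul]
      congr 1
      conv_lhs => rw [hs]
      rw [Nat.mul_add_div hP]
    rw [h3]

theorem trunc_ph {q : ℕ} (hq : 2 ≤ q) (D K1 N : ℕ) (hN : N ≤ q ^ K1) (L s : ℕ)
    (F : ℕ → ℕ → ℕ → ℕ → G) : ∃ (F' : ℕ → ℕ → ℕ → ℕ → G) (s' : ℕ), s' < q ^ K1 ∧ ∀ n ≤ N,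
      ph q D L F (n + s) = ph q D (K1 + 1) F' (n + s') := by
  obtain ⟨w, hw⟩ := Tr_wd hq D K1 N hN s
  refine ⟨fun i' j' x y => ∑ i ∈ (range L).filter (fun i => min i K1 = i'),
    ∑ j ∈ (range L).filter (fun j => min j K1 = j'), F i j (w i x) (w j y), s % q ^ K1,
    Nat.mod_lt _ (Nat.pow_pos (by omega)), ?_⟩
  intro n hn
  have hmap : ∀ i ∈ range L, min i K1 ∈ range (K1 + 1) := by
    intro i _
    rw [mem_range]
    have := min_le_right i K1
    omega
  unfold ph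
  rw [← Finset.sum_fiberwise_of_maps_to (g := fun i => min i K1) hmap]
  refine Finset.sum_congr rfl fun i' _ => ?_
  conv_rhs => rw [Finset.sum_comm]
  refine Finset.sum_congr rfl fun i hi => ?_
  rw [← Finset.sum_fiberwise_of_maps_to (g := fun j => min j K1) hmap]
  refine Finset.sum_congr rfl fun j' _ => Finset.sum_congr rfl fun j hj => ?_
  rw [mem_filter] at hi hj
  rw [hw n hn i, hw n hn j, hi.2, hj.2]

theorem trunc_loc {q : ℕ} (hq : 2 ≤ q) (D K1 N : ℕ) (hN : N ≤ q ^ K1) (L s : ℕ)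
    (c : ℕ → ℕ → G) : ∃ (c' : ℕ → ℕ → G) (s' : ℕ), s' < q ^ K1 ∧ ∀ n ≤ N,
      loc q D L c (n + s) = loc q D (K1 + 1) c' (n + s') := by
  obtain ⟨w, hw⟩ := Tr_wd hq D K1 N hN s
  refine ⟨fun i' x => ∑ i ∈ (range L).filter (fun i => min i K1 = i'), c i (w i x), s % q ^ K1,
    Nat.mod_lt _ (Nat.pow_pos (by omega)), ?_⟩
  intro n hn
  have hmap : ∀ i ∈ range L, min i K1 ∈ range (K1 + 1) := by
    intro i _
    rw [mem_range]
    have := min_le_right i K1
    omega
  unfold loc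
  rw [← Finset.sum_fiberwise_of_maps_to (g := fun i => min i K1) hmap]
  refine Finset.sum_congr rfl fun i' _ => Finset.sum_congr rfl fun i hi => ?_
  rw [mem_filter] at hi
  rw [hw n hn i, hi.2]

end Pool.Agent.Lib.MP_3e612f_nt.PI
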