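import Pool.Agent.Lib.MP_3e612f_nt.PI.OneD
import Pool.Agent.Lib.MP_3e612f_nt.PI.Tr
import Pool.Agent.Lib.MP_3e612f_nt.PI.KatB

/-!
Phases without interactions are orthogonal to the Moebius function, uniformly.

PROOF of `one_main`: `main_of_dich` for the class `Cl N f s` = (exists `K1, c` with `N ≤ q^K1 ≤ q N` and
`f = loc q D (K1+1) c`), and `trunc_loc` with `K1 = Nat.clog q N`.
-/

set_option autoImplicit false

namespace Pool.Agent.Lib.MP_3e612f_nt.PI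

open Finset

theorem OneM_clog {q N : ℕ} (hq : 2 ≤ q) (hN : 1 ≤ N) :
    N ≤ q ^ Nat.clog q N ∧ q ^ Nat.clog q N ≤ q * N := by
  refine ⟨Nat.le_pow_clog (by omega) N, ?_⟩
  rcases Nat.lt_or_ge 1 N with h | h
  · have h1 := Nat.pow_pred_clog_lt_self (b := q) (by omega) (x := N) (by omega)
    have h2 : 0 < Nat.clog q N := Nat.clog_pos (by omega) (by omega)
    obtain ⟨k, hk⟩ : ∃ k, Nat.clog q N = k + 1 := ⟨Nat.clog q N - 1, by omega⟩
    rw [hk] at h1 ⊢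
    simp only [Nat.pred_succ] at h1
    rw [pow_succ, mul_comm]
    exact Nat.mul_le_mul_left q (by simpa using h1.le)
  · have h1 : N = 1 := by omega
    subst h1
    simp
    omega

theorem one_main (q D M : ℕ) [NeZero M] (hq : 2 ≤ q) {ε : ℝ} (hε : 0 < ε) :
    ∃ N0 : ℕ, ∀ N ≥ N0, ∀ (L s : ℕ) (c : ℕ → ℕ → ZMod M),
      ‖∑ n ∈ Icc 1 N, mc n * ee (loc q D L c (n + s))‖ ≤ ε * N := by
  obtain ⟨N0, hN0⟩ := main_of_dich M q
    (fun N f _ => ∃ (K1 : ℕ) (c : ℕ → ℕ → ZMod M), N ≤ q ^ K1 ∧ q ^ K1 ≤ q * N ∧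
      f = loc q D (K1 + 1) c)
    (by
      intro p r hp hr hqp hpr η _ δ ε' hδ hε'
      obtain ⟨N1, hN1⟩ := one_dich q D M p r hq hp hr hqp hpr η hδ hε'
      refine ⟨N1, fun N hN f s hf => ?_⟩
      obtain ⟨K1, c, h1, h2, rfl⟩ := hf
      exact hN1 N hN K1 s c h1 h2) hε
  refine ⟨max N0 1, fun N hN L s c => ?_⟩
  have hN1 : N0 ≤ N := le_trans (le_max_left _ _) hN
  have hN2 : 1 ≤ N := le_trans (le_max_right _ _) hN
  obtain ⟨h1, h2⟩ := OneM_clog hq hN2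
  obtain ⟨c', s', _, hc⟩ := trunc_loc hq D (Nat.clog q N) N h1 L s c
  have h3 := hN0 N hN1 (loc q D (Nat.clog q N + 1) c') s' ⟨_, c', h1, h2, rfl⟩
  have h4 : ∑ n ∈ Icc 1 N, mc n * ee (loc q D L c (n + s)) =
      ∑ n ∈ Icc 1 N, mc n * ee (loc q D (Nat.clog q N + 1) c' (n + s')) := by
    refine Finset.sum_congr rfl fun n hn => ?_
    rw [hc n (Finset.mem_Icc.1 hn).2]
  rw [h4]
  exact h3

end Pool.Agent.Lib.MP_3e612f_nt.PI
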