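import Pool.Agent.Lib.MP_3e612f_nt.PI.Defs

/-!
Sums over blocks.

`block_sum`: `Icc 1 N` is `range (N+1)` without `0`; there are `(N+1)/Q` full blocks of length `Q`,
each contributing at most `τ Q`, less than `Q` further terms, and the term `n = 0`.
-/

set_option autoImplicit false

namespace Pool.Agent.Lib.MP_3e612f_nt.PI

open Finset

theorem block_sum (F : ℕ → ℂ) (hF : ∀ n, ‖F n‖ ≤ 1) {Q : ℕ} (hQ : 1 ≤ Q) {τ : ℝ} (hτ : 0 ≤ τ)
    (h : ∀ u : ℕ, ‖∑ v ∈ range Q, F (Q * u + v)‖ ≤ Q * τ) (N : ℕ) :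
    ‖∑ n ∈ Icc 1 N, F n‖ ≤ τ * (N + 1) + 2 * Q := by
  have hfull : ∀ K : ℕ, ‖∑ n ∈ range (Q * K), F n‖ ≤ K * (Q * τ) := by
    intro K
    induction K with
    | zero => simp
    | succ K ih =>
      rw [Nat.mul_succ, Finset.sum_range_add]
      refine (norm_add_le _ _).trans ?_
      have h1 := h K
      push_cast
      nlinarith [ih, h1]
  have hpart : ∀ (M r : ℕ), ‖∑ j ∈ range r, F (M + j)‖ ≤ r := by
    intro M r
    refine (norm_sum_le _ _).trans ?_
    refine (Finset.sum_le_sum fun j _ => hF (M + j)).trans ?_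
    simp
  have hsplit : ∑ n ∈ Icc 1 N, F n
      = (∑ n ∈ range (Q * ((N + 1) / Q)), F n
        + ∑ j ∈ range ((N + 1) % Q), F (Q * ((N + 1) / Q) + j)) - F 0 := by
    rw [← Finset.sum_range_add, Nat.div_add_mod, Finset.sum_range_succ', add_sub_cancel_right]
    refine Finset.sum_bij' (fun n _ => n - 1) (fun n _ => n + 1) ?_ ?_ ?_ ?_ ?_
    · intro n hn
      rw [Finset.mem_Icc] at hn
      rw [Finset.mem_range]
      omega
    · intro n hn
      rw [Finset.mem_range] at hn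
      rw [Finset.mem_Icc]
      omega
    · intro n hn
      rw [Finset.mem_Icc] at hn
      show n - 1 + 1 = n
      omega
    · intro n hn
      show n + 1 - 1 = n
      omega
    · intro n hn
      rw [Finset.mem_Icc] at hn
      show F n = F (n - 1 + 1)
      congr 1
      omega
  rw [hsplit]
  refine (norm_sub_le _ _).trans ?_
  refine (add_le_add_left (norm_add_le _ _) _).trans ?_
  have h1 := hfull ((N + 1) / Q)
  have h2 := hpart (Q * ((N + 1) / Q)) ((N + 1) % Q)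
  have h3 := hF 0
  have hQ0 : 0 < Q := hQ
  have h4 : Q * ((N + 1) / Q) ≤ N + 1 := Nat.mul_div_le _ _
  have h5 : (N + 1) % Q ≤ Q := (Nat.mod_lt _ hQ0).le
  have h6 : ((Q : ℝ) * (((N + 1) / Q : ℕ) : ℝ)) ≤ (N : ℝ) + 1 := by
    exact_mod_cast h4
  have h7 : (((N + 1) % Q : ℕ) : ℝ) ≤ Q := by exact_mod_cast h5
  have h8 : (1 : ℝ) ≤ Q := by exact_mod_cast hQ
  have h9 : (((N + 1) / Q : ℕ) : ℝ) * (Q * τ) ≤ τ * (N + 1) := by
    nlinarith [mul_le_mul_of_nonneg_left h6 hτ]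
  linarith

end Pool.Agent.Lib.MP_3e612f_nt.PI
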