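import Pool.Agent.Lib.MP_3e612f_nt.PI.Defs

/-!
Choice of the inner number of digits.

`exists_K`: `K = Nat.log q ⌊δ N⌋₊`, `w = w' + 2` with `q^w' ≥ 1/δ`, and `N0` with `δ N0 ≥ 1`:
`q^K ≤ ⌊δ N⌋₊ ≤ δ N < q^(K+1)`, so `q^K1 ≤ q N < q^(K+2)/δ ≤ q^(K + w)`.
-/

set_option autoImplicit false

namespace Pool.Agent.Lib.MP_3e612f_nt.PI

theorem exists_K (q : ℕ) (hq : 2 ≤ q) {δ : ℝ} (hδ : 0 < δ) : ∃ w N0 : ℕ, ∀ N ≥ N0, ∀ K1 : ℕ,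
    q ^ K1 ≤ q * N → ∃ K : ℕ, ((q : ℝ) ^ K) ≤ δ * N ∧ K1 ≤ K + w := by
  have hq1 : (1 : ℝ) < q := by exact_mod_cast (lt_of_lt_of_le one_lt_two hq)
  have hq0 : (0 : ℝ) < q := lt_trans one_pos hq1
  obtain ⟨w, hw⟩ := pow_unbounded_of_one_lt (1 / δ) hq1
  have hw' : 1 < δ * (q : ℝ) ^ w := by
    rw [div_lt_iff₀ hδ] at hw
    linarith [mul_comm ((q : ℝ) ^ w) δ]
  refine ⟨w + 2, ⌈1 / δ⌉₊, fun N hN K1 hK1 => ?_⟩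
  have hN1 : 1 / δ ≤ (N : ℝ) := le_trans (Nat.le_ceil _) (by exact_mod_cast hN)
  have hN2 : 1 ≤ δ * N := by
    rw [div_le_iff₀ hδ] at hN1
    linarith [mul_comm (N : ℝ) δ]
  have hfl : ⌊δ * N⌋₊ ≠ 0 := by
    have : 1 ≤ ⌊δ * (N : ℝ)⌋₊ := Nat.le_floor (by exact_mod_cast hN2)
    omega
  refine ⟨Nat.log q ⌊δ * (N : ℝ)⌋₊, ?_, ?_⟩
  · have h1 : q ^ Nat.log q ⌊δ * (N : ℝ)⌋₊ ≤ ⌊δ * (N : ℝ)⌋₊ := Nat.pow_log_le_self q hfl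
    calc ((q : ℝ) ^ Nat.log q ⌊δ * (N : ℝ)⌋₊)
        = ((q ^ Nat.log q ⌊δ * (N : ℝ)⌋₊ : ℕ) : ℝ) := by push_cast; rfl
      _ ≤ (⌊δ * (N : ℝ)⌋₊ : ℝ) := by exact_mod_cast h1
      _ ≤ δ * N := Nat.floor_le (le_trans zero_le_one hN2)
  · set K := Nat.log q ⌊δ * (N : ℝ)⌋₊ with hK
    have h1 : ⌊δ * (N : ℝ)⌋₊ < q ^ (K + 1) := Nat.lt_pow_succ_log_self hq _
    have h2 : δ * N < ((q ^ (K + 1) : ℕ) : ℝ) := (Nat.floor_lt (le_trans zero_le_one hN2)).1 h1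
    have h3 : ((q ^ K1 : ℕ) : ℝ) ≤ ((q * N : ℕ) : ℝ) := by exact_mod_cast hK1
    have h4 : (N : ℝ) < (q : ℝ) ^ (K + 1) * (q : ℝ) ^ w := by
      have h5 : δ * N < δ * ((q : ℝ) ^ (K + 1) * (q : ℝ) ^ w) := by
        calc δ * N < (q : ℝ) ^ (K + 1) := by push_cast at h2; exact h2
          _ = (q : ℝ) ^ (K + 1) * 1 := (mul_one _).symm
          _ < (q : ℝ) ^ (K + 1) * (δ * (q : ℝ) ^ w) :=
            mul_lt_mul_of_pos_left hw' (pow_pos hq0 _)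
          _ = δ * ((q : ℝ) ^ (K + 1) * (q : ℝ) ^ w) := by ring
      exact lt_of_mul_lt_mul_left h5 hδ.le
    have h6 : ((q ^ K1 : ℕ) : ℝ) < ((q ^ (K + w + 2) : ℕ) : ℝ) := by
      calc ((q ^ K1 : ℕ) : ℝ) ≤ ((q * N : ℕ) : ℝ) := h3
        _ = (q : ℝ) * N := by push_cast; rfl
        _ < (q : ℝ) * ((q : ℝ) ^ (K + 1) * (q : ℝ) ^ w) := mul_lt_mul_of_pos_left h4 hq0
        _ = ((q ^ (K + w + 2) : ℕ) : ℝ) := by push_cast; ring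
    have h7 : q ^ K1 < q ^ (K + w + 2) := by exact_mod_cast h6
    have h8 : K1 < K + w + 2 := (Nat.pow_lt_pow_iff_right (by omega)).1 h7
    omega

end Pool.Agent.Lib.MP_3e612f_nt.PI
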