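import Pool.Agent.Lib.MP_3e612f_nt.PI.Defs

/-!
The universal subshift of all phases with pair interactions: closed, invariant, zero entropy.

PROOFS: `UXP_nonempty` (`F = 0`), `UXP_shift`, `UXP_closed` as in `PS/SubC.lean`.
-/

set_option autoImplicit false

namespace Pool.Agent.Lib.MP_3e612f_nt.PI

open Finset

/-- all sequences whose initial blocks occur in phases with pair interactions -/
def UXP (q D : ℕ) (A : Type) [AddCommGroup A] : Set (ℕ → A) :=
  {x | ∀ l : ℕ, ∃ (F : ℕ → ℕ → ℕ → ℕ → A) (L s : ℕ), ∀ i < l, x i = ph q D L F (i + s)}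

variable {A : Type} [AddCommGroup A]

theorem UXP_nonempty (q D : ℕ) : (fun _ => (0 : A)) ∈ UXP q D A := by
  intro l
  refine ⟨fun _ _ _ _ => 0, 0, 0, fun i _ => ?_⟩
  simp [ph]

theorem UXP_shift {q D : ℕ} {x : ℕ → A} (hx : x ∈ UXP q D A) (n : ℕ) :
    (fun i => x (i + n)) ∈ UXP q D A := by
  intro l
  obtain ⟨F, L, s, h⟩ := hx (l + n)
  refine ⟨F, L, n + s, fun i hi => ?_⟩
  have h1 := h (i + n) (by omega)
  show x (i + n) = ph q D L F (i + (n + s))
  rw [h1, Nat.add_assoc]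

theorem UXA_open_cyl [TopologicalSpace A] [DiscreteTopology A] (x : ℕ → A) (m : ℕ) :
    IsOpen {y : ℕ → A | ∀ i < m, y i = x i} := by
  have h : {y : ℕ → A | ∀ i < m, y i = x i} = PiNat.cylinder (E := fun _ => A) x m := by
    ext y
    simp [PiNat.cylinder]
  rw [h]
  exact PiNat.isOpen_cylinder _ x m

theorem UXP_closed [TopologicalSpace A] [DiscreteTopology A] (q D : ℕ) :
    IsClosed (UXP q D A) := by
  rw [← isOpen_compl_iff, isOpen_iff_forall_mem_open]
  intro x hx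
  have h1 : ∃ l : ℕ, ¬ ∃ (F : ℕ → ℕ → ℕ → ℕ → A) (L s : ℕ), ∀ i < l, x i = ph q D L F (i + s) := by
    by_contra h
    push Not at h
    exact hx (fun l => h l)
  obtain ⟨l, hl⟩ := h1
  refine ⟨{y : ℕ → A | ∀ i < l, y i = x i}, ?_, UXA_open_cyl x l, fun i _ => rfl⟩
  intro y hy hyU
  apply hl
  obtain ⟨F, L, s, h⟩ := hyU l
  exact ⟨F, L, s, fun i hi => (hy i hi).symm.trans (h i hi)⟩

end Pool.Agent.Lib.MP_3e612f_nt.PI
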