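import Mathlib

/-!
Sums over pairs in terms of counts.

PROOF of `count_pairs`: induction on the set `Y` (remove its largest element `K`; both sides grow by
`∑_d Ψ (α K) d * N_d` where `N_d` counts the remaining elements of colour `d`). `count_mod`:
`N (N-1)/2 mod m` only depends on `N mod 2m`.
-/

set_option autoImplicit false

namespace Pool.Agent.Lib.MP_3e612f_nt.PI

open Finset

theorem Cnt_step {R : Type} [CommRing R] {Γ : Type} [Fintype Γ] [LinearOrder Γ]
    (Ψ : Γ → Γ → R) (hΨ : ∀ x y, Ψ x y = Ψ y x) (N M : Γ → ℕ) (c : Γ)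
    (hM : ∀ x, M x = N x + if x = c then 1 else 0) :
    (∑ x : Γ, ∑ y : Γ, (if x < y then Ψ x y * (M x * M y : ℕ) else 0)) +
      ∑ x : Γ, Ψ x x * (((M x).choose 2 : ℕ) : R) =
    ((∑ x : Γ, ∑ y : Γ, (if x < y then Ψ x y * (N x * N y : ℕ) else 0)) +
      ∑ x : Γ, Ψ x x * (((N x).choose 2 : ℕ) : R)) + ∑ x : Γ, Ψ x c * (N x : R) := by
  have h1 : ∀ x y : Γ, (if x < y then Ψ x y * ((M x * M y : ℕ) : R) else 0) =
      (if x < y then Ψ x y * ((N x * N y : ℕ) : R) else 0) +
      (if y = c then (if x < c then Ψ x c * (N x : R) else 0) else 0) +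
      (if x = c then (if c < y then Ψ c y * (N y : R) else 0) else 0) := by
    intro x y
    rw [hM x, hM y]
    by_cases hx : x = c
    · by_cases hy : y = c
      · subst hx
        subst hy
        simp
      · subst hx
        simp only [hy, if_true, if_false, add_zero]
        by_cases h : x < y
        · simp only [h, if_true]
          push_cast
          ring
        · simp only [h, if_false]
          ring
    · by_cases hy : y = c
      · subst hy
        simp only [hx, if_true, if_false, add_zero]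
        by_cases h : x < y
        · simp only [h, if_true]
          push_cast
          ring
        · simp only [h, if_false]
          ring
      · simp only [hx, hy, if_false, add_zero]
  have h2 : ∀ x : Γ, Ψ x x * (((M x).choose 2 : ℕ) : R) =
      Ψ x x * (((N x).choose 2 : ℕ) : R) + if x = c then Ψ x c * (N x : R) else 0 := by
    intro x
    rw [hM x]
    by_cases hx : x = c
    · subst hx
      simp only [if_true]
      rw [Nat.choose_succ_succ' (N x) 1, Nat.choose_one_right]
      push_cast
      ring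
    · simp only [hx, if_false, add_zero]
  rw [sum_congr rfl fun x _ => sum_congr rfl fun y _ => h1 x y, sum_congr rfl fun x _ => h2 x]
  simp only [sum_add_distrib]
  have h3 : ∑ x : Γ, ∑ y : Γ, (if y = c then (if x < c then Ψ x c * (N x : R) else 0) else 0) =
      ∑ x : Γ, (if x < c then Ψ x c * (N x : R) else 0) := by
    refine sum_congr rfl fun x _ => ?_
    rw [sum_ite_eq' univ c]
    simp
  have h4 : ∑ x : Γ, ∑ y : Γ, (if x = c then (if c < y then Ψ c y * (N y : R) else 0) else 0) =
      ∑ x : Γ, (if c < x then Ψ c x * (N x : R) else 0) := by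
    rw [sum_comm]
    refine sum_congr rfl fun x _ => ?_
    rw [sum_ite_eq' univ c]
    simp
  have h5 : ∑ x : Γ, Ψ x c * (N x : R) = ∑ x : Γ, (if x < c then Ψ x c * (N x : R) else 0) +
      ∑ x : Γ, (if c < x then Ψ c x * (N x : R) else 0) +
      ∑ x : Γ, (if x = c then Ψ x c * (N x : R) else 0) := by
    rw [← sum_add_distrib, ← sum_add_distrib]
    refine sum_congr rfl fun x _ => ?_
    rcases lt_trichotomy x c with h | h | h
    · simp [h, h.not_gt, h.ne]
    · simp [h]
    · simp [h, h.not_gt, h.ne', hΨ c x]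
  rw [h3, h4, h5]
  ring

/-- sum over pairs in terms of counts -/
theorem count_pairs {R : Type} [CommRing R] {Γ : Type} [Fintype Γ] [LinearOrder Γ] (Y : Finset ℕ)
    (α : ℕ → Γ) (Ψ : Γ → Γ → R) (hΨ : ∀ x y, Ψ x y = Ψ y x) :
    ∑ i ∈ Y, ∑ j ∈ Y, (if i < j then Ψ (α i) (α j) else 0) =
      (∑ x : Γ, ∑ y : Γ, (if x < y then
        Ψ x y * ((Y.filter fun i => α i = x).card * (Y.filter fun i => α i = y).card : ℕ) else 0)) +
      ∑ x : Γ, Ψ x x * (((Y.filter fun i => α i = x).card.choose 2 : ℕ) : R) := by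
  refine Finset.induction_on_max Y ?_ ?_
  · simp
  · intro K Y hK ih
    have hKn : K ∉ Y := fun h => lt_irrefl _ (hK K h)
    have hM : ∀ x, ((insert K Y).filter fun i => α i = x).card =
        (Y.filter fun i => α i = x).card + if x = α K then 1 else 0 := by
      intro x
      rw [filter_insert]
      by_cases h : α K = x
      · rw [if_pos h, if_pos h.symm, card_insert_of_notMem]
        intro h2
        exact hKn (mem_filter.1 h2).1
      · rw [if_neg h, if_neg (fun h2 => h h2.symm), add_zero]
    have h1 := Cnt_step Ψ hΨ (fun x => (Y.filter fun i => α i = x).card)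
      (fun x => ((insert K Y).filter fun i => α i = x).card) (α K) hM
    rw [h1, ← ih]
    rw [sum_insert hKn]
    have h2 : ∑ j ∈ insert K Y, (if K < j then Ψ (α K) (α j) else 0) = 0 := by
      refine sum_eq_zero fun j hj => ?_
      rw [if_neg]
      rcases mem_insert.1 hj with h | h
      · rw [h]
        exact lt_irrefl _
      · exact (hK j h).not_gt
    have h3 : ∑ i ∈ Y, ∑ j ∈ insert K Y, (if i < j then Ψ (α i) (α j) else 0) =
        (∑ i ∈ Y, ∑ j ∈ Y, (if i < j then Ψ (α i) (α j) else 0)) +
        ∑ i ∈ Y, Ψ (α i) (α K) := by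
      rw [← sum_add_distrib]
      refine sum_congr rfl fun i hi => ?_
      rw [sum_insert hKn, if_pos (hK i hi), add_comm]
    rw [h2, h3, zero_add]
    congr 1
    rw [← sum_fiberwise Y α fun i => Ψ (α i) (α K)]
    refine sum_congr rfl fun x _ => ?_
    rw [sum_congr rfl (g := fun _ => Ψ x (α K)), sum_const, nsmul_eq_mul, mul_comm]
    intro i hi
    rw [(mem_filter.1 hi).2]

theorem count_mod {m : ℕ} {a b : ℕ} (h : a % (2 * m) = b % (2 * m)) :
    ((a.choose 2 : ℕ) : ZMod m) = ((b.choose 2 : ℕ) : ZMod m) := by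
  wlog hab : b ≤ a generalizing a b
  · exact (this h.symm (le_of_not_ge hab)).symm
  obtain ⟨k, hk⟩ : 2 * m ∣ a - b := (Nat.modEq_iff_dvd' hab).1 h.symm
  have ha : a = b + 2 * m * k := by omega
  have e0 : ∀ n : ℕ, (2 : ℤ) * ((n.choose 2 : ℕ) : ℤ) = (n : ℤ) * ((n : ℤ) - 1) := by
    intro n
    have e1 : 2 * n.choose 2 = n * (n - 1) := by
      rw [Nat.choose_two_right, Nat.mul_div_cancel' (Nat.even_mul_pred_self _).two_dvd]
    rcases Nat.eq_zero_or_pos n with h0 | h0
    · subst h0
      simp
    · have e2 : ((n - 1 : ℕ) : ℤ) = (n : ℤ) - 1 := by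
        rw [Nat.cast_sub h0]
        simp
      have e3 := congrArg (Nat.cast : ℕ → ℤ) e1
      push_cast at e3
      rw [e3, e2]
  have e1 := e0 a
  have e2 := e0 b
  have ha' : (a : ℤ) = b + 2 * m * k := by
    rw [ha]
    push_cast
    ring
  have e3 : ((a.choose 2 : ℕ) : ℤ) = ((b.choose 2 : ℕ) : ℤ) + (m : ℤ) * (k * (a + b - 1)) := by
    have e4 : (2 : ℤ) * ((a.choose 2 : ℕ) : ℤ) =
        2 * (((b.choose 2 : ℕ) : ℤ) + (m : ℤ) * (k * (a + b - 1))) := by
      rw [e1, mul_add, e2, ha']
      ring
    linarith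
  have e5 := congrArg (Int.cast : ℤ → ZMod m) e3
  push_cast at e5
  rw [e5]
  simp

end Pool.Agent.Lib.MP_3e612f_nt.PI
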