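import Pool.Agent.Lib.MP_3e612f_nt.PI.KLc
import Pool.Agent.Lib.MP_3e612f_nt.PI.Gad
import Pool.Agent.Lib.MP_3e612f_nt.PI.Sp

/-!
The interactions of the gadgets determine the canonical mixed differences.

`Mx_expand` and `Mx_block` are trivial. PROOF of `inj`. Write `t0 = b + D + κ`, so
`q^t0`-shifts stay inside blocks: `t0 + D + 1 ≤ l`. Put
`Gf u v = Mx q f (a+g) (a1+g) u 0 v 0 - Mx q f (a'+g) (a1'+g) u 0 v 0`.
By `Mx_expand` and the equality of the window contents of the shift (so `ut` is the same for `a, a'` and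
for `a1, a1'`), for all `lam, lam' < H`, with `u_t = ut t (a, lam)`, `u_t' = u_t + t q^D`,
`v_t = ut t (a1, lam')`, `v_t' = v_t + t q^D`:
`∑_{t = p, r} η_t (Gf u_t v_t - Gf u_t' v_t - Gf u_t v_t' + Gf u_t' v_t') = 0`  (`η_p = 1, η_r = η`).
STEP 1. Fix `lam'` and apply `kl` to
`Lp u = Gf (u % q^l) v_p - Gf (u % q^l) v_p'`, `Lr u = η • (Gf (u % q^l) v_r - Gf (u % q^l) v_r')`
(split by `split_mx`, all `v`'s are `< q^l`), `σ_t = t x0 + sg`, so that for `x < H`:
`(t x + σ_t) % q^l = ut t (a, x)` and `(t (x + q^D) + σ_t) % q^l = ut t (a,x) + t q^D` (`ut_add`).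
As `m ∣ q^κ`, `(q^κ) • g = 0` in `ZMod m`: `Lp (u + q^t0) = Lp u` if the digit of `u` at `t0` is
`≠ q - 1`. For `u < q^l` with such a digit, `u + q^t0 < q^l`.
STEP 2. Fix such a `u`. By step 1 the function `L' v = Gf (u + q^t0) (v % q^l) - Gf u (v % q^l)`
satisfies `L' (p (x + q^D) + σ') = L' (p x + σ')` for all `x < H` (`σ' = p x0 + sg` for `a1`); by `kl`
with `Lr = 0`, `L' (v + q^t0) = L' v` if the digit of `v` at `t0` is `≠ q-1`.
STEP 3. So `Gf (u+q^t0) (v+q^t0) - Gf u (v+q^t0) - Gf (u+q^t0) v + Gf u v = 0` for all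
`u, v < q^l` with digits `≠ q-1` at `t0`. Sum over `u = (c - c % q + i) q^t0`, `i < c % q`, and
`v = (d - d % q + j) q^t0`, `j < d % q` (all these are `< q^(t0+D+1) ≤ q^l` and have digit `i`, `j`
`< q - 1` at `t0`), and use `Mx_expand` and `Mx_block`.
-/

set_option autoImplicit false

namespace Pool.Agent.Lib.MP_3e612f_nt.PI

private theorem Inj_x0 {q g l : ℕ} {z0 x0 : ℕ → ℕ} (s t A x : ℕ) :
    (t * x + (t * x0 (sa q g l s A) + sg q g t (z0 (sa q g l s A)) (sa q g l s A))) % q ^ l =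
      ut q g l z0 x0 s t (A, x) := by
  show _ = (t * (x0 (sa q g l s A) + x) +
    sg q g t (z0 (sa q g l s A)) (sa q g l s A)) % q ^ l
  congr 1
  ring

private theorem Inj_x1 {q D g l H p r : ℕ} {z0 x0 : ℕ → ℕ} (hq : 2 ≤ q) (hDl : D ≤ l)
    (hG : Gad q D g l H p r z0 x0) {t : ℕ} (ht : t = p ∨ t = r) (s A : ℕ) {x : ℕ} (hx : x < H) :
    (t * (x + q ^ D) + (t * x0 (sa q g l s A) +
      sg q g t (z0 (sa q g l s A)) (sa q g l s A))) % q ^ l =
      ut q g l z0 x0 s t (A, x) + t * q ^ D := by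
  rw [ut_add hq hDl hG ht s (o := (A, x)) hx]
  show _ = (t * (x0 (sa q g l s A) + (x + q ^ D)) +
    sg q g t (z0 (sa q g l s A)) (sa q g l s A)) % q ^ l
  congr 1
  ring

private theorem Inj_zero {m q κ : ℕ} (hm : m ∣ q ^ κ) (x : ZMod m) : (q ^ κ : ℕ) • x = 0 := by
  rw [nsmul_eq_mul, (ZMod.natCast_eq_zero_iff (q ^ κ) m).mpr hm, zero_mul]

/-- double telescoping -/
private theorem Inj_tel {G : Type} [AddCommGroup G] (E : ℕ → ℕ → G) {i0 j0 : ℕ}
    (h : ∀ i < i0, ∀ j < j0, E (i + 1) (j + 1) - E i (j + 1) - E (i + 1) j + E i j = 0) :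
    E i0 j0 - E 0 j0 - E i0 0 + E 0 0 = 0 := by
  have h1 : ∀ i < i0, ∀ j ≤ j0, E (i + 1) j - E i j - E (i + 1) 0 + E i 0 = 0 := by
    intro i hi j
    induction j with
    | zero =>
      intro _
      abel
    | succ j ih =>
      intro hj
      have h2 := ih (by omega)
      have h3 := h i hi j (by omega)
      have h4 : E (i + 1) (j + 1) - E i (j + 1) - E (i + 1) 0 + E i 0 =
          (E (i + 1) (j + 1) - E i (j + 1) - E (i + 1) j + E i j) +
          (E (i + 1) j - E i j - E (i + 1) 0 + E i 0) := by abel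
      rw [h4, h2, h3, add_zero]
  have h5 : ∀ i ≤ i0, E i j0 - E 0 j0 - E i 0 + E 0 0 = 0 := by
    intro i
    induction i with
    | zero =>
      intro _
      abel
    | succ i ih =>
      intro hi
      have h2 := ih (by omega)
      have h3 := h1 i (by omega) j0 le_rfl
      have h4 : E (i + 1) j0 - E 0 j0 - E (i + 1) 0 + E 0 0 =
          (E (i + 1) j0 - E i j0 - E (i + 1) 0 + E i 0) +
          (E i j0 - E 0 j0 - E i 0 + E 0 0) := by abel
      rw [h4, h2, h3, add_zero]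
  exact h5 i0 le_rfl

section
variable {G : Type} [AddCommGroup G]

theorem Mx_expand (q : ℕ) (f : ℕ → G) (A A' u u' v v' : ℕ) :
    Mx q f A A' u u' v v' =
      Mx q f A A' u 0 v 0 - Mx q f A A' u' 0 v 0 - Mx q f A A' u 0 v' 0 + Mx q f A A' u' 0 v' 0 := by
  unfold Mx
  simp only [Nat.zero_mul, Nat.zero_add, Nat.add_zero]
  abel

theorem Mx_block (q : ℕ) (f : ℕ → G) (A A' t u u' v v' : ℕ) :
    Mx q f A A' (u * q ^ t) (u' * q ^ t) (v * q ^ t) (v' * q ^ t) =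
      Mx q f (A + t) (A' + t) u u' v v' := by
  have h : ∀ x B : ℕ, x * q ^ t * q ^ B = x * q ^ (B + t) := fun x B => by
    rw [pow_add]
    ring
  unfold Mx
  simp only [h]

theorem Mx_symm (q : ℕ) (f : ℕ → G) (A A' u u' v v' : ℕ) :
    Mx q f A A' u u' v v' = Mx q f A' A v v' u u' := by
  unfold Mx
  rw [add_comm (v * q ^ A') (u * q ^ A), add_comm (v' * q ^ A') (u * q ^ A),
    add_comm (v * q ^ A') (u' * q ^ A), add_comm (v' * q ^ A') (u' * q ^ A)]
  abel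

theorem Bv_symm (q D g l : ℕ) (z0 x0 : ℕ → ℕ) (s p r : ℕ) (f : ℕ → G) (η : ℤ) (o o' : ℕ × ℕ) :
    Bv q D g l z0 x0 s p r f η o o' = Bv q D g l z0 x0 s p r f η o' o := by
  unfold Bv
  rw [Mx_symm q f (o.1 + g) (o'.1 + g) (ut q g l z0 x0 s p o),
    Mx_symm q f (o.1 + g) (o'.1 + g) (ut q g l z0 x0 s r o)]

end

theorem inj {q D κ m g l H p r b : ℕ} {z0 x0 : ℕ → ℕ} (hq : 2 ≤ q) (hm : m ∣ q ^ κ)
    (hp : p.Prime) (hpq : p.Coprime q) (hpr : p.Coprime r) (hr : 0 < r)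
    (hb1 : 2 * p * r ≤ q ^ b) (hb2 : 2 * p * q ^ D ≤ q ^ b) (hb3 : 2 * r * q ^ D ≤ q ^ b)
    (hH : q ^ (b + 3 * D + κ + 3) ≤ H) (hl : b + 2 * D + κ + 1 ≤ l)
    (hG : Gad q D g l H p r z0 x0) (L s : ℕ) (F : ℕ → ℕ → ℕ → ℕ → ZMod m) (η : ℤ)
    {a a1 a' a1' : ℕ} (hsep : a + (g + l) + D ≤ a1 ∨ a1 + (g + l) + D ≤ a)
    (hsep' : a' + (g + l) + D ≤ a1' ∨ a1' + (g + l) + D ≤ a')
    (hsa : sa q g l s a = sa q g l s a') (hsa1 : sa q g l s a1 = sa q g l s a1')
    (hB : ∀ lam < H, ∀ lam' < H,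
      Bv q D g l z0 x0 s p r (ph q D L F) η (a, lam) (a1, lam') =
        Bv q D g l z0 x0 s p r (ph q D L F) η (a', lam) (a1', lam'))
    {c d : ℕ} (hc : c < q ^ (D + 1)) (hd : d < q ^ (D + 1)) :
    Rf q (ph q D L F) (a + (g + b + D + κ)) (a1 + (g + b + D + κ)) c d =
      Rf q (ph q D L F) (a' + (g + b + D + κ)) (a1' + (g + b + D + κ)) c d := by
  obtain ⟨f, hf⟩ : ∃ f, f = ph q D L F := ⟨_, rfl⟩
  rw [← hf] at hB ⊢
  have hDl : D ≤ l := by omega
  obtain ⟨t0, ht0⟩ : ∃ t0, t0 = b + D + κ := ⟨_, rfl⟩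
  have hq0 : 0 < q := by omega
  obtain ⟨Gf, hGf⟩ : ∃ Gf : ℕ → ℕ → ZMod m, Gf = fun u v =>
    Mx q f (a + g) (a1 + g) u 0 v 0 - Mx q f (a' + g) (a1' + g) u 0 v 0 := ⟨_, rfl⟩
  have hs1 : (a + g) + l + D ≤ a1 + g ∨ (a1 + g) + l + D ≤ a + g := by omega
  have hs2 : (a' + g) + l + D ≤ a1' + g ∨ (a1' + g) + l + D ≤ a' + g := by omega
  have hSu : ∀ v < q ^ l, Split q D (fun u => Gf (u % q ^ l) v) := by
    intro v hv
    rw [hGf, hf]
    exact (split_mx hq hs1 L F hv).sub (split_mx hq hs2 L F hv)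
  have hSv : ∀ u < q ^ l, Split q D (fun v => Gf u (v % q ^ l)) := by
    intro u hu
    rw [hGf, hf]
    exact (split_mx' hq hs1 L F hu).sub (split_mx' hq hs2 L F hu)
  have hut : ∀ t lam, ut q g l z0 x0 s t (a', lam) = ut q g l z0 x0 s t (a, lam) := by
    intro t lam
    show (t * (x0 (sa q g l s a') + lam) + sg q g t (z0 (sa q g l s a')) (sa q g l s a')) % q ^ l =
      (t * (x0 (sa q g l s a) + lam) + sg q g t (z0 (sa q g l s a)) (sa q g l s a)) % q ^ l
    rw [hsa]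
  have hut1 : ∀ t lam, ut q g l z0 x0 s t (a1', lam) = ut q g l z0 x0 s t (a1, lam) := by
    intro t lam
    show (t * (x0 (sa q g l s a1') + lam) +
        sg q g t (z0 (sa q g l s a1')) (sa q g l s a1')) % q ^ l =
      (t * (x0 (sa q g l s a1) + lam) + sg q g t (z0 (sa q g l s a1)) (sa q g l s a1)) % q ^ l
    rw [hsa1]
  have hkey : ∀ lam < H, ∀ lam' < H, ∀ Up Vp Ur Vr : ℕ, Up = ut q g l z0 x0 s p (a, lam) →
      Vp = ut q g l z0 x0 s p (a1, lam') → Ur = ut q g l z0 x0 s r (a, lam) →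
      Vr = ut q g l z0 x0 s r (a1, lam') →
      (Gf Up Vp - Gf (Up + p * q ^ D) Vp - Gf Up (Vp + p * q ^ D) +
        Gf (Up + p * q ^ D) (Vp + p * q ^ D)) +
      η • (Gf Ur Vr - Gf (Ur + r * q ^ D) Vr - Gf Ur (Vr + r * q ^ D) +
        Gf (Ur + r * q ^ D) (Vr + r * q ^ D)) = 0 := by
    intro lam hlam lam' hlam' Up Vp Ur Vr hUp hVp hUr hVr
    have h := hB lam hlam lam' hlam'
    unfold Bv at h
    rw [hut, hut, hut1, hut1, ← hUp, ← hVp, ← hUr, ← hVr] at h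
    have e1 := Mx_expand q f (a + g) (a1 + g) Up (Up + p * q ^ D) Vp (Vp + p * q ^ D)
    have e2 := Mx_expand q f (a + g) (a1 + g) Ur (Ur + r * q ^ D) Vr (Vr + r * q ^ D)
    have e3 := Mx_expand q f (a' + g) (a1' + g) Up (Up + p * q ^ D) Vp (Vp + p * q ^ D)
    have e4 := Mx_expand q f (a' + g) (a1' + g) Ur (Ur + r * q ^ D) Vr (Vr + r * q ^ D)
    simp only [] at h
    rw [e1, e2, e3, e4] at h
    rw [hGf]
    simp only [zsmul_eq_mul] at h ⊢
    linear_combination h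
  have step1 : ∀ lam' < H, ∀ u < q ^ l, u / q ^ t0 % q ≠ q - 1 →
      Gf (u + q ^ t0) (ut q g l z0 x0 s p (a1, lam')) -
        Gf (u + q ^ t0) (ut q g l z0 x0 s p (a1, lam') + p * q ^ D) =
      Gf u (ut q g l z0 x0 s p (a1, lam')) -
        Gf u (ut q g l z0 x0 s p (a1, lam') + p * q ^ D) := by
    intro lam' hlam' u hu hd
    obtain ⟨Vp, hVp⟩ : ∃ Vp, Vp = ut q g l z0 x0 s p (a1, lam') := ⟨_, rfl⟩
    obtain ⟨Vr, hVr⟩ : ∃ Vr, Vr = ut q g l z0 x0 s r (a1, lam') := ⟨_, rfl⟩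
    rw [← hVp]
    have hVp1 : Vp < q ^ l := by rw [hVp]; exact ut_lt hq s p _
    have hVr1 : Vr < q ^ l := by rw [hVr]; exact ut_lt hq s r _
    have hVp2 : Vp + p * q ^ D < q ^ l := by
      rw [hVp]
      exact ut_add_lt hq hDl hG (Or.inl rfl) s hlam'
    have hVr2 : Vr + r * q ^ D < q ^ l := by
      rw [hVr]
      exact ut_add_lt hq hDl hG (Or.inr rfl) s hlam'
    obtain ⟨g0, hg0⟩ := kl (κ := κ) hq hp hpq hpr hr hb1 hb2 hb3
      (Lp := fun u => Gf (u % q ^ l) Vp - Gf (u % q ^ l) (Vp + p * q ^ D))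
      (Lr := fun u => η • (Gf (u % q ^ l) Vr - Gf (u % q ^ l) (Vr + r * q ^ D)))
      ((hSu _ hVp1).sub (hSu _ hVp2)) (((hSu _ hVr1).sub (hSu _ hVr2)).zsmul η)
      (σp := p * x0 (sa q g l s a) + sg q g p (z0 (sa q g l s a)) (sa q g l s a))
      (σr := r * x0 (sa q g l s a) + sg q g r (z0 (sa q g l s a)) (sa q g l s a)) hH (by
        intro x hx
        have h := hkey x hx lam' hlam' _ _ _ _ rfl hVp rfl hVr
        show (Gf ((p * (x + q ^ D) + _) % q ^ l) Vp - Gf ((p * (x + q ^ D) + _) % q ^ l) _) +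
            η • (Gf ((r * (x + q ^ D) + _) % q ^ l) Vr - Gf ((r * (x + q ^ D) + _) % q ^ l) _) =
          (Gf ((p * x + _) % q ^ l) Vp - Gf ((p * x + _) % q ^ l) _) +
            η • (Gf ((r * x + _) % q ^ l) Vr - Gf ((r * x + _) % q ^ l) _)
        rw [Inj_x1 hq hDl hG (Or.inl rfl) s a hx, Inj_x1 hq hDl hG (Or.inr rfl) s a hx,
          Inj_x0, Inj_x0]
        simp only [zsmul_eq_mul] at h ⊢
        linear_combination -h)
    have h := hg0 κ le_rfl u (by rw [← ht0]; exact hd)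
    rw [Inj_zero hm, ← ht0, sub_eq_zero] at h
    have hul : u + q ^ t0 < q ^ l := by
      have h3 : q ^ l = q ^ (l - t0) * q ^ t0 := by
        rw [← pow_add]
        congr 1
        omega
      have h4 : u / q ^ t0 < q ^ (l - t0) := by
        rw [Nat.div_lt_iff_lt_mul (Nat.pow_pos hq0), ← h3]
        exact hu
      have h5 : u / q ^ t0 + 1 ≠ q ^ (l - t0) := by
        intro h6
        apply hd
        have h7 : q ∣ q ^ (l - t0) := dvd_pow_self q (by omega)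
        obtain ⟨w, hw⟩ := h7
        have h8 : u / q ^ t0 = q * w - 1 := by
          rw [← hw, ← h6, Nat.add_sub_cancel]
        have hw0 : 0 < w := by
          rcases Nat.eq_zero_or_pos w with h9 | h9
          · rw [h9] at hw
            simp at hw
            omega
          · exact h9
        obtain ⟨w', rfl⟩ : ∃ w', w = w' + 1 := ⟨w - 1, by omega⟩
        have h9 : q * (w' + 1) - 1 = (q - 1) + q * w' := by
          rw [Nat.mul_add, Nat.mul_one]
          omega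
        rw [h8, h9, Nat.add_mul_mod_self_left, Nat.mod_eq_of_lt (by omega)]
      have h6 : u / q ^ t0 + 1 + 1 ≤ q ^ (l - t0) := by omega
      have h7 : u < (u / q ^ t0 + 1) * q ^ t0 := by
        have := Nat.lt_div_mul_add (a := u) (b := q ^ t0) (Nat.pow_pos hq0)
        rw [Nat.add_mul, Nat.one_mul]
        exact this
      calc u + q ^ t0 < (u / q ^ t0 + 1) * q ^ t0 + q ^ t0 := by omega
        _ = (u / q ^ t0 + 1 + 1) * q ^ t0 := by ring
        _ ≤ q ^ (l - t0) * q ^ t0 := Nat.mul_le_mul_right _ h6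
        _ = q ^ l := h3.symm
    simp only [Nat.mod_eq_of_lt hul, Nat.mod_eq_of_lt hu] at h
    exact h
  have step3 : ∀ u < q ^ l, u / q ^ t0 % q ≠ q - 1 → u + q ^ t0 < q ^ l →
      ∀ v < q ^ l, v / q ^ t0 % q ≠ q - 1 → v + q ^ t0 < q ^ l →
      Gf (u + q ^ t0) (v + q ^ t0) - Gf u (v + q ^ t0) - Gf (u + q ^ t0) v + Gf u v = 0 := by
    intro u hu hud hul v hv hvd hvl
    obtain ⟨g0, hg0⟩ := kl (κ := κ) hq hp hpq hpr hr hb1 hb2 hb3
      (Lp := fun v => Gf (u + q ^ t0) (v % q ^ l) - Gf u (v % q ^ l))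
      (Lr := fun _ => 0)
      ((hSv _ hul).sub (hSv _ hu)) (Split.const 0)
      (σp := p * x0 (sa q g l s a1) + sg q g p (z0 (sa q g l s a1)) (sa q g l s a1))
      (σr := 0) hH (by
        intro x hx
        have h := step1 x hx u hu hud
        show (Gf (u + q ^ t0) ((p * (x + q ^ D) + _) % q ^ l) -
            Gf u ((p * (x + q ^ D) + _) % q ^ l)) + 0 =
          (Gf (u + q ^ t0) ((p * x + _) % q ^ l) - Gf u ((p * x + _) % q ^ l)) + 0
        rw [Inj_x1 hq hDl hG (Or.inl rfl) s a1 hx, Inj_x0]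
        linear_combination -h)
    have h := hg0 κ le_rfl v (by rw [← ht0]; exact hvd)
    rw [Inj_zero hm, ← ht0] at h
    simp only [Nat.mod_eq_of_lt hvl, Nat.mod_eq_of_lt hv] at h
    linear_combination h
  have hdig : ∀ {e : ℕ}, e < q ^ (D + 1) → ∀ i < e % q,
      (e - e % q + i) * q ^ t0 < q ^ l ∧ (e - e % q + i) * q ^ t0 / q ^ t0 % q ≠ q - 1 ∧
      (e - e % q + i) * q ^ t0 + q ^ t0 < q ^ l := by
    intro e he i hi
    have hmod : e % q < q := Nat.mod_lt e hq0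
    have hle : e % q ≤ e := Nat.mod_le e q
    have h1 : e - e % q + i + 1 ≤ e := by omega
    have hpow : q ^ (D + 1) * q ^ t0 ≤ q ^ l := by
      rw [← pow_add]
      exact Nat.pow_le_pow_right hq0 (by omega)
    have h2 : (e - e % q + i + 1) * q ^ t0 < q ^ (D + 1) * q ^ t0 :=
      Nat.mul_lt_mul_of_pos_right (by omega) (Nat.pow_pos hq0)
    have h3 : (e - e % q + i + 1) * q ^ t0 = (e - e % q + i) * q ^ t0 + q ^ t0 := by ring
    refine ⟨by omega, ?_, by omega⟩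
    rw [Nat.mul_div_cancel _ (Nat.pow_pos hq0)]
    have h4 : e - e % q = q * (e / q) := by
      have := Nat.div_add_mod e q
      omega
    rw [h4, Nat.mul_add_mod, Nat.mod_eq_of_lt (by omega)]
    omega
  have htel := Inj_tel (fun i j => Gf ((c - c % q + i) * q ^ t0) ((d - d % q + j) * q ^ t0))
    (i0 := c % q) (j0 := d % q) (by
      intro i hi j hj
      obtain ⟨u1, u2, u3⟩ := hdig hc i hi
      obtain ⟨v1, v2, v3⟩ := hdig hd j hj
      have h := step3 _ u1 u2 u3 _ v1 v2 v3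
      have e1 : (c - c % q + i) * q ^ t0 + q ^ t0 = (c - c % q + (i + 1)) * q ^ t0 := by ring
      have e2 : (d - d % q + j) * q ^ t0 + q ^ t0 = (d - d % q + (j + 1)) * q ^ t0 := by ring
      rw [e1, e2] at h
      exact h)
  have ec : c - c % q + c % q = c := Nat.sub_add_cancel (Nat.mod_le c q)
  have ed : d - d % q + d % q = d := Nat.sub_add_cancel (Nat.mod_le d q)
  simp only [ec, ed, Nat.add_zero] at htel
  have hR : ∀ A A1 : ℕ, Rf q f (A + (g + b + D + κ)) (A1 + (g + b + D + κ)) c d =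
      Mx q f (A + g) (A1 + g) (c * q ^ t0) ((c - c % q) * q ^ t0) (d * q ^ t0)
        ((d - d % q) * q ^ t0) := by
    intro A A1
    rw [Mx_block]
    unfold Rf
    have e1 : A + (g + b + D + κ) = A + g + t0 := by omega
    have e2 : A1 + (g + b + D + κ) = A1 + g + t0 := by omega
    rw [e1, e2]
  rw [hR, hR, Mx_expand q f (a + g) (a1 + g) (c * q ^ t0), Mx_expand q f (a' + g) (a1' + g)
    (c * q ^ t0)]
  rw [hGf] at htel
  linear_combination htel

end Pool.Agent.Lib.MP_3e612f_nt.PI
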