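import Pool.Agent.Lib.MP_3e612f_nt.PI.Can
import Pool.Agent.Lib.MP_3e612f_nt.PI.Cnt
import Pool.Agent.Lib.MP_3e612f_nt.PI.Lc
import Pool.Agent.Lib.MP_3e612f_nt.PI.Inj

/-!
If the canonical mixed differences at far positions only depend on boundedly many types, outside a
bounded set of positions, then the phase is a function of boundedly many phases without interactions.

PROOF. `M = 2 m q^(D+1)`. Write `R i j = Rf q f i j`, `f = ph q D L F`, `w i = wd q D i n`,
`L' = L + D`. By `canonical`, `f n = loc + ∑_{i, j < L', i + Δ < j} R i j (w i) (w j)`. Split the pairs: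
(a) `i ∈ X`: the sum is `∑_{i ∈ X, i < L'} S i (w i) n` with `S i c n = ∑_{j < L', i + Δ < j} R i j c (w j)`,
for each `c < q^(D+1)` a phase without interactions; (b) `i ∉ X`, `j ∈ X`: the same with
`S' j d n = ∑_{i < L', i ∉ X, i + Δ < j} R i j (w i) d`; (c) both outside `X`. Define `Ψ` on
`Γ = Fin t × Fin (q^(D+1))` by `Ψ (τ, c) (τ', d) = R i j c d` for any far pair `i, j < L'`, `∉ X`,
`T i = τ`, `T j = τ'` if there is one, and `0` otherwise. It is well defined by the hypothesis, and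
symmetric, since `R i j c d = R j i d c`. So with `α i = (T i, w i)` the sum (c) is
`∑_{i < j} Ψ (α i) (α j) - ∑_{i < j ≤ i + Δ} Ψ (α i) (α j)` over `i, j ∈ Y = range L' \ X`; the second
sum is a phase without interactions with windows of `Δ + D + 1` digits, and the first one is a function of the
counts `N_γ(n) = #{i ∈ Y | α i = γ}` modulo `2m` by `count_pairs`, `count_mod` (each `N_γ` is a phase
without interactions with values in `ZMod M`).
The family: the `wd q D i n` for `i ∈ X` (as elements of `ZMod M`, `M ≥ q^(D+1)`), the counts `N_γ` in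
`ZMod M`, and lifts to `ZMod M` of the `ZMod m`-valued phases `S i c`, `S' j d` (`i, j ∈ X`,
`c, d < q^(D+1)`) and of the two phases without interactions; a `ZMod m`-valued phase `loc q D L c` is
lifted by lifting the values of `c` (`x ↦ (x.val : ZMod M)`), and `ZMod.castHom` maps the lift back.
Number of members: `t q^(D+1) + 2 e q^(D+1) + e + 2`. Windows of `D + 1` digits are replaced by windows of
`Δ + D + 1` digits with `IsLoc.mono`. The index type can be
`Γ ⊕ (X × Fin (q^(D+1))) ⊕ (X × Fin (q^(D+1))) ⊕ X ⊕ Fin 2`.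
-/

set_option autoImplicit false

namespace Pool.Agent.Lib.MP_3e612f_nt.PI

open Finset

theorem lift_loc {q m M : ℕ} [NeZero m] [NeZero M] (hmM : m ∣ M) {D : ℕ} {f : ℕ → ZMod m}
    (hf : IsLoc q D f) :
    ∃ f' : ℕ → ZMod M, IsLoc q D f' ∧ ∀ n n', f' n = f' n' → f n = f n' := by
  obtain ⟨L, c, rfl⟩ := hf
  refine ⟨loc q D L (fun i w => (((c i w).val : ℕ) : ZMod M)), ⟨L, _, rfl⟩, ?_⟩
  have key : ∀ n, loc q D L c n =
      ZMod.castHom hmM (ZMod m) (loc q D L (fun i w => (((c i w).val : ℕ) : ZMod M)) n) := by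
    intro n
    unfold loc
    rw [map_sum]
    refine Finset.sum_congr rfl fun i _ => ?_
    rw [map_natCast, ZMod.natCast_zmod_val]
  intro n n' h
  rw [key n, key n', h]

theorem Str_wd_lt {q D i n : ℕ} (hq : 2 ≤ q) : wd q D i n < q ^ (D + 1) :=
  Nat.mod_lt _ (pow_pos (by omega) _)

theorem Str_wd {q D D' i j n : ℕ} (hij : i ≤ j) (hD : j - i + D ≤ D') :
    wd q D j n = wd q D' i n / q ^ (j - i) % q ^ (D + 1) := by
  unfold wd
  obtain ⟨k, rfl⟩ : ∃ k, j = i + k := ⟨j - i, by omega⟩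
  obtain ⟨e, rfl⟩ : ∃ e, D' = k + D + e := ⟨D' - (k + D), by omega⟩
  have h1 : i + k - i = k := by omega
  rw [h1]
  have h2 : q ^ (k + D + e + 1) = q ^ k * q ^ (D + 1 + e) := by
    rw [← pow_add]
    congr 1
    omega
  rw [h2, Nat.mod_mul_right_div_self, pow_add q (D + 1) e, Nat.mod_mul_right_mod, pow_add q i k,
    Nat.div_div_eq_div_mul]

theorem Str_Rf_symm {G : Type} [AddCommGroup G] (q : ℕ) (f : ℕ → G) (i j c d : ℕ) :
    Rf q f i j c d = Rf q f j i d c := by
  unfold Rf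
  rw [Mx_symm]

/-- phases with values `0` or `1` counting positions -/
theorem Str_loc_of {G : Type} [AddCommGroup G] {q D : ℕ} (L : ℕ) (c : ℕ → ℕ → G) (f : ℕ → G)
    (h : ∀ n, f n = ∑ i ∈ range L, c i (wd q D i n)) : IsLoc q D f :=
  ⟨L, c, funext h⟩

section

variable {m : ℕ} (L' : ℕ) (X : Finset ℕ)

/-- splitting of the pairs -/
theorem Str_split (G : ℕ → ℕ → ZMod m) :
    ∑ i ∈ range L', ∑ j ∈ range L', G i j =
      (∑ i ∈ range L', if i ∈ X then ∑ j ∈ range L', G i j else 0) +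
      (∑ j ∈ range L', if j ∈ X then ∑ i ∈ range L', (if i ∉ X then G i j else 0) else 0) +
      ∑ i ∈ (range L').filter (fun i => i ∉ X), ∑ j ∈ (range L').filter (fun j => j ∉ X), G i j := by
  have h2 : (∑ j ∈ range L', if j ∈ X then ∑ i ∈ range L', (if i ∉ X then G i j else 0) else 0) =
      ∑ i ∈ range L', ∑ j ∈ range L', if i ∉ X ∧ j ∈ X then G i j else 0 := by
    rw [Finset.sum_comm]
    refine Finset.sum_congr rfl fun j _ => ?_
    by_cases hj : j ∈ X
    · rw [if_pos hj]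
      refine Finset.sum_congr rfl fun i _ => ?_
      by_cases hi : i ∈ X <;> simp [hi, hj]
    · rw [if_neg hj]
      symm
      refine Finset.sum_eq_zero fun i _ => ?_
      simp [hj]
  have h3 : ∑ i ∈ (range L').filter (fun i => i ∉ X),
      ∑ j ∈ (range L').filter (fun j => j ∉ X), G i j =
      ∑ i ∈ range L', ∑ j ∈ range L', if i ∉ X ∧ j ∉ X then G i j else 0 := by
    rw [Finset.sum_filter]
    refine Finset.sum_congr rfl fun i _ => ?_
    by_cases hi : i ∈ X
    · rw [if_neg (by simpa using hi)]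
      symm
      refine Finset.sum_eq_zero fun j _ => ?_
      simp [hi]
    · rw [if_pos hi, Finset.sum_filter]
      refine Finset.sum_congr rfl fun j _ => ?_
      simp [hi]
  rw [h2, h3, ← Finset.sum_add_distrib, ← Finset.sum_add_distrib]
  refine Finset.sum_congr rfl fun i _ => ?_
  by_cases hi : i ∈ X
  · simp [hi]
  · rw [if_neg hi, zero_add, ← Finset.sum_add_distrib]
    refine Finset.sum_congr rfl fun j _ => ?_
    by_cases hj : j ∈ X <;> simp [hi, hj]

end

theorem Str_countL {m : ℕ} [NeZero m] {Γ : Type} [Fintype Γ] [LinearOrder Γ] (Y : Finset ℕ)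
    (Ψ : Γ → Γ → ZMod m) (hΨ : ∀ x y, Ψ x y = Ψ y x) (α α' : ℕ → Γ)
    (h1 : ∀ γ, (Y.filter fun i => α i = γ).card % (2 * m) =
      (Y.filter fun i => α' i = γ).card % (2 * m)) :
    ∑ i ∈ Y, ∑ j ∈ Y, (if i < j then Ψ (α i) (α j) else 0) =
      ∑ i ∈ Y, ∑ j ∈ Y, (if i < j then Ψ (α' i) (α' j) else 0) := by
  have h2 : ∀ γ, (((Y.filter fun i => α i = γ).card : ℕ) : ZMod m) =
      (((Y.filter fun i => α' i = γ).card : ℕ) : ZMod m) := by
    intro γ
    rw [ZMod.natCast_eq_natCast_iff']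
    have := congrArg (· % m) (h1 γ)
    simpa [Nat.mod_mul_left_mod] using this
  rw [count_pairs Y α Ψ hΨ, count_pairs Y α' Ψ hΨ]
  congr 1
  · refine Finset.sum_congr rfl fun x _ => Finset.sum_congr rfl fun y _ => ?_
    rw [Nat.cast_mul, Nat.cast_mul, h2 x, h2 y]
  · refine Finset.sum_congr rfl fun x _ => ?_
    rw [count_mod (h1 x)]

theorem Str_count {m : ℕ} [NeZero m] {Γ : Type} [Fintype Γ] [DecidableEq Γ] (Y : Finset ℕ)
    (Ψ : Γ → Γ → ZMod m) (hΨ : ∀ x y, Ψ x y = Ψ y x) (α α' : ℕ → Γ)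
    (h : ∀ γ, (Y.filter fun i => α i = γ).card % (2 * m) =
      (Y.filter fun i => α' i = γ).card % (2 * m)) :
    ∑ i ∈ Y, ∑ j ∈ Y, (if i < j then Ψ (α i) (α j) else 0) =
      ∑ i ∈ Y, ∑ j ∈ Y, (if i < j then Ψ (α' i) (α' j) else 0) := by
  let _ : LinearOrder Γ := LinearOrder.lift' (Fintype.equivFin Γ) (Fintype.equivFin Γ).injective
  exact Str_countL Y Ψ hΨ α α' (fun γ => by convert h γ)

theorem struct {q m : ℕ} [NeZero m] (hq : 2 ≤ q) (D L Δ e t : ℕ) (hΔ : 2 * D ≤ Δ) (hΔ1 : 1 ≤ Δ)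
    (F : ℕ → ℕ → ℕ → ℕ → ZMod m) (X : Finset ℕ) (hX : X.card ≤ e) (T : ℕ → Fin t)
    (hT : ∀ i j i' j' : ℕ, (i < L + D ∧ i ∉ X) → (j < L + D ∧ j ∉ X) → (i' < L + D ∧ i' ∉ X) →
      (j' < L + D ∧ j' ∉ X) → (i + Δ ≤ j ∨ j + Δ ≤ i) → (i' + Δ ≤ j' ∨ j' + Δ ≤ i') →
      T i = T i' → T j = T j' → ∀ c < q ^ (D + 1), ∀ d < q ^ (D + 1),
        Rf q (ph q D L F) i j c d = Rf q (ph q D L F) i' j' c d) :
    ∃ (ι : Type) (_ : Fintype ι), Fintype.card ι ≤ t * q ^ (D + 1) + 2 * e * q ^ (D + 1) + e + 2 ∧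
      ∃ h : ι → ℕ → ZMod (2 * m * q ^ (D + 1)), (∀ k, IsLoc q (Δ + D) (h k)) ∧
        ∀ n n', (∀ k, h k n = h k n') → ph q D L F n = ph q D L F n' := by
  classical
  obtain ⟨c0, hcan⟩ := canonical hq D L Δ hΔ F
  set f : ℕ → ZMod m := ph q D L F with hf
  set L' := L + D with hL'
  set k := q ^ (D + 1) with hk
  have hk0 : 0 < k := pow_pos (by omega) _
  have hm0 : 0 < m := Nat.pos_of_ne_zero (NeZero.ne m)
  have : NeZero (2 * m * k) := ⟨by positivity⟩
  have hmM : m ∣ 2 * m * k := ⟨2 * k, by ring⟩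
  let Γ := Fin t × Fin k
  set Y : Finset ℕ := (range L').filter (fun i => i ∉ X) with hY
  have hYmem : ∀ {i}, i ∈ Y ↔ i < L' ∧ i ∉ X := by
    intro i
    rw [hY, Finset.mem_filter, Finset.mem_range]
  let far : ℕ → ℕ → Prop := fun i j => i + Δ ≤ j ∨ j + Δ ≤ i
  let good : Fin t → Fin t → Prop := fun τ τ' => ∃ p : ℕ × ℕ, p.1 ∈ Y ∧ p.2 ∈ Y ∧ far p.1 p.2 ∧
    T p.1 = τ ∧ T p.2 = τ'
  let Ψ : Γ → Γ → ZMod m := fun x y =>
    if h : good x.1 y.1 then Rf q f h.choose.1 h.choose.2 x.2 y.2 else 0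
  have hΨ : ∀ {i j : ℕ}, i ∈ Y → j ∈ Y → far i j → ∀ (c d : ℕ) (hc : c < k) (hd : d < k),
      Rf q f i j c d = Ψ (T i, ⟨c, hc⟩) (T j, ⟨d, hd⟩) := by
    intro i j hi hj hij c d hc hd
    have hg : good (T i) (T j) := ⟨(i, j), hi, hj, hij, rfl, rfl⟩
    have hs := hg.choose_spec
    show _ = if h : good (T i) (T j) then Rf q f h.choose.1 h.choose.2 c d else 0
    rw [dif_pos hg]
    exact hT i j _ _ (hYmem.1 hi) (hYmem.1 hj) (hYmem.1 hs.1) (hYmem.1 hs.2.1) hij hs.2.2.1
      hs.2.2.2.1.symm hs.2.2.2.2.symm c hc d hd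
  have hΨs : ∀ x y, Ψ x y = Ψ y x := by
    intro x y
    by_cases hg : good x.1 y.1
    · have hs := hg.choose_spec
      set p := hg.choose with hp
      have hfar : far p.2 p.1 := Or.symm hs.2.2.1
      have h1 := hΨ hs.1 hs.2.1 hs.2.2.1 x.2 y.2 x.2.2 y.2.2
      have h2 := hΨ hs.2.1 hs.1 hfar y.2 x.2 y.2.2 x.2.2
      have e1 : ((T p.1, ⟨(x.2 : ℕ), x.2.2⟩) : Γ) = x := Prod.ext hs.2.2.2.1 rfl
      have e2 : ((T p.2, ⟨(y.2 : ℕ), y.2.2⟩) : Γ) = y := Prod.ext hs.2.2.2.2 rfl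
      rw [e1, e2] at h1
      rw [e1, e2] at h2
      rw [← h1, ← h2, Str_Rf_symm]
    · have hg' : ¬ good y.1 x.1 := by
        rintro ⟨p, h1, h2, h3, h4, h5⟩
        exact hg ⟨(p.2, p.1), h2, h1, Or.symm h3, h5, h4⟩
      show (if h : good x.1 y.1 then _ else 0) = (if h : good y.1 x.1 then _ else 0)
      rw [dif_neg hg, dif_neg hg']
  let α : ℕ → ℕ → Γ := fun n i => (T i, ⟨wd q D i n, Str_wd_lt hq⟩)
  -- the phases
  let S : ℕ → ℕ → ℕ → ZMod m := fun i c n =>
    ∑ j ∈ range L', if i + Δ < j then Rf q f i j c (wd q D j n) else 0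
  let S' : ℕ → ℕ → ℕ → ZMod m := fun j d n =>
    ∑ i ∈ range L', if i ∉ X then (if i + Δ < j then Rf q f i j (wd q D i n) d else 0) else 0
  let N : Γ → ℕ → ℕ := fun γ n => (Y.filter fun i => α n i = γ).card
  let Nr : ℕ → ZMod m := fun n =>
    ∑ i ∈ Y, ∑ j ∈ Y, if i < j ∧ ¬ i + Δ < j then Ψ (α n i) (α n j) else 0
  -- decomposition
  have hdec : ∀ n, f n = loc q (Δ + D) L' c0 n +
      ((∑ i ∈ range L', if i ∈ X then S i (wd q D i n) n else 0) +
      (∑ j ∈ range L', if j ∈ X then S' j (wd q D j n) n else 0) +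
      ((∑ i ∈ Y, ∑ j ∈ Y, (if i < j then Ψ (α n i) (α n j) else 0)) - Nr n)) := by
    intro n
    rw [hcan n, Str_split L' X]
    have h3 : ∑ i ∈ Y, ∑ j ∈ Y,
        (if i + Δ < j then Rf q f i j (wd q D i n) (wd q D j n) else 0) =
        (∑ i ∈ Y, ∑ j ∈ Y, (if i < j then Ψ (α n i) (α n j) else 0)) - Nr n := by
      rw [eq_sub_iff_add_eq]
      · show _ + (∑ i ∈ Y, ∑ j ∈ Y, if i < j ∧ ¬ i + Δ < j then Ψ (α n i) (α n j) else 0) = _
        rw [← Finset.sum_add_distrib]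
        refine Finset.sum_congr rfl fun i hi => ?_
        rw [← Finset.sum_add_distrib]
        refine Finset.sum_congr rfl fun j hj => ?_
        by_cases h : i + Δ < j
        · have hij : i < j := by omega
          rw [if_pos h, if_neg (by simp [h]), if_pos hij, add_zero]
          exact hΨ hi hj (Or.inl h.le) _ _ (Str_wd_lt hq) (Str_wd_lt hq)
        · rw [if_neg h, zero_add]
          by_cases hij : i < j
          · rw [if_pos ⟨hij, h⟩, if_pos hij]
          · rw [if_neg (by simp [hij]), if_neg hij]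
    rw [h3]
  -- all members are phases without interactions
  have hmon : ∀ {G : Type} [AddCommGroup G] {g : ℕ → G}, IsLoc q D g → IsLoc q (Δ + D) g :=
    fun hg => hg.mono hq (by omega)
  have hS : ∀ i c, IsLoc q (Δ + D) (S i c) := fun i c =>
    hmon ⟨L', fun j w => if i + Δ < j then Rf q f i j c w else 0, rfl⟩
  have hS' : ∀ j d, IsLoc q (Δ + D) (S' j d) := fun j d =>
    hmon ⟨L', fun i w => if i ∉ X then (if i + Δ < j then Rf q f i j w d else 0) else 0, rfl⟩
  have hNr : IsLoc q (Δ + D) Nr := by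
    refine Str_loc_of L' (fun i W => if i ∉ X then ∑ j ∈ Y, (if i < j ∧ ¬ i + Δ < j then
      Ψ (T i, ⟨W % q ^ (D + 1), Nat.mod_lt _ hk0⟩)
        (T j, ⟨W / q ^ (j - i) % q ^ (D + 1), Nat.mod_lt _ hk0⟩) else 0) else 0) _ fun n => ?_
    show ∑ i ∈ (range L').filter (fun i => i ∉ X), _ = _
    rw [Finset.sum_filter]
    refine Finset.sum_congr rfl fun i _ => ?_
    by_cases hi : i ∉ X
    · rw [if_pos hi, if_pos hi]
      refine Finset.sum_congr rfl fun j _ => ?_
      by_cases hij : i < j ∧ ¬ i + Δ < j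
      · rw [if_pos hij, if_pos hij]
        have e1 : α n i = (T i, ⟨wd q (Δ + D) i n % q ^ (D + 1), Nat.mod_lt _ hk0⟩) := by
          have := Str_wd (q := q) (n := n) (le_refl i) (show i - i + D ≤ Δ + D by omega)
          rw [Nat.sub_self, pow_zero, Nat.div_one] at this
          exact Prod.ext rfl (Fin.ext this)
        have e2 : α n j = (T j, ⟨wd q (Δ + D) i n / q ^ (j - i) % q ^ (D + 1),
            Nat.mod_lt _ hk0⟩) :=
          Prod.ext rfl (Fin.ext (Str_wd hij.1.le (by omega)))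
        rw [e1, e2]
      · rw [if_neg hij, if_neg hij]
    · rw [if_neg hi, if_neg hi]
  have hN : ∀ γ, IsLoc q (Δ + D) (fun n => ((N γ n : ℕ) : ZMod (2 * m * k))) := by
    intro γ
    refine hmon (Str_loc_of L' (fun i w => if i ∉ X ∧ T i = γ.1 ∧ w = (γ.2 : ℕ) then 1 else 0) _
      fun n => ?_)
    show (((Y.filter fun i => α n i = γ).card : ℕ) : ZMod (2 * m * k)) = _
    rw [Finset.card_filter, Nat.cast_sum]
    show ∑ i ∈ (range L').filter (fun i => i ∉ X), _ = _
    rw [Finset.sum_filter]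
    refine Finset.sum_congr rfl fun i _ => ?_
    have hα : α n i = γ ↔ T i = γ.1 ∧ wd q D i n = (γ.2 : ℕ) := by
      constructor
      · rintro rfl
        exact ⟨rfl, rfl⟩
      · rintro ⟨h1, h2⟩
        exact Prod.ext h1 (Fin.ext h2)
    by_cases hi : i ∈ X
    · simp [hi]
    · by_cases h : α n i = γ
      · have h' := hα.1 h
        simp [hi, h, h'.1, h'.2]
      · have h' : ¬ (T i = γ.1 ∧ wd q D i n = (γ.2 : ℕ)) := fun h' => h (hα.2 h')
        rw [if_pos hi, if_neg h, if_neg (fun h'' => h' h''.2)]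
        simp
  have hw : ∀ i, IsLoc q (Δ + D) (fun n => ((wd q D i n : ℕ) : ZMod (2 * m * k))) := by
    intro i
    refine hmon (Str_loc_of (i + 1) (fun j w => if j = i then ((w : ℕ) : ZMod (2 * m * k)) else 0) _
      fun n => ?_)
    rw [Finset.sum_eq_single i]
    · simp
    · intro j _ hj
      simp [hj]
    · intro h
      simp at h
  choose sS hsS1 hsS2 using fun i c => lift_loc hmM (hS i c)
  choose sS' hsS'1 hsS'2 using fun j d => lift_loc hmM (hS' j d)
  obtain ⟨s0, hs01, hs02⟩ := lift_loc hmM (show IsLoc q (Δ + D) (loc q (Δ + D) L' c0) from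
    ⟨L', c0, rfl⟩)
  obtain ⟨sN, hsN1, hsN2⟩ := lift_loc hmM hNr
  refine ⟨Γ ⊕ ((X × Fin k) ⊕ ((X × Fin k) ⊕ (X ⊕ Fin 2))), inferInstance, ?_, ?_⟩
  · simp only [Γ, Fintype.card_sum, Fintype.card_prod, Fintype.card_fin, Fintype.card_coe]
    have h1 : X.card * k ≤ e * k := Nat.mul_le_mul_right k hX
    have h2 : 2 * e * k = e * k + e * k := by ring
    rw [h2]
    omega
  · refine ⟨Sum.elim (fun γ n => ((N γ n : ℕ) : ZMod (2 * m * k)))
      (Sum.elim (fun x => sS x.1 x.2) (Sum.elim (fun x => sS' x.1 x.2)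
        (Sum.elim (fun x n => ((wd q D x n : ℕ) : ZMod (2 * m * k)))
          (fun b => if b = 0 then s0 else sN)))), ?_, ?_⟩
    · rintro (γ | x | x | x | b)
      · exact hN γ
      · exact hsS1 _ _
      · exact hsS'1 _ _
      · exact hw _
      · show IsLoc q (Δ + D) (if b = 0 then s0 else sN)
        by_cases hb : b = 0
        · rw [if_pos hb]; exact hs01
        · rw [if_neg hb]; exact hsN1
    · intro n n' h
      have h1 : ∀ γ, ((N γ n : ℕ) : ZMod (2 * m * k)) = ((N γ n' : ℕ) : ZMod (2 * m * k)) :=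
        fun γ => h (Sum.inl γ)
      have h2 : ∀ i ∈ X, ∀ c < k, S i c n = S i c n' := fun i hi c hc =>
        hsS2 i c n n' (h (Sum.inr (Sum.inl (⟨i, hi⟩, ⟨c, hc⟩))))
      have h3 : ∀ i ∈ X, ∀ c < k, S' i c n = S' i c n' := fun i hi c hc =>
        hsS'2 i c n n' (h (Sum.inr (Sum.inr (Sum.inl (⟨i, hi⟩, ⟨c, hc⟩)))))
      have h4 : ∀ i ∈ X, wd q D i n = wd q D i n' := by
        intro i hi
        have := h (Sum.inr (Sum.inr (Sum.inr (Sum.inl ⟨i, hi⟩))))
        have h' : ((wd q D i n : ℕ) : ZMod (2 * m * k)) = ((wd q D i n' : ℕ) : ZMod (2 * m * k)) :=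
          this
        rw [ZMod.natCast_eq_natCast_iff'] at h'
        have hb : ∀ n, wd q D i n < 2 * m * k := fun n =>
          lt_of_lt_of_le (Str_wd_lt hq) (Nat.le_mul_of_pos_left k (by positivity))
        rwa [Nat.mod_eq_of_lt (hb n), Nat.mod_eq_of_lt (hb n')] at h'
      have h5 : loc q (Δ + D) L' c0 n = loc q (Δ + D) L' c0 n' :=
        hs02 n n' (h (Sum.inr (Sum.inr (Sum.inr (Sum.inr 0)))))
      have h6 : Nr n = Nr n' :=
        hsN2 n n' (h (Sum.inr (Sum.inr (Sum.inr (Sum.inr 1)))))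
      have h7 : ∀ γ, N γ n % (2 * m) = N γ n' % (2 * m) := by
        intro γ
        have h' := h1 γ
        rw [ZMod.natCast_eq_natCast_iff'] at h'
        have h'' := congrArg (· % (2 * m)) h'
        simpa [Nat.mod_mul_right_mod] using h''
      have h8 := Str_count Y Ψ hΨs (α n) (α n') h7
      rw [hdec n, hdec n', h5, h6]
      congr 1
      congr 1
      · congr 1
        · refine Finset.sum_congr rfl fun i _ => ?_
          by_cases hi : i ∈ X
          · rw [if_pos hi, if_pos hi, ← h4 i hi, h2 i hi _ (Str_wd_lt hq)]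
          · rw [if_neg hi, if_neg hi]
        · refine Finset.sum_congr rfl fun i _ => ?_
          by_cases hi : i ∈ X
          · rw [if_pos hi, if_pos hi, ← h4 i hi, h3 i hi _ (Str_wd_lt hq)]
          · rw [if_neg hi, if_neg hi]
      · rw [h8]

end Pool.Agent.Lib.MP_3e612f_nt.PI
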