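import Pool.Agent.Lib.MP_3e612f_nt.PI.UXA
import Pool.Agent.Lib.MP_3e612f_nt.PI.Tr
import Pool.Agent.Lib.MP_3e612f_nt.Cov
import Pool.Agent.Lib.MP_3e612f_nt.PS.SubD2

/-!
The universal subshift has few words and zero entropy.

`UXP_words`: let `x ∈ UXP`, take `l = q^k`, `F, L, s` for `x`, and `trunc_ph` with `K1 = k`,
`N = q^k`: the block `x 0, …, x (q^k - 1)` is determined by `s' < q^k` and the values
`F' i j c d`, `i, j ≤ k`, `c, d < q^(D+1)`, so there are at most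
`q^k * |A|^((k+1)^2 q^(2(D+1))) ≤ (q * |A|^(q^(2(D+1))))^((k+1)^2)` blocks; number the blocks (a map from
blocks to `Fin`, constant `0` off the set of blocks that occur).
`UXP_entropy`: as `UX_entropy` in `PS/SubD2.lean` (`coverEntropy_le_zero` from `Cov.lean`,
`SubD2_unif`), with `q^k` and `(k+1)^2` in the place of `2^k` and `k+1`:
`(k+1)^2 C ≤ δ (q^k - m)` for large `k`.
-/

set_option autoImplicit false

namespace Pool.Agent.Lib.MP_3e612f_nt.PI

open Finset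

/-- the block determined by truncated data -/
def UXE_val (q D k : ℕ) (A : Type) [AddCommGroup A]
    (d : Fin (q ^ k) × (Fin (k + 1) → Fin (k + 1) → Fin (q ^ (D + 1)) → Fin (q ^ (D + 1)) → A))
    (i : ℕ) : A :=
  ph q D (k + 1) (fun j l x y =>
    if h : j < k + 1 ∧ l < k + 1 ∧ x < q ^ (D + 1) ∧ y < q ^ (D + 1) then
      d.2 ⟨j, h.1⟩ ⟨l, h.2.1⟩ ⟨x, h.2.2.1⟩ ⟨y, h.2.2.2⟩ else 0) (i + d.1)

theorem UXE_key (q D : ℕ) (hq : 2 ≤ q) (A : Type) [AddCommGroup A] (k : ℕ) (x : ℕ → A)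
    (hx : x ∈ UXP q D A) : ∃ d, ∀ i < q ^ k, x i = UXE_val q D k A d i := by
  obtain ⟨F, L, s, h⟩ := hx (q ^ k)
  obtain ⟨F', s', hs', h'⟩ := trunc_ph hq D k (q ^ k) le_rfl L s F
  refine ⟨(⟨s', hs'⟩, fun j l x y => F' j l x y), fun i hi => ?_⟩
  rw [h i hi, h' i hi.le]
  unfold UXE_val ph
  refine sum_congr rfl fun j hj => sum_congr rfl fun l hl => ?_
  have hQ : 0 < q ^ (D + 1) := Nat.pow_pos (by omega)
  have h1 : j < k + 1 ∧ l < k + 1 ∧ wd q D j (i + s') < q ^ (D + 1) ∧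
      wd q D l (i + s') < q ^ (D + 1) :=
    ⟨mem_range.1 hj, mem_range.1 hl, Nat.mod_lt _ hQ, Nat.mod_lt _ hQ⟩
  show F' j l (wd q D j (i + s')) (wd q D l (i + s')) =
    if h : j < k + 1 ∧ l < k + 1 ∧ wd q D j (i + s') < q ^ (D + 1) ∧
      wd q D l (i + s') < q ^ (D + 1) then F' j l (wd q D j (i + s')) (wd q D l (i + s')) else 0
  rw [dif_pos h1]

theorem UXP_words (q D : ℕ) (hq : 2 ≤ q) (A : Type) [AddCommGroup A] [Finite A] :
    ∃ a : ℕ, 1 ≤ a ∧ ∀ k : ℕ, ∃ c : (ℕ → A) → Fin (a ^ ((k + 1) ^ 2)),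
      ∀ x ∈ UXP q D A, ∀ y ∈ UXP q D A, c x = c y → ∀ i < q ^ k, x i = y i := by
  classical
  have _ : Fintype A := Fintype.ofFinite A
  have hA : 0 < Fintype.card A := Fintype.card_pos
  refine ⟨q * Fintype.card A ^ (q ^ (D + 1) * q ^ (D + 1)),
    Nat.mul_pos (by omega) (Nat.pow_pos hA), fun k => ?_⟩
  have hcard : Fintype.card
      (Fin (q ^ k) × (Fin (k + 1) → Fin (k + 1) → Fin (q ^ (D + 1)) → Fin (q ^ (D + 1)) → A)) ≤
      (q * Fintype.card A ^ (q ^ (D + 1) * q ^ (D + 1))) ^ ((k + 1) ^ 2) := by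
    rw [Fintype.card_prod, Fintype.card_fun, Fintype.card_fun, Fintype.card_fun, Fintype.card_fun,
      Fintype.card_fin, Fintype.card_fin, Fintype.card_fin, mul_pow]
    have e : (((Fintype.card A ^ q ^ (D + 1)) ^ q ^ (D + 1)) ^ (k + 1)) ^ (k + 1) =
        (Fintype.card A ^ (q ^ (D + 1) * q ^ (D + 1))) ^ (k + 1) ^ 2 := by
      rw [← pow_mul, ← pow_mul, ← pow_mul, ← pow_mul]
      congr 1
      ring
    rw [e]
    apply Nat.mul_le_mul_right
    exact Nat.pow_le_pow_right (by omega) (by nlinarith)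
  have key : ∀ x : ℕ → A, ∃ d, x ∈ UXP q D A → ∀ i < q ^ k, x i = UXE_val q D k A d i := by
    intro x
    by_cases hx : x ∈ UXP q D A
    · obtain ⟨d, hd⟩ := UXE_key q D hq A k x hx
      exact ⟨d, fun _ => hd⟩
    · exact ⟨(⟨0, Nat.pow_pos (by omega)⟩, fun _ _ _ _ => 0), fun h => absurd h hx⟩
  choose d hd using key
  refine ⟨fun x => Fin.castLE hcard (Fintype.equivFin _ (d x)), fun x hx y hy hxy i hi => ?_⟩
  have h1 : d x = d y := (Fintype.equivFin _).injective (Fin.castLE_injective hcard hxy)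
  rw [hd x hx i hi, hd y hy i hi, h1]

theorem UXE_growth {C δ : ℝ} (hC : 0 ≤ C) (hδ : 0 < δ) (q m : ℕ) (hq : 2 ≤ q) :
    ∃ k : ℕ, m + 1 ≤ q ^ k ∧ ((k : ℝ) + 1) ^ 2 * C ≤ δ * ((q ^ k - m : ℕ) : ℝ) := by
  have h1 := tendsto_pow_const_div_const_pow_of_one_lt 2 (one_lt_two : (1 : ℝ) < 2)
  have hD : (0 : ℝ) < δ / (4 * C + δ * m + 1) := by positivity
  have h2 := (h1.eventually_lt_const hD).and (Filter.eventually_ge_atTop (m + 1))
  obtain ⟨k, hk1, hk2⟩ := h2.exists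
  have hqk : 2 ^ k ≤ q ^ k := Nat.pow_le_pow_left hq k
  have h3 : m + 1 ≤ q ^ k := (hk2.trans (Nat.lt_two_pow_self).le).trans hqk
  refine ⟨k, h3, ?_⟩
  rw [Nat.cast_sub (by omega)]
  push_cast
  have hqk' : (2 : ℝ) ^ k ≤ (q : ℝ) ^ k := by exact_mod_cast hqk
  rw [div_lt_div_iff₀ (by positivity) (by positivity)] at hk1
  have hk3 : (1 : ℝ) ≤ k := by exact_mod_cast (by omega : 1 ≤ k)
  have h4 : ((k : ℝ) + 1) ^ 2 * C ≤ 4 * (k : ℝ) ^ 2 * C := by
    apply mul_le_mul_of_nonneg_right _ hC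
    nlinarith
  have h5 : δ * m ≤ (k : ℝ) ^ 2 * (δ * m) := by
    have : (0 : ℝ) ≤ δ * m := by positivity
    have h6 : (1 : ℝ) ≤ (k : ℝ) ^ 2 := by nlinarith
    nlinarith
  have h7 : δ * (2 : ℝ) ^ k ≤ δ * (q : ℝ) ^ k := mul_le_mul_of_nonneg_left hqk' hδ.le
  have h8 : (0 : ℝ) ≤ (k : ℝ) ^ 2 := by positivity
  nlinarith

theorem UXP_entropy (q D : ℕ) (hq : 2 ≤ q) (A : Type) [AddCommGroup A] [Finite A]
    [UniformSpace A] [DiscreteUniformity A] :
    Dynamics.coverEntropy (fun (x : ℕ → A) i => x (i + 1)) (UXP q D A) = 0 := by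
  apply le_antisymm
  · have hmaps : Set.MapsTo (fun (x : ℕ → A) i => x (i + 1)) (UXP q D A) (UXP q D A) :=
      fun x hx => UXP_shift hx 1
    have : Filter.IsCountablyGenerated (uniformity A) := by
      rw [DiscreteUniformity.eq_principal_setRelId]
      infer_instance
    let _ : PseudoMetricSpace (ℕ → A) := UniformSpace.pseudoMetricSpace (ℕ → A)
    refine coverEntropy_le_zero hmaps ?_
    intro ε hε δ hδ
    obtain ⟨m, hm⟩ := PS.SubD2_unif (G := A) (U := {p | dist p.1 p.2 < ε})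
      (Metric.dist_mem_uniformity hε)
    obtain ⟨a, ha, hw⟩ := UXP_words q D hq A
    obtain ⟨k, hk1, hk2⟩ := UXE_growth (C := Real.log a) (Real.log_nonneg (by exact_mod_cast ha))
      hδ q m hq
    obtain ⟨c, hc⟩ := hw k
    refine ⟨q ^ k - m, by omega, a ^ ((k + 1) ^ 2), ?_, c, ?_⟩
    · push_cast
      rw [Real.log_pow]
      push_cast
      exact hk2
    · intro x hx y hy hxy j hj
      apply hm
      intro i hi
      rw [PS.SubD2_iterate, PS.SubD2_iterate]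
      exact hc x hx y hy hxy (i + j) (by omega)
  · exact Dynamics.coverEntropy_nonneg _ ⟨_, UXP_nonempty q D⟩

end Pool.Agent.Lib.MP_3e612f_nt.PI
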