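import Mathlib

/-!
# Moebius orthogonality for phases with pair interactions of digit windows: definitions

Blueprint: /team-store/h31_PI_BLUEPRINT.md
-/

set_option autoImplicit false

namespace Pool.Agent.Lib.MP_3e612f_nt.PI

open Finset

/-! ### Phases -/

/-- the base-`q` digits of `n` at the positions `i, …, i + D` (a number `< q ^ (D + 1)`) -/
def wd (q D i n : ℕ) : ℕ := n / q ^ i % q ^ (D + 1)

section
variable {G : Type} [AddCommGroup G]

/-- phases with pair interactions between windows -/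
def ph (q D L : ℕ) (F : ℕ → ℕ → ℕ → ℕ → G) (n : ℕ) : G :=
  ∑ i ∈ range L, ∑ j ∈ range L, F i j (wd q D i n) (wd q D j n)

/-- phases without interactions -/
def loc (q D L : ℕ) (c : ℕ → ℕ → G) (n : ℕ) : G :=
  ∑ i ∈ range L, c i (wd q D i n)

/-- being a phase with pair interactions -/
def IsPh (q D : ℕ) (f : ℕ → G) : Prop := ∃ L F, f = ph q D L F

/-- being a phase without interactions -/
def IsLoc (q D : ℕ) (f : ℕ → G) : Prop := ∃ L c, f = loc q D L c

/-- mixed difference of `f` for blocks placed at the positions `A` and `A'` -/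
def Mx (q : ℕ) (f : ℕ → G) (A A' u u' v v' : ℕ) : G :=
  f (u * q ^ A + v * q ^ A') - f (u' * q ^ A + v * q ^ A') - f (u * q ^ A + v' * q ^ A') +
    f (u' * q ^ A + v' * q ^ A')

/-- canonical mixed difference at the digit positions `i` and `j`: the lowest digits of the windows
`c` (at `i`) and `d` (at `j`) are switched on and off -/
def Rf (q : ℕ) (f : ℕ → G) (i j c d : ℕ) : G :=
  Mx q f i j c (c - c % q) d (d - d % q)

/-- for every `b`, `L` is a function of the `b + D` lowest digits plus a function of the digits at the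
positions `≥ b` -/
def Split (q D : ℕ) (L : ℕ → G) : Prop :=
  ∀ b : ℕ, ∃ A C : ℕ → G, ∀ u, L u = A (u % q ^ (b + D)) + C (u / q ^ b)

/-- the phase of a pair correlation -/
def Phi (f : ℕ → G) (η : ℤ) (p r s n : ℕ) : G := f (p * n + s) + η • f (r * n + s)

end

/-! ### Gadgets

A gadget is a pair `o = (a, lam)`, position `a`, label `lam < H`. The window of a position `a` is
`[a, a + g + l)`, its block is `[a + g, a + g + l)`. -/

/-- shift of the block -/
def sg (q g t z c : ℕ) : ℕ := (t * z + c) / q ^ g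

/-- admissible choice of the gadget parameters, as functions of the window content `c` of the shift -/
structure Gad (q D g l H p r : ℕ) (z0 x0 : ℕ → ℕ) : Prop where
  z_lt : ∀ c, z0 c < q ^ g
  cp : ∀ c, (p * z0 c + c) % q ^ g + p < q ^ g
  cr : ∀ c, (r * z0 c + c) % q ^ g + r < q ^ g
  x_le : ∀ c, x0 c + H + q ^ D ≤ q ^ l
  tp : ∀ c x, x0 c ≤ x → x < x0 c + H →
    (p * (x + q ^ D) + sg q g p (z0 c) c) / q ^ (l - D) = (p * x + sg q g p (z0 c) c) / q ^ (l - D)
  tr : ∀ c x, x0 c ≤ x → x < x0 c + H →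
    (r * (x + q ^ D) + sg q g r (z0 c) c) / q ^ (l - D) = (r * x + sg q g r (z0 c) c) / q ^ (l - D)

/-- window content of the shift `s` at the position `a` -/
def sa (q g l s a : ℕ) : ℕ := s / q ^ a % q ^ (g + l)

/-- first content of the gadget `o`; the second content is `zc + q ^ (g + D)` -/
def zc (q g l : ℕ) (z0 x0 : ℕ → ℕ) (s : ℕ) (o : ℕ × ℕ) : ℕ :=
  z0 (sa q g l s o.1) + q ^ g * (x0 (sa q g l s o.1) + o.2)

/-- content of the block of `t * n + s` when `n` has the first content of the gadget `o` -/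
def ut (q g l : ℕ) (z0 x0 : ℕ → ℕ) (s t : ℕ) (o : ℕ × ℕ) : ℕ :=
  (t * (x0 (sa q g l s o.1) + o.2) + sg q g t (z0 (sa q g l s o.1)) (sa q g l s o.1)) % q ^ l

section
variable {G : Type} [AddCommGroup G]

/-- interaction of two gadgets -/
def Bv (q D g l : ℕ) (z0 x0 : ℕ → ℕ) (s p r : ℕ) (f : ℕ → G) (η : ℤ) (o o' : ℕ × ℕ) : G :=
  Mx q f (o.1 + g) (o'.1 + g)
      (ut q g l z0 x0 s p o) (ut q g l z0 x0 s p o + p * q ^ D)
      (ut q g l z0 x0 s p o') (ut q g l z0 x0 s p o' + p * q ^ D) +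
    η • Mx q f (o.1 + g) (o'.1 + g)
      (ut q g l z0 x0 s r o) (ut q g l z0 x0 s r o + r * q ^ D)
      (ut q g l z0 x0 s r o') (ut q g l z0 x0 s r o' + r * q ^ D)

/-- effect of one gadget, for phases without interactions -/
def dv (q D g l : ℕ) (z0 x0 : ℕ → ℕ) (s p r : ℕ) (f : ℕ → G) (η : ℤ) (o : ℕ × ℕ) : G :=
  (f ((ut q g l z0 x0 s p o + p * q ^ D) * q ^ (o.1 + g)) -
      f (ut q g l z0 x0 s p o * q ^ (o.1 + g))) +
    η • (f ((ut q g l z0 x0 s r o + r * q ^ D) * q ^ (o.1 + g)) -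
      f (ut q g l z0 x0 s r o * q ^ (o.1 + g)))

end

/-- a ladder of length `k` for `B`: positions `< P`, labels `< H`, all `3 k` positions pairwise at
distance at least `Δ` -/
def IsLadder {V : Type} (B : ℕ × ℕ → ℕ × ℕ → V) (P H Δ k : ℕ) (o : Fin k × Fin 3 → ℕ × ℕ) : Prop :=
  (∀ i, (o i).1 < P ∧ (o i).2 < H) ∧
  (∀ i j, i ≠ j → (o i).1 + Δ ≤ (o j).1 ∨ (o j).1 + Δ ≤ (o i).1) ∧
  (∀ t, B (o (t, 0)) (o (t, 2)) ≠ B (o (t, 1)) (o (t, 2))) ∧
  (∀ t t', t < t' → B (o (t', 0)) (o (t, 2)) = B (o (t', 1)) (o (t, 2)))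

/-! ### Characters and the Moebius function -/

/-- the standard character of `ℤ/m` -/
noncomputable def ee {m : ℕ} [NeZero m] (x : ZMod m) : ℂ := ZMod.stdAddChar x

/-- the Moebius function, complex valued -/
noncomputable def mc (n : ℕ) : ℂ := ((ArithmeticFunction.moebius n : ℤ) : ℂ)

end Pool.Agent.Lib.MP_3e612f_nt.PI
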