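import Pool.Agent.Lib.MP_3e612f_nt.PI.OneS

/-!
Canonical form of a phase with pair interactions.

PROOF of `canonical`. Let `f = ph q D L F`, `L' = L + D`, `hi j n = n - n % q^j` (digits `≥ j`),
`C i n = q^i * wd q D i n` (digits `i, …, i + D`), `C⁺ i n = q^i * (wd q D i n - wd q D i n % q)`. `f`
ignores the digits `≥ L'` (`ph_mod`). Telescoping,
`f n = f (hi L' n) + ∑_{i < L'} (f (hi i n) - f (hi (i+1) n))`, `f (hi L' n) = f 0`. For fixed `i` put
`E y = f (C i n + y) - f (C⁺ i n + y)`; then `f (hi i n) - f (hi (i+1) n) = E (hi (i+D+1) n)`, and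
telescoping over `j` (and `E (hi j n) = E 0` for `j ≥ L'`)
`E (hi (i+D+1) n) = E 0 + ∑_{j = i+D+1}^{L'-1} (E (hi j n) - E (hi (j+1) n))`. The bracket
`E (hi j n) - E (hi (j+1) n)` is, term by term in `F k l`, nonzero only if one of the windows `k, l`
contains the position `i` and the other one contains the position `j` (a window containing both would
need `j - i ≤ D`); say `k ∈ [i-D, i]`, `l ∈ [j-D, j]` (or conversely). For `j ≤ i + Δ` it is a function of
the digits of `n` at `i, …, i + Δ + D`, i.e. of `wd q (Δ+D) i n`. For `j > i + Δ ≥ i + 2D` the window `k`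
only reads digits `≤ i + D < j` of the numbers `C i n + hi j n` etc., and the window `l` only reads digits
`≥ j - D > i + D` and `≤ j + D`, so nothing changes if `hi j n` is replaced by
`q^j * wd q D j n` and `hi (j+1) n` by `q^j * (wd q D j n - wd q D j n % q)`: the bracket is
`Rf q f i j (wd q D i n) (wd q D j n)`. The remaining terms (`E 0` and the brackets with
`j ≤ i + Δ`) form the phase without interactions; the constant `f 0` can be put into `c0 0` if `L' ≥ 1`,
and if `L' = 0` then `f = 0`.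
-/

set_option autoImplicit false

namespace Pool.Agent.Lib.MP_3e612f_nt.PI

open Finset

theorem Can_wd_mod {q : ℕ} (hq : 2 ≤ q) (D k a b s : ℕ) (hs : k + D + 1 ≤ s)
    (h : a % q ^ s = b % q ^ s) : wd q D k a = wd q D k b := by
  unfold wd
  have key : ∀ x : ℕ, x / q ^ k % q ^ (D + 1) = x % q ^ s / q ^ k % q ^ (D + 1) := by
    intro x
    have e : q ^ s = q ^ k * q ^ (s - k) := by rw [← pow_add]; congr 1; omega
    rw [e, Nat.mod_mul_right_div_self, Nat.mod_mod_of_dvd _ (pow_dvd_pow q (by omega))]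
  rw [key a, key b, h]

theorem Can_wd_div {q : ℕ} (D k a b s : ℕ) (hs : s ≤ k)
    (h : a / q ^ s = b / q ^ s) : wd q D k a = wd q D k b := by
  unfold wd
  have e : q ^ k = q ^ s * q ^ (k - s) := by rw [← pow_add]; congr 1; omega
  rw [e, ← Nat.div_div_eq_div_mul, ← Nat.div_div_eq_div_mul, h]

theorem Can_sub_div (q c : ℕ) : (c - c % q) / q = c / q := by
  have h := Nat.div_add_mod c q
  rcases Nat.eq_zero_or_pos q with h0 | h0
  · subst h0; simp
  · have : c - c % q = q * (c / q) := by omega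
    rw [this, Nat.mul_div_cancel_left _ h0]

theorem Can_F1 {q : ℕ} (hq : 2 ≤ q) (D k i j c N : ℕ) (hij : i + D < j)
    (h : i < k ∨ k + D < i) :
    wd q D k (c * q ^ i + N * q ^ j) = wd q D k ((c - c % q) * q ^ i + N * q ^ j) := by
  have hq0 : 0 < q := by omega
  rcases h with h | h
  · apply Can_wd_div D k _ _ (i + 1) h
    have e : q ^ j = q ^ (i + 1) * q ^ (j - (i + 1)) := by rw [← pow_add]; congr 1; omega
    have g : ∀ x : ℕ, (x * q ^ i + N * q ^ j) / q ^ (i + 1) = x / q + N * q ^ (j - (i + 1)) := by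
      intro x
      rw [e, mul_left_comm, Nat.add_mul_div_left _ _ (pow_pos hq0 _)]
      congr 1
      rw [pow_succ, ← Nat.div_div_eq_div_mul, Nat.mul_div_cancel _ (pow_pos hq0 _)]
    rw [g, g, Can_sub_div]
  · apply Can_wd_mod hq D k _ _ i h
    have e : q ^ j = q ^ i * q ^ (j - i) := by rw [← pow_add]; congr 1; omega
    have g : ∀ x : ℕ, (x * q ^ i + N * q ^ j) % q ^ i = 0 := by
      intro x
      apply Nat.mod_eq_zero_of_dvd
      apply dvd_add (dvd_mul_left _ _)
      rw [e]
      exact dvd_mul_of_dvd_right (dvd_mul_right _ _) _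
    rw [g, g]

theorem Can_F2 {q : ℕ} (hq : 2 ≤ q) (D k i j c N : ℕ) (hc : c < q ^ (D + 1)) (hij : i + D < j)
    (h : j < k ∨ k + D < j) :
    wd q D k (c * q ^ i + N * q ^ j) = wd q D k (c * q ^ i + (N - N % q) * q ^ j) := by
  have hq0 : 0 < q := by omega
  have hlt : c * q ^ i < q ^ j := by
    calc c * q ^ i < q ^ (D + 1) * q ^ i := (Nat.mul_lt_mul_right (pow_pos hq0 _)).2 hc
      _ = q ^ (i + D + 1) := by rw [← pow_add]; congr 1; omega
      _ ≤ q ^ j := Nat.pow_le_pow_right hq0 hij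
  rcases h with h | h
  · apply Can_wd_div D k _ _ (j + 1) h
    have g : ∀ x : ℕ, (c * q ^ i + x * q ^ j) / q ^ (j + 1) = x / q := by
      intro x
      rw [pow_succ, ← Nat.div_div_eq_div_mul, Nat.add_mul_div_right _ _ (pow_pos hq0 _),
        Nat.div_eq_of_lt hlt, zero_add]
    rw [g, g, Can_sub_div]
  · apply Can_wd_mod hq D k _ _ j h
    rw [Nat.add_mul_mod_self_right, Nat.add_mul_mod_self_right]

theorem Can_F3 {q : ℕ} (hq : 2 ≤ q) (D k i j c N : ℕ) (hk : k ≤ j) :
    wd q D k (c * q ^ i + N * q ^ j) = wd q D k (c * q ^ i + N % q ^ (D + 1) * q ^ j) := by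
  apply Can_wd_mod hq D k _ _ (j + D + 1) (by omega)
  have h := Nat.mod_add_div N (q ^ (D + 1))
  have e : c * q ^ i + N * q ^ j =
      (c * q ^ i + N % q ^ (D + 1) * q ^ j) + N / q ^ (D + 1) * q ^ (j + D + 1) := by
    conv_lhs => rw [← h]
    have : q ^ (j + D + 1) = q ^ (D + 1) * q ^ j := by rw [← pow_add]; congr 1; omega
    rw [this]
    ring
  rw [e, Nat.add_mul_mod_self_right]

theorem Can_sub_mod {q : ℕ} (D N : ℕ) :
    (N - N % q) % q ^ (D + 1) = N % q ^ (D + 1) - N % q ^ (D + 1) % q := by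
  rw [Nat.mod_mod_of_dvd _ (dvd_pow_self q (Nat.succ_ne_zero D))]
  rcases Nat.eq_zero_or_pos q with h0 | h0
  · subst h0; simp
  · have h1 := Nat.mod_add_div N (q ^ (D + 1))
    set r := N % q ^ (D + 1) with hr
    have h2 : N % q = r % q := by
      rw [hr, Nat.mod_mod_of_dvd _ (dvd_pow_self q (Nat.succ_ne_zero D))]
    have h3 : r % q ≤ r := Nat.mod_le _ _
    have h4 : N - N % q = (r - r % q) + q ^ (D + 1) * (N / q ^ (D + 1)) := by
      rw [h2]; omega
    rw [h4, Nat.add_mul_mod_self_left, Nat.mod_eq_of_lt, h2]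
    have : r < q ^ (D + 1) := Nat.mod_lt _ (pow_pos h0 _)
    omega

theorem Can_term {G : Type} [AddCommGroup G] {q : ℕ} (hq : 2 ≤ q) (D k l i j c N : ℕ)
    (hc : c < q ^ (D + 1)) (hij : i + D < j) (φ : ℕ → ℕ → G) :
    Mx q (fun n => φ (wd q D k n) (wd q D l n)) i j c (c - c % q) N (N - N % q) =
      Mx q (fun n => φ (wd q D k n) (wd q D l n)) i j c (c - c % q) (N % q ^ (D + 1))
        (N % q ^ (D + 1) - N % q ^ (D + 1) % q) := by
  have hc' : c - c % q < q ^ (D + 1) := lt_of_le_of_lt (Nat.sub_le _ _) hc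
  have zero1 : (i < k ∨ k + D < i) → (i < l ∨ l + D < i) → ∀ N N' : ℕ,
      Mx q (fun n => φ (wd q D k n) (wd q D l n)) i j c (c - c % q) N N' = 0 := by
    intro hk hl N N'
    unfold Mx
    simp only
    rw [Can_F1 hq D k i j c N hij hk, Can_F1 hq D l i j c N hij hl,
      Can_F1 hq D k i j c N' hij hk, Can_F1 hq D l i j c N' hij hl]
    abel
  have zero2 : (j < k ∨ k + D < j) → (j < l ∨ l + D < j) → ∀ N : ℕ,
      Mx q (fun n => φ (wd q D k n) (wd q D l n)) i j c (c - c % q) N (N - N % q) = 0 := by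
    intro hk hl N
    unfold Mx
    simp only
    rw [Can_F2 hq D k i j c N hc hij hk, Can_F2 hq D l i j c N hc hij hl,
      Can_F2 hq D k i j (c - c % q) N hc' hij hk, Can_F2 hq D l i j (c - c % q) N hc' hij hl]
    abel
  have main : k ≤ j → l ≤ j → 
      Mx q (fun n => φ (wd q D k n) (wd q D l n)) i j c (c - c % q) N (N - N % q) =
      Mx q (fun n => φ (wd q D k n) (wd q D l n)) i j c (c - c % q) (N % q ^ (D + 1))
        (N % q ^ (D + 1) - N % q ^ (D + 1) % q) := by
    intro hk hl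
    have hs := Can_sub_mod (q := q) D N
    unfold Mx
    simp only
    rw [Can_F3 hq D k i j c N hk, Can_F3 hq D l i j c N hl,
      Can_F3 hq D k i j (c - c % q) N hk, Can_F3 hq D l i j (c - c % q) N hl,
      Can_F3 hq D k i j c (N - N % q) hk, Can_F3 hq D l i j c (N - N % q) hl,
      Can_F3 hq D k i j (c - c % q) (N - N % q) hk, Can_F3 hq D l i j (c - c % q) (N - N % q) hl,
      hs]
  by_cases h1 : k ≤ j
  · by_cases h2 : l ≤ j
    · exact main h1 h2
    · by_cases h3 : i < k ∨ k + D < i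
      · rw [zero1 h3 (by omega), zero1 h3 (by omega)]
      · rw [zero2 (by omega) (by omega), zero2 (by omega) (by omega)]
  · by_cases h2 : l ≤ j
    · by_cases h3 : i < l ∨ l + D < i
      · rw [zero1 (by omega) h3, zero1 (by omega) h3]
      · rw [zero2 (by omega) (by omega), zero2 (by omega) (by omega)]
    · rw [zero1 (by omega) (by omega), zero1 (by omega) (by omega)]

theorem Can_ph {G : Type} [AddCommGroup G] {q : ℕ} (hq : 2 ≤ q) (D L i j c N : ℕ)
    (hc : c < q ^ (D + 1)) (hij : i + D < j) (F : ℕ → ℕ → ℕ → ℕ → G) :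
    Mx q (ph q D L F) i j c (c - c % q) N (N - N % q) =
      Rf q (ph q D L F) i j c (N % q ^ (D + 1)) := by
  unfold Rf
  have e : ∀ u u' v v' : ℕ, Mx q (ph q D L F) i j u u' v v' =
      ∑ k ∈ range L, ∑ l ∈ range L,
        Mx q (fun n => F k l (wd q D k n) (wd q D l n)) i j u u' v v' := by
    intro u u' v v'
    unfold Mx ph
    simp only [← Finset.sum_sub_distrib, ← Finset.sum_add_distrib]
  rw [e, e]
  exact Finset.sum_congr rfl fun k _ => Finset.sum_congr rfl fun l _ =>
    Can_term hq D k l i j c N hc hij (F k l)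

theorem Can_tele {G : Type} [AddCommGroup G] (e : ℕ → G) (L' a : ℕ)
    (h : ∀ j, L' ≤ j → e j = e L') :
    e a = e L' + ∑ j ∈ range L', if a ≤ j then e j - e (j + 1) else 0 := by
  rcases le_or_gt L' a with h1 | h1
  · rw [h a h1, Finset.sum_eq_zero, add_zero]
    intro j hj
    rw [if_neg]
    have := Finset.mem_range.1 hj
    omega
  · obtain ⟨d, rfl⟩ := Nat.exists_eq_add_of_le h1.le
    rw [Finset.sum_range_add]
    rw [Finset.sum_eq_zero (s := range a)]
    · have : ∑ x ∈ range d, (if a ≤ a + x then e (a + x) - e (a + x + 1) else 0) =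
          ∑ x ∈ range d, (e (a + x) - e (a + (x + 1))) :=
        Finset.sum_congr rfl fun x _ => by rw [if_pos (Nat.le_add_right _ _), add_assoc]
      rw [this, Finset.sum_range_sub' (fun x => e (a + x))]
      simp
    · intro j hj
      rw [if_neg]
      have := Finset.mem_range.1 hj
      omega

theorem Can_ph_zero {G : Type} [AddCommGroup G] {q : ℕ} (hq : 2 ≤ q) (D L : ℕ)
    (F : ℕ → ℕ → ℕ → ℕ → G) (a x j : ℕ) (hj : L + D ≤ j) :
    ph q D L F (a + x * q ^ j) = ph q D L F a := by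
  rw [ph_mod hq D L F (a + x * q ^ j), ph_mod hq D L F a]
  congr 1
  have e : q ^ j = q ^ (j - (L + D)) * q ^ (L + D) := by rw [← pow_add]; congr 1; omega
  rw [e, ← mul_assoc, Nat.add_mul_mod_self_right]

theorem Can_hi {q : ℕ} (D i n : ℕ) :
    n / q ^ i * q ^ i = wd q D i n * q ^ i + n / q ^ (i + D + 1) * q ^ (i + D + 1) := by
  unfold wd
  have h := Nat.mod_add_div (n / q ^ i) (q ^ (D + 1))
  have e : q ^ (i + D + 1) = q ^ i * q ^ (D + 1) := by rw [← pow_add]; congr 1
  rw [e, ← Nat.div_div_eq_div_mul]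
  conv_lhs => rw [← h]
  ring

theorem Can_hi_succ {q : ℕ} (j n : ℕ) :
    n / q ^ (j + 1) * q ^ (j + 1) = (n / q ^ j - n / q ^ j % q) * q ^ j := by
  have h := Nat.mod_add_div (n / q ^ j) q
  have e : n / q ^ j - n / q ^ j % q = q * (n / q ^ j / q) := by omega
  rw [e, pow_succ, ← Nat.div_div_eq_div_mul]
  ring

theorem Can_hi1 {q : ℕ} (D i n : ℕ) :
    n / q ^ (i + 1) * q ^ (i + 1) = (wd q D i n - wd q D i n % q) * q ^ i +
      n / q ^ (i + D + 1) * q ^ (i + D + 1) := by
  rw [Can_hi_succ]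
  have h := Can_hi (q := q) D i n
  have h1 : wd q D i n % q = n / q ^ i % q := by
    unfold wd
    rw [Nat.mod_mod_of_dvd _ (dvd_pow_self q (Nat.succ_ne_zero D))]
  rw [h1, Nat.sub_mul, Nat.sub_mul, h]
  have h2 : n / q ^ i % q * q ^ i ≤ wd q D i n * q ^ i := by
    apply Nat.mul_le_mul_right
    rw [← h1]
    exact Nat.mod_le _ _
  omega

theorem canonical {G : Type} [AddCommGroup G] {q : ℕ} (hq : 2 ≤ q) (D L Δ : ℕ) (hΔ : 2 * D ≤ Δ)
    (F : ℕ → ℕ → ℕ → ℕ → G) :
    ∃ c0 : ℕ → ℕ → G, ∀ n : ℕ, ph q D L F n = loc q (Δ + D) (L + D) c0 n +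
      ∑ i ∈ range (L + D), ∑ j ∈ range (L + D),
        if i + Δ < j then Rf q (ph q D L F) i j (wd q D i n) (wd q D j n) else 0 := by
  have hq0 : 0 < q := by omega
  set f := ph q D L F with hf
  refine ⟨fun i w => (if i = 0 then f 0 else 0) +
    (f (w % q ^ (D + 1) * q ^ i) - f ((w % q ^ (D + 1) - w % q ^ (D + 1) % q) * q ^ i)) +
    ∑ j ∈ range (L + D), if i + D < j ∧ j ≤ i + Δ then
      Rf q f i j (w % q ^ (D + 1)) (w / q ^ (j - i) % q ^ (D + 1)) else 0, fun n => ?_⟩
  have step : f n = f 0 + ∑ i ∈ range (L + D),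
      ((f (wd q D i n * q ^ i) - f ((wd q D i n - wd q D i n % q) * q ^ i)) +
        ∑ j ∈ range (L + D), if i + D < j then Rf q f i j (wd q D i n) (wd q D j n) else 0) := by
    have t1 : f n = f (n / q ^ (L + D) * q ^ (L + D)) +
        ∑ i ∈ range (L + D), (f (n / q ^ i * q ^ i) - f (n / q ^ (i + 1) * q ^ (i + 1))) := by
      rw [Finset.sum_range_sub' (fun i => f (n / q ^ i * q ^ i))]
      simp
    have t2 : f (n / q ^ (L + D) * q ^ (L + D)) = f 0 := by
      have := Can_ph_zero hq D L F 0 (n / q ^ (L + D)) (L + D) le_rfl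
      rwa [zero_add] at this
    rw [t1, t2]
    congr 1
    refine Finset.sum_congr rfl fun i hi => ?_
    have hc : wd q D i n < q ^ (D + 1) := Nat.mod_lt _ (pow_pos hq0 _)
    set e : ℕ → G := fun j => f (wd q D i n * q ^ i + n / q ^ j * q ^ j) -
      f ((wd q D i n - wd q D i n % q) * q ^ i + n / q ^ j * q ^ j) with he
    have he0 : ∀ j, L + D ≤ j → e j = f (wd q D i n * q ^ i) -
        f ((wd q D i n - wd q D i n % q) * q ^ i) := by
      intro j hj
      rw [he]
      simp only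
      rw [hf, Can_ph_zero hq D L F _ _ j hj, Can_ph_zero hq D L F _ _ j hj]
    have ht := Can_tele e (L + D) (i + D + 1) fun j hj => by rw [he0 j hj, he0 (L + D) le_rfl]
    rw [he0 (L + D) le_rfl] at ht
    have hl : f (n / q ^ i * q ^ i) - f (n / q ^ (i + 1) * q ^ (i + 1)) = e (i + D + 1) := by
      rw [he]
      simp only
      rw [← Can_hi D i n, ← Can_hi1 D i n]
    rw [hl, ht]
    congr 1
    refine Finset.sum_congr rfl fun j _ => ?_
    by_cases hij : i + D < j
    · rw [if_pos hij, if_pos (show i + D + 1 ≤ j from hij)]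
      have hp := Can_ph hq D L i j (wd q D i n) (n / q ^ j) hc hij F
      have hw : wd q D j n = n / q ^ j % q ^ (D + 1) := rfl
      rw [hw, hf, ← hp]
      unfold Mx
      rw [he]
      simp only
      rw [Can_hi_succ j n]
      abel
    · rw [if_neg hij, if_neg (show ¬ i + D + 1 ≤ j from hij)]
  have hw1 : ∀ i, wd q (Δ + D) i n % q ^ (D + 1) = wd q D i n := by
    intro i
    unfold wd
    rw [Nat.mod_mod_of_dvd _ (pow_dvd_pow q (by omega))]
  have hw2 : ∀ i j, i + D < j ∧ j ≤ i + Δ →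
      wd q (Δ + D) i n / q ^ (j - i) % q ^ (D + 1) = wd q D j n := by
    intro i j hij
    unfold wd
    have e : q ^ (Δ + D + 1) = q ^ (j - i) * q ^ (Δ + D + 1 - (j - i)) := by
      rw [← pow_add]; congr 1; omega
    have e2 : q ^ j = q ^ i * q ^ (j - i) := by rw [← pow_add]; congr 1; omega
    rw [e, Nat.mod_mul_right_div_self, Nat.mod_mod_of_dvd _ (pow_dvd_pow q (by omega)), e2,
      ← Nat.div_div_eq_div_mul]
  unfold loc
  simp only [hw1]
  rw [step]
  rw [← Finset.sum_add_distrib]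
  rcases Nat.eq_zero_or_pos (L + D) with h0 | h0
  · have hL : L = 0 := by omega
    have : f 0 = 0 := by rw [hf, hL]; simp [ph]
    rw [h0, this]
    simp
  · have hz : f 0 = ∑ i ∈ range (L + D), if i = 0 then f 0 else 0 := by
      rw [Finset.sum_ite_eq' (range (L + D)) 0 (fun _ => f 0), if_pos (Finset.mem_range.2 h0)]
    conv_lhs => rw [hz]
    rw [← Finset.sum_add_distrib]
    refine Finset.sum_congr rfl fun i _ => ?_
    have hs : (∑ j ∈ range (L + D), if i + D < j then Rf q f i j (wd q D i n) (wd q D j n)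
        else 0) =
        (∑ j ∈ range (L + D), if i + D < j ∧ j ≤ i + Δ then
          Rf q f i j (wd q D i n) (wd q (Δ + D) i n / q ^ (j - i) % q ^ (D + 1)) else 0) +
        ∑ j ∈ range (L + D), if i + Δ < j then Rf q f i j (wd q D i n) (wd q D j n) else 0 := by
      rw [← Finset.sum_add_distrib]
      refine Finset.sum_congr rfl fun j _ => ?_
      by_cases h1 : i + Δ < j
      · rw [if_pos (show i + D < j by omega), if_pos h1, if_neg (by omega), zero_add]
      · by_cases h2 : i + D < j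
        · rw [if_pos h2, if_neg h1, if_pos ⟨h2, by omega⟩, hw2 i j ⟨h2, by omega⟩, add_zero]
        · rw [if_neg h2, if_neg h1, if_neg (fun h => h2 h.1), add_zero]
    rw [hs]
    abel

end Pool.Agent.Lib.MP_3e612f_nt.PI
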