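import Pool.Agent.Lib.MP_3e612f_nt.PI.Defs

/-!
The cube lemma.

PROOF of `cube_ladder`. Put `ρ = |1 + e|/2`-type bound: for `β ≠ 0` in `ZMod m`,
`‖1 + ee β‖ ≤ 2 ω` with some `ω < 1`, `ω ≥ 0` depending only on `m` (finitely many `β`, each
`ee β ≠ 1`; take `ω ≥ 0` also if `m = 1`), and `‖1 + ee 0‖ = 2`. Put `θ = √((1 + ω)/2)`.
By Cauchy-Schwarz over `(x, x')` (`4^k` terms)
`|∑_{x,x'} ee(α) ∑_y ee(β y + ∑…)|² ≤ 4^k ∑_{x,x'} |∑_y …|²
  = 4^k ∑_{y,ȳ} ee(β y - β ȳ) ∏_s (1 + ee β_s) (1 + ee β'_s)`, where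
`β_s = ∑_t b s t (y_t - ȳ_t)`, `β'_s = ∑_t b' s t (y_t - ȳ_t)` (`y_t, ȳ_t ∈ {0,1}`), so it is at most
`4^k · 4^k ∑_{y,ȳ} ∏_s w_s`, `w_s = ω` if `β_s ≠ β'_s` and `w_s = 1` otherwise (if
`β_s ≠ β'_s` one of the two is nonzero). Now `β_s - β'_s = ∑_{t ≥ s} (b s t - b' s t)(y_t - ȳ_t)`,
because `b s t = b' s t` for `t < s`. So `w_s` only depends on `(y_t, ȳ_t)_{t ≥ s}`. If
`b s s ≠ b' s s`, then for every fixed value of `(y_t, ȳ_t)_{t > s}` at least two of the four values of
`(y_s, ȳ_s)` give `β_s ≠ β'_s`: if the part from `t > s` is `≠ 0`, then `y_s = ȳ_s` (two values);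
if it is `0`, then `y_s ≠ ȳ_s` (two values). So the sum over `(y_s, ȳ_s)` of `w_s` is at most
`2 + 2ω = 4 θ²`, and summing successively over `(y_0, ȳ_0), (y_1, ȳ_1), …` gives
`∑_{y,ȳ} ∏_s w_s ≤ 4^k θ^(2 #{s | b s s ≠ b' s s})`. Altogether
`|∑|² ≤ 64^k θ^(2 #)`. (Induction on `k` is convenient for the last step: split off the index `0`,
`Fin.consEquiv` / `Fin.cons`; state it for arbitrary functions of the later coordinates.)
-/

set_option autoImplicit false

namespace Pool.Agent.Lib.MP_3e612f_nt.PI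

open Finset


section
variable {m : ℕ} [NeZero m]

private theorem CubeL_add (x y : ZMod m) : ee (x + y) = ee x * ee y := by
  simp only [ee]; exact AddChar.map_add_eq_mul _ _ _

private theorem CubeL_zero : ee (0 : ZMod m) = 1 := by
  simp only [ee]; exact AddChar.map_zero_eq_one _

private theorem CubeL_norm (x : ZMod m) : ‖ee x‖ = 1 := by
  simp only [ee]; exact AddChar.norm_apply _ _

private theorem CubeL_conj (x : ZMod m) : (starRingEnd ℂ) (ee x) = ee (-x) := by
  simp only [ee]; rw [AddChar.map_neg_eq_conj]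

private theorem CubeL_ne_one (x : ZMod m) (hx : x ≠ 0) : ee x ≠ 1 := by
  intro h
  apply hx
  apply ZMod.injective_stdAddChar
  rw [AddChar.map_zero_eq_one]
  exact h

private theorem CubeL_sum {ι : Type} (s : Finset ι) (f : ι → ZMod m) :
    ee (∑ i ∈ s, f i) = ∏ i ∈ s, ee (f i) := by
  classical
  induction s using Finset.induction_on with
  | empty => simp [CubeL_zero]
  | insert a s ha ih => rw [Finset.sum_insert ha, Finset.prod_insert ha, CubeL_add, ih]

private theorem CubeL_lt (x : ZMod m) (hx : x ≠ 0) : ‖1 + ee x‖ < 2 := by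
  have h1 : ‖ee x‖ = 1 := CubeL_norm x
  have h2 : ee x ≠ 1 := CubeL_ne_one x hx
  have hsq : ‖1 + ee x‖ ^ 2 + ‖1 - ee x‖ ^ 2 = 4 := by
    have := parallelogram_law_with_norm ℝ (1 : ℂ) (ee x)
    rw [h1] at this
    simp only [norm_one] at this
    nlinarith [this]
  have h3 : 0 < ‖1 - ee x‖ := norm_pos_iff.mpr (sub_ne_zero.mpr (Ne.symm h2))
  nlinarith [norm_nonneg (1 + ee x), pow_pos h3 2]

private theorem CubeL_le (x : ZMod m) : ‖1 + ee x‖ ≤ 2 := by
  have h1 : ‖ee x‖ = 1 := CubeL_norm x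
  calc ‖1 + ee x‖ ≤ ‖(1:ℂ)‖ + ‖ee x‖ := norm_add_le _ _
    _ = 2 := by rw [h1, norm_one]; norm_num

variable (m) in
private theorem CubeL_omega : ∃ om : ℝ, 0 ≤ om ∧ om < 1 ∧ ∀ x : ZMod m, x ≠ 0 → ‖1 + ee x‖ ≤ 2 * om := by
  classical
  by_cases hS : (Finset.univ.filter fun x : ZMod m => x ≠ 0).Nonempty
  · obtain ⟨x0, hx0, hmax⟩ := Finset.exists_max_image _ (fun x : ZMod m => ‖1 + ee x‖) hS
    refine ⟨‖1 + ee x0‖ / 2, by positivity, ?_, ?_⟩
    · have := CubeL_lt x0 (by simpa using hx0)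
      linarith
    · intro x hx
      have := hmax x (by simpa using hx)
      linarith
  · refine ⟨0, le_refl _, by norm_num, ?_⟩
    intro x hx
    exact absurd ⟨x, by simpa using hx⟩ hS

private theorem CubeL_cons {M : Type} [AddCommMonoid M] {k : ℕ} (f : (Fin (k + 1) → Bool) → M) :
    ∑ y, f y = ∑ a : Bool, ∑ z : Fin k → Bool, f (Fin.cons a z) := by
  rw [← (Fin.consEquiv (fun _ : Fin (k + 1) => Bool)).sum_comp, Fintype.sum_prod_type]
  rfl

/-- 0/1 value -/
private def CubeL_d (a : Bool) : ZMod m := if a = true then 1 else 0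

private noncomputable def CubeL_W (om : ℝ) (x : ZMod m) : ℝ := if x = 0 then 1 else om

private theorem CubeL_W_nonneg {om : ℝ} (h : 0 ≤ om) (x : ZMod m) : 0 ≤ CubeL_W om x := by
  unfold CubeL_W; split_ifs <;> linarith

private theorem CubeL_W_le {om : ℝ} (h1 : om ≤ 1) (x : ZMod m) : CubeL_W om x ≤ 1 := by
  unfold CubeL_W; split_ifs <;> linarith

private theorem CubeL_step {om : ℝ} (h0 : 0 ≤ om) (h1 : om ≤ 1) (c R : ZMod m) :
    ∑ a : Bool, ∑ a' : Bool, CubeL_W om (c * (CubeL_d a - CubeL_d a') + R) ≤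
      4 * ((1 + om) / 2) ^ (if c ≠ 0 then 1 else 0) := by
  classical
  simp only [Fintype.sum_bool, CubeL_d, if_true, Bool.false_eq_true, if_false, sub_self, sub_zero,
    zero_sub, mul_zero, zero_add, mul_one]
  by_cases hc : c = 0
  · subst hc
    simp only [ne_eq, not_true_eq_false, if_false, pow_zero, zero_mul, zero_add]
    have := CubeL_W_le h1 R
    linarith
  · rw [if_pos hc, pow_one]
    by_cases hR : R = 0
    · subst hR
      have e1 : CubeL_W om (c + 0) = om := by unfold CubeL_W; rw [add_zero, if_neg hc]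
      have e2 : CubeL_W om (c * -1 + 0) = om := by
        unfold CubeL_W; rw [add_zero, if_neg]; simpa using hc
      have e3 : CubeL_W om (0 : ZMod m) = 1 := by unfold CubeL_W; simp
      rw [e1, e2, e3]; linarith
    · have e3 : CubeL_W om R = om := by unfold CubeL_W; rw [if_neg hR]
      rw [e3]
      have := CubeL_W_le h1 (c + R)
      have := CubeL_W_le h1 (c * -1 + R)
      linarith

private theorem CubeL_ind {om : ℝ} (h0 : 0 ≤ om) (h1 : om ≤ 1) (k : ℕ) (c : Fin k → Fin k → ZMod m)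
    (hc : ∀ s t, t < s → c s t = 0) :
    ∑ y : Fin k → Bool, ∑ y' : Fin k → Bool,
      ∏ s, CubeL_W om (∑ t, c s t * (CubeL_d (y t) - CubeL_d (y' t))) ≤
      4 ^ k * ((1 + om) / 2) ^ (Finset.univ.filter fun s => c s s ≠ 0).card := by
  classical
  induction k with
  | zero => simp
  | succ k ih =>
    have ih' := ih (fun s t => c s.succ t.succ) (fun s t hst => hc _ _ (Fin.succ_lt_succ_iff.mpr hst))
    rw [CubeL_cons]
    have key : ∀ (a : Bool) (z : Fin k → Bool), ∑ y' : Fin (k + 1) → Bool,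
        ∏ s, CubeL_W om (∑ t, c s t * (CubeL_d ((Fin.cons a z : Fin (k + 1) → Bool) t) -
          CubeL_d (y' t))) =
        ∑ a' : Bool, ∑ z' : Fin k → Bool,
          CubeL_W om (c 0 0 * (CubeL_d a - CubeL_d a') +
            ∑ t : Fin k, c 0 t.succ * (CubeL_d (z t) - CubeL_d (z' t))) *
          ∏ s : Fin k, CubeL_W om (∑ t : Fin k, c s.succ t.succ * (CubeL_d (z t) - CubeL_d (z' t))) := by
      intro a z
      rw [CubeL_cons]
      refine Finset.sum_congr rfl fun a' _ => Finset.sum_congr rfl fun z' _ => ?_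
      rw [Fin.prod_univ_succ]
      congr 1
      · rw [Fin.sum_univ_succ]
        simp only [Fin.cons_zero, Fin.cons_succ]
      · refine Finset.prod_congr rfl fun s _ => ?_
        rw [Fin.sum_univ_succ, hc s.succ 0 (Fin.succ_pos s), zero_mul, zero_add]
        simp only [Fin.cons_succ]
    simp only [key]
    have hre : ∑ a : Bool, ∑ z : Fin k → Bool, ∑ a' : Bool, ∑ z' : Fin k → Bool,
          CubeL_W om (c 0 0 * (CubeL_d a - CubeL_d a') +
            ∑ t : Fin k, c 0 t.succ * (CubeL_d (z t) - CubeL_d (z' t))) *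
          ∏ s : Fin k, CubeL_W om (∑ t : Fin k, c s.succ t.succ * (CubeL_d (z t) - CubeL_d (z' t))) =
        ∑ z : Fin k → Bool, ∑ z' : Fin k → Bool,
          (∏ s : Fin k, CubeL_W om (∑ t : Fin k, c s.succ t.succ * (CubeL_d (z t) - CubeL_d (z' t)))) *
          ∑ a : Bool, ∑ a' : Bool, CubeL_W om (c 0 0 * (CubeL_d a - CubeL_d a') +
            ∑ t : Fin k, c 0 t.succ * (CubeL_d (z t) - CubeL_d (z' t))) := by
      rw [Finset.sum_comm]
      refine Finset.sum_congr rfl fun z _ => ?_
      have : ∀ a : Bool, ∑ a' : Bool, ∑ z' : Fin k → Bool,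
          CubeL_W om (c 0 0 * (CubeL_d a - CubeL_d a') +
            ∑ t : Fin k, c 0 t.succ * (CubeL_d (z t) - CubeL_d (z' t))) *
          ∏ s : Fin k, CubeL_W om (∑ t : Fin k, c s.succ t.succ * (CubeL_d (z t) - CubeL_d (z' t))) =
          ∑ z' : Fin k → Bool, ∑ a' : Bool,
          CubeL_W om (c 0 0 * (CubeL_d a - CubeL_d a') +
            ∑ t : Fin k, c 0 t.succ * (CubeL_d (z t) - CubeL_d (z' t))) *
          ∏ s : Fin k, CubeL_W om (∑ t : Fin k, c s.succ t.succ * (CubeL_d (z t) - CubeL_d (z' t))) :=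
        fun a => Finset.sum_comm
      simp only [this]
      rw [Finset.sum_comm]
      refine Finset.sum_congr rfl fun z' _ => ?_
      rw [Finset.mul_sum]
      refine Finset.sum_congr rfl fun a _ => ?_
      rw [Finset.mul_sum]
      refine Finset.sum_congr rfl fun a' _ => ?_
      ring
    rw [hre]
    have hcard : (Finset.univ.filter fun s : Fin (k + 1) => c s s ≠ 0).card =
        (if c 0 0 ≠ 0 then 1 else 0) +
          (Finset.univ.filter fun s : Fin k => c s.succ s.succ ≠ 0).card := by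
      rw [Fin.card_filter_univ_succ]
      split_ifs
      · ring
      · ring
    have hrho : 0 ≤ ((1 + om) / 2) := by linarith
    calc _ ≤ ∑ z : Fin k → Bool, ∑ z' : Fin k → Bool,
          (∏ s : Fin k, CubeL_W om (∑ t : Fin k, c s.succ t.succ * (CubeL_d (z t) - CubeL_d (z' t)))) *
          (4 * ((1 + om) / 2) ^ (if c 0 0 ≠ 0 then 1 else 0)) := by
          refine Finset.sum_le_sum fun z _ => Finset.sum_le_sum fun z' _ => ?_
          exact mul_le_mul_of_nonneg_left (CubeL_step h0 h1 _ _)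
            (Finset.prod_nonneg fun s _ => CubeL_W_nonneg h0 _)
      _ = (∑ z : Fin k → Bool, ∑ z' : Fin k → Bool,
          ∏ s : Fin k, CubeL_W om (∑ t : Fin k, c s.succ t.succ * (CubeL_d (z t) - CubeL_d (z' t)))) *
          (4 * ((1 + om) / 2) ^ (if c 0 0 ≠ 0 then 1 else 0)) := by
          simp only [Finset.sum_mul]
      _ ≤ (4 ^ k * ((1 + om) / 2) ^ (Finset.univ.filter fun s : Fin k => c s.succ s.succ ≠ 0).card) *
          (4 * ((1 + om) / 2) ^ (if c 0 0 ≠ 0 then 1 else 0)) := by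
          exact mul_le_mul_of_nonneg_right ih' (by positivity)
      _ = _ := by
          rw [hcard, pow_add, pow_succ]; ring

private theorem CubeL_prod (k : ℕ) (v : Fin k → ZMod m) :
    ∑ x : Fin k → Bool, ee (∑ s, (if x s = true then v s else 0)) = ∏ s, (1 + ee (v s)) := by
  classical
  have h1 : ∀ s : Fin k, (1 + ee (v s)) = ∑ a : Bool, ee (if a = true then v s else 0) := by
    intro s
    rw [Fintype.sum_bool]
    simp [CubeL_zero, add_comm]
  simp only [h1]
  rw [Finset.prod_univ_sum, Fintype.piFinset_univ]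
  refine Finset.sum_congr rfl fun x _ => ?_
  rw [CubeL_sum]

private theorem CubeL_sq (k : ℕ) (g : (Fin k → Bool) → ZMod m) :
    ((‖∑ y : Fin k → Bool, ee (g y)‖ ^ 2 : ℝ) : ℂ) =
      ∑ y : Fin k → Bool, ∑ y' : Fin k → Bool, ee (g y - g y') := by
  have h : ((‖∑ y : Fin k → Bool, ee (g y)‖ ^ 2 : ℝ) : ℂ) =
      (∑ y : Fin k → Bool, ee (g y)) * (starRingEnd ℂ) (∑ y : Fin k → Bool, ee (g y)) := by
    rw [Complex.mul_conj, Complex.normSq_eq_norm_sq]
  rw [h, map_sum, Finset.sum_mul_sum]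
  refine Finset.sum_congr rfl fun y _ => Finset.sum_congr rfl fun y' _ => ?_
  rw [CubeL_conj, ← CubeL_add, sub_eq_add_neg]

end

theorem cube_ladder (m : ℕ) [NeZero m] : ∃ θ : ℝ, 0 < θ ∧ θ < 1 ∧
    ∀ (k : ℕ) (b b' : Fin k → Fin k → ZMod m)
      (α : (Fin k → Bool) → (Fin k → Bool) → ZMod m) (β : (Fin k → Bool) → ZMod m),
      (∀ s t, t < s → b s t = b' s t) →
      ‖∑ x : Fin k → Bool, ∑ x' : Fin k → Bool, ∑ y : Fin k → Bool,
        ee (α x x' + β y + ∑ s, ∑ t, ((if x s = true ∧ y t = true then b s t else 0) +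
          (if x' s = true ∧ y t = true then b' s t else 0)))‖ ≤
        8 ^ k * θ ^ (Finset.univ.filter fun s => b s s ≠ b' s s).card := by
  classical
  obtain ⟨om, h0, h1, hom⟩ := CubeL_omega m
  have hrho : 0 < (1 + om) / 2 := by linarith
  refine ⟨Real.sqrt ((1 + om) / 2), Real.sqrt_pos.mpr hrho, ?_, ?_⟩
  · rw [Real.sqrt_lt' (by norm_num)]; linarith
  intro k b b' α β hb
  set θ := Real.sqrt ((1 + om) / 2) with hθ
  have hθ0 : 0 < θ := Real.sqrt_pos.mpr hrho
  have hθ2 : θ ^ 2 = (1 + om) / 2 := Real.sq_sqrt hrho.le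
  -- the inner phase
  set g : (Fin k → Bool) → (Fin k → Bool) → (Fin k → Bool) → ZMod m := fun x x' y =>
    β y + ∑ s, ∑ t, ((if x s = true ∧ y t = true then b s t else 0) +
          (if x' s = true ∧ y t = true then b' s t else 0)) with hg
  have hT : ∀ x x' : Fin k → Bool, ∑ y : Fin k → Bool,
        ee (α x x' + β y + ∑ s, ∑ t, ((if x s = true ∧ y t = true then b s t else 0) +
          (if x' s = true ∧ y t = true then b' s t else 0))) =
        ee (α x x') * ∑ y, ee (g x x' y) := by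
    intro x x'
    rw [Finset.mul_sum]
    refine Finset.sum_congr rfl fun y _ => ?_
    rw [← CubeL_add, hg, add_assoc]
  simp only [hT]
  have hB : ‖∑ x : Fin k → Bool, ∑ x' : Fin k → Bool, ee (α x x') * ∑ y, ee (g x x' y)‖ ≤
      ∑ p : (Fin k → Bool) × (Fin k → Bool), ‖∑ y, ee (g p.1 p.2 y)‖ := by
    rw [← Fintype.sum_prod_type' (f := fun x x' => ee (α x x') * ∑ y, ee (g x x' y))]
    refine (norm_sum_le _ _).trans (le_of_eq ?_)
    refine Finset.sum_congr rfl fun p _ => ?_
    rw [norm_mul, CubeL_norm, one_mul]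
  set N := (Finset.univ.filter fun s => b s s ≠ b' s s).card with hN
  have hsq : (∑ p : (Fin k → Bool) × (Fin k → Bool), ‖∑ y, ee (g p.1 p.2 y)‖) ^ 2 ≤
      (8 ^ k * θ ^ N) ^ 2 := by
    have hCS := sq_sum_le_card_mul_sum_sq (s := (Finset.univ : Finset ((Fin k → Bool) × (Fin k → Bool))))
      (f := fun p => ‖∑ y, ee (g p.1 p.2 y)‖)
    have hcardp : ((Finset.univ : Finset ((Fin k → Bool) × (Fin k → Bool))).card : ℝ) = 4 ^ k := by
      rw [Finset.card_univ, Fintype.card_prod, Fintype.card_fun, Fintype.card_bool, Fintype.card_fin]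
      push_cast
      rw [← mul_pow]; norm_num
    rw [hcardp] at hCS
    have hsum : ∑ p : (Fin k → Bool) × (Fin k → Bool), ‖∑ y, ee (g p.1 p.2 y)‖ ^ 2 ≤
        4 ^ k * (4 ^ k * ((1 + om) / 2) ^ N) := by
      have hcx : ((∑ p : (Fin k → Bool) × (Fin k → Bool), ‖∑ y, ee (g p.1 p.2 y)‖ ^ 2 : ℝ) : ℂ) =
          ∑ y : Fin k → Bool, ∑ y' : Fin k → Bool, ee (β y - β y') *
            ((∏ s, (1 + ee (∑ t, b s t * (CubeL_d (y t) - CubeL_d (y' t))))) *
            ∏ s, (1 + ee (∑ t, b' s t * (CubeL_d (y t) - CubeL_d (y' t))))) := by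
        rw [Complex.ofReal_sum]
        have : ∀ p : (Fin k → Bool) × (Fin k → Bool), ((‖∑ y, ee (g p.1 p.2 y)‖ ^ 2 : ℝ) : ℂ) =
            ∑ y : Fin k → Bool, ∑ y' : Fin k → Bool, ee (g p.1 p.2 y - g p.1 p.2 y') :=
          fun p => CubeL_sq k _
        simp only [this]
        rw [Finset.sum_comm]
        refine Finset.sum_congr rfl fun y _ => ?_
        rw [Finset.sum_comm]
        refine Finset.sum_congr rfl fun y' _ => ?_
        rw [Fintype.sum_prod_type, ← CubeL_prod, ← CubeL_prod, Finset.sum_mul_sum, Finset.mul_sum]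
        refine Finset.sum_congr rfl fun x _ => ?_
        rw [Finset.mul_sum]
        refine Finset.sum_congr rfl fun x' _ => ?_
        rw [← CubeL_add, ← CubeL_add]
        congr 1
        simp only [hg]
        have e1 : ∀ (B : Fin k → Fin k → ZMod m) (w : Fin k → Bool),
            ∑ s, (if w s = true then ∑ t, B s t * (CubeL_d (y t) - CubeL_d (y' t)) else 0) =
            ∑ s, ∑ t, (if w s = true ∧ y t = true then B s t else 0) -
              ∑ s, ∑ t, (if w s = true ∧ y' t = true then B s t else 0) := by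
          intro B w
          rw [← Finset.sum_sub_distrib]
          refine Finset.sum_congr rfl fun s _ => ?_
          rw [← Finset.sum_sub_distrib]
          by_cases hw : w s = true
          · rw [if_pos hw]
            refine Finset.sum_congr rfl fun t _ => ?_
            simp only [hw, true_and, CubeL_d]
            split_ifs <;> ring
          · rw [if_neg hw]
            symm
            refine Finset.sum_eq_zero fun t _ => ?_
            simp [hw]
        rw [e1, e1]
        simp only [Finset.sum_add_distrib]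
        ring
      have hnorm : (∑ p : (Fin k → Bool) × (Fin k → Bool), ‖∑ y, ee (g p.1 p.2 y)‖ ^ 2) =
          ‖((∑ p : (Fin k → Bool) × (Fin k → Bool), ‖∑ y, ee (g p.1 p.2 y)‖ ^ 2 : ℝ) : ℂ)‖ := by
        rw [Complex.norm_real, Real.norm_eq_abs, abs_of_nonneg]
        exact Finset.sum_nonneg fun p _ => by positivity
      rw [hnorm, hcx]
      have hterm : ∀ y y' : Fin k → Bool, ‖ee (β y - β y') *
            ((∏ s, (1 + ee (∑ t, b s t * (CubeL_d (y t) - CubeL_d (y' t))))) *
            ∏ s, (1 + ee (∑ t, b' s t * (CubeL_d (y t) - CubeL_d (y' t)))))‖ ≤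
          4 ^ k * ∏ s, CubeL_W om (∑ t, (b s t - b' s t) * (CubeL_d (y t) - CubeL_d (y' t))) := by
        intro y y'
        rw [norm_mul, CubeL_norm, one_mul, ← Finset.prod_mul_distrib, norm_prod]
        have h4 : (4 : ℝ) ^ k = ∏ _s : Fin k, (4 : ℝ) := by simp
        rw [h4, ← Finset.prod_mul_distrib]
        refine Finset.prod_le_prod (fun s _ => norm_nonneg _) fun s _ => ?_
        rw [norm_mul]
        have hdiff : ∑ t, (b s t - b' s t) * (CubeL_d (y t) - CubeL_d (y' t)) =
            (∑ t, b s t * (CubeL_d (y t) - CubeL_d (y' t))) -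
              ∑ t, b' s t * (CubeL_d (y t) - CubeL_d (y' t)) := by
          rw [← Finset.sum_sub_distrib]
          exact Finset.sum_congr rfl fun t _ => by ring
        rw [hdiff]
        set u := ∑ t, b s t * (CubeL_d (y t) - CubeL_d (y' t))
        set v := ∑ t, b' s t * (CubeL_d (y t) - CubeL_d (y' t))
        have hu := CubeL_le u
        have hv := CubeL_le v
        have hu0 := norm_nonneg (1 + ee u)
        have hv0 := norm_nonneg (1 + ee v)
        unfold CubeL_W
        split_ifs with huv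
        · nlinarith
        · have hne : u ≠ v := fun h => huv (sub_eq_zero.mpr h)
          by_cases hu' : u = 0
          · have hv' : v ≠ 0 := fun h => hne (by rw [hu', h])
            have := hom v hv'
            nlinarith
          · have := hom u hu'
            nlinarith
      calc _ ≤ ∑ y : Fin k → Bool, ∑ y' : Fin k → Bool,
          4 ^ k * ∏ s, CubeL_W om (∑ t, (b s t - b' s t) * (CubeL_d (y t) - CubeL_d (y' t))) := by
            refine (norm_sum_le _ _).trans (Finset.sum_le_sum fun y _ => ?_)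
            exact (norm_sum_le _ _).trans (Finset.sum_le_sum fun y' _ => hterm y y')
        _ = 4 ^ k * ∑ y : Fin k → Bool, ∑ y' : Fin k → Bool,
          ∏ s, CubeL_W om (∑ t, (b s t - b' s t) * (CubeL_d (y t) - CubeL_d (y' t))) := by
            simp only [Finset.mul_sum]
        _ ≤ _ := by
            refine mul_le_mul_of_nonneg_left ?_ (by positivity)
            have := CubeL_ind h0 h1.le k (fun s t => b s t - b' s t)
              (fun s t hst => by rw [hb s t hst, sub_self])
            simpa only [sub_ne_zero, hN] using this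
    calc _ ≤ 4 ^ k * ∑ p : (Fin k → Bool) × (Fin k → Bool), ‖∑ y, ee (g p.1 p.2 y)‖ ^ 2 := hCS
      _ ≤ 4 ^ k * (4 ^ k * (4 ^ k * ((1 + om) / 2) ^ N)) :=
          mul_le_mul_of_nonneg_left hsum (by positivity)
      _ = (8 ^ k * θ ^ N) ^ 2 := by
          rw [← hθ2, mul_pow, ← pow_mul, ← pow_mul, ← pow_mul]
          rw [show (8 : ℝ) = 2 ^ 3 by norm_num, show (4 : ℝ) = 2 ^ 2 by norm_num]
          rw [← pow_mul, ← pow_mul]
          rw [mul_comm 2 N]
          ring_nf
  have hfin := abs_le_of_sq_le_sq hsq (by positivity)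
  exact hB.trans ((le_abs_self _).trans hfin)

end Pool.Agent.Lib.MP_3e612f_nt.PI
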