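import Pool.Agent.Lib.MP_3e612f_nt.PI.OneM
import Pool.Agent.Lib.MP_3e612f_nt.PI.Lc
import Pool.Agent.Lib.MP_3e612f_nt.PI.Fou

/-!
Functions of boundedly many phases without interactions.

PROOF of `family_main`. Let `φ : (ι → ZMod M) → ℂ` be bounded by `1` with `f n = φ (fun k => h k n)`
(put `φ = 0` outside the range). Fourier expansion on the finite group `(ZMod M)^ι`:
`φ y = ∑_t a t * ee (∑_k t k * y k)` with `a t = M^(-|ι|) ∑_y φ y * ee (-∑_k t k * y k)`,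
`‖a t‖ ≤ 1` (orthogonality: `∑_t ee (∑_k t k * (y k - y' k)) = M^|ι|` or `0`; `ZMod.stdAddChar` is
primitive; product over `k`, or `AddChar` duality). For each `t` the function
`n ↦ ∑_k t k * h k n` is `IsLoc q D`, so `one_main` with `ε / M^ρ` applies; there are `M^|ι| ≤ M^ρ`
values of `t`.
-/

set_option autoImplicit false

namespace Pool.Agent.Lib.MP_3e612f_nt.PI

open Finset

theorem family_main (q D M ρ : ℕ) [NeZero M] (hq : 2 ≤ q) {ε : ℝ} (hε : 0 < ε) :
    ∃ N0 : ℕ, ∀ N ≥ N0, ∀ (ι : Type) [Fintype ι], Fintype.card ι ≤ ρ →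
      ∀ (h : ι → ℕ → ZMod M), (∀ k, IsLoc q D (h k)) → ∀ f : ℕ → ℂ, (∀ n, ‖f n‖ ≤ 1) →
      (∀ n n', (∀ k, h k n = h k n') → f n = f n') → ∀ s : ℕ,
      ‖∑ n ∈ Icc 1 N, mc n * f (n + s)‖ ≤ ε * N := by
  classical
  have hM : (0 : ℝ) < (M : ℝ) ^ ρ := by
    have : (0 : ℝ) < (M : ℝ) := by exact_mod_cast Nat.pos_of_ne_zero (NeZero.ne M)
    positivity
  obtain ⟨N0, hN0⟩ := one_main q D M hq (div_pos hε hM)
  refine ⟨N0, fun N hN ι _ hcard h hloc f hf1 hfac s => ?_⟩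
  -- the function `φ`
  let φ : (ι → ZMod M) → ℂ := fun y => if H : ∃ n, (fun k => h k n) = y then f H.choose else 0
  have hφ1 : ∀ y, ‖φ y‖ ≤ 1 := by
    intro y
    by_cases H : ∃ n, (fun k => h k n) = y
    · simp only [φ, H, dif_pos]
      exact hf1 _
    · simp only [φ, dif_neg H]
      simp
  have hφf : ∀ n, φ (fun k => h k n) = f n := by
    intro n
    have H : ∃ n', (fun k => h k n') = (fun k => h k n) := ⟨n, rfl⟩
    simp only [φ, dif_pos H]
    exact hfac _ _ fun k => congrFun H.choose_spec k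
  obtain ⟨a, ha1, ha⟩ := fourier_exists M φ hφ1
  have hl : ∀ t : ι → ZMod M, IsLoc q D (fun n => ∑ k, t k * h k n) := by
    intro t
    exact IsLoc.sum univ fun k _ => IsLoc.map (AddMonoidHom.mulLeft (t k)) (hloc k)
  have hmain : ∀ t : ι → ZMod M,
      ‖∑ n ∈ Icc 1 N, mc n * ee (∑ k, t k * h k (n + s))‖ ≤ ε / (M : ℝ) ^ ρ * N := by
    intro t
    obtain ⟨L, c, hLc⟩ := hl t
    have := hN0 N hN L s c
    have he : ∀ n, ∑ k, t k * h k (n + s) = loc q D L c (n + s) := fun n => congrFun hLc (n + s)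
    simpa only [he] using this
  have hsum : ∑ n ∈ Icc 1 N, mc n * f (n + s)
      = ∑ t, a t * ∑ n ∈ Icc 1 N, mc n * ee (∑ k, t k * h k (n + s)) := by
    simp_rw [Finset.mul_sum]
    rw [Finset.sum_comm]
    refine Finset.sum_congr rfl fun n _ => ?_
    rw [← hφf (n + s), ha, Finset.mul_sum]
    refine Finset.sum_congr rfl fun t _ => ?_
    ring
  rw [hsum]
  have hN' : (0 : ℝ) ≤ N := Nat.cast_nonneg N
  calc ‖∑ t, a t * ∑ n ∈ Icc 1 N, mc n * ee (∑ k, t k * h k (n + s))‖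
      ≤ ∑ t : ι → ZMod M, ‖a t * ∑ n ∈ Icc 1 N, mc n * ee (∑ k, t k * h k (n + s))‖ :=
        norm_sum_le _ _
    _ ≤ ∑ _t : ι → ZMod M, ε / (M : ℝ) ^ ρ * N := by
        refine Finset.sum_le_sum fun t _ => ?_
        rw [norm_mul]
        calc ‖a t‖ * ‖∑ n ∈ Icc 1 N, mc n * ee (∑ k, t k * h k (n + s))‖
            ≤ 1 * (ε / (M : ℝ) ^ ρ * N) :=
              mul_le_mul (ha1 t) (hmain t) (norm_nonneg _) zero_le_one
          _ = _ := one_mul _
    _ = (M : ℝ) ^ (Fintype.card ι) * (ε / (M : ℝ) ^ ρ * N) := by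
        rw [Finset.sum_const, Finset.card_univ, Fintype.card_fun, ZMod.card, nsmul_eq_mul]
        push_cast
        rfl
    _ ≤ (M : ℝ) ^ ρ * (ε / (M : ℝ) ^ ρ * N) := by
        refine mul_le_mul_of_nonneg_right ?_ (by positivity)
        exact pow_le_pow_right₀ (by exact_mod_cast Nat.one_le_iff_ne_zero.mpr (NeZero.ne M)) hcard
    _ = ε * N := by
        field_simp

end Pool.Agent.Lib.MP_3e612f_nt.PI
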