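import Pool.Agent.Lib.MP_3e612f_nt.PI.Lad
import Pool.Agent.Lib.MP_3e612f_nt.PI.Str
import Pool.Agent.Lib.MP_3e612f_nt.PI.Fam
import Pool.Agent.Lib.MP_3e612f_nt.PI.GadA
import Pool.Agent.Lib.MP_3e612f_nt.PI.Corr
import Pool.Agent.Lib.MP_3e612f_nt.PI.ExK
import Pool.Agent.Lib.MP_3e612f_nt.PI.Blk

/-!
The dichotomy for phases with pair interactions, and the main theorem for one character.

PROOF of `pair_dich`. Choose `b` with `2 p r`, `2 p q^D`, `2 r q^D ≤ q^b`, `H = q^(b+3D+κ+3)`,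
`g, l, z0, x0` from `exists_gad` with `l ≥ b + 2D + κ + 1`; `W = g + l ≥ D`, `Δ = W + D`; `θ` from
`corr_ladder m q W`; `k` with `θ^k ≤ δ/4`; `e, t` from `no_ladder (ZMod m) k H Δ`; `w` from `exists_K` with
`δ/8`. For `N` large let `K` be as in `exists_K`; `K + 1 ≥ W` because `q^K1 ≥ N` is large and
`K ≥ K1 - w`; `P = K + 1 - W`. Let `f = ph q D (K1+1) F` and `B = Bv … f η` (symmetric, `Bv_symm`).
CASE 1: there is a ladder of length `k`. By `corr_ladder` and `block_sum` (`Q = q^K`, `τ = θ^k`), for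
`N' ≤ N`: `‖∑‖ ≤ θ^k (N' + 1) + 2 q^K ≤ (δ/4) (2N) + 2 (δ/8) N ≤ δ N`.
CASE 2: no ladder of length `k`. Let `X, T` be as in `no_ladder`, `t0 = g + b + D + κ`,
`L' = K1 + 1 + D`. Let `X'` be the set of the `i < L'` such that `i < t0`, or `i - t0 ∈ X`, or
`i - t0 ≥ P`: at most `e' = t0 + e + (w + W + D + 2)` elements. Types of positions:
`T' i = (sa q g l s (i - t0), (T (i - t0, lam))_{lam < H})`, in a finite type with
`t' = q^W t^H` elements (for `i < t0` anything). If `i, j` and `i', j'` are far pairs outside `X'` with equal types,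
then `inj` with `a = i - t0`, … applies (its hypothesis on the `Bv` is the conclusion of `no_ladder`), so
the hypothesis of `struct` holds with `X', T', e', t'`, and `family_main` with `D := Δ + D`,
`M = 2 m q^(D+1)`, `ρ = t' q^(D+1) + 2 e' q^(D+1) + e' + 2`, applied to `n ↦ ee (f n)`, gives the second
alternative. (All parameters, hence the `N0` of `family_main`, depend only on
`q, D, κ, m, p, r, η, δ, ε`; `p, r > q` are primes, hence coprime to `q` and to each other.)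
-/

set_option autoImplicit false

namespace Pool.Agent.Lib.MP_3e612f_nt.PI

open Finset

private theorem Dich_norm_ee {m : ℕ} [NeZero m] (x : ZMod m) : ‖ee x‖ = 1 := by
  unfold ee
  exact AddChar.norm_apply _ x

private theorem Dich_coprime {p q : ℕ} (hq : 2 ≤ q) (hp : p.Prime) (hqp : q < p) : p.Coprime q :=
  (Nat.Prime.coprime_iff_not_dvd hp).2 (Nat.not_dvd_of_pos_of_lt (by omega) hqp)

private theorem Dich_card (t0 P L' w W D K K1 e : ℕ) (X : Finset ℕ) (hX : X.card ≤ e)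
    (hP : P + W = K + 1) (hK : K1 ≤ K + w) (hL : L' = K1 + 1 + D) :
    (range t0 ∪ X.image (· + t0) ∪ Ico (t0 + P) L').card ≤ t0 + e + (w + W + D + 2) := by
  calc (range t0 ∪ X.image (· + t0) ∪ Ico (t0 + P) L').card
      ≤ (range t0 ∪ X.image (· + t0)).card + (Ico (t0 + P) L').card := card_union_le _ _
    _ ≤ ((range t0).card + (X.image (· + t0)).card) + (Ico (t0 + P) L').card :=
        Nat.add_le_add_right (card_union_le _ _) _
    _ ≤ (t0 + e) + (L' - (t0 + P)) := by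
        rw [card_range, Nat.card_Ico]
        exact Nat.add_le_add_right (Nat.add_le_add_left (card_image_le.trans hX) _) _
    _ ≤ t0 + e + (w + W + D + 2) := by omega

private theorem Dich_mem {t0 P L' : ℕ} {X : Finset ℕ} {i : ℕ} (hi : i < L')
    (h : i ∉ range t0 ∪ X.image (· + t0) ∪ Ico (t0 + P) L') :
    t0 ≤ i ∧ i - t0 ∉ X ∧ i - t0 < P := by
  simp only [mem_union, mem_range, mem_image, mem_Ico, not_or, not_exists, not_and, not_lt,
    not_le] at h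
  obtain ⟨⟨h1, h2⟩, h3⟩ := h
  refine ⟨h1, fun h4 => h2 (i - t0) h4 (by omega), ?_⟩
  by_contra h4
  have := h3 (by omega)
  omega

theorem pair_dich (q D κ m p r : ℕ) [NeZero m] (hq : 2 ≤ q) (hm : m ∣ q ^ κ) (hp : p.Prime)
    (hr : r.Prime) (hqp : q < p) (hpr : p < r) (η : ℤ) {δ ε : ℝ} (hδ : 0 < δ) (hε : 0 < ε) :
    ∃ N0 : ℕ, ∀ N ≥ N0, ∀ (K1 s : ℕ) (F : ℕ → ℕ → ℕ → ℕ → ZMod m), N ≤ q ^ K1 → q ^ K1 ≤ q * N →
      (∀ N' ≤ N, ‖∑ n ∈ Icc 1 N', ee (Phi (ph q D (K1 + 1) F) η p r s n)‖ ≤ δ * N) ∨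
      ‖∑ n ∈ Icc 1 N, mc n * ee (ph q D (K1 + 1) F (n + s))‖ ≤ ε * N := by
  classical
  have hpq : p.Coprime q := Dich_coprime hq hp hqp
  have hrq : r.Coprime q := Dich_coprime hq hr (hqp.trans hpr)
  have hcpr : p.Coprime r := (Nat.coprime_primes hp hr).2 (by omega)
  -- parameters
  obtain ⟨b, hb1, hb2, hb3⟩ : ∃ b : ℕ, 2 * p * r ≤ q ^ b ∧ 2 * p * q ^ D ≤ q ^ b ∧
      2 * r * q ^ D ≤ q ^ b := by
    refine ⟨2 * p * r + 2 * p * q ^ D + 2 * r * q ^ D, ?_⟩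
    have h := (Nat.lt_pow_self (show 1 < q by omega) :
      2 * p * r + 2 * p * q ^ D + 2 * r * q ^ D < q ^ (2 * p * r + 2 * p * q ^ D + 2 * r * q ^ D))
    exact ⟨by omega, by omega, by omega⟩
  obtain ⟨H, hH⟩ : ∃ H, H = q ^ (b + 3 * D + κ + 3) := ⟨_, rfl⟩
  obtain ⟨g, l, z0, x0, hl, hDl, hG⟩ :=
    exists_gad hq hpq hrq hp.pos hr.pos D H (b + 2 * D + κ + 1)
  obtain ⟨W, hW⟩ : ∃ W, g + l = W := ⟨_, rfl⟩
  have hW1 : 1 ≤ W := by omega
  obtain ⟨θ, hθ0, hθ1, hladder⟩ := corr_ladder m q W hq hW1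
  obtain ⟨k, hk⟩ : ∃ k : ℕ, θ ^ k < δ / 4 := exists_pow_lt_of_lt_one (by positivity) hθ1
  obtain ⟨Δ, hΔ⟩ : ∃ Δ, Δ = W + D := ⟨_, rfl⟩
  obtain ⟨e, t, hno⟩ := no_ladder (ZMod m) k H Δ (by omega)
  obtain ⟨w, N1, hw⟩ := exists_K q hq (show 0 < δ / 8 by positivity)
  obtain ⟨t0, ht0⟩ : ∃ t0, t0 = g + b + D + κ := ⟨_, rfl⟩
  obtain ⟨t', ht'⟩ : ∃ t' : ℕ, Nonempty ((Fin (q ^ W) × (Fin H → Fin t)) ≃ Fin t') :=
    ⟨_, ⟨Fintype.equivFin _⟩⟩
  obtain ⟨eq'⟩ := ht'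
  obtain ⟨e', he'⟩ : ∃ e', e' = t0 + e + (w + W + D + 2) := ⟨_, rfl⟩
  have hq0 : 0 < q := by omega
  haveI : NeZero (2 * m * q ^ (D + 1)) :=
    ⟨Nat.mul_ne_zero (Nat.mul_ne_zero two_ne_zero (NeZero.ne m)) (Nat.pos_iff_ne_zero.1 (Nat.pow_pos hq0))⟩
  obtain ⟨N2, hfam⟩ := family_main q (Δ + D) (2 * m * q ^ (D + 1))
    (t' * q ^ (D + 1) + 2 * e' * q ^ (D + 1) + e' + 2) hq hε
  refine ⟨N1 + N2 + q ^ (W + w) + 1, fun N hN K1 s F hNK hKN => ?_⟩
  obtain ⟨K, hK, hK1⟩ := hw N (by omega) K1 hKN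
  have hK1' : W + w ≤ K1 := by
    by_contra h
    have h1 : q ^ K1 ≤ q ^ (W + w) := Nat.pow_le_pow_right hq0 (by omega)
    omega
  have hKW : W ≤ K := by omega
  obtain ⟨P, hP⟩ : ∃ P, P + W = K + 1 := ⟨K + 1 - W, by omega⟩
  by_cases hlad : ∃ o : Fin k × Fin 3 → ℕ × ℕ,
      IsLadder (Bv q D g l z0 x0 s p r (ph q D (K1 + 1) F) η) P H Δ k o
  · left
    obtain ⟨o, ho⟩ := hlad
    intro N' hN'
    have h1 := hladder D g l H p r z0 x0 hW hDl hG (K1 + 1) s F η K P Δ k o hP.le (by omega) ho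
    have hN1 : (1 : ℝ) ≤ N := by
      have : 1 ≤ N := by omega
      exact_mod_cast this
    have h2 := block_sum (fun n => ee (Phi (ph q D (K1 + 1) F) η p r s n))
      (fun n => (Dich_norm_ee _).le) (Q := q ^ K) (Nat.pow_pos hq0) (τ := θ ^ k)
      (pow_nonneg hθ0 k) (fun u => by
        have := h1 u
        push_cast
        exact this) N'
    have hN'' : (N' : ℝ) ≤ N := by exact_mod_cast hN'
    have h3 : θ ^ k * ((N' : ℝ) + 1) ≤ δ / 4 * (2 * N) := by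
      have h4 : (N' : ℝ) + 1 ≤ 2 * N := by linarith
      have h5 : (0 : ℝ) ≤ (N' : ℝ) + 1 := by positivity
      calc θ ^ k * ((N' : ℝ) + 1) ≤ δ / 4 * ((N' : ℝ) + 1) :=
            mul_le_mul_of_nonneg_right hk.le h5
        _ ≤ δ / 4 * (2 * N) := mul_le_mul_of_nonneg_left h4 (by positivity)
    have h6 : 2 * (((q ^ K : ℕ) : ℝ)) ≤ 2 * (δ / 8 * N) := by
      push_cast
      linarith
    have h7 : 0 < δ * N := by positivity
    linarith [h2, h3, h6]
  · right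
    obtain ⟨X, T, hXe, hXT⟩ := hno P (Bv q D g l z0 x0 s p r (ph q D (K1 + 1) F) η)
      (fun o o' => Bv_symm q D g l z0 x0 s p r _ η o o') hlad
    have hsa : ∀ a, sa q g l s a < q ^ W := by
      intro a
      unfold sa
      rw [hW]
      exact Nat.mod_lt _ (Nat.pow_pos hq0)
    obtain ⟨T', hT'⟩ : ∃ T' : ℕ → Fin t', ∀ i, T' i = eq' (⟨sa q g l s (i - t0), hsa _⟩,
        fun lam => T (i - t0, (lam : ℕ))) := ⟨_, fun i => rfl⟩
    obtain ⟨X', hX'⟩ : ∃ X', X' = range t0 ∪ X.image (· + t0) ∪ Ico (t0 + P) (K1 + 1 + D) :=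
      ⟨_, rfl⟩
    have hcard : X'.card ≤ e' := by
      rw [hX', he']
      exact Dich_card t0 P (K1 + 1 + D) w W D K K1 e X hXe hP hK1 rfl
    have hstr := struct hq D (K1 + 1) Δ e' t' (by omega) (by omega) F X' hcard T' ?_
    · obtain ⟨ι, hι, hcι, h, hloc, hh⟩ := hstr
      exact hfam N (by omega) ι hcι h hloc (fun n => ee (ph q D (K1 + 1) F n))
        (fun n => (Dich_norm_ee _).le) (fun n n' hn => by
          show ee _ = ee _
          rw [hh n n' hn]) s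
    · rintro i j i' j' ⟨hi, hiX⟩ ⟨hj, hjX⟩ ⟨hi', hiX'⟩ ⟨hj', hjX'⟩ hij hij' hTi hTj c hc d hd
      rw [hX'] at hiX hjX hiX' hjX'
      obtain ⟨a1, a2, a3⟩ := Dich_mem hi hiX
      obtain ⟨b1, b2, b3⟩ := Dich_mem hj hjX
      obtain ⟨c1, c2, c3⟩ := Dich_mem hi' hiX'
      obtain ⟨d1, d2, d3⟩ := Dich_mem hj' hjX'
      rw [hT', hT'] at hTi hTj
      have hTi1 := eq'.injective hTi
      have hTj1 := eq'.injective hTj
      rw [Prod.mk.injEq, Fin.mk.injEq] at hTi1 hTj1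
      obtain ⟨hsi, hTi2⟩ := hTi1
      obtain ⟨hsj, hTj2⟩ := hTj1
      have hsep : i - t0 + (g + l) + D ≤ j - t0 ∨ j - t0 + (g + l) + D ≤ i - t0 := by
        rcases hij with h | h
        · left; omega
        · right; omega
      have hsep' : i' - t0 + (g + l) + D ≤ j' - t0 ∨ j' - t0 + (g + l) + D ≤ i' - t0 := by
        rcases hij' with h | h
        · left; omega
        · right; omega
      have key := inj (a := i - t0) (a1 := j - t0) (a' := i' - t0) (a1' := j' - t0)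
        hq hm hp hpq hcpr hr.pos hb1 hb2 hb3 hH.ge hl hG (K1 + 1) s F η hsep hsep' hsi hsj
        (fun lam hlam lam' hlam' => by
          refine hXT (i - t0, lam) (j - t0, lam') (i' - t0, lam) (j' - t0, lam')
            ⟨a3, hlam, a2⟩ ⟨b3, hlam', b2⟩ ⟨c3, hlam, c2⟩ ⟨d3, hlam', d2⟩ ?_ ?_ ?_ ?_
          · show i - t0 + Δ ≤ j - t0 ∨ j - t0 + Δ ≤ i - t0
            rcases hsep with h | h
            · left; omega
            · right; omega
          · show i' - t0 + Δ ≤ j' - t0 ∨ j' - t0 + Δ ≤ i' - t0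
            rcases hsep' with h | h
            · left; omega
            · right; omega
          · exact congrFun hTi2 ⟨lam, hlam⟩
          · exact congrFun hTj2 ⟨lam', hlam'⟩) hc hd
      rw [← ht0, Nat.sub_add_cancel a1, Nat.sub_add_cancel b1, Nat.sub_add_cancel c1,
        Nat.sub_add_cancel d1] at key
      exact key

end Pool.Agent.Lib.MP_3e612f_nt.PI
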