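import Pool.Agent.Lib.MP_3e612f_nt.PI.Defs

/-!
Jumps of `x ↦ ⌊(p x + σ)/q^b⌋`.

PROOF of `exists_jump`. Write `M = q ^ b`, `T = q ^ D`. For a natural number `z` with `z * M > σp` put
`X z = ` least `x` with `p * (x + T) + σp ≥ (z + 1) * M` (a natural number is fine, since
`p * T ≤ M` gives `p * T + σp < (z+1) * M`, so `X z > 0` or `X z = 0` is the ceiling of a
nonnegative quantity) and `Y z = X z + T`. Then `0 ≤ p * Y z + σp - (z+1) M < p`.
All `x` in `[X z, Y z)` satisfy `⌊(p x + σp)/M⌋ = z` and `⌊(p (x+T) + σp)/M⌋ = z + 1`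
(use `p * T ≤ M`).
Let `z1` be the least number `≥ σp / M + 1` with `z1 % T = c`, and `z2 = z1 + T`; so
`z2 < σp / M + 1 + 2 T`, and for `z ∈ {z1, z2}` every `x < Y z` is
`< ((z+1) M - σp)/p + 1 ≤ (M + 2 T M)/2 + 1 < 3 T M`.
Suppose that for `z ∈ {z1, z2}` both `x = X z` and `x = Y z - 1` are bad, i.e.
`⌊(r (x+T) + σr)/M⌋ ≠ ⌊(r x + σr)/M⌋`. Then there are `w, w'` with
`r X + σr < (w+1) M ≤ r (X + T) + σr = r Y + σr` and `r (Y-1) + σr < (w'+1) M ≤ r (Y - 1 + T) + σr`.
`w < w'` is impossible, since then `M ≤ (w' - w) M < r (2 T - 1)`, against `2 r T ≤ M`; `w' < w` is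
impossible, since then `M ≤ (w - w') M < r ≤ M`. So `w = w'` and
`0 ≤ r Y + σr - (w+1) M < r`. Together with the inequality for `p`:
`p (r Y + σr - (w+1) M) - r (p Y + σp - (z+1) M) = M (r (z+1) - p (w+1)) + p σr - r σp`
lies strictly between `- p r` and `p r` (integers). If this holds for `z1` (with `w1`) and for `z2`
(with `w2`), subtract: `M (r T - p (w2 - w1))` is strictly between `- 2 p r` and `2 p r`, and
`2 p r ≤ M` gives `r T = p (w2 - w1)`, so `p ∣ r T`, which contradicts that `p` is a prime coprime to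
`r` and `q`. So one of the four numbers `X z1, Y z1 - 1, X z2, Y z2 - 1` is as desired.
-/

set_option autoImplicit false

namespace Pool.Agent.Lib.MP_3e612f_nt.PI

private theorem KLa_one {M T p r σp σr z : ℕ} (hp : 2 ≤ p) (hr : 0 < r) (hT : 0 < T)
    (h1 : 2 * p * r ≤ M) (h2 : 2 * p * T ≤ M) (h3 : 2 * r * T ≤ M) (hz : σp < z * M)
    (hz2 : (z + 1) * M ≤ σp + (2 * T + 1) * M) :
    (∃ x, x < 3 * (M * T) ∧ (p * x + σp) / M = z ∧ (p * (x + T) + σp) / M = z + 1 ∧
      (r * (x + T) + σr) / M = (r * x + σr) / M) ∨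
    ∃ Y w : ℕ, (z + 1) * M ≤ p * Y + σp ∧ p * Y + σp < (z + 1) * M + p ∧
      (w + 1) * M ≤ r * Y + σr ∧ r * Y + σr < (w + 1) * M + r := by
  have hM : 0 < M := lt_of_lt_of_le (by positivity) h1
  obtain ⟨A, hA⟩ : ∃ A, (z + 1) * M = σp + A := ⟨(z + 1) * M - σp, by
    have : z * M ≤ (z + 1) * M := Nat.mul_le_mul_right _ (Nat.le_succ z)
    omega⟩
  have hAM : M < A := by
    have : (z + 1) * M = z * M + M := by ring
    omega
  set Y : ℕ := (A + p - 1) / p with hY
  have hp0 : 0 < p := by omega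
  have hY1 : A ≤ p * Y := by
    have := Nat.div_add_mod (A + p - 1) p
    have h5 := Nat.mod_lt (A + p - 1) hp0
    rw [← hY] at this
    omega
  have hY2 : p * Y < A + p := by
    have := Nat.div_mul_le_self (A + p - 1) p
    rw [← hY, mul_comm] at this
    omega
  have hTY : T < Y := by
    by_contra hcon
    push Not at hcon
    have h5 : p * Y ≤ p * T := Nat.mul_le_mul_left _ hcon
    have h6 : 2 * p * T = 2 * (p * T) := by ring
    have h7 : 0 < p * T := Nat.mul_pos hp0 hT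
    omega
  obtain ⟨X, hX⟩ : ∃ X, X + T = Y := ⟨Y - T, by omega⟩
  have h2' : 2 * (p * T) ≤ M := by rw [← mul_assoc]; exact h2
  have h3' : 2 * (r * T) ≤ M := by rw [← mul_assoc]; exact h3
  have hTM : M ≤ M * T := Nat.le_mul_of_pos_right _ hT
  -- the values for `p`
  have hval : ∀ x, X ≤ x → x < Y → x < 3 * (M * T) ∧ (p * x + σp) / M = z ∧
      (p * (x + T) + σp) / M = z + 1 := by
    intro x hx1 hx2
    have e1 : p * x + p ≤ p * Y := by
      have : p * (x + 1) ≤ p * Y := Nat.mul_le_mul_left _ hx2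
      linarith [mul_add p x 1]
    have e2 : p * Y ≤ p * x + p * T := by
      rw [← mul_add]
      exact Nat.mul_le_mul_left _ (by omega)
    have e3 : (z + 1) * M = z * M + M := by ring
    have e4 : (z + 1 + 1) * M = z * M + M + M := by ring
    refine ⟨?_, ?_, ?_⟩
    · have e5 : 2 * x ≤ p * x := Nat.mul_le_mul_right _ hp
      have e6 : A ≤ (2 * T + 1) * M := by omega
      have e7 : (2 * T + 1) * M = 2 * (M * T) + M := by ring
      omega
    · rw [Nat.div_eq_iff hM]
      rw [mul_comm z M] at e3 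
      have e8 : z * M = M * z := mul_comm _ _
      constructor
      · omega
      · omega
    · rw [Nat.div_eq_iff hM]
      have e8 : p * (x + T) = p * x + p * T := by ring
      constructor
      · omega
      · omega
  by_cases hg1 : (r * (X + T) + σr) / M = (r * X + σr) / M
  · left
    obtain ⟨a1, a2, a3⟩ := hval X le_rfl (by omega)
    exact ⟨X, a1, a2, a3, hg1⟩
  by_cases hg2 : (r * (Y - 1 + T) + σr) / M = (r * (Y - 1) + σr) / M
  · left
    obtain ⟨a1, a2, a3⟩ := hval (Y - 1) (by omega) (by omega)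
    exact ⟨Y - 1, a1, a2, a3, hg2⟩
  right
  have hbad : ∀ x, (r * (x + T) + σr) / M ≠ (r * x + σr) / M →
      r * x + σr < ((r * x + σr) / M + 1) * M ∧
      ((r * x + σr) / M + 1) * M ≤ r * (x + T) + σr := by
    intro x hx
    constructor
    · exact Nat.lt_mul_of_div_lt (Nat.lt_succ_self _) hM
    · have h5 : (r * x + σr) / M ≤ (r * (x + T) + σr) / M :=
        Nat.div_le_div_right (by
          have : r * x ≤ r * (x + T) := Nat.mul_le_mul_left _ (by omega)
          omega)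
      have h6 : (r * x + σr) / M + 1 ≤ (r * (x + T) + σr) / M := by omega
      exact (Nat.le_div_iff_mul_le hM).1 h6
  obtain ⟨b1, b2⟩ := hbad X hg1
  obtain ⟨b3, b4⟩ := hbad (Y - 1) hg2
  set w : ℕ := (r * X + σr) / M with hw
  set w' : ℕ := (r * (Y - 1) + σr) / M with hw'
  have hrY : r * (Y - 1) + r = r * Y := by
    have : Y = (Y - 1) + 1 := by omega
    conv_rhs => rw [this]
    ring
  have hrX : r * X + r * T = r * Y := by rw [← hX]; ring
  have hrYT : r * (Y - 1 + T) + r = r * Y + r * T := by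
    have : r * (Y - 1 + T) + r = (r * (Y - 1) + r) + r * T := by ring
    rw [this, hrY]
  have hrM : r < M := by
    have : 2 * p * r = p * r + p * r := by ring
    have h6 : 2 * r ≤ p * r := Nat.mul_le_mul_right _ hp
    omega
  rw [hX] at b2
  have hww : w = w' := by
    rcases lt_trichotomy w w' with h5 | h5 | h5
    · exfalso
      have h6 : (w + 1) * M + M ≤ (w' + 1) * M := by
        have : (w + 1 + 1) * M ≤ (w' + 1) * M := Nat.mul_le_mul_right _ (by omega)
        linarith [add_mul (w + 1) 1 M]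
      omega
    · exact h5
    · exfalso
      have h6 : (w' + 1) * M + M ≤ (w + 1) * M := by
        have : (w' + 1 + 1) * M ≤ (w + 1) * M := Nat.mul_le_mul_right _ (by omega)
        linarith [add_mul (w' + 1) 1 M]
      omega
  refine ⟨Y, w, by omega, by omega, b2, ?_⟩
  rw [← hww] at b3
  omega

theorem exists_jump {q p r D b : ℕ} (hq : 2 ≤ q) (hp : p.Prime) (hpq : p.Coprime q)
    (hpr : p.Coprime r) (hr : 0 < r) (hb1 : 2 * p * r ≤ q ^ b) (hb2 : 2 * p * q ^ D ≤ q ^ b)
    (hb3 : 2 * r * q ^ D ≤ q ^ b) (σp σr c : ℕ) (hc : c < q ^ D) :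
    ∃ x z : ℕ, x < 3 * q ^ (b + D) ∧ z % q ^ D = c ∧ (p * x + σp) / q ^ b = z ∧
      (p * (x + q ^ D) + σp) / q ^ b = z + 1 ∧
      (r * (x + q ^ D) + σr) / q ^ b = (r * x + σr) / q ^ b := by
  have hT : 0 < q ^ D := by positivity
  have hM : 0 < q ^ b := by positivity
  set M : ℕ := q ^ b with hMdef
  set T : ℕ := q ^ D with hTdef
  have hpow : q ^ (b + D) = M * T := pow_add q b D
  rw [hpow]
  -- the first admissible `z`
  obtain ⟨z1, hz1, hz1', hz1c⟩ : ∃ z1, σp / M + 1 ≤ z1 ∧ z1 < σp / M + 1 + T ∧ z1 % T = c := by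
    set s0 := σp / M + 1 with hs0
    rcases le_or_gt (s0 % T) c with h | h
    · refine ⟨s0 + (c - s0 % T), by omega, by
        have := Nat.mod_lt s0 hT
        omega, ?_⟩
      have e : s0 + (c - s0 % T) = c + T * (s0 / T) := by
        have := Nat.mod_add_div s0 T
        omega
      rw [e, Nat.add_mul_mod_self_left, Nat.mod_eq_of_lt hc]
    · have hlt := Nat.mod_lt s0 hT
      refine ⟨s0 + (c + T - s0 % T), by omega, by omega, ?_⟩
      have e : s0 + (c + T - s0 % T) = c + T * (s0 / T + 1) := by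
        have := Nat.mod_add_div s0 T
        rw [mul_add, mul_one]
        omega
      rw [e, Nat.add_mul_mod_self_left, Nat.mod_eq_of_lt hc]
  have hmod := Nat.div_add_mod σp M
  have hmodlt := Nat.mod_lt σp hM
  have hdiv : σp / M * M ≤ σp := Nat.div_mul_le_self σp M
  have hsum : ∀ z, σp / M + 1 ≤ z → z ≤ σp / M + 2 * T →
      σp < z * M ∧ (z + 1) * M ≤ σp + (2 * T + 1) * M := by
    intro z h1 h2
    constructor
    · have h3 : (σp / M + 1) * M ≤ z * M := Nat.mul_le_mul_right _ h1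
      have h4 : (σp / M + 1) * M = M * (σp / M) + M := by ring
      omega
    · have h3 : (z + 1) * M ≤ (σp / M + 2 * T + 1) * M := Nat.mul_le_mul_right _ (by omega)
      have h4 : (σp / M + 2 * T + 1) * M = σp / M * M + (2 * T + 1) * M := by ring
      omega
  have hp2 := hp.two_le
  obtain ⟨a1, a2⟩ := hsum z1 hz1 (by omega)
  obtain ⟨a3, a4⟩ := hsum (z1 + T) (by omega) (by omega)
  rcases KLa_one (σr := σr) hp2 hr hT hb1 hb2 hb3 a1 a2 with ⟨x, h1, h2, h3, h4⟩ | ⟨Y, w, c1, c2, c3, c4⟩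
  · exact ⟨x, z1, h1, hz1c, h2, h3, h4⟩
  rcases KLa_one (σr := σr) hp2 hr hT hb1 hb2 hb3 a3 a4 with
    ⟨x, h1, h2, h3, h4⟩ | ⟨Y', w', d1, d2, d3, d4⟩
  · refine ⟨x, z1 + T, h1, ?_, h2, h3, h4⟩
    rw [Nat.add_mod_right]
    exact hz1c
  -- contradiction
  exfalso
  zify at c1 c2 c3 c4 d1 d2 d3 d4 hb1 hp2 hr
  have hpz : (0 : ℤ) < p := by omega
  have hrz : (0 : ℤ) < r := hr
  -- the combination for `z1`
  have k1 : (p : ℤ) * (r * Y + σr - (w + 1) * M) < p * r :=
    mul_lt_mul_of_pos_left (by linarith) hpz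
  have k2 : 0 ≤ (p : ℤ) * (r * Y + σr - (w + 1) * M) := mul_nonneg hpz.le (by linarith)
  have k3 : (r : ℤ) * (p * Y + σp - (z1 + 1) * M) < r * p :=
    mul_lt_mul_of_pos_left (by linarith) hrz
  have k4 : 0 ≤ (r : ℤ) * (p * Y + σp - (z1 + 1) * M) := mul_nonneg hrz.le (by linarith)
  have l1 : (p : ℤ) * (r * Y' + σr - (w' + 1) * M) < p * r :=
    mul_lt_mul_of_pos_left (by linarith) hpz
  have l2 : 0 ≤ (p : ℤ) * (r * Y' + σr - (w' + 1) * M) := mul_nonneg hpz.le (by linarith)
  have l3 : (r : ℤ) * (p * Y' + σp - (z1 + T + 1) * M) < r * p :=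
    mul_lt_mul_of_pos_left (by linarith) hrz
  have l4 : 0 ≤ (r : ℤ) * (p * Y' + σp - (z1 + T + 1) * M) := mul_nonneg hrz.le (by linarith)
  have hdiff : (M : ℤ) * (r * T - p * (w' - w)) =
      ((p : ℤ) * (r * Y' + σr - (w' + 1) * M) - r * (p * Y' + σp - (z1 + T + 1) * M)) -
      ((p : ℤ) * (r * Y + σr - (w + 1) * M) - r * (p * Y + σp - (z1 + 1) * M)) := by ring
  have hpr2 : (p : ℤ) * r = r * p := mul_comm _ _
  have hb1' : 2 * ((p : ℤ) * r) ≤ M := by linarith
  have hlt1 : (M : ℤ) * (r * T - p * (w' - w)) < M := by linarith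
  have hlt2 : -(M : ℤ) < (M : ℤ) * (r * T - p * (w' - w)) := by linarith
  have hMz : (0 : ℤ) < M := by exact_mod_cast hM
  have hzero : (r : ℤ) * T - p * (w' - w) = 0 := by
    have u1 : (r : ℤ) * T - p * (w' - w) < 1 := by
      by_contra hcon
      push Not at hcon
      nlinarith
    have u2 : -1 < (r : ℤ) * T - p * (w' - w) := by
      by_contra hcon
      push Not at hcon
      nlinarith
    omega
  have hdvd : (p : ℤ) ∣ ((r * T : ℕ) : ℤ) := ⟨(w' : ℤ) - w, by push_cast; linarith⟩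
  have hdvd' : p ∣ r * T := by exact_mod_cast hdvd
  rcases (Nat.Prime.dvd_mul hp).1 hdvd' with h | h
  · have := Nat.Coprime.eq_one_of_dvd hpr h
    omega
  · have := Nat.Coprime.eq_one_of_dvd hpq (hp.dvd_of_dvd_pow h)
    omega

end Pool.Agent.Lib.MP_3e612f_nt.PI
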