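import Pool.Agent.Lib.MP_3e612f_nt.PI.Defs

/-!
The increments of a split function.

PROOF of `delta_shift`. For any `x'`, put `u = p x' + σp`, `u' = p (x' + q^D) + σp`,
`v = r x' + σr`, `v' = r (x' + q^D) + σr`. Splitting `Lp` at `b` (functions `A, C`),
`Lp u' - Lp u = A (u' % q^(b+D)) - A (u % q^(b+D)) + C (u' / q^b) - C (u / q^b)`, and if
`u / q^b = z'`, `u' / q^b = z' + 1` then
`C (z'+1) - C z' = (Lp (q^b (z'+1)) - Lp (q^b z')) - (A (q^b (z'+1) % q^(b+D)) - A (q^b z' % q^(b+D)))`,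
where the last two terms depend only on `z' % q^D`. Splitting `Lr` at `b`, with
`v' / q^b = v / q^b`: `Lr v' - Lr v` depends only on `v % q^(b+D)` and `v' % q^(b+D)`. Now compare
`x' = x` with `x' = x + i q^(b+D)`: then `u, u', v, v'` change by multiples of `q^(b+D)`,
`z' = z + i p q^D`, and the sum `Lp u' - Lp u + Lr v' - Lr v` is `0` for both (hypothesis `hK`; note
`x ≤ x + i q^(b+D) < H`).

PROOF of `delta_local`. Split at `b + j + 1` (functions `A, C`). Both `z, z + 1` and `z', z' + 1` have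
equal quotients by `q^(j+1)` (for `z'` because `z' % q^(j+1) = z % q^(j+1)`), so the `C` terms cancel
(`q^b (z+1) / q^(b+j+1) = (z+1) / q^(j+1)`), and the `A` terms agree since
`q^b w % q^(b+j+1+D) = q^b (w % q^(j+1+D))`.
-/

set_option autoImplicit false

namespace Pool.Agent.Lib.MP_3e612f_nt.PI

variable {G : Type} [AddCommGroup G]

theorem KLb_mod (q b D w : ℕ) : q ^ b * w % q ^ (b + D) = q ^ b * (w % q ^ D) := by
  rw [pow_add, Nat.mul_mod_mul_left]

theorem KLb_div (q b j w : ℕ) (hq : 0 < q) : q ^ b * w / q ^ (b + j) = w / q ^ j := by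
  rw [pow_add, Nat.mul_div_mul_left _ _ (pow_pos hq b)]

theorem KLb_shift_mod (q b D t y i : ℕ) :
    (y + t * (i * q ^ (b + D))) % q ^ (b + D) = y % q ^ (b + D) := by
  rw [← mul_assoc, Nat.add_mul_mod_self_right]

theorem KLb_shift_div (q b D t y i : ℕ) (hq : 0 < q) :
    (y + t * (i * q ^ (b + D))) / q ^ b = y / q ^ b + i * (t * q ^ D) := by
  have : t * (i * q ^ (b + D)) = i * (t * q ^ D) * q ^ b := by
    rw [pow_add]; ring
  rw [this, Nat.add_mul_div_right _ _ (pow_pos hq b)]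

theorem delta_shift {q p r D b : ℕ} (hq : 2 ≤ q) {Lp Lr : ℕ → G} (hLp : Split q D Lp)
    (hLr : Split q D Lr) {σp σr H : ℕ}
    (hK : ∀ x < H, Lp (p * (x + q ^ D) + σp) + Lr (r * (x + q ^ D) + σr) =
      Lp (p * x + σp) + Lr (r * x + σr))
    {x z : ℕ} (h1 : (p * x + σp) / q ^ b = z) (h2 : (p * (x + q ^ D) + σp) / q ^ b = z + 1)
    (h3 : (r * (x + q ^ D) + σr) / q ^ b = (r * x + σr) / q ^ b)
    (i : ℕ) (hi : x + i * q ^ (b + D) < H) :
    Lp (q ^ b * (z + i * (p * q ^ D) + 1)) - Lp (q ^ b * (z + i * (p * q ^ D))) =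
      Lp (q ^ b * (z + 1)) - Lp (q ^ b * z) := by
  have hq0 : 0 < q := by omega
  obtain ⟨A, C, hA⟩ := hLp b
  obtain ⟨A', C', hA'⟩ := hLr b
  have hx := hK x (lt_of_le_of_lt (Nat.le_add_right _ _) hi)
  have hx' := hK _ hi
  have e1 : p * (x + i * q ^ (b + D) + q ^ D) + σp = (p * (x + q ^ D) + σp) + p * (i * q ^ (b + D)) := by
    ring
  have e2 : r * (x + i * q ^ (b + D) + q ^ D) + σr = (r * (x + q ^ D) + σr) + r * (i * q ^ (b + D)) := by
    ring
  have e3 : p * (x + i * q ^ (b + D)) + σp = (p * x + σp) + p * (i * q ^ (b + D)) := by ring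
  have e4 : r * (x + i * q ^ (b + D)) + σr = (r * x + σr) + r * (i * q ^ (b + D)) := by ring
  rw [e1, e2, e3, e4] at hx'
  rw [hA, hA', hA (p * x + σp), hA' (r * x + σr), h1, h2, h3] at hx
  rw [hA, hA', hA ((p * x + σp) + _), hA' ((r * x + σr) + _)] at hx'
  rw [KLb_shift_mod, KLb_shift_mod, KLb_shift_mod, KLb_shift_mod, KLb_shift_div _ _ _ _ _ _ hq0,
    KLb_shift_div _ _ _ _ _ _ hq0, KLb_shift_div _ _ _ _ _ _ hq0, KLb_shift_div _ _ _ _ _ _ hq0,
    h1, h2, h3] at hx'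
  have key : C (z + 1 + i * (p * q ^ D)) - C (z + i * (p * q ^ D)) = C (z + 1) - C z := by
    have h5 := congrArg₂ (fun a b => a - b) hx' hx
    have h6 : C (z + 1 + i * (p * q ^ D)) - C (z + 1) = C (z + i * (p * q ^ D)) - C z := by
      have l1 : ∀ a c c' d e e' : G, a + c + (d + e) - (a + c' + (d + e')) = (c - c') + (e - e') := by
        intro a c c' d e e'; abel
      rw [l1, l1] at h5
      exact add_right_cancel h5
    have : C (z + 1 + i * (p * q ^ D)) = C (z + i * (p * q ^ D)) - C z + C (z + 1) := by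
      rw [← h6]; abel
    rw [this]; abel
  have m1 : ∀ w, Lp (q ^ b * w) = A (q ^ b * (w % q ^ D)) + C w := by
    intro w
    rw [hA, KLb_mod, Nat.mul_div_cancel_left _ (pow_pos hq0 b)]
  have m2 : ∀ w, (w + i * (p * q ^ D)) % q ^ D = w % q ^ D := by
    intro w
    rw [← mul_assoc, Nat.add_mul_mod_self_right]
  have e5 : z + i * (p * q ^ D) + 1 = z + 1 + i * (p * q ^ D) := by ring
  rw [e5, m1, m1, m1, m1, m2, m2]
  have : ∀ a b c d : G, a + c - (b + d) = (a - b) + (c - d) := by intro a b c d; abel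
  rw [this, this, key]

theorem delta_local {q D b : ℕ} (hq : 2 ≤ q) {L : ℕ → G} (hL : Split q D L) {j z z' : ℕ}
    (hz : (z + 1) / q ^ (j + 1) = z / q ^ (j + 1))
    (hzz : z % q ^ (j + 1 + D) = z' % q ^ (j + 1 + D)) :
    L (q ^ b * (z + 1)) - L (q ^ b * z) = L (q ^ b * (z' + 1)) - L (q ^ b * z') := by
  have hq0 : 0 < q := by omega
  obtain ⟨A, C, hA⟩ := hL (b + (j + 1))
  have m1 : ∀ w, L (q ^ b * w) = A (q ^ b * (w % q ^ (j + 1 + D))) + C (w / q ^ (j + 1)) := by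
    intro w
    rw [hA, add_assoc b (j + 1) D, KLb_mod, KLb_div _ _ _ _ hq0]
  have hzz1 : (z + 1) % q ^ (j + 1 + D) = (z' + 1) % q ^ (j + 1 + D) :=
    Nat.ModEq.add_right 1 hzz
  have hmod : z % q ^ (j + 1) = z' % q ^ (j + 1) := by
    have hd : q ^ (j + 1) ∣ q ^ (j + 1 + D) := pow_dvd_pow q (by omega)
    exact Nat.ModEq.of_dvd hd hzz
  have hz' : (z' + 1) / q ^ (j + 1) = z' / q ^ (j + 1) := by
    rw [Nat.succ_div] at hz ⊢
    have hn : ¬ q ^ (j + 1) ∣ z + 1 := by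
      intro h
      rw [if_pos h] at hz
      omega
    have hn' : ¬ q ^ (j + 1) ∣ z' + 1 := by
      intro h
      apply hn
      have h1 : (z + 1) % q ^ (j + 1) = (z' + 1) % q ^ (j + 1) := Nat.ModEq.add_right 1 hmod
      exact Nat.dvd_of_mod_eq_zero (h1.trans (Nat.mod_eq_zero_of_dvd h))
    rw [if_neg hn']; rfl
  rw [m1, m1, m1, m1, hz, hz', hzz, hzz1]
  abel

end Pool.Agent.Lib.MP_3e612f_nt.PI
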