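import Pool.Agent.Lib.MP_3e612f_nt.PI.KLa
import Pool.Agent.Lib.MP_3e612f_nt.PI.KLb

/-!
The rigidity theorem.

PROOF of `kl`. Write `δ z = Lp (q^b (z+1)) - Lp (q^b z)`. For `c < q^D` take `x_c, z_c` from
`exists_jump`; by `delta_shift`, `δ (z_c + i p q^D) = δ (z_c) =: ε c` whenever
`x_c + i q^(b+D) < H`, in particular for all `i < q^(2D+κ+1)`
(because `(3 + q^(2D+κ+1)) q^(b+D) ≤ q^(b+3D+κ+3) ≤ H`).
(1) If `j ≤ 2D + κ` and `(z+1) / q^(j+1) = z / q^(j+1)`, then `δ z = ε (z % q^D)`: put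
`c = z % q^D`; since `p` is invertible mod `q^(j+1)` there is `i < q^(j+1)` with
`i p ≡ (z - z_c)/q^D  (mod q^(j+1))`, i.e. `z_c + i p q^D ≡ z (mod q^(j+1+D))` (note that
`z ≡ z_c mod q^D`); use `delta_local`.
(2) Put `g = ∑_{c < q^D} ε c`. Let `j ≤ κ` and let `u` have digit `≠ q - 1` at the position `b+D+j`,
`z = u / q^b`, so `z` has digit `≠ q-1` at the position `D + j` and `(u + q^(b+D+j)) / q^b = z + q^(D+j)`,
`(u + q^(b+D+j)) % q^(b+D) = u % q^(b+D)`. Splitting at `b` twice,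
`Lp (u + q^(b+D+j)) - Lp u = Lp (q^b (z + q^(D+j))) - Lp (q^b z)`
(for the number `q^b z` the same computation applies). Let `z' = z % q^(2D+j+1)`. Splitting at
`b+D+j+1` (as in `delta_local`: `(z + q^(D+j)) / q^(D+j+1) = z / q^(D+j+1)` because the digit is
`≠ q-1`, and `(z + q^(D+j)) % q^(2D+j+1) = z' + q^(D+j)` ) one gets
`Lp (q^b (z + q^(D+j))) - Lp (q^b z) = Lp (q^b (z' + q^(D+j))) - Lp (q^b z')
 = ∑_{i < q^(D+j)} δ (z' + i)`. Here `z' + i + 1 ≤ z' + q^(D+j) < q^(2D+j+1)`, so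
`(z'+i+1) / q^(2D+j+1) = 0 = (z'+i) / q^(2D+j+1)` and (1) applies with `2D+j` in the place of `j`:
the sum is `∑_{i < q^(D+j)} ε ((z'+i) % q^D) = q^j • g`.
(In (1), `j + 1 + D` digits are compared; with `2D+j` in the place of `j` one needs
`i < q^(2D+j+1) ≤ q^(2D+κ+1)`.)
-/

set_option autoImplicit false

namespace Pool.Agent.Lib.MP_3e612f_nt.PI

variable {G : Type} [AddCommGroup G]

private theorem KLc_sum_shift (f : ℕ → G) {T : ℕ} (a : ℕ) :
    ∑ i ∈ Finset.range T, f ((a + i) % T) = ∑ i ∈ Finset.range T, f i := by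
  induction a with
  | zero =>
    apply Finset.sum_congr rfl
    intro i hi
    rw [Nat.zero_add, Nat.mod_eq_of_lt (Finset.mem_range.1 hi)]
  | succ a ih =>
    rw [← ih]
    have h1 := Finset.sum_range_succ (fun i => f ((a + i) % T)) T
    have h2 := Finset.sum_range_succ' (fun i => f ((a + i) % T)) T
    rw [h1] at h2
    simp only [Nat.add_mod_right, Nat.add_zero] at h2
    have h3 := add_right_cancel h2
    rw [h3]
    apply Finset.sum_congr rfl
    intro i _
    rw [show a + 1 + i = a + (i + 1) by ring]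

private theorem KLc_sum_period (f : ℕ → G) {T : ℕ} (n a : ℕ) :
    ∑ i ∈ Finset.range (n * T), f ((a + i) % T) = n • ∑ i ∈ Finset.range T, f i := by
  induction n with
  | zero => simp
  | succ n ih =>
    rw [Nat.add_mul, Nat.one_mul, Finset.sum_range_add, ih, add_smul, one_smul]
    congr 1
    rw [← KLc_sum_shift f a]
    apply Finset.sum_congr rfl
    intro i _
    rw [show a + (n * T + i) = a + i + n * T by ring, Nat.add_mul_mod_self_right]

private theorem KLc_div {q : ℕ} (hq : 2 ≤ q) {a B : ℕ} (hB : 0 < B) (h : a / B % q ≠ q - 1) :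
    (a + B) / (B * q) = a / (B * q) := by
  rw [← Nat.div_div_eq_div_mul, ← Nat.div_div_eq_div_mul, Nat.add_div_right a hB]
  rw [Nat.succ_div, if_neg, Nat.add_zero]
  intro hd
  apply h
  have h1 : (a / B + 1) % q = 0 := Nat.mod_eq_zero_of_dvd hd
  have h2 : a / B % q < q := Nat.mod_lt _ (by omega)
  by_contra h3
  have h4 : (a / B % q + 1) % q = a / B % q + 1 := Nat.mod_eq_of_lt (by omega)
  rw [Nat.mod_add_mod] at h4
  omega

private theorem KLc_exists {q p D N : ℕ} (_hq : 2 ≤ q) (hN : p.Coprime N) (hN0 : 0 < N) {z z' : ℕ}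
    (h : z' % q ^ D = z % q ^ D) :
    ∃ i < N, z % (N * q ^ D) = (z' + i * (p * q ^ D)) % (N * q ^ D) := by
  have hd : ((q ^ D : ℕ) : ℤ) ∣ (z : ℤ) - z' := by
    have := (Nat.modEq_iff_dvd (n := q ^ D) (a := z') (b := z)).1 h
    exact this
  obtain ⟨w, hw⟩ := hd
  have : NeZero N := ⟨hN0.ne'⟩
  refine ⟨((w : ZMod N) * ((p : ZMod N))⁻¹).val, ZMod.val_lt _, ?_⟩
  set i := ((w : ZMod N) * ((p : ZMod N))⁻¹).val with hi
  have h1 : ((i : ℕ) : ZMod N) = (w : ZMod N) * ((p : ZMod N))⁻¹ := by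
    rw [hi, ZMod.natCast_zmod_val]
  have h2 : ((i : ℕ) : ZMod N) * (p : ZMod N) = (w : ZMod N) := by
    rw [h1, mul_assoc, mul_comm (p : ZMod N)⁻¹, ZMod.coe_mul_inv_eq_one p hN, mul_one]
  have h3 : (N : ℤ) ∣ (i : ℤ) * p - w := by
    rw [← ZMod.intCast_zmod_eq_zero_iff_dvd]
    push_cast
    rw [h2, sub_self]
  have h4 : ((N * q ^ D : ℕ) : ℤ) ∣ ((z' + i * (p * q ^ D) : ℕ) : ℤ) - (z : ℤ) := by
    obtain ⟨m, hm⟩ := h3
    refine ⟨m, ?_⟩
    push_cast at hw ⊢
    have : (z : ℤ) = z' + q ^ D * w := by linarith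
    rw [this]
    linear_combination (q : ℤ) ^ D * hm
  exact (Nat.modEq_iff_dvd (n := N * q ^ D) (a := z) (b := z' + i * (p * q ^ D))).2 h4

theorem kl {q p r D b κ : ℕ} (hq : 2 ≤ q) (hp : p.Prime) (hpq : p.Coprime q)
    (hpr : p.Coprime r) (hr : 0 < r) (hb1 : 2 * p * r ≤ q ^ b) (hb2 : 2 * p * q ^ D ≤ q ^ b)
    (hb3 : 2 * r * q ^ D ≤ q ^ b) {Lp Lr : ℕ → G} (hLp : Split q D Lp) (hLr : Split q D Lr)
    {σp σr H : ℕ} (hH : q ^ (b + 3 * D + κ + 3) ≤ H)
    (hK : ∀ x < H, Lp (p * (x + q ^ D) + σp) + Lr (r * (x + q ^ D) + σr) =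
      Lp (p * x + σp) + Lr (r * x + σr)) :
    ∃ g : G, ∀ j ≤ κ, ∀ u : ℕ, u / q ^ (b + D + j) % q ≠ q - 1 →
      Lp (u + q ^ (b + D + j)) - Lp u = (q ^ j : ℕ) • g := by
  classical
  have hq0 : 0 < q := by omega
  choose! xc zcc hx hzc h1 h2 h3 using
    fun c (hc : c < q ^ D) => exists_jump hq hp hpq hpr hr hb1 hb2 hb3 σp σr c hc
  set δ : ℕ → G := fun z => Lp (q ^ b * (z + 1)) - Lp (q ^ b * z) with hδ
  -- step one
  have step1 : ∀ j ≤ 2 * D + κ, ∀ z : ℕ, (z + 1) / q ^ (j + 1) = z / q ^ (j + 1) →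
      δ z = δ (zcc (z % q ^ D)) := by
    intro j hj z hz
    have hc : z % q ^ D < q ^ D := Nat.mod_lt _ (by positivity)
    set c := z % q ^ D with hcdef
    have hcop : p.Coprime (q ^ (j + 1)) := Nat.Coprime.pow_right _ hpq
    obtain ⟨i, hi, hmod⟩ := KLc_exists (D := D) hq hcop (by positivity) (z := z) (z' := zcc c)
      (by rw [hzc c hc])
    rw [← pow_add] at hmod
    have hloc := delta_local (b := b) hq hLp hz hmod
    have hiH : xc c + i * q ^ (b + D) < H := by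
      have e1 : i + 1 ≤ q ^ (2 * D + κ + 1) :=
        le_trans hi (Nat.pow_le_pow_right hq0 (by omega))
      have e2 : 3 + q ^ (2 * D + κ + 1) ≤ q ^ (2 * D + κ + 3) := by
        have : q ^ (2 * D + κ + 3) = q ^ (2 * D + κ + 1) * (q * q) := by ring
        rw [this]
        have hqq : 4 ≤ q * q := Nat.mul_le_mul hq hq
        have h5 : 1 ≤ q ^ (2 * D + κ + 1) := Nat.one_le_pow _ _ hq0
        nlinarith
      have e3 : q ^ (b + 3 * D + κ + 3) = q ^ (2 * D + κ + 3) * q ^ (b + D) := by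
        rw [← pow_add]; congr 1; ring
      have e4 : 0 < q ^ (b + D) := by positivity
      have e5 := hx c hc
      rw [e3] at hH
      have e6 : (3 + i) * q ^ (b + D) ≤ q ^ (2 * D + κ + 3) * q ^ (b + D) :=
        Nat.mul_le_mul_right _ (by omega)
      have e7 : (3 + i) * q ^ (b + D) = 3 * q ^ (b + D) + i * q ^ (b + D) := by ring
      omega
    have hsh := delta_shift hq hLp hLr hK (h1 c hc) (h2 c hc) (h3 c hc) i hiH
    show Lp (q ^ b * (z + 1)) - Lp (q ^ b * z) =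
      Lp (q ^ b * (zcc c + 1)) - Lp (q ^ b * zcc c)
    rw [hloc, hsh]
  refine ⟨∑ c ∈ Finset.range (q ^ D), δ (zcc c), ?_⟩
  intro j hj u hu
  set z := u / q ^ b with hz
  set B := q ^ (D + j) with hB
  have hB0 : 0 < B := by positivity
  have hBb : q ^ (b + D + j) = q ^ b * B := by rw [hB, ← pow_add]; congr 1; ring
  have hdig : z / B % q ≠ q - 1 := by
    rw [hz, Nat.div_div_eq_div_mul, ← hBb]; exact hu
  -- reduction to q^b z
  obtain ⟨A, C, hAC⟩ := hLp b
  have hqb : 0 < q ^ b := by positivity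
  have r1 : Lp (u + q ^ (b + D + j)) - Lp u = C (z + B) - C z := by
    rw [hAC, hAC u]
    have e1 : (u + q ^ (b + D + j)) % q ^ (b + D) = u % q ^ (b + D) := by
      rw [show q ^ (b + D + j) = q ^ (b + D) * q ^ j by rw [← pow_add], Nat.add_mul_mod_self_left]
    have e2 : (u + q ^ (b + D + j)) / q ^ b = z + B := by
      rw [hBb, Nat.add_mul_div_left _ _ hqb]
    rw [e1, e2]
    abel
  have r2 : Lp (q ^ b * (z + B)) - Lp (q ^ b * z) = C (z + B) - C z := by
    rw [hAC, hAC (q ^ b * z)]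
    have e1 : q ^ b * (z + B) % q ^ (b + D) = q ^ b * z % q ^ (b + D) := by
      rw [pow_add, Nat.mul_mod_mul_left, Nat.mul_mod_mul_left]
      congr 1
      rw [hB, pow_add, Nat.add_mul_mod_self_left]
    rw [e1, Nat.mul_div_cancel_left _ hqb, Nat.mul_div_cancel_left _ hqb]
    abel
  -- reduction to z'
  set N := q ^ (2 * D + j + 1) with hN
  have hNB : N = B * q * q ^ D := by
    rw [hN, hB, ← pow_succ, ← pow_add]; congr 1; ring
  have hN0 : 0 < N := by positivity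
  set z' := z % N with hz'
  have hz'N : z' < N := Nat.mod_lt _ hN0
  have hdig' : z' / B % q ≠ q - 1 := by
    have : z' / B % q = z / B % q := by
      rw [hz', hNB, Nat.mul_assoc, Nat.mod_mul_right_div_self,
        Nat.mod_mul_right_mod]
    rw [this]; exact hdig
  have q1 := KLc_div hq hB0 hdig
  have q2 := KLc_div hq hB0 hdig'
  have hover : z' + B < N := by
    have e1 : (z' + B) / N = 0 := by
      rw [hNB, ← Nat.div_div_eq_div_mul, q2, Nat.div_div_eq_div_mul, ← hNB]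
      exact Nat.div_eq_of_lt hz'N
    exact (Nat.div_eq_zero_iff_lt hN0).1 e1
  obtain ⟨A', C', hAC'⟩ := hLp (b + D + j + 1)
  have hBq : q ^ (b + D + j + 1) = q ^ b * (B * q) := by
    rw [hB, ← pow_succ, ← pow_add]; congr 1; ring
  have hBN : q ^ (b + D + j + 1 + D) = q ^ b * N := by
    rw [hN, ← pow_add]; congr 1; ring
  have key : ∀ w : ℕ, Lp (q ^ b * w) = A' (q ^ b * (w % N)) + C' (w / (B * q)) := by
    intro w
    rw [hAC', hBN, Nat.mul_mod_mul_left, hBq, Nat.mul_div_mul_left _ _ hqb]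
  have r3 : Lp (q ^ b * (z + B)) - Lp (q ^ b * z) = Lp (q ^ b * (z' + B)) - Lp (q ^ b * z') := by
    rw [key (z + B), key z, key (z' + B), key z', q1, q2]
    have e1 : (z + B) % N = z' + B := by
      rw [← Nat.mod_add_mod, ← hz', Nat.mod_eq_of_lt hover]
    have e2 : (z' + B) % N = z' + B := Nat.mod_eq_of_lt hover
    have e3 : z' % N = z' := Nat.mod_eq_of_lt hz'N
    rw [e1, e2, e3, ← hz']
    abel
  -- telescoping
  have tele : ∀ n : ℕ, Lp (q ^ b * (z' + n)) - Lp (q ^ b * z') =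
      ∑ i ∈ Finset.range n, δ (z' + i) := by
    intro n
    induction n with
    | zero => simp
    | succ n ih =>
      rw [Finset.sum_range_succ, ← ih, hδ]
      simp only
      rw [show z' + (n + 1) = z' + n + 1 by ring]
      abel
  have hsum : ∑ i ∈ Finset.range B, δ (z' + i) =
      ∑ i ∈ Finset.range B, δ (zcc ((z' + i) % q ^ D)) := by
    apply Finset.sum_congr rfl
    intro i hi
    have hi' := Finset.mem_range.1 hi
    apply step1 (2 * D + j) (by omega)
    rw [← hN, Nat.div_eq_of_lt (by omega), Nat.div_eq_of_lt (by omega)]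
  rw [r1, ← r2, r3, tele, hsum]
  have hBj : B = q ^ j * q ^ D := by rw [hB, ← pow_add, Nat.add_comm]
  rw [hBj]
  exact KLc_sum_period (fun c => δ (zcc c)) (q ^ j) z'

end Pool.Agent.Lib.MP_3e612f_nt.PI
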