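import Pool.Agent.Lib.MP_3e612f_nt.PI.LL

/-!
Locality of differences.

The block of `N` at `A` is `N / q^A % q^l`. It is changed by adding `x * q^(A+D)`; the hypothesis
`hu` says that neither the `D` top digits of the block nor anything above it changes.

`ll_loc`: both sides are `∑` over the indices `i < L` with `A ≤ i`, `i + D < A + l` of
`c i (wd q D (i - A) (u + x q^D)) - c i (wd q D (i - A) u)`, `u` the block of `N`; the other indices
contribute `0` on both sides (`wd_in`, `wd_out` for `N` and for the number `u q^A`).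

`ll_ph`: term by term in `i, j`. Say that `i` is in `A` if `A ≤ i ∧ i + D < A + l`. If no index is in
`A`, or no index is in `A'`, or both indices are in `A` (then none is in `A'`, since the blocks are
disjoint), or both in `A'`, the term contributes `0` to both sides. If `i` is in `A` and `j` in `A'`
(or conversely) all the windows are those of the blocks and the contributions agree.
(The block of `N + x q^(A+D)` at `A'` is the block of `N` at `A'`: same proof as `wd_out`; and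
`N + x q^(A+D)` satisfies the hypothesis `hv` as well.)
-/

set_option autoImplicit false

namespace Pool.Agent.Lib.MP_3e612f_nt.PI

variable {G : Type} [AddCommGroup G]

private theorem LLb_blk {q l A u : ℕ} (hq : 2 ≤ q) (hu : u < q ^ l) :
    u * q ^ A / q ^ A % q ^ l = u := by
  rw [Nat.mul_div_cancel _ (by positivity), Nat.mod_eq_of_lt hu]

theorem ll_loc {q D l : ℕ} (hq : 2 ≤ q) (hDl : D ≤ l) (L : ℕ) (c : ℕ → ℕ → G) {A N x : ℕ}
    (hu : (N / q ^ A % q ^ l + x * q ^ D) / q ^ (l - D) = N / q ^ A % q ^ l / q ^ (l - D)) :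
    loc q D L c (N + x * q ^ (A + D)) - loc q D L c N =
      loc q D L c ((N / q ^ A % q ^ l + x * q ^ D) * q ^ A) -
        loc q D L c (N / q ^ A % q ^ l * q ^ A) := by
  obtain ⟨hb1, hb2⟩ := block_add hq hDl hu
  have hql : 0 < q ^ l := by positivity
  have hult : N / q ^ A % q ^ l < q ^ l := Nat.mod_lt _ hql
  generalize hU : N / q ^ A % q ^ l = U at *
  have hUA : U * q ^ A / q ^ A % q ^ l = U := LLb_blk hq hult
  have hUA' : (U + x * q ^ D) * q ^ A / q ^ A % q ^ l = U + x * q ^ D := LLb_blk hq hb1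
  have hU2 : (U * q ^ A / q ^ A % q ^ l + x * q ^ D) / q ^ (l - D) =
      U * q ^ A / q ^ A % q ^ l / q ^ (l - D) := by rw [hUA]; exact hu
  have hU3 : (N / q ^ A % q ^ l + x * q ^ D) / q ^ (l - D) =
      N / q ^ A % q ^ l / q ^ (l - D) := by rw [hU]; exact hu
  have hadd : (U + x * q ^ D) * q ^ A = U * q ^ A + x * q ^ (A + D) := by
    rw [pow_add]; ring
  unfold loc
  rw [← Finset.sum_sub_distrib, ← Finset.sum_sub_distrib]
  refine Finset.sum_congr rfl fun i _ => ?_
  by_cases hi : A ≤ i ∧ i + D < A + l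
  · rw [wd_in (N := N + x * q ^ (A + D)) hq hi.1 hi.2, wd_in (N := N) hq hi.1 hi.2,
      wd_in (N := (U + x * q ^ D) * q ^ A) hq hi.1 hi.2, wd_in (N := U * q ^ A) hq hi.1 hi.2,
      hb2, hU, hUA, hUA']
  · rw [wd_out hq hDl hU3 hi, hadd, wd_out hq hDl hU2 hi, sub_self, sub_self]

/-- adding to one block does not change the other block -/
private theorem LLb_other {q D l : ℕ} (hq : 2 ≤ q) (hDl : D ≤ l) {A A' N x : ℕ}
    (hAA : A + l ≤ A' ∨ A' + l ≤ A)
    (hu : (N / q ^ A % q ^ l + x * q ^ D) / q ^ (l - D) = N / q ^ A % q ^ l / q ^ (l - D)) :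
    (N + x * q ^ (A + D)) / q ^ A' % q ^ l = N / q ^ A' % q ^ l := by
  obtain ⟨hb1, hb2⟩ := block_add hq hDl hu
  rcases hAA with h | h
  · have key : (N + x * q ^ (A + D)) / q ^ (A + l) = N / q ^ (A + l) := by
      have h1 : (N + x * q ^ (A + D)) / q ^ A = N / q ^ A + x * q ^ D := by
        rw [pow_add, show x * (q ^ A * q ^ D) = q ^ A * (x * q ^ D) from by ring,
          Nat.add_mul_div_left _ _ (by positivity)]
      rw [pow_add q A l, ← Nat.div_div_eq_div_mul, ← Nat.div_div_eq_div_mul, h1]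
      have h2 : N / q ^ A = q ^ l * (N / q ^ A / q ^ l) + N / q ^ A % q ^ l :=
        (Nat.div_add_mod _ _).symm
      have h3 : N / q ^ A + x * q ^ D =
          (N / q ^ A % q ^ l + x * q ^ D) + q ^ l * (N / q ^ A / q ^ l) := by omega
      rw [h3, Nat.add_mul_div_left _ _ (by positivity), Nat.div_eq_of_lt hb1, Nat.zero_add]
    obtain ⟨e, rfl⟩ := Nat.exists_eq_add_of_le h
    rw [pow_add q (A + l) e, ← Nat.div_div_eq_div_mul, ← Nat.div_div_eq_div_mul, key]
  · obtain ⟨e, rfl⟩ := Nat.exists_eq_add_of_le h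
    have h1 : x * q ^ (A' + l + e + D) = q ^ A' * (q ^ l * (x * q ^ (e + D))) := by
      rw [show A' + l + e + D = A' + (l + (e + D)) from by ring, pow_add, pow_add]; ring
    rw [h1, Nat.add_mul_div_left _ _ (by positivity), Nat.add_mul_mod_self_left]

/-- the value of one term -/
private noncomputable def LLb_val (q D l : ℕ) (F : ℕ → ℕ → ℕ → ℕ → G) (A A' U U' V V' i j : ℕ) :
    G := by
  classical
  exact
    if (A ≤ i ∧ i + D < A + l) ∧ (A' ≤ j ∧ j + D < A' + l) then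
      F i j (wd q D (i - A) U) (wd q D (j - A') V) - F i j (wd q D (i - A) U') (wd q D (j - A') V) -
        F i j (wd q D (i - A) U) (wd q D (j - A') V') +
        F i j (wd q D (i - A) U') (wd q D (j - A') V')
    else if (A' ≤ i ∧ i + D < A' + l) ∧ (A ≤ j ∧ j + D < A + l) then
      F i j (wd q D (i - A') V) (wd q D (j - A) U) - F i j (wd q D (i - A') V) (wd q D (j - A) U') -
        F i j (wd q D (i - A') V') (wd q D (j - A) U) +
        F i j (wd q D (i - A') V') (wd q D (j - A) U')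
    else 0

private theorem LLb_term {q D l : ℕ} (hq : 2 ≤ q) (hDl : D ≤ l) (F : ℕ → ℕ → ℕ → ℕ → G)
    {A A' N x y U V : ℕ} (hAA : A + l ≤ A' ∨ A' + l ≤ A)
    (hU : N / q ^ A % q ^ l = U) (hV : N / q ^ A' % q ^ l = V)
    (hu : (U + x * q ^ D) / q ^ (l - D) = U / q ^ (l - D))
    (hv : (V + y * q ^ D) / q ^ (l - D) = V / q ^ (l - D)) (i j : ℕ) :
    F i j (wd q D i N) (wd q D j N) -
      F i j (wd q D i (N + x * q ^ (A + D))) (wd q D j (N + x * q ^ (A + D))) -
      F i j (wd q D i (N + y * q ^ (A' + D))) (wd q D j (N + y * q ^ (A' + D))) +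
      F i j (wd q D i (N + x * q ^ (A + D) + y * q ^ (A' + D)))
        (wd q D j (N + x * q ^ (A + D) + y * q ^ (A' + D))) =
      LLb_val q D l F A A' U (U + x * q ^ D) V (V + y * q ^ D) i j := by
  have hu0 : (N / q ^ A % q ^ l + x * q ^ D) / q ^ (l - D) = N / q ^ A % q ^ l / q ^ (l - D) := by
    rw [hU]; exact hu
  have hv0 : (N / q ^ A' % q ^ l + y * q ^ D) / q ^ (l - D) = N / q ^ A' % q ^ l / q ^ (l - D) := by
    rw [hV]; exact hv
  have hN1V : (N + x * q ^ (A + D)) / q ^ A' % q ^ l = V := by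
    rw [LLb_other hq hDl hAA hu0, hV]
  have hN1U : (N + x * q ^ (A + D)) / q ^ A % q ^ l = U + x * q ^ D := by
    rw [(block_add hq hDl hu0).2, hU]
  have hN2V : (N + y * q ^ (A' + D)) / q ^ A' % q ^ l = V + y * q ^ D := by
    rw [(block_add hq hDl hv0).2, hV]
  have hN2U : (N + y * q ^ (A' + D)) / q ^ A % q ^ l = U := by
    rw [LLb_other hq hDl hAA.symm hv0, hU]
  have hv1 : ((N + x * q ^ (A + D)) / q ^ A' % q ^ l + y * q ^ D) / q ^ (l - D) =
      (N + x * q ^ (A + D)) / q ^ A' % q ^ l / q ^ (l - D) := by rw [hN1V]; exact hv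
  have hu2 : ((N + y * q ^ (A' + D)) / q ^ A % q ^ l + x * q ^ D) / q ^ (l - D) =
      (N + y * q ^ (A' + D)) / q ^ A % q ^ l / q ^ (l - D) := by rw [hN2U]; exact hu
  have hswap : N + x * q ^ (A + D) + y * q ^ (A' + D) =
      N + y * q ^ (A' + D) + x * q ^ (A + D) := by ring
  -- windows
  have oA : ∀ k, ¬ (A ≤ k ∧ k + D < A + l) → wd q D k (N + x * q ^ (A + D)) = wd q D k N ∧
      wd q D k (N + x * q ^ (A + D) + y * q ^ (A' + D)) = wd q D k (N + y * q ^ (A' + D)) := by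
    intro k hk
    refine ⟨wd_out hq hDl hu0 hk, ?_⟩
    rw [hswap]; exact wd_out hq hDl hu2 hk
  have oA' : ∀ k, ¬ (A' ≤ k ∧ k + D < A' + l) → wd q D k (N + y * q ^ (A' + D)) = wd q D k N ∧
      wd q D k (N + x * q ^ (A + D) + y * q ^ (A' + D)) = wd q D k (N + x * q ^ (A + D)) :=
    fun k hk => ⟨wd_out hq hDl hv0 hk, wd_out hq hDl hv1 hk⟩
  have iA : ∀ k, (A ≤ k ∧ k + D < A + l) → wd q D k N = wd q D (k - A) U ∧
      wd q D k (N + x * q ^ (A + D)) = wd q D (k - A) (U + x * q ^ D) := by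
    intro k hk
    exact ⟨by rw [wd_in hq hk.1 hk.2, hU], by rw [wd_in hq hk.1 hk.2, hN1U]⟩
  have iA' : ∀ k, (A' ≤ k ∧ k + D < A' + l) → wd q D k N = wd q D (k - A') V ∧
      wd q D k (N + y * q ^ (A' + D)) = wd q D (k - A') (V + y * q ^ D) := by
    intro k hk
    exact ⟨by rw [wd_in hq hk.1 hk.2, hV], by rw [wd_in hq hk.1 hk.2, hN2V]⟩
  have disj : ∀ k, (A ≤ k ∧ k + D < A + l) → ¬ (A' ≤ k ∧ k + D < A' + l) := by
    intro k h1 h2; omega
  unfold LLb_val
  by_cases h1 : (A ≤ i ∧ i + D < A + l) ∧ (A' ≤ j ∧ j + D < A' + l)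
  · rw [if_pos h1]
    have hi' := disj i h1.1
    have hj : ¬ (A ≤ j ∧ j + D < A + l) := fun h => disj j h h1.2
    rw [(oA j hj).2, (oA j hj).1, (oA' i hi').2, (oA' i hi').1, (iA i h1.1).1, (iA i h1.1).2,
      (iA' j h1.2).1, (iA' j h1.2).2]
  · rw [if_neg h1]
    by_cases h2 : (A' ≤ i ∧ i + D < A' + l) ∧ (A ≤ j ∧ j + D < A + l)
    · rw [if_pos h2]
      have hj' := disj j h2.2
      have hi : ¬ (A ≤ i ∧ i + D < A + l) := fun h => disj i h h2.1
      rw [(oA i hi).2, (oA i hi).1, (oA' j hj').2, (oA' j hj').1, (iA j h2.2).1, (iA j h2.2).2,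
        (iA' i h2.1).1, (iA' i h2.1).2]
    · rw [if_neg h2]
      by_cases hiA : A ≤ i ∧ i + D < A + l
      · have hiA' := disj i hiA
        have hjA' : ¬ (A' ≤ j ∧ j + D < A' + l) := fun h => h1 ⟨hiA, h⟩
        rw [(oA' i hiA').2, (oA' i hiA').1, (oA' j hjA').2, (oA' j hjA').1]
        abel
      · by_cases hjA : A ≤ j ∧ j + D < A + l
        · have hjA' := disj j hjA
          have hiA' : ¬ (A' ≤ i ∧ i + D < A' + l) := fun h => h2 ⟨h, hjA⟩
          rw [(oA' i hiA').2, (oA' i hiA').1, (oA' j hjA').2, (oA' j hjA').1]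
          abel
        · rw [(oA i hiA).2, (oA i hiA).1, (oA j hjA).2, (oA j hjA).1]
          abel

private theorem LLb_sum {q D l : ℕ} (hq : 2 ≤ q) (hDl : D ≤ l) (L : ℕ) (F : ℕ → ℕ → ℕ → ℕ → G)
    {A A' N x y U V : ℕ} (hAA : A + l ≤ A' ∨ A' + l ≤ A)
    (hU : N / q ^ A % q ^ l = U) (hV : N / q ^ A' % q ^ l = V)
    (hu : (U + x * q ^ D) / q ^ (l - D) = U / q ^ (l - D))
    (hv : (V + y * q ^ D) / q ^ (l - D) = V / q ^ (l - D)) :
    ph q D L F N - ph q D L F (N + x * q ^ (A + D)) - ph q D L F (N + y * q ^ (A' + D)) +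
        ph q D L F (N + x * q ^ (A + D) + y * q ^ (A' + D)) =
      ∑ i ∈ Finset.range L, ∑ j ∈ Finset.range L,
        LLb_val q D l F A A' U (U + x * q ^ D) V (V + y * q ^ D) i j := by
  unfold ph
  rw [← Finset.sum_sub_distrib, ← Finset.sum_sub_distrib, ← Finset.sum_add_distrib]
  refine Finset.sum_congr rfl fun i _ => ?_
  rw [← Finset.sum_sub_distrib, ← Finset.sum_sub_distrib, ← Finset.sum_add_distrib]
  refine Finset.sum_congr rfl fun j _ => ?_
  exact LLb_term hq hDl F hAA hU hV hu hv i j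

/-- the two blocks of a sum of two blocks -/
private theorem LLb_two {q l : ℕ} (hq : 2 ≤ q) {A A' U V : ℕ}
    (hAA : A + l ≤ A' ∨ A' + l ≤ A) (hU : U < q ^ l) (hV : V < q ^ l) :
    (U * q ^ A + V * q ^ A') / q ^ A % q ^ l = U := by
  have hA : 0 < q ^ A := by positivity
  rcases hAA with h | h
  · obtain ⟨e, rfl⟩ := Nat.exists_eq_add_of_le h
    have h1 : U * q ^ A + V * q ^ (A + l + e) = q ^ A * (U + q ^ l * (V * q ^ e)) := by
      rw [pow_add, pow_add]; ring
    rw [h1, Nat.mul_div_cancel_left _ hA, Nat.add_mul_mod_self_left, Nat.mod_eq_of_lt hU]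
  · have h1 : V * q ^ A' < q ^ A := by
      calc V * q ^ A' < q ^ l * q ^ A' := Nat.mul_lt_mul_of_pos_right hV (by positivity)
        _ = q ^ (A' + l) := by rw [pow_add]; ring
        _ ≤ q ^ A := Nat.pow_le_pow_right (by omega) h
    rw [show U * q ^ A + V * q ^ A' = V * q ^ A' + q ^ A * U from by ring,
      Nat.add_mul_div_left _ _ hA, Nat.div_eq_of_lt h1, Nat.zero_add, Nat.mod_eq_of_lt hU]

theorem ll_ph {q D l : ℕ} (hq : 2 ≤ q) (hDl : D ≤ l) (L : ℕ) (F : ℕ → ℕ → ℕ → ℕ → G)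
    {A A' N x y : ℕ} (hAA : A + l ≤ A' ∨ A' + l ≤ A)
    (hu : (N / q ^ A % q ^ l + x * q ^ D) / q ^ (l - D) = N / q ^ A % q ^ l / q ^ (l - D))
    (hv : (N / q ^ A' % q ^ l + y * q ^ D) / q ^ (l - D) = N / q ^ A' % q ^ l / q ^ (l - D)) :
    ph q D L F N - ph q D L F (N + x * q ^ (A + D)) - ph q D L F (N + y * q ^ (A' + D)) +
        ph q D L F (N + x * q ^ (A + D) + y * q ^ (A' + D)) =
      Mx q (ph q D L F) A A' (N / q ^ A % q ^ l) (N / q ^ A % q ^ l + x * q ^ D)
        (N / q ^ A' % q ^ l) (N / q ^ A' % q ^ l + y * q ^ D) := by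
  have hql : 0 < q ^ l := by positivity
  have hUlt : N / q ^ A % q ^ l < q ^ l := Nat.mod_lt _ hql
  have hVlt : N / q ^ A' % q ^ l < q ^ l := Nat.mod_lt _ hql
  rw [LLb_sum hq hDl L F hAA rfl rfl hu hv]
  generalize hU : N / q ^ A % q ^ l = U at *
  generalize hV : N / q ^ A' % q ^ l = V at *
  have hMU : (U * q ^ A + V * q ^ A') / q ^ A % q ^ l = U := LLb_two hq hAA hUlt hVlt
  have hMV : (U * q ^ A + V * q ^ A') / q ^ A' % q ^ l = V := by
    rw [Nat.add_comm]; exact LLb_two hq hAA.symm hVlt hUlt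
  rw [← LLb_sum hq hDl L F hAA hMU hMV hu hv]
  unfold Mx
  have e1 : (U + x * q ^ D) * q ^ A + V * q ^ A' =
      U * q ^ A + V * q ^ A' + x * q ^ (A + D) := by rw [pow_add]; ring
  have e2 : U * q ^ A + (V + y * q ^ D) * q ^ A' =
      U * q ^ A + V * q ^ A' + y * q ^ (A' + D) := by rw [pow_add]; ring
  have e3 : (U + x * q ^ D) * q ^ A + (V + y * q ^ D) * q ^ A' =
      U * q ^ A + V * q ^ A' + x * q ^ (A + D) + y * q ^ (A' + D) := by
    rw [pow_add, pow_add]; ring
  rw [e1, e2, e3]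

end Pool.Agent.Lib.MP_3e612f_nt.PI
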