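import Pool.Agent.Lib.MP_3e612f_nt.PI.Defs

/-!
If there is no ladder of length `k`, then `B` only depends on boundedly many types, outside a bounded
set of positions.

PROOF. If `k = 0` the hypothesis is absurd. Let `n < k` be maximal such that there is a ladder `o` of
length `n` (there is one of length `0`; the lengths of ladders are `< k` because a ladder of length
`≥ k` contains one of length `k`). Let `X0` be the set of all positions at distance `< Δ` from one of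
the `3n` positions of the ladder (at most `3n · (2Δ-1) ≤ 6kΔ` positions), and let the preliminary type
of an object be `τ o' = (B o' (o (t, 2)))_{t < n}`, one of at most `|V|^k` values (a finite type which
only depends on `k` and `V`, for example functions `Fin k → V`, padded with some fixed value; if
`V` is empty there is nothing to do).
(1) If `ρ, ρ', κ` are objects with positions `< P` and not in `X0`, labels `< H`, pairwise at
distance `≥ Δ`, and `τ ρ = τ ρ'`, then `B ρ κ = B ρ' κ`: otherwise `ρ, ρ', κ` extend the ladder to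
length `n + 1`.
(2) Call a type `v` rare if the set of the positions `< P`, not in `X0`, of the objects `o'` with label
`< H` and `τ o' = v` has at most `8Δ` elements. If `v` is not rare then for any four given
positions there is an object of type `v`, position `< P` and not in `X0`, label `< H`, at
distance `≥ Δ` from all four (each position excludes at most `2Δ - 1` positions).
Let `X` be `X0` together with the positions of all rare types; `|X| ≤ 6kΔ + 8Δ |V|^k`.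
(3) Let `o1, o2, o1', o2'` be as in the statement. Their types are not rare. Choose `o1''` of the type of
`o1` (= type of `o1'`), outside `X0`, at distance `≥ Δ` from `o1, o2, o1', o2'`; then `o2''` of the type of
`o2`, outside `X0`, at distance `≥ Δ` from `o1'', o2, o2'`. By (1) and the symmetry of `B`:
`B o1 o2 = B o1'' o2 = B o2 o1'' = B o2'' o1''` and
`B o1' o2' = B o1'' o2' = B o2' o1'' = B o2'' o1''`.
-/

set_option autoImplicit false

namespace Pool.Agent.Lib.MP_3e612f_nt.PI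

/-- positions at distance less than `Δ` from `a` -/
def Lad_near (Δ a : ℕ) : Finset ℕ := Finset.Ico (a + 1 - Δ) (a + Δ)

theorem Lad_near_card (Δ a : ℕ) : (Lad_near Δ a).card ≤ 2 * Δ := by
  unfold Lad_near
  rw [Nat.card_Ico]
  omega

theorem Lad_not_near {Δ a x : ℕ} (h : x ∉ Lad_near Δ a) : a + Δ ≤ x ∨ x + Δ ≤ a := by
  unfold Lad_near at h
  rw [Finset.mem_Ico] at h
  omega

theorem Lad_ext {V : Type} (B : ℕ × ℕ → ℕ × ℕ → V) (P H Δ n : ℕ)
    (o : Fin n × Fin 3 → ℕ × ℕ) (ho : IsLadder B P H Δ n o)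
    (hn : ¬ ∃ o : Fin (n + 1) × Fin 3 → ℕ × ℕ, IsLadder B P H Δ (n + 1) o)
    (ρ ρ' κ : ℕ × ℕ) (hρ : ρ.1 < P ∧ ρ.2 < H) (hρ' : ρ'.1 < P ∧ ρ'.2 < H)
    (hκ : κ.1 < P ∧ κ.2 < H)
    (fρ : ∀ i, (o i).1 + Δ ≤ ρ.1 ∨ ρ.1 + Δ ≤ (o i).1)
    (fρ' : ∀ i, (o i).1 + Δ ≤ ρ'.1 ∨ ρ'.1 + Δ ≤ (o i).1)
    (fκ : ∀ i, (o i).1 + Δ ≤ κ.1 ∨ κ.1 + Δ ≤ (o i).1)
    (d1 : ρ.1 + Δ ≤ ρ'.1 ∨ ρ'.1 + Δ ≤ ρ.1) (d2 : ρ.1 + Δ ≤ κ.1 ∨ κ.1 + Δ ≤ ρ.1)
    (d3 : ρ'.1 + Δ ≤ κ.1 ∨ κ.1 + Δ ≤ ρ'.1)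
    (hτ : ∀ t : Fin n, B ρ (o (t, 2)) = B ρ' (o (t, 2))) : B ρ κ = B ρ' κ := by
  by_contra hne
  apply hn
  obtain ⟨h1, h2, h3, h4⟩ := ho
  refine ⟨fun i => if h : (i.1 : ℕ) < n then o (⟨i.1, h⟩, i.2) else ![ρ, ρ', κ] i.2, ?_, ?_, ?_, ?_⟩
  · rintro ⟨t, s⟩
    by_cases ht : (t : ℕ) < n
    · simp only [ht, dif_pos]
      exact h1 _
    · simp only [ht, dif_neg, not_false_iff]
      fin_cases s
      · exact hρ
      · exact hρ'
      · exact hκ
  · rintro ⟨t, s⟩ ⟨t', s'⟩ hij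
    by_cases ht : (t : ℕ) < n
    · by_cases ht' : (t' : ℕ) < n
      · simp only [ht, ht', dif_pos]
        apply h2
        intro h
        apply hij
        simp only [Prod.mk.injEq, Fin.mk.injEq] at h
        exact Prod.ext (Fin.ext h.1) h.2
      · simp only [ht, ht', dif_pos, dif_neg, not_false_iff]
        fin_cases s'
        · exact fρ _
        · exact fρ' _
        · exact fκ _
    · by_cases ht' : (t' : ℕ) < n
      · simp only [ht, ht', dif_pos, dif_neg, not_false_iff]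
        fin_cases s
        · exact (fρ _).symm
        · exact (fρ' _).symm
        · exact (fκ _).symm
      · simp only [ht, ht', dif_neg, not_false_iff]
        have htt : t = t' := by
          apply Fin.ext
          have := t.2
          have := t'.2
          omega
        subst htt
        fin_cases s <;> fin_cases s'
        · exact absurd rfl hij
        · exact d1
        · exact d2
        · exact d1.symm
        · exact absurd rfl hij
        · exact d3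
        · exact d2.symm
        · exact d3.symm
        · exact absurd rfl hij
  · intro t
    by_cases ht : (t : ℕ) < n
    · simp only [ht, dif_pos]
      exact h3 _
    · simp only [ht, dif_neg, not_false_iff]
      exact hne
  · intro t t' htt
    have ht : (t : ℕ) < n := by
      have := t'.2
      have : (t : ℕ) < t' := htt
      omega
    by_cases ht' : (t' : ℕ) < n
    · simp only [ht, ht', dif_pos]
      exact h4 _ _ htt
    · simp only [ht, ht', dif_pos, dif_neg, not_false_iff]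
      exact hτ _

theorem no_ladder (V : Type) [Fintype V] (k H Δ : ℕ) (hΔ : 1 ≤ Δ) :
    ∃ e t : ℕ, ∀ (P : ℕ) (B : ℕ × ℕ → ℕ × ℕ → V), (∀ o o', B o o' = B o' o) →
      (¬ ∃ o : Fin k × Fin 3 → ℕ × ℕ, IsLadder B P H Δ k o) →
      ∃ (X : Finset ℕ) (T : ℕ × ℕ → Fin t), X.card ≤ e ∧
        ∀ o1 o2 o1' o2' : ℕ × ℕ,
          (o1.1 < P ∧ o1.2 < H ∧ o1.1 ∉ X) → (o2.1 < P ∧ o2.2 < H ∧ o2.1 ∉ X) →
          (o1'.1 < P ∧ o1'.2 < H ∧ o1'.1 ∉ X) → (o2'.1 < P ∧ o2'.2 < H ∧ o2'.1 ∉ X) →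
          (o1.1 + Δ ≤ o2.1 ∨ o2.1 + Δ ≤ o1.1) → (o1'.1 + Δ ≤ o2'.1 ∨ o2'.1 + Δ ≤ o1'.1) →
          T o1 = T o1' → T o2 = T o2' → B o1 o2 = B o1' o2' := by
  classical
  refine ⟨3 * k * (2 * Δ) + Fintype.card (Fin k → V) * (8 * Δ), Fintype.card (Fin k → V), ?_⟩
  intro P B hB hk
  -- a maximal ladder
  have hex : ∃ n, ¬ ∃ o : Fin (n + 1) × Fin 3 → ℕ × ℕ, IsLadder B P H Δ (n + 1) o := by
    rcases Nat.eq_zero_or_pos k with h0 | h0
    · subst h0
      exact absurd ⟨fun i => i.1.elim0, fun i => i.1.elim0, fun i => i.1.elim0, fun t => t.elim0,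
        fun t => t.elim0⟩ hk
    · refine ⟨k - 1, ?_⟩
      have h1 : k - 1 + 1 = k := by omega
      rw [h1]
      exact hk
  obtain ⟨n, ⟨o, ho⟩, hn, hnk⟩ : ∃ n, (∃ o : Fin n × Fin 3 → ℕ × ℕ, IsLadder B P H Δ n o) ∧
      (¬ ∃ o : Fin (n + 1) × Fin 3 → ℕ × ℕ, IsLadder B P H Δ (n + 1) o) ∧ n < k := by
    have hs := Nat.find_spec hex
    have hm := fun m => Nat.find_min (m := m) hex
    rcases Nat.eq_zero_or_pos k with h0 | h0
    · subst h0
      exact absurd ⟨fun i => i.1.elim0, fun i => i.1.elim0, fun i => i.1.elim0, fun t => t.elim0,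
        fun t => t.elim0⟩ hk
    refine ⟨Nat.find hex, ?_, hs, ?_⟩
    · rcases Nat.eq_zero_or_pos (Nat.find hex) with h1 | h1
      · rw [h1]
        exact ⟨fun i => i.1.elim0, fun i => i.1.elim0, fun i => i.1.elim0, fun t => t.elim0,
          fun t => t.elim0⟩
      · have := hm (Nat.find hex - 1) (by omega)
        rw [not_not] at this
        have h2 : Nat.find hex - 1 + 1 = Nat.find hex := by omega
        rw [h2] at this
        exact this
    · have h1 : ¬ ∃ o : Fin (k - 1 + 1) × Fin 3 → ℕ × ℕ, IsLadder B P H Δ (k - 1 + 1) o := by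
        have h1 : k - 1 + 1 = k := by omega
        rw [h1]
        exact hk
      have := Nat.find_min' hex h1
      omega
  -- types
  let v0 : V := B (0, 0) (0, 0)
  let τ : ℕ × ℕ → Fin k → V := fun x t => if h : (t : ℕ) < n then B x (o (⟨t, h⟩, 2)) else v0
  have hτ : ∀ x y, τ x = τ y → ∀ t : Fin n, B x (o (t, 2)) = B y (o (t, 2)) := by
    intro x y hxy t
    have h1 := congrFun hxy ⟨t.1, lt_trans t.2 hnk⟩
    have h2 : (t : ℕ) < n := t.2
    simpa [τ, h2] using h1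
  let X0 : Finset ℕ := Finset.univ.biUnion (fun i : Fin n × Fin 3 => Lad_near Δ (o i).1)
  have hX0 : ∀ x, x ∉ X0 → ∀ i, (o i).1 + Δ ≤ x ∨ x + Δ ≤ (o i).1 := by
    intro x hx i
    apply Lad_not_near
    intro h
    exact hx (Finset.mem_biUnion.2 ⟨i, Finset.mem_univ _, h⟩)
  have hX0c : X0.card ≤ 3 * k * (2 * Δ) := by
    have h1 : X0.card ≤ (Finset.univ : Finset (Fin n × Fin 3)).card * (2 * Δ) :=
      Finset.card_biUnion_le_card_mul _ _ _ (fun i _ => Lad_near_card Δ _)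
    have h2 : (Finset.univ : Finset (Fin n × Fin 3)).card = n * 3 := by simp
    rw [h2] at h1
    have h3 : n * 3 * (2 * Δ) ≤ 3 * k * (2 * Δ) := Nat.mul_le_mul_right _ (by omega)
    exact le_trans h1 h3
  let Pos : (Fin k → V) → Finset ℕ := fun v =>
    (Finset.range P).filter (fun x => x ∉ X0 ∧ ∃ h, h < H ∧ τ (x, h) = v)
  let X1 : Finset ℕ := (Finset.univ : Finset (Fin k → V)).biUnion
    (fun v => if (Pos v).card ≤ 8 * Δ then Pos v else ∅)
  have hX1c : X1.card ≤ Fintype.card (Fin k → V) * (8 * Δ) := by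
    refine Finset.card_biUnion_le_card_mul _ _ _ (fun v _ => ?_)
    by_cases h : (Pos v).card ≤ 8 * Δ
    · rw [if_pos h]
      exact h
    · rw [if_neg h]
      simp
  have hgood : ∀ x : ℕ × ℕ, x.1 < P → x.2 < H → x.1 ∉ X0 ∪ X1 → 8 * Δ < (Pos (τ x)).card := by
    intro x h1 h2 h3
    by_contra h4
    rw [not_lt] at h4
    rw [Finset.mem_union, not_or] at h3
    apply h3.2
    refine Finset.mem_biUnion.2 ⟨τ x, Finset.mem_univ _, ?_⟩
    rw [if_pos h4]
    exact Finset.mem_filter.2 ⟨Finset.mem_range.2 h1, h3.1, x.2, h2, rfl⟩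
  have hchoose : ∀ v, 8 * Δ < (Pos v).card → ∀ a b c d : ℕ, ∃ x : ℕ × ℕ, x.1 < P ∧ x.2 < H ∧
      x.1 ∉ X0 ∧ τ x = v ∧ (a + Δ ≤ x.1 ∨ x.1 + Δ ≤ a) ∧ (b + Δ ≤ x.1 ∨ x.1 + Δ ≤ b) ∧
      (c + Δ ≤ x.1 ∨ x.1 + Δ ≤ c) ∧ (d + Δ ≤ x.1 ∨ x.1 + Δ ≤ d) := by
    intro v hv a b c d
    have h1 : (Lad_near Δ a ∪ Lad_near Δ b ∪ (Lad_near Δ c ∪ Lad_near Δ d)).card < (Pos v).card := by
      have e1 := Finset.card_union_le (Lad_near Δ a ∪ Lad_near Δ b) (Lad_near Δ c ∪ Lad_near Δ d)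
      have e2 := Finset.card_union_le (Lad_near Δ a) (Lad_near Δ b)
      have e3 := Finset.card_union_le (Lad_near Δ c) (Lad_near Δ d)
      have f1 := Lad_near_card Δ a
      have f2 := Lad_near_card Δ b
      have f3 := Lad_near_card Δ c
      have f4 := Lad_near_card Δ d
      omega
    obtain ⟨x, hx, hx'⟩ := Finset.exists_mem_notMem_of_card_lt_card h1
    obtain ⟨g1, g2, h, g3, g4⟩ := Finset.mem_filter.1 hx
    simp only [Finset.mem_union, not_or] at hx'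
    exact ⟨(x, h), Finset.mem_range.1 g1, g3, g2, g4, Lad_not_near hx'.1.1, Lad_not_near hx'.1.2,
      Lad_not_near hx'.2.1, Lad_not_near hx'.2.2⟩
  have key : ∀ ρ ρ' κ : ℕ × ℕ, (ρ.1 < P ∧ ρ.2 < H ∧ ρ.1 ∉ X0) → (ρ'.1 < P ∧ ρ'.2 < H ∧ ρ'.1 ∉ X0) →
      (κ.1 < P ∧ κ.2 < H ∧ κ.1 ∉ X0) → (ρ.1 + Δ ≤ ρ'.1 ∨ ρ'.1 + Δ ≤ ρ.1) →
      (ρ.1 + Δ ≤ κ.1 ∨ κ.1 + Δ ≤ ρ.1) → (ρ'.1 + Δ ≤ κ.1 ∨ κ.1 + Δ ≤ ρ'.1) → τ ρ = τ ρ' →
      B ρ κ = B ρ' κ := by
    intro ρ ρ' κ h1 h2 h3 d1 d2 d3 ht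
    exact Lad_ext B P H Δ n o ho hn ρ ρ' κ ⟨h1.1, h1.2.1⟩ ⟨h2.1, h2.2.1⟩ ⟨h3.1, h3.2.1⟩
      (hX0 _ h1.2.2) (hX0 _ h2.2.2) (hX0 _ h3.2.2) d1 d2 d3 (hτ _ _ ht)
  refine ⟨X0 ∪ X1, fun x => Fintype.equivFin (Fin k → V) (τ x), ?_, ?_⟩
  · exact le_trans (Finset.card_union_le _ _) (add_le_add hX0c hX1c)
  · intro o1 o2 o1' o2' a1 a2 a1' a2' d d' t1 t2
    have t1' : τ o1 = τ o1' := (Fintype.equivFin (Fin k → V)).injective t1
    have t2' : τ o2 = τ o2' := (Fintype.equivFin (Fin k → V)).injective t2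
    have n1 := hgood o1 a1.1 a1.2.1 a1.2.2
    have n2 := hgood o2 a2.1 a2.2.1 a2.2.2
    have b1 : o1.1 ∉ X0 := fun h => a1.2.2 (Finset.mem_union_left _ h)
    have b2 : o2.1 ∉ X0 := fun h => a2.2.2 (Finset.mem_union_left _ h)
    have b1' : o1'.1 ∉ X0 := fun h => a1'.2.2 (Finset.mem_union_left _ h)
    have b2' : o2'.1 ∉ X0 := fun h => a2'.2.2 (Finset.mem_union_left _ h)
    obtain ⟨p, p1, p2, p3, p4, q1, q2, q3, q4⟩ := hchoose _ n1 o1.1 o2.1 o1'.1 o2'.1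
    obtain ⟨r, r1, r2, r3, r4, s1, s2, s3, -⟩ := hchoose _ n2 p.1 o2.1 o2'.1 o2'.1
    have e1 : B o1 o2 = B p o2 :=
      key o1 p o2 ⟨a1.1, a1.2.1, b1⟩ ⟨p1, p2, p3⟩ ⟨a2.1, a2.2.1, b2⟩ q1 d q2.symm p4.symm
    have e2 : B o2 p = B r p :=
      key o2 r p ⟨a2.1, a2.2.1, b2⟩ ⟨r1, r2, r3⟩ ⟨p1, p2, p3⟩ s2 q2 s1.symm r4.symm
    have e3 : B o1' o2' = B p o2' :=
      key o1' p o2' ⟨a1'.1, a1'.2.1, b1'⟩ ⟨p1, p2, p3⟩ ⟨a2'.1, a2'.2.1, b2'⟩ q3 d' q4.symm
        (t1'.symm.trans p4.symm)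
    have e4 : B o2' p = B r p :=
      key o2' r p ⟨a2'.1, a2'.2.1, b2'⟩ ⟨r1, r2, r3⟩ ⟨p1, p2, p3⟩ s3 q4 s1.symm
        (t2'.symm.trans r4.symm)
    rw [e1, hB p o2, e2, e3, hB p o2', e4]

end Pool.Agent.Lib.MP_3e612f_nt.PI
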