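import Pool.Agent.Lib.MP_3e612f_nt.PI.Dich
import Pool.Agent.Lib.MP_3e612f_nt.PI.Tr
import Pool.Agent.Lib.MP_3e612f_nt.PI.KatB

/-!
The main theorem for one character.

PROOF of `pair_main`: `main_of_dich` for the class `Cl N f s` = (exists `K1, F` with `N ≤ q^K1 ≤ q N` and
`f = ph q D (K1+1) F`), and `trunc_ph` with `K1 = Nat.clog q N`.
-/

set_option autoImplicit false

namespace Pool.Agent.Lib.MP_3e612f_nt.PI

open Finset

theorem pair_main (q D κ m : ℕ) [NeZero m] (hq : 2 ≤ q) (hm : m ∣ q ^ κ) {ε : ℝ} (hε : 0 < ε) :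
    ∃ N0 : ℕ, ∀ N ≥ N0, ∀ (L s : ℕ) (F : ℕ → ℕ → ℕ → ℕ → ZMod m),
      ‖∑ n ∈ Icc 1 N, mc n * ee (ph q D L F (n + s))‖ ≤ ε * N := by
  obtain ⟨N0, h0⟩ := main_of_dich m q
    (fun N f _ => ∃ (K1 : ℕ) (F : ℕ → ℕ → ℕ → ℕ → ZMod m), N ≤ q ^ K1 ∧ q ^ K1 ≤ q * N ∧
      f = ph q D (K1 + 1) F)
    (by
      intro p r hp hr hqp hpr η _ δ ε' hδ hε'
      obtain ⟨N1, h1⟩ := pair_dich q D κ m p r hq hm hp hr hqp hpr η hδ hε'
      refine ⟨N1, fun N hN f s hf => ?_⟩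
      obtain ⟨K1, F, hNK, hKN, rfl⟩ := hf
      exact h1 N hN K1 s F hNK hKN)
    hε
  refine ⟨max N0 1, fun N hN L s F => ?_⟩
  have hN0 : N0 ≤ N := le_trans (le_max_left _ _) hN
  have hN1 : 1 ≤ N := le_trans (le_max_right _ _) hN
  have hNK : N ≤ q ^ Nat.clog q N := Nat.le_pow_clog (by omega) N
  have hKN : q ^ Nat.clog q N ≤ q * N := by
    rcases Nat.eq_or_lt_of_le hN1 with h | h
    · subst h
      simp
      omega
    · have h2 : q ^ (Nat.clog q N).pred < N := Nat.pow_pred_clog_lt_self (by omega) h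
      have h3 : 0 < Nat.clog q N := Nat.clog_pos (by omega) (by omega)
      have h4 : q ^ Nat.clog q N = q * q ^ (Nat.clog q N).pred := by
        rw [← pow_succ']
        congr 1
        exact (Nat.succ_pred_eq_of_pos h3).symm
      rw [h4]
      exact Nat.mul_le_mul_left q h2.le
  obtain ⟨F', s', _, hF'⟩ := trunc_ph hq D (Nat.clog q N) N hNK L s F
  have h5 := h0 N hN0 (ph q D (Nat.clog q N + 1) F') s' ⟨_, F', hNK, hKN, rfl⟩
  have h6 : ∑ n ∈ Icc 1 N, mc n * ee (ph q D L F (n + s)) =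
      ∑ n ∈ Icc 1 N, mc n * ee (ph q D (Nat.clog q N + 1) F' (n + s')) := by
    refine Finset.sum_congr rfl fun n hn => ?_
    rw [hF' n (mem_Icc.1 hn).2]
  rw [h6]
  exact h5

end Pool.Agent.Lib.MP_3e612f_nt.PI
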