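import Pool.Agent.Lib.MP_3e612f_nt.PI.Gad
import Pool.Agent.Lib.MP_3e612f_nt.PI.LLb

/-!
Effect of the gadgets on the phase of a pair correlation.

PROOF. Adding `q^(a+g+D)` to `n` adds `t q^(a+g+D)` to `N = t n + s` (`t = p, r`), and the block of
`N` at `A = a + g` is `ut` (`carry`). Apply `ll_loc` / `ll_ph` to `N = p n + s` with `x = y = p` and to
`N = r n + s` with `x = y = r` (hypotheses from `ut_top`), and add with the weights `1, η`. The blocks
`[a+g, a+g+l)` and `[a'+g, a'+g+l)` are disjoint.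
-/

set_option autoImplicit false

namespace Pool.Agent.Lib.MP_3e612f_nt.PI

variable {G : Type} [AddCommGroup G] {q D g l H p r : ℕ} {z0 x0 : ℕ → ℕ}

/-- one multiplier `t`, phases without interactions -/
theorem Md_loc (hq : 2 ≤ q) (hDl : D ≤ l) (hG : Gad q D g l H p r z0 x0) (L s : ℕ)
    (c : ℕ → ℕ → G) {t : ℕ} (ht : t = p ∨ t = r) {o : ℕ × ℕ} (ho : o.2 < H) {n : ℕ}
    (hn : n / q ^ o.1 % q ^ (g + l) = zc q g l z0 x0 s o) :
    loc q D L c (t * (n + q ^ (o.1 + g + D)) + s) - loc q D L c (t * n + s) =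
      loc q D L c ((ut q g l z0 x0 s t o + t * q ^ D) * q ^ (o.1 + g)) -
        loc q D L c (ut q g l z0 x0 s t o * q ^ (o.1 + g)) := by
  have hc := carry hq hG ht s ho hn
  have h := ll_loc (G := G) (q := q) (D := D) (l := l) hq hDl L c (A := o.1 + g) (N := t * n + s)
    (x := t) (by rw [hc]; exact ut_top hq hDl hG ht s ho)
  rw [hc] at h
  rw [← h]
  have e : t * (n + q ^ (o.1 + g + D)) + s = t * n + s + t * q ^ (o.1 + g + D) := by ring
  rw [e]

/-- one multiplier `t`, phases with pair interactions -/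
theorem Md_ph (hq : 2 ≤ q) (hDl : D ≤ l) (hG : Gad q D g l H p r z0 x0) (L s : ℕ)
    (F : ℕ → ℕ → ℕ → ℕ → G) {t : ℕ} (ht : t = p ∨ t = r) {o o' : ℕ × ℕ} (ho : o.2 < H)
    (ho' : o'.2 < H) (hsep : o.1 + (g + l) ≤ o'.1 ∨ o'.1 + (g + l) ≤ o.1) {n : ℕ}
    (hn : n / q ^ o.1 % q ^ (g + l) = zc q g l z0 x0 s o)
    (hn' : n / q ^ o'.1 % q ^ (g + l) = zc q g l z0 x0 s o') :
    ph q D L F (t * n + s) - ph q D L F (t * (n + q ^ (o.1 + g + D)) + s) -
        ph q D L F (t * (n + q ^ (o'.1 + g + D)) + s) +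
        ph q D L F (t * (n + q ^ (o.1 + g + D) + q ^ (o'.1 + g + D)) + s) =
      Mx q (ph q D L F) (o.1 + g) (o'.1 + g)
        (ut q g l z0 x0 s t o) (ut q g l z0 x0 s t o + t * q ^ D)
        (ut q g l z0 x0 s t o') (ut q g l z0 x0 s t o' + t * q ^ D) := by
  have hc := carry hq hG ht s ho hn
  have hc' := carry hq hG ht s ho' hn'
  have h := ll_ph (G := G) (q := q) (D := D) (l := l) hq hDl L F (A := o.1 + g) (A' := o'.1 + g)
    (N := t * n + s) (x := t) (y := t) (by omega)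
    (by rw [hc]; exact ut_top hq hDl hG ht s ho)
    (by rw [hc']; exact ut_top hq hDl hG ht s ho')
  rw [hc, hc'] at h
  rw [← h]
  have e1 : t * (n + q ^ (o.1 + g + D)) + s = t * n + s + t * q ^ (o.1 + g + D) := by ring
  have e2 : t * (n + q ^ (o'.1 + g + D)) + s = t * n + s + t * q ^ (o'.1 + g + D) := by ring
  have e3 : t * (n + q ^ (o.1 + g + D) + q ^ (o'.1 + g + D)) + s =
      t * n + s + t * q ^ (o.1 + g + D) + t * q ^ (o'.1 + g + D) := by ring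
  rw [e1, e2, e3]

theorem fd_Phi (hq : 2 ≤ q) (hDl : D ≤ l) (hG : Gad q D g l H p r z0 x0) (L s : ℕ)
    (c : ℕ → ℕ → G) (η : ℤ) {o : ℕ × ℕ} (ho : o.2 < H) {n : ℕ}
    (hn : n / q ^ o.1 % q ^ (g + l) = zc q g l z0 x0 s o) :
    Phi (loc q D L c) η p r s (n + q ^ (o.1 + g + D)) - Phi (loc q D L c) η p r s n =
      dv q D g l z0 x0 s p r (loc q D L c) η o := by
  have h1 := Md_loc hq hDl hG L s c (Or.inl rfl) ho hn
  have h2 := Md_loc hq hDl hG L s c (Or.inr rfl) ho hn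
  unfold Phi dv
  rw [← h1, ← h2, smul_sub]
  abel

theorem md_Phi (hq : 2 ≤ q) (hDl : D ≤ l) (hG : Gad q D g l H p r z0 x0) (L s : ℕ)
    (F : ℕ → ℕ → ℕ → ℕ → G) (η : ℤ) {o o' : ℕ × ℕ} (ho : o.2 < H) (ho' : o'.2 < H)
    (hsep : o.1 + (g + l) ≤ o'.1 ∨ o'.1 + (g + l) ≤ o.1) {n : ℕ}
    (hn : n / q ^ o.1 % q ^ (g + l) = zc q g l z0 x0 s o)
    (hn' : n / q ^ o'.1 % q ^ (g + l) = zc q g l z0 x0 s o') :
    Phi (ph q D L F) η p r s n - Phi (ph q D L F) η p r s (n + q ^ (o.1 + g + D)) -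
        Phi (ph q D L F) η p r s (n + q ^ (o'.1 + g + D)) +
        Phi (ph q D L F) η p r s (n + q ^ (o.1 + g + D) + q ^ (o'.1 + g + D)) =
      Bv q D g l z0 x0 s p r (ph q D L F) η o o' := by
  have h1 := Md_ph hq hDl hG L s F (Or.inl rfl) ho ho' hsep hn hn'
  have h2 := Md_ph hq hDl hG L s F (Or.inr rfl) ho ho' hsep hn hn'
  unfold Phi Bv
  rw [← h1, ← h2, smul_add, smul_sub, smul_sub]
  abel

end Pool.Agent.Lib.MP_3e612f_nt.PI
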