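import Pool.Agent.Lib.MP_3e612f_nt.PI.KLc
import Pool.Agent.Lib.MP_3e612f_nt.PI.Gad
import Pool.Agent.Lib.MP_3e612f_nt.PI.Sp
import Pool.Agent.Lib.MP_3e612f_nt.PI.LLb

/-!
Phases without interactions: digits of positions without effective gadgets are linear.

PROOF of `good_digit`. `A = a + g`. Apply `kl` with `κ = 0` to `Lp u = loc q D L c (u % q^l * q^A)`,
`Lr u = η • loc q D L c (u % q^l * q^A)` (split by `split_loc`, `Split.zsmul`),
`σ_t = t x0 + sg`, so that `(t x + σ_t) % q^l = ut t (a, x)` and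
`(t (x + q^D) + σ_t) % q^l = ut t (a, x) + t q^D` (`ut_add`) for `x < H`: the hypothesis `dv = 0` is
`hK`. So there is `gK` with `Lp (u + q^(b+D)) - Lp u = gK` whenever the digit of `u` at `b + D` is
`≠ q - 1`. If the digit of `N` at `K = A + b + D` is `≠ q - 1`, let `u = N / q^A % q^l`; its digit at
`b + D` is `≠ q - 1`, so `u + q^(b+D) = u + q^b q^D` has the same quotient by `q^(l-D)` as `u`
(`b + D < l - D`), and `ll_loc` with `x = q^b` gives
`loc (N + q^K) - loc N = loc ((u + q^(b+D)) q^A) - loc (u q^A) = Lp (u + q^(b+D)) - Lp u`.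
-/

set_option autoImplicit false

namespace Pool.Agent.Lib.MP_3e612f_nt.PI

open Finset

variable {G : Type} [AddCommGroup G]

private theorem OneA_quot {q D l b u : ℕ} (hq : 2 ≤ q) (hl : b + 2 * D + 1 ≤ l)
    (hd : u / q ^ (b + D) % q ≠ q - 1) :
    (u + q ^ b * q ^ D) / q ^ (l - D) = u / q ^ (l - D) := by
  have hB : 0 < q ^ (b + D) := by positivity
  obtain ⟨e, he⟩ : ∃ e, l - D = b + D + (1 + e) := ⟨l - D - (b + D + 1), by omega⟩
  rw [he, pow_add q (b + D) (1 + e), ← Nat.div_div_eq_div_mul, ← Nat.div_div_eq_div_mul, ← pow_add,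
    Nat.add_div_right _ hB, pow_add q 1 e, pow_one, ← Nat.div_div_eq_div_mul,
    ← Nat.div_div_eq_div_mul]
  congr 1
  rw [Nat.succ_div, if_neg, Nat.add_zero]
  intro hdv
  apply hd
  have h1 : (u / q ^ (b + D) + 1) % q = 0 := Nat.mod_eq_zero_of_dvd hdv
  have h2 : u / q ^ (b + D) % q < q := Nat.mod_lt _ (by omega)
  by_contra h3
  have h4 : (u / q ^ (b + D) % q + 1) % q = u / q ^ (b + D) % q + 1 :=
    Nat.mod_eq_of_lt (by omega)
  rw [Nat.mod_add_mod] at h4
  omega

theorem good_digit {q D g l H p r b : ℕ} {z0 x0 : ℕ → ℕ} (hq : 2 ≤ q)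
    (hp : p.Prime) (hpq : p.Coprime q) (hpr : p.Coprime r) (hr : 0 < r)
    (hb1 : 2 * p * r ≤ q ^ b) (hb2 : 2 * p * q ^ D ≤ q ^ b) (hb3 : 2 * r * q ^ D ≤ q ^ b)
    (hH : q ^ (b + 3 * D + 3) ≤ H) (hl : b + 2 * D + 1 ≤ l)
    (hG : Gad q D g l H p r z0 x0) (L s : ℕ) (c : ℕ → ℕ → G) (η : ℤ) {a : ℕ}
    (h0 : ∀ lam < H, dv q D g l z0 x0 s p r (loc q D L c) η (a, lam) = 0) :
    ∃ gK : G, ∀ N : ℕ, N / q ^ (a + g + b + D) % q ≠ q - 1 →
      loc q D L c (N + q ^ (a + g + b + D)) - loc q D L c N = gK := by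
  have hDl : D ≤ l := by omega
  set A := a + g with hA
  set w := sa q g l s a with hw
  set Lp : ℕ → G := fun u => loc q D L c (u % q ^ l * q ^ A) with hLp
  set Lr : ℕ → G := fun u => η • loc q D L c (u % q ^ l * q ^ A) with hLr
  have sp : Split q D Lp := split_loc hq l A L c
  have sr : Split q D Lr := Split.zsmul (split_loc hq l A L c) η
  have e1 : ∀ t x : ℕ, (t * x + (t * x0 w + sg q g t (z0 w) w)) % q ^ l =
      ut q g l z0 x0 s t (a, x) := by
    intro t x
    show _ = (t * (x0 w + x) + sg q g t (z0 w) w) % q ^ l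
    congr 1
    ring
  have e2 : ∀ t x : ℕ, (t = p ∨ t = r) → x < H →
      (t * (x + q ^ D) + (t * x0 w + sg q g t (z0 w) w)) % q ^ l =
      ut q g l z0 x0 s t (a, x) + t * q ^ D := by
    intro t x ht hx
    rw [ut_add hq hDl hG ht s (o := (a, x)) hx]
    congr 1
    show _ = t * (x0 w + (x + q ^ D)) + sg q g t (z0 w) w
    ring
  have hK : ∀ x < H, Lp (p * (x + q ^ D) + (p * x0 w + sg q g p (z0 w) w)) +
      Lr (r * (x + q ^ D) + (r * x0 w + sg q g r (z0 w) w)) =
      Lp (p * x + (p * x0 w + sg q g p (z0 w) w)) +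
      Lr (r * x + (r * x0 w + sg q g r (z0 w) w)) := by
    intro x hx
    have h := h0 x hx
    simp only [hLp, hLr]
    rw [e1 p x, e1 r x, e2 p x (Or.inl rfl) hx, e2 r x (Or.inr rfl) hx]
    unfold dv at h
    simp only at h
    rw [← hA, smul_sub] at h
    rw [← sub_eq_zero, ← h]
    abel
  obtain ⟨gK, hgK⟩ := kl (κ := 0) hq hp hpq hpr hr hb1 hb2 hb3 sp sr
    (by rw [Nat.add_zero]; exact hH) hK
  refine ⟨gK, fun N hN => ?_⟩
  have hql : 0 < q ^ l := by positivity
  set u := N / q ^ A % q ^ l with hu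
  have hult : u < q ^ l := Nat.mod_lt _ hql
  have hdig : u / q ^ (b + D) % q ≠ q - 1 := by
    have h1 : u / q ^ (b + D) % q = N / q ^ (A + b + D) % q := by
      obtain ⟨e, he⟩ : ∃ e, l = b + D + (1 + e) := ⟨l - (b + D + 1), by omega⟩
      rw [hu, he, pow_add q (b + D) (1 + e), Nat.mod_mul_right_div_self, Nat.div_div_eq_div_mul,
        ← pow_add, pow_add q 1 e, pow_one, Nat.mod_mul_right_mod, ← Nat.add_assoc A b D]
    rw [h1]
    exact hN
  have hquo := OneA_quot hq hl hdig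
  have hll := ll_loc hq hDl L c (A := A) (N := N) (x := q ^ b) (by rw [← hu]; exact hquo)
  rw [← hu] at hll
  have e3 : q ^ b * q ^ (A + D) = q ^ (A + b + D) := by rw [← pow_add]; congr 1; ring
  rw [e3] at hll
  rw [hll]
  have hlt : u + q ^ b * q ^ D < q ^ l := by
    have hB : 0 < q ^ (l - D) := by positivity
    have h3 : q ^ l = q ^ D * q ^ (l - D) := by
      rw [← pow_add, Nat.add_sub_cancel' hDl]
    rw [h3] at hult ⊢
    rw [← Nat.div_lt_iff_lt_mul hB] at hult ⊢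
    rw [hquo]
    exact hult
  have hfin := hgK 0 le_rfl u (by rw [Nat.add_zero]; exact hdig)
  simp only [hLp, Nat.add_zero, pow_zero, one_smul] at hfin
  rw [pow_add, Nat.mod_eq_of_lt hlt, Nat.mod_eq_of_lt hult] at hfin
  exact hfin

end Pool.Agent.Lib.MP_3e612f_nt.PI
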