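import Pool.Agent.Lib.MP_3e612f_nt.PI.Defs
import Pool.Agent.Lib.MP_3e612f_nt.PS.Final

/-!
Structured phases are orthogonal to the Moebius function.

PROOF of `base_struct`. Apply `PS.main_complex` with the finite group
`G = Multiplicative (ZMod M) × (Fin e → Multiplicative (ZMod q))`, `B = q`, all radices `q`, with
`g j d = (ofAdd (d • gK j), 1)` for `j < L'`, `j ∉ E`, and
`g j d = (1, Pi.mulSingle (idx j) (ofAdd d))` for `j ∈ E`, where `idx : E ↪ Fin e`, and the number of
digits `L'' = max L' (sup E + 1)` (for `j ∉ E`, `j ≥ L'` take `g j d = 1`). The product over the digits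
is `(ofAdd (∑_{K ∈ range L' \ E} (n / q^K % q) • gK K), (ofAdd (n / q^(pos i) % q))_i)`, and the phase
is a function of it: `Fn (x, y) = ee (Θ (∑_{K ∈ E} (toAdd (y (idx K))).val * q^K) + toAdd x)`.
(`PB.hw` with constant radices: see `PB.list_eq_hw` or prove by induction that
`hw (fun _ => q) g j k n = ∏_{i < k} g (j + i) (n / q^i % q)` in a commutative group.)
-/

set_option autoImplicit false

namespace Pool.Agent.Lib.MP_3e612f_nt.PI

open Finset

theorem OneB_list {G : Type} [CommGroup G] (f : ℕ → G) (L : ℕ) :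
    ((List.range L).map f).prod = ∏ j ∈ range L, f j := by
  induction L with
  | zero => simp
  | succ L ih => rw [List.range_succ, List.map_append, List.prod_append, ih, prod_range_succ]; simp

theorem OneB_hw {G : Type} [CommGroup G] (q : ℕ) (g : ℕ → ℕ → G) (L n : ℕ) :
    PB.hw (fun _ => q) g 0 L n = ∏ j ∈ range L, g j (n / q ^ j % q) := by
  rw [← PB.list_eq_hw, OneB_list]
  refine prod_congr rfl fun j _ => ?_
  simp

theorem OneB_norm {m : ℕ} [NeZero m] (x : ZMod m) : ‖ee x‖ = 1 := by
  unfold ee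
  exact AddChar.norm_apply _ _

open Classical in
/-- the group elements -/
noncomputable def OneB_g (q M e : ℕ) (E : Finset ℕ) (idx : E → Fin e) (L' : ℕ) (gK : ℕ → ZMod M)
    (j d : ℕ) : Multiplicative (ZMod M) × (Fin e → Multiplicative (ZMod q)) :=
  if h : j ∈ E then (1, Pi.mulSingle (idx ⟨j, h⟩) (Multiplicative.ofAdd ((d : ℕ) : ZMod q)))
  else if j < L' then (Multiplicative.ofAdd (d • gK j), 1) else 1

theorem base_struct (q M e : ℕ) (hq : 2 ≤ q) [NeZero M] {ε : ℝ} (hε : 0 < ε) :
    ∃ N0 : ℕ, ∀ N ≥ N0, ∀ (E : Finset ℕ), E.card ≤ e → ∀ (L' s : ℕ) (gK : ℕ → ZMod M)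
      (Θ : ℕ → ZMod M),
      ‖∑ n ∈ Icc 1 N, mc n * ee (Θ (∑ K ∈ E, (n + s) / q ^ K % q * q ^ K) +
        ∑ K ∈ range L' \ E, ((n + s) / q ^ K % q) • gK K)‖ ≤ ε * N := by
  classical
  have : NeZero q := ⟨by omega⟩
  obtain ⟨N0, hN0⟩ := PS.main_complex
    (Multiplicative (ZMod M) × (Fin e → Multiplicative (ZMod q))) q hε
  refine ⟨N0, fun N hN E hE L' s gK Θ => ?_⟩
  set idx : E → Fin e := fun K => Fin.castLE hE (E.equivFin K) with hidx
  have hinj : Function.Injective idx := fun a b h => by
    have h1 := Fin.castLE_injective hE h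
    exact E.equivFin.injective h1
  set g := OneB_g q M e E idx L' gK with hg
  set L := max L' (E.sup id + 1) with hL
  have hEL : ∀ K ∈ E, K < L := fun K hK => by
    have h1 : K ≤ E.sup id := Finset.le_sup (f := id) hK
    exact lt_of_le_of_lt h1 (lt_of_lt_of_le (Nat.lt_succ_self _) (le_max_right _ _))
  set F : Multiplicative (ZMod M) × (Fin e → Multiplicative (ZMod q)) → ℂ := fun x =>
    ee (Θ (∑ K ∈ E.attach, (Multiplicative.toAdd (x.2 (idx K))).val * q ^ (K : ℕ)) +
      Multiplicative.toAdd x.1) with hF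
  have key := hN0 N hN (fun _ => q) (fun _ => ⟨hq, le_rfl⟩) g L s F
    (fun x => le_of_eq (OneB_norm _))
  have e1 : ∀ n, F (PB.hw (fun _ => q) g 0 L n) =
      ee (Θ (∑ K ∈ E, n / q ^ K % q * q ^ K) + ∑ K ∈ range L' \ E, (n / q ^ K % q) • gK K) := by
    intro n
    rw [OneB_hw]
    have h2 : ∀ K : E, (∏ j ∈ range L, g j (n / q ^ j % q)).2 (idx K) =
        Multiplicative.ofAdd (((n / q ^ (K : ℕ) % q : ℕ) : ZMod q)) := by
      intro K
      rw [Prod.snd_prod, Finset.prod_apply]
      rw [Finset.prod_eq_single (K : ℕ)]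
      · rw [hg]
        unfold OneB_g
        rw [dif_pos K.2]
        simp
      · intro j _ hj
        rw [hg]
        unfold OneB_g
        split_ifs with h1 h2
        · show (Pi.mulSingle (idx ⟨j, h1⟩) _ : Fin e → Multiplicative (ZMod q)) (idx K) = 1
          refine Pi.mulSingle_eq_of_ne ?_ _
          intro h3
          have h4 := hinj h3
          apply hj
          rw [h4]
        · rfl
        · rfl
      · intro h1
        exact absurd (mem_range.2 (hEL _ K.2)) h1
    have h1 : Multiplicative.toAdd (∏ j ∈ range L, g j (n / q ^ j % q)).1 =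
        ∑ K ∈ range L' \ E, (n / q ^ K % q) • gK K := by
      rw [Prod.fst_prod, toAdd_prod]
      have hsub : range L' \ E ⊆ range L := by
        intro K hK
        rw [mem_sdiff, mem_range] at hK
        exact mem_range.2 (lt_of_lt_of_le hK.1 (le_max_left _ _))
      rw [← Finset.sum_subset hsub]
      · refine sum_congr rfl fun K hK => ?_
        rw [mem_sdiff, mem_range] at hK
        rw [hg]
        unfold OneB_g
        rw [dif_neg hK.2, if_pos hK.1]
        rfl
      · intro K _ hK
        rw [mem_sdiff, mem_range] at hK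
        rw [hg]
        unfold OneB_g
        split_ifs with h3 h4
        · rfl
        · exact absurd ⟨h4, h3⟩ hK
        · rfl
    rw [hF]
    simp only
    rw [h1]
    congr 2
    congr 1
    rw [← Finset.sum_attach E (fun K => n / q ^ K % q * q ^ K)]
    refine sum_congr rfl fun K _ => ?_
    rw [h2 K, toAdd_ofAdd, ZMod.val_natCast_of_lt (Nat.mod_lt _ (by omega))]
  have e2 : ∑ n ∈ Icc 1 N, mc n * ee (Θ (∑ K ∈ E, (n + s) / q ^ K % q * q ^ K) +
        ∑ K ∈ range L' \ E, ((n + s) / q ^ K % q) • gK K) =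
      ∑ n ∈ Icc 1 N, ((ArithmeticFunction.moebius n : ℤ) : ℂ) *
        F (PB.hw (fun _ => q) g 0 L (n + s)) := by
    refine sum_congr rfl fun n _ => ?_
    rw [e1 (n + s)]
    rfl
  rw [e2]
  exact key

end Pool.Agent.Lib.MP_3e612f_nt.PI
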