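import Pool.Agent.Lib.MP_3e612f_nt.PI.Defs

/-!
Structure of functions most of whose digits are linear.

`loc_mod`, `ph_mod`: the windows `i < L` only read digits below `L + D`.

PROOF of `one_struct`: induction over the digits. Switching off the digit `d = n / q^K % q` of `n` at
`K ∉ E`, `K < L'`: apply `hE` to `n - i q^K`, `i = d, d-1, …, 1` (the digit at `K` is `i - 1 ≠ q - 1`),
`h n = h (n - d q^K) + d • gK K`. After switching off all digits outside `E` below `L'`, and the
digits `≥ L'` (`hign`), the number `∑_{K ∈ E, K < L'} (n / q^K % q) q^K` remains.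
-/

set_option autoImplicit false

namespace Pool.Agent.Lib.MP_3e612f_nt.PI

open Finset

variable {G : Type} [AddCommGroup G]

private theorem OneS_wd {q : ℕ} (_ : 2 ≤ q) {D L i n : ℕ} (hi : i < L) :
    wd q D i n = wd q D i (n % q ^ (L + D)) := by
  unfold wd
  have h1 : q ^ (L + D) = q ^ i * q ^ (L + D - i) := by
    rw [← pow_add]
    congr 1
    omega
  rw [h1, Nat.mod_mul_right_div_self, Nat.mod_mod_of_dvd _ (pow_dvd_pow q (by omega))]

theorem loc_mod {q : ℕ} (hq : 2 ≤ q) (D L : ℕ) (c : ℕ → ℕ → G) (n : ℕ) :
    loc q D L c n = loc q D L c (n % q ^ (L + D)) := by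
  unfold loc
  refine Finset.sum_congr rfl fun i hi => ?_
  rw [OneS_wd hq (Finset.mem_range.1 hi)]

theorem ph_mod {q : ℕ} (hq : 2 ≤ q) (D L : ℕ) (F : ℕ → ℕ → ℕ → ℕ → G) (n : ℕ) :
    ph q D L F n = ph q D L F (n % q ^ (L + D)) := by
  unfold ph
  refine Finset.sum_congr rfl fun i hi => Finset.sum_congr rfl fun j hj => ?_
  rw [OneS_wd hq (Finset.mem_range.1 hi), OneS_wd hq (Finset.mem_range.1 hj)]

theorem one_struct {q : ℕ} (hq : 2 ≤ q) (h : ℕ → G) (L' : ℕ) (hign : ∀ n, h n = h (n % q ^ L'))
    (E : Finset ℕ) (gK : ℕ → G)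
    (hE : ∀ K < L', K ∉ E → ∀ N : ℕ, N / q ^ K % q ≠ q - 1 → h (N + q ^ K) - h N = gK K) (n : ℕ) :
    h n = h (∑ K ∈ E.filter (· < L'), n / q ^ K % q * q ^ K) +
      ∑ K ∈ range L' \ E, (n / q ^ K % q) • gK K := by
  have hqp : ∀ M : ℕ, 0 < q ^ M := fun M => pow_pos (by omega) M
  have hid : ∀ M : ℕ, n % q ^ M = ∑ K ∈ range M, n / q ^ K % q * q ^ K := by
    intro M
    induction M with
    | zero => simp [Nat.mod_one]
    | succ M ih =>
      rw [Finset.sum_range_succ, ← ih, Nat.mod_pow_succ, mul_comm (n / q ^ M % q)]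
  have hlow : ∀ M : ℕ, ∑ K ∈ E.filter (· < M), n / q ^ K % q * q ^ K < q ^ M := by
    intro M
    have h1 : ∑ K ∈ E.filter (· < M), n / q ^ K % q * q ^ K ≤
        ∑ K ∈ range M, n / q ^ K % q * q ^ K :=
      Finset.sum_le_sum_of_subset (fun K hK => Finset.mem_range.2 (Finset.mem_filter.1 hK).2)
    rw [← hid] at h1
    exact lt_of_le_of_lt h1 (Nat.mod_lt _ (hqp M))
  have hstep : ∀ M < L', M ∉ E → ∀ H low : ℕ, low < q ^ M → ∀ d : ℕ, d < q →
      h ((H * q + d) * q ^ M + low) = h (H * q * q ^ M + low) + d • gK M := by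
    intro M hM hME H low hlw d
    induction d with
    | zero => intro _; simp
    | succ d ih =>
      intro hd
      have h1 := ih (by omega)
      have h2 := hE M hM hME ((H * q + d) * q ^ M + low) (by
        rw [Nat.add_comm, Nat.add_mul_div_right _ _ (hqp M), Nat.div_eq_of_lt hlw, Nat.zero_add,
          Nat.add_comm, Nat.add_mul_mod_self_right, Nat.mod_eq_of_lt (by omega)]
        omega)
      have h3 : (H * q + (d + 1)) * q ^ M + low = (H * q + d) * q ^ M + low + q ^ M := by ring
      rw [h3, eq_add_of_sub_eq h2, h1, succ_nsmul]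
      abel
  have hmain : ∀ M : ℕ, M ≤ L' → ∀ H : ℕ, h (H * q ^ M + n % q ^ M) =
      h (H * q ^ M + ∑ K ∈ E.filter (· < M), n / q ^ K % q * q ^ K) +
        ∑ K ∈ range M \ E, (n / q ^ K % q) • gK K := by
    intro M
    induction M with
    | zero =>
      intro _ H
      simp [Nat.mod_one]
    | succ M ih =>
      intro hM H
      have e1 : H * q ^ (M + 1) + n % q ^ (M + 1) = (H * q + n / q ^ M % q) * q ^ M + n % q ^ M := by
        rw [Nat.mod_pow_succ, pow_succ]
        ring
      rw [e1, ih (by omega) (H * q + n / q ^ M % q)]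
      by_cases hME : M ∈ E
      · have e2 : E.filter (· < M + 1) = insert M (E.filter (· < M)) := by
          ext K
          simp only [Finset.mem_filter, Finset.mem_insert]
          constructor
          · rintro ⟨h1, h2⟩
            rcases Nat.lt_succ_iff_lt_or_eq.1 h2 with h3 | h3
            · exact Or.inr ⟨h1, h3⟩
            · exact Or.inl h3
          · rintro (h1 | ⟨h1, h2⟩)
            · subst h1
              exact ⟨hME, Nat.lt_succ_self _⟩
            · exact ⟨h1, by omega⟩
        have e3 : range (M + 1) \ E = range M \ E := by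
          ext K
          simp only [Finset.mem_sdiff, Finset.mem_range]
          constructor
          · rintro ⟨h1, h2⟩
            refine ⟨?_, h2⟩
            rcases Nat.lt_succ_iff_lt_or_eq.1 h1 with h3 | h3
            · exact h3
            · subst h3
              exact absurd hME h2
          · rintro ⟨h1, h2⟩
            exact ⟨by omega, h2⟩
        rw [e2, e3, Finset.sum_insert (by simp)]
        congr 2
        rw [pow_succ]
        ring
      · have e2 : E.filter (· < M + 1) = E.filter (· < M) := by
          ext K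
          simp only [Finset.mem_filter]
          constructor
          · rintro ⟨h1, h2⟩
            refine ⟨h1, ?_⟩
            rcases Nat.lt_succ_iff_lt_or_eq.1 h2 with h3 | h3
            · exact h3
            · subst h3
              exact absurd h1 hME
          · rintro ⟨h1, h2⟩
            exact ⟨h1, by omega⟩
        have e3 : range (M + 1) \ E = insert M (range M \ E) := by
          ext K
          simp only [Finset.mem_sdiff, Finset.mem_range, Finset.mem_insert]
          constructor
          · rintro ⟨h1, h2⟩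
            rcases Nat.lt_succ_iff_lt_or_eq.1 h1 with h3 | h3
            · exact Or.inr ⟨h3, h2⟩
            · exact Or.inl h3
          · rintro (h1 | ⟨h1, h2⟩)
            · subst h1
              exact ⟨Nat.lt_succ_self _, hME⟩
            · exact ⟨by omega, h2⟩
        rw [e2, e3, Finset.sum_insert (by simp), hstep M (by omega) hME H _ (hlow M) _
          (Nat.mod_lt _ (by omega)), pow_succ, mul_assoc H q, mul_comm q (q ^ M), add_assoc]
  have h1 := hmain L' le_rfl 0
  rw [hign n]
  simpa using h1

end Pool.Agent.Lib.MP_3e612f_nt.PI
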