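import Pool.Agent.Lib.MP_3e612f_nt.PI.Corr
import Pool.Agent.Lib.MP_3e612f_nt.PI.OneA
import Pool.Agent.Lib.MP_3e612f_nt.PI.OneB
import Pool.Agent.Lib.MP_3e612f_nt.PI.OneS
import Pool.Agent.Lib.MP_3e612f_nt.PI.ExK
import Pool.Agent.Lib.MP_3e612f_nt.PI.GadA
import Pool.Agent.Lib.MP_3e612f_nt.PI.Blk

/-!
Phases without interactions are orthogonal to the Moebius function, uniformly.

PROOF of `one_dich`. Choose `b` with `2 p r`, `2 p q^D`, `2 r q^D ≤ q^b`, `H = q^(b+3D+3)`, and
`g, l, z0, x0` from `exists_gad` with `l ≥ b + 2D + 1`; `W = g + l`; `θ` from `corr_bad M q W`; `k` with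
`θ^k ≤ δ/4`; `w` from `exists_K` with `δ/8`. For `N` large let `K` be as in `exists_K`; `K + 1 ≥ W`
because `q^K1 ≥ N` is large and `K ≥ K1 - w`; `P = K + 1 - W`. Call a position `a < P` bad if
`dv (loc …) η (a, lam) ≠ 0` for some `lam < H`.
CASE 1: there are `k` bad positions pairwise at distance `≥ W`. By `corr_bad` and `block_sum`
(`Q = q^K`, `τ = θ^k`), for `N' ≤ N`: `‖∑‖ ≤ θ^k (N'+1) + 2 q^K ≤ (δ/4) (2N) + 2 (δ/8) N ≤ δ N`.
CASE 2: otherwise there are fewer than `W k` bad positions (`OneD_greedy`). Let `t1 = g + b + D`,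
`L' = K1 + 1 + D`, and let `E` be the set of `i < L'` such that `i < t1`, or `i - t1` is bad, or
`i - t1 ≥ P`: at most `t1 + W k + (w + W + D)` elements. For `i < L'`, `i ∉ E`, `good_digit` gives
`gK i`; apply `one_struct` (with `hign` from `loc_mod`) and `base_struct` with `Θ` = the function
itself (the sum over `E.filter (· < L')` is the sum over `E`).
-/

set_option autoImplicit false

namespace Pool.Agent.Lib.MP_3e612f_nt.PI

open Finset

/-- a set with at least `W * k` elements contains `k` elements pairwise at distance `≥ W` -/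
theorem OneD_greedy {W : ℕ} (hW : 1 ≤ W) : ∀ (k : ℕ) (S : Finset ℕ), W * k ≤ S.card →
    ∃ o : Fin k → ℕ, (∀ i, o i ∈ S) ∧ ∀ i j, i ≠ j → o i + W ≤ o j ∨ o j + W ≤ o i := by
  intro k
  induction k with
  | zero =>
    intro S _
    exact ⟨fun i => i.elim0, fun i => i.elim0, fun i => i.elim0⟩
  | succ k ih =>
    intro S hS
    have hne : S.Nonempty := by
      rw [← card_pos]
      have : 1 * 1 ≤ W * (k + 1) := Nat.mul_le_mul hW (by omega)
      omega
    have hcard : W * k ≤ (S.filter (fun x => x + W ≤ S.max' hne)).card := by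
      have h1 : (S.filter (fun x => ¬ (x + W ≤ S.max' hne))).card ≤ W := by
        have h2 : S.filter (fun x => ¬ (x + W ≤ S.max' hne)) ⊆
            Ico (S.max' hne + 1 - W) (S.max' hne + 1) := by
          intro x hx
          rw [mem_filter] at hx
          have := S.le_max' x hx.1
          rw [mem_Ico]
          omega
        refine (card_le_card h2).trans ?_
        rw [Nat.card_Ico]
        omega
      have h3 := card_filter_add_card_filter_not (s := S) (fun x => x + W ≤ S.max' hne)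
      have h4 : W * (k + 1) = W * k + W := by ring
      omega
    obtain ⟨o, ho, hd⟩ := ih _ hcard
    refine ⟨Fin.cons (S.max' hne) o, ?_, ?_⟩
    · intro i
      refine Fin.cases ?_ (fun i => ?_) i
      · simpa using S.max'_mem hne
      · simpa using (mem_filter.1 (ho i)).1
    · intro i j
      refine Fin.cases ?_ (fun i => ?_) i
      · refine Fin.cases ?_ (fun j => ?_) j
        · intro h; exact absurd rfl h
        · intro _
          right
          simpa using (mem_filter.1 (ho j)).2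
      · refine Fin.cases ?_ (fun j => ?_) j
        · intro _
          left
          simpa using (mem_filter.1 (ho i)).2
        · intro h
          simpa using hd i j (fun h' => h (by rw [h']))

theorem OneD_norm_ee {m : ℕ} [NeZero m] (x : ZMod m) : ‖ee x‖ ≤ 1 := by
  unfold ee
  exact le_of_eq (AddChar.norm_apply _ _)

theorem one_dich (q D M p r : ℕ) [NeZero M] (hq : 2 ≤ q) (hp : p.Prime) (hr : r.Prime)
    (hqp : q < p) (hpr : p < r) (η : ℤ) {δ ε : ℝ} (hδ : 0 < δ) (hε : 0 < ε) :
    ∃ N0 : ℕ, ∀ N ≥ N0, ∀ (K1 s : ℕ) (c : ℕ → ℕ → ZMod M), N ≤ q ^ K1 → q ^ K1 ≤ q * N →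
      (∀ N' ≤ N, ‖∑ n ∈ Icc 1 N', ee (Phi (loc q D (K1 + 1) c) η p r s n)‖ ≤ δ * N) ∨
      ‖∑ n ∈ Icc 1 N, mc n * ee (loc q D (K1 + 1) c (n + s))‖ ≤ ε * N := by
  classical
  have hpr' : p.Coprime r := (Nat.coprime_primes hp hr).2 hpr.ne
  have cop : ∀ t : ℕ, t.Prime → q < t → t.Coprime q := by
    intro t ht hqt
    rw [Nat.Prime.coprime_iff_not_dvd ht]
    intro hd
    have := Nat.le_of_dvd (by omega) hd
    omega
  have hpq : p.Coprime q := cop p hp hqp
  have hrq : r.Coprime q := cop r hr (by omega)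
  have hp0 : 0 < p := hp.pos
  have hr0 : 0 < r := hr.pos
  obtain ⟨b, hb⟩ : ∃ b, b = 2 * p * r + 2 * p * q ^ D + 2 * r * q ^ D := ⟨_, rfl⟩
  have hbq : b < q ^ b := Nat.lt_pow_self hq
  have hb1 : 2 * p * r ≤ q ^ b := by omega
  have hb2 : 2 * p * q ^ D ≤ q ^ b := by omega
  have hb3 : 2 * r * q ^ D ≤ q ^ b := by omega
  clear hb hbq
  obtain ⟨g, l, z0, x0, hl, hDl, hG⟩ :=
    exists_gad hq hpq hrq hp0 hr0 D (q ^ (b + 3 * D + 3)) (b + 2 * D + 1)
  obtain ⟨H, hH⟩ : ∃ H, H = q ^ (b + 3 * D + 3) := ⟨_, rfl⟩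
  rw [← hH] at hG
  obtain ⟨W, hW⟩ : ∃ W, g + l = W := ⟨_, rfl⟩
  have hW1 : 1 ≤ W := by omega
  obtain ⟨θ, hθ0, hθ1, hcorr⟩ := corr_bad M q W hq hW1
  obtain ⟨k, hk⟩ : ∃ k : ℕ, θ ^ k < δ / 4 := exists_pow_lt_of_lt_one (by positivity) hθ1
  obtain ⟨w, N1, hK⟩ := exists_K q hq (show 0 < δ / 8 by positivity)
  obtain ⟨N2, hN2⟩ := base_struct q M ((g + b + D) + W * k + (w + D + W)) hq hε
  refine ⟨max (max N1 N2) (q ^ (W + w)), fun N hN K1 s c hNK hKN => ?_⟩
  have hN1' : N1 ≤ N := le_trans (le_trans (le_max_left _ _) (le_max_left _ _)) hN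
  have hN2' : N2 ≤ N := le_trans (le_trans (le_max_right _ _) (le_max_left _ _)) hN
  have hN3' : q ^ (W + w) ≤ N := le_trans (le_max_right _ _) hN
  have hNpos : 1 ≤ N := le_trans (Nat.one_le_pow _ _ (by omega)) hN3'
  obtain ⟨K, hK0, hK1w⟩ := hK N hN1' K1 hKN
  have hKW : W + w ≤ K1 := (Nat.pow_le_pow_iff_right (by omega)).1 (le_trans hN3' hNK)
  obtain ⟨P, hP⟩ : ∃ P, P = K + 1 - W := ⟨_, rfl⟩
  have hPW : P + W ≤ K + 1 := by omega
  -- bad positions
  let bad : ℕ → Prop := fun a =>
    ∃ lam, lam < H ∧ dv q D g l z0 x0 s p r (loc q D (K1 + 1) c) η (a, lam) ≠ 0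
  by_cases hcase : W * k ≤ ((range P).filter bad).card
  · -- many bad positions
    left
    obtain ⟨o, ho, hdist⟩ := OneD_greedy hW1 k _ hcase
    have ho' : ∀ i, o i < P ∧ bad (o i) := by
      intro i
      have := mem_filter.1 (ho i)
      exact ⟨mem_range.1 this.1, this.2⟩
    choose lam hlam hdv using fun i => (ho' i).2
    have hc := hcorr D g l H p r z0 x0 hW hDl hG (K1 + 1) s c η K P k (fun i => (o i, lam i)) hPW
      (fun i => ⟨(ho' i).1, hlam i⟩) hdist hdv
    intro N' hN'
    have hb := block_sum (fun n => ee (Phi (loc q D (K1 + 1) c) η p r s n))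
      (fun n => OneD_norm_ee _) (Q := q ^ K) (Nat.one_le_pow _ _ (by omega)) (τ := θ ^ k)
      (pow_nonneg hθ0 k) (fun u => by
        have := hc u
        push_cast
        exact this) N'
    refine hb.trans ?_
    have e1 : (N' : ℝ) ≤ N := by exact_mod_cast hN'
    have e2 : (1 : ℝ) ≤ N := by exact_mod_cast hNpos
    have e3 : θ ^ k * ((N' : ℝ) + 1) ≤ δ / 4 * (2 * N) :=
      mul_le_mul hk.le (by linarith) (by positivity) (by positivity)
    have e4 : 2 * ((q ^ K : ℕ) : ℝ) ≤ 2 * (δ / 8 * N) := by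
      push_cast
      linarith
    nlinarith
  · -- few bad positions
    right
    rw [not_le] at hcase
    obtain ⟨t1, ht1⟩ : ∃ t1, t1 = g + b + D := ⟨_, rfl⟩
    let E : Finset ℕ := (range (K1 + 1 + D)).filter (fun i => i < t1 ∨ bad (i - t1) ∨ P ≤ i - t1)
    have hEcard : E.card ≤ (g + b + D) + W * k + (w + D + W) := by
      have hsub : E ⊆ range t1 ∪ ((range P).filter bad).image (fun a => a + t1) ∪
          Ico (P + t1) (K1 + 1 + D) := by
        intro i hi
        have h1 := mem_filter.1 hi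
        have h2 := mem_range.1 h1.1
        rw [mem_union, mem_union, mem_range, mem_image, mem_Ico]
        by_cases h3 : i < t1
        · exact Or.inl (Or.inl h3)
        · by_cases h4 : P ≤ i - t1
          · exact Or.inr ⟨by omega, h2⟩
          · have h5 : bad (i - t1) := by
              rcases h1.2 with h | h | h
              · exact absurd h h3
              · exact h
              · exact absurd h h4
            refine Or.inl (Or.inr ⟨i - t1, mem_filter.2 ⟨mem_range.2 (by omega), h5⟩, by omega⟩)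
      refine (card_le_card hsub).trans ((card_union_le _ _).trans ?_)
      have h6 := card_union_le (range t1) (((range P).filter bad).image (fun a => a + t1))
      have h7 : (((range P).filter bad).image (fun a => a + t1)).card ≤ _ := card_image_le
      rw [card_range] at h6
      rw [Nat.card_Ico]
      omega
    have hgood : ∀ i, i < K1 + 1 + D → i ∉ E → ∃ gK : ZMod M, ∀ N : ℕ, N / q ^ i % q ≠ q - 1 →
        loc q D (K1 + 1) c (N + q ^ i) - loc q D (K1 + 1) c N = gK := by
      intro i hi hiE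
      have h1 : ¬ (i < t1 ∨ bad (i - t1) ∨ P ≤ i - t1) := fun h =>
        hiE (mem_filter.2 ⟨mem_range.2 hi, h⟩)
      push Not at h1
      obtain ⟨h2, h3, h4⟩ := h1
      have h5 : ∀ lam < H,
          dv q D g l z0 x0 s p r (loc q D (K1 + 1) c) η (i - t1, lam) = 0 := by
        intro lam hlam
        by_contra hne
        exact h3 ⟨lam, hlam, hne⟩
      have h6 := good_digit hq hp hpq hpr' hr0 hb1 hb2 hb3 hH.ge hl hG (K1 + 1) s c η h5
      have h7 : i - t1 + g + b + D = i := by omega
      rw [h7] at h6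
      exact h6
    let gK : ℕ → ZMod M := fun i =>
      if h : i < K1 + 1 + D ∧ i ∉ E then (hgood i h.1 h.2).choose else 0
    have hgK : ∀ i < K1 + 1 + D, i ∉ E → ∀ N : ℕ, N / q ^ i % q ≠ q - 1 →
        loc q D (K1 + 1) c (N + q ^ i) - loc q D (K1 + 1) c N = gK i := by
      intro i hi hiE N hN
      have h1 : gK i = (hgood i hi hiE).choose := dif_pos ⟨hi, hiE⟩
      rw [h1]
      exact (hgood i hi hiE).choose_spec N hN
    have hstr := one_struct hq (loc q D (K1 + 1) c) (K1 + 1 + D)
      (fun n => loc_mod hq D (K1 + 1) c n) E gK hgK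
    have hEf : E.filter (· < K1 + 1 + D) = E := by
      rw [filter_eq_self]
      intro i hi
      exact mem_range.1 (mem_filter.1 hi).1
    rw [hEf] at hstr
    have hfin := hN2 N hN2' E hEcard (K1 + 1 + D) s gK (loc q D (K1 + 1) c)
    have heq : ∀ n ∈ Icc 1 N, mc n * ee (loc q D (K1 + 1) c (n + s)) =
        mc n * ee (loc q D (K1 + 1) c (∑ K ∈ E, (n + s) / q ^ K % q * q ^ K) +
          ∑ K ∈ range (K1 + 1 + D) \ E, ((n + s) / q ^ K % q) • gK K) := by
      intro n _
      rw [← hstr (n + s)]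
    rw [sum_congr rfl heq]
    exact hfin

end Pool.Agent.Lib.MP_3e612f_nt.PI
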